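import Mathlib.Data.Fintype.Basic
import Mathlib.Data.Fintype.BigOperators
import Mathlib.Data.Int.Basic
import Mathlib.Order.Fin.Basic
import Mathlib.Order.Fin.SuccAboveOrderIso
import Mathlib.Tactic.Ring
import Mathlib.Tactic.Linarith

/-!
Combinatorial state machine for type 0 ties (all lines tight), position based.
Lines `0, ..., n-1` are sorted by angle, `v l` is the sign of the line `l` at the tie.
Gap position `r` is the direction between line `r` and line `r + 1` (after the last line for `r = n - 1`).
-/

namespace KK

variable {n : ℕ}

/-- sign of line `l` in the direction of position `r` -/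
def sg (v : Fin n → Bool) (r l : Fin n) : Bool := if l ≤ r then !(v l) else v l

/-- the order in which the lines follow after position `r` -/
def rel (r l : Fin n) : ℕ := if r < l then l.val - r.val - 1 else l.val + n - r.val - 1

/-- `a` and `b` are the first and the last line of `S` after position `r` -/
def Walls (S : Finset (Fin n)) (r a b : Fin n) : Prop :=
  a ∈ S ∧ b ∈ S ∧ ∀ x ∈ S, rel r a ≤ rel r x ∧ rel r x ≤ rel r b

/-- line `l` is strictly between the walls -/
def inner (r a b l : Fin n) : Bool := decide (rel r a < rel r l) && decide (rel r l < rel r b)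

/-- bit written into the side which is cut by an inner far line -/
def pbit (v : Fin n → Bool) (r a b l : Fin n) : Bool := (sg v r a == sg v r b) && (sg v r l != sg v r a)

/-- the other wall of the new gap when `l` is not strictly between the walls -/
def oth (r a b l : Fin n) : Fin n := if rel r l < rel r a then b else a

/-- correction bit when `l` is not strictly between the walls -/
def ebit (v : Fin n → Bool) (r a b l : Fin n) : Bool :=
  (sg v r a != sg v r b) && (sg v r l == sg v r (oth r a b l))

/-- first of the two new states of position `r` after the insertion of the far line `l` -/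
def upA (v : Fin n → Bool) (r a b l : Fin n) (x : Bool × Bool) : Bool × Bool :=
  if inner r a b l then (pbit v r a b l, x.2) else (xor x.1 (ebit v r a b l), false)

/-- second of the two new states -/
def upB (v : Fin n → Bool) (r a b l : Fin n) (x : Bool × Bool) : Bool × Bool :=
  if inner r a b l then (x.1, pbit v r a b l) else (false, xor x.2 (ebit v r a b l))

/-- the bad event -/
def bad (v : Fin n → Bool) (r a b l : Fin n) (x : Bool × Bool) : Bool :=
  if inner r a b l then (x.1 == x.2) && (x.1 != pbit v r a b l)
  else (x.1 == x.2) && (x.1 != ebit v r a b l)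

/-- number of lines of `S` with sign `s` at position `r` -/
def cnt (v : Fin n → Bool) (S : Finset (Fin n)) (r : Fin n) (s : Bool) : ℕ :=
  (S.filter (fun j => sg v r j = s)).card

/-- contribution of the gap `r` to the gain, given its two bits -/
def gainT (v : Fin n → Bool) (S : Finset (Fin n)) (r a b l : Fin n) (x : Bool × Bool) : ℤ :=
  if inner r a b l then
    (if bad v r a b l x then -(2 : ℤ) ^ cnt v S r (sg v r l) else (2 : ℤ) ^ cnt v S r (!(sg v r l)))
  else -((2 : ℤ) ^ cnt v S r true + 2 ^ cnt v S r false) * (if bad v r a b l x then 2 else 1)

/-- Abstract configurations (the data of the far lines): `good S ω` means that `ω` is a good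
configuration on the set of lines `S`; `ins S ω l s` inserts the line `l` very far on the side `s`. -/
structure Cfg (n : ℕ) where
  Om : Type
  good : Finset (Fin n) → Om → Prop
  ins : Finset (Fin n) → Om → Fin n → Bool → Om
  om0 : Om
  good0 : good ∅ om0
  goodS : ∀ S w l s, good S w → l ∉ S → good (insert l S) (ins S w l s)

/-- The abstract machine of a type 0 sign vector. -/
structure Mach (K : Cfg n) (v : Fin n → Bool) where
  D : Finset (Fin n) → K.Om → ℤ
  bits : Finset (Fin n) → K.Om → Fin n → Bool × Bool
  start : ∀ S w, S.card = 2 → K.good S w → D S w = 18 ∧ ∀ r, bits S w r = (false, false)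
  stepB : ∀ S w l, 2 ≤ S.card → K.good S w → l ∉ S → ∀ r a b, Walls S r a b → ∀ f : Bool × Bool → ℤ,
    f (bits (insert l S) (K.ins S w l true) r) + f (bits (insert l S) (K.ins S w l false) r)
      = f (upA v r a b l (bits S w r)) + f (upB v r a b l (bits S w r))
  stepD : ∀ S w l, 2 ≤ S.card → K.good S w → l ∉ S → ∀ a : Fin n → Fin n, (∀ r ∈ S, Walls S r (a r) r) →
    D (insert l S) (K.ins S w l true) + D (insert l S) (K.ins S w l false)
      = 3 * D S w + 6 * ∑ r ∈ S, gainT v S r (a r) r l (bits S w r)
  same : ∀ S w, 2 ≤ S.card → K.good S w → ∀ r r' a b, Walls S r a b → Walls S r' a b →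
    bits S w r' = bits S w r ∨ bits S w r' = (bits S w r).swap

/-- sum over both sides of the far line `l` -/
def two (K : Cfg n) (S : Finset (Fin n)) (l : Fin n) (F : K.Om → ℤ) : K.Om → ℤ :=
  fun w => F (K.ins S w l true) + F (K.ins S w l false)

/-- expectation (times the mass) over all sides for a given order; the head of the list is the outermost line -/
def EO (K : Cfg n) : List (Fin n) → (K.Om → ℤ) → ℤ
  | [], F => F K.om0
  | l :: o, F => EO K o (two K o.toFinset l F)

/-- the 12 orders of the innermost six lines (outermost first) -/
def core6 : List (List (Fin 6)) :=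
  (List.finRange 6).flatMap fun k => [[5 + k, 2 + k, 4 + k, 3 + k, 1 + k, k], [2 + k, 4 + k, 5 + k, 3 + k, 1 + k, k]]

/-- the orders of the law on `n` lines: innermost six lines as in `core6`, all other lines uniform -/
def ords : (n : ℕ) → List (List (Fin n))
  | 0 => []
  | n + 1 => if h : n + 1 = 6 then core6.map (fun o => o.map (Fin.cast h.symm))
      else (List.finRange (n + 1)).flatMap fun l => (ords n).map fun o => l :: o.map l.succAbove

/-- the law -/
def EL (K : Cfg n) (F : K.Om → ℤ) : ℤ := ((ords n).map fun o => EO K o F).sum

end KK
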