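import Mathlib
import Pool.Agent.KK.Mach

/-!
Local combinatorics of a tie for planar Gale vectors (all lines tight, or the tight lines of a
tie with one free line).  Lines are elements of `Fin n`, sorted by angle; `v l` is the sign of the
line `l` at the tie.  A signed order is a list of pairs (line, sign), OUTERMOST LINE FIRST.
-/

namespace Pool.Agent.KK

open Finset
open _root_.KK (sg rel Walls inner pbit oth ebit upA upB bad cnt gainT)

variable {n : ℕ}

/-- `br v i j` says that the determinant of the signed vectors `b i`, `b j` is positive -/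
def br (v : Fin n → Bool) (i j : Fin n) : Bool := decide (i ≠ j) && (sg v i j == v i)

/-- parity of the number of members of the list `S` with `f` true -/
def xs (S : List (Fin n)) (f : Fin n → Bool) : Bool := S.foldr (fun j a => xor (f j) a) false

/-- off `j` the vector `ξ` is the sign vector of a direction of line `j` -/
def hit (v : Fin n → Bool) (S : List (Fin n)) (j : Fin n) (b : Bool) (ξ : Fin n → Bool) : Bool :=
  S.all fun k => decide (k = j) || (ξ k == xor (sg v j k) b)

/-- parity of the number of corners on the far line `l` (sign `x`) seen by `ξ` -/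
def nu (c : Fin n → Fin n → Bool) (v : Fin n → Bool) (S : List (Fin n)) (l : Fin n) (x : Bool)
    (ξ : Fin n → Bool) : Bool :=
  xs S fun j => c l j && hit v S j (xor (sg v j l) (!x)) ξ

/-- sum of the two values of `nu` -/
def nub (c : Fin n → Fin n → Bool) (v : Fin n → Bool) (S : List (Fin n)) (l : Fin n)
    (ξ : Fin n → Bool) : Bool :=
  xor (nu c v S l true ξ) (nu c v S l false ξ)

/-- parity of the number of corners `ij` of the region `ξ` with `c i j` -/
def pi (c : Fin n → Fin n → Bool) (v : Fin n → Bool) : List (Fin n × Bool) → (Fin n → Bool) → Bool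
  | [], _ => false
  | (l, x) :: L, ξ => xor ((ξ l == x) && pi c v L ξ) (nu c v (L.map Prod.fst) l x ξ)

/-- opposite sign vector -/
def neg (ξ : Fin n → Bool) : Fin n → Bool := fun i => !(ξ i)

/-- sign vector of a set -/
def ind (Z : Finset (Fin n)) : Fin n → Bool := fun i => decide (i ∈ Z)

/-- lines of a signed order as a finset -/
def lines (L : List (Fin n × Bool)) : Finset (Fin n) := (L.map Prod.fst).toFinset

/-- weighted number of sign vectors with odd value -/
def O (c : Fin n → Fin n → Bool) (v : Fin n → Bool) (L : List (Fin n × Bool)) : ℤ :=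
  ∑ Z ∈ (lines L).powerset, 2 ^ Z.card * (if xor (pi c v L (ind Z)) (pi c v L (neg (ind Z)))
    then 1 else 0)

/-- weighted number of bad sign vectors for the next line `l` -/
def Bad (c : Fin n → Fin n → Bool) (v : Fin n → Bool) (L : List (Fin n × Bool)) (l : Fin n) : ℤ :=
  ∑ Z ∈ (lines L).powerset, 2 ^ Z.card * (if (pi c v L (ind Z) == pi c v L (neg (ind Z))) &&
    xor (pi c v L (ind Z)) (nub c v (L.map Prod.fst) l (ind Z)) then 1 else 0)

/-- the signed vectors in `Z` span the plane positively -/
def Span (v : Fin n → Bool) (Z : Finset (Fin n)) : Prop :=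
  Z.Nonempty ∧ ∀ i ∈ Z, ∃ j ∈ Z, br v j i = true

instance (v : Fin n → Bool) (Z : Finset (Fin n)) : Decidable (Span v Z) := by
  unfold Span; infer_instance

/-- number of non spanning subsets of `S` which become spanning with `l` -/
def sp (v : Fin n → Bool) (S : Finset (Fin n)) (l : Fin n) : ℤ :=
  ((S.powerset.filter fun Z => ¬ Span v Z ∧ Span v (insert l Z)).card : ℤ)

/-- number of faces below the tie for which the tie is optimal -/
def W (v : Fin n → Bool) : List (Fin n × Bool) → ℤ
  | [] => 1
  | (l, x) :: L => W v L + (if x then W v L - 1 + sp v (lines L) l else 0)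

/-- opposite signs -/
def flip (L : List (Fin n × Bool)) : List (Fin n × Bool) := L.map fun p => (p.1, !p.2)

/-- local defect of a tie (times nine) -/
def D (c : Fin n → Fin n → Bool) (v : Fin n → Bool) (L : List (Fin n × Bool)) : ℤ :=
  9 * (W v L + W v (flip L)) - O c v L

end Pool.Agent.KK
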