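import Mathlib
import Pool.Agent.KK.T0

/-!
Algebra of the insertion of an outermost line, and the gap patterns.
-/

namespace Pool.Agent.KK

open Finset
open _root_.KK (sg rel Walls inner pbit oth ebit upA upB bad cnt gainT)

variable {n : ℕ} {c : Fin n → Fin n → Bool} {v : Fin n → Bool}

/-! ### elementary facts -/

@[simp] lemma neg_apply (ξ : Fin n → Bool) (i : Fin n) : neg ξ i = !(ξ i) := rfl

@[simp] lemma neg_neg' (ξ : Fin n → Bool) : neg (neg ξ) = ξ := by
  funext i; simp [neg]

@[simp] lemma ind_apply (Z : Finset (Fin n)) (i : Fin n) : ind Z i = decide (i ∈ Z) := rfl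

@[simp] lemma xs_nil (f : Fin n → Bool) : xs [] f = false := rfl

@[simp] lemma xs_cons (j : Fin n) (S : List (Fin n)) (f : Fin n → Bool) :
    xs (j :: S) f = xor (f j) (xs S f) := rfl

lemma xs_congr {S : List (Fin n)} {f g : Fin n → Bool} (h : ∀ j ∈ S, f j = g j) :
    xs S f = xs S g := by
  induction S with
  | nil => rfl
  | cons a S ih =>
    rw [xs_cons, xs_cons, h a (by simp), ih fun j hj => h j (by simp [hj])]

lemma xs_xor (S : List (Fin n)) (f g : Fin n → Bool) :
    xs S (fun j => xor (f j) (g j)) = xor (xs S f) (xs S g) := by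
  induction S with
  | nil => rfl
  | cons a S ih =>
    simp only [xs_cons, ih]
    cases f a <;> cases g a <;> cases xs S f <;> cases xs S g <;> rfl

lemma xs_false {S : List (Fin n)} {f : Fin n → Bool} (h : ∀ j ∈ S, f j = false) :
    xs S f = false := by
  induction S with
  | nil => rfl
  | cons a S ih =>
    rw [xs_cons, h a (by simp), ih fun j hj => h j (by simp [hj])]; rfl

lemma exists_of_xs {S : List (Fin n)} {f : Fin n → Bool} (h : xs S f = true) :
    ∃ j ∈ S, f j = true := by
  by_contra hc
  push Not at hc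
  have := xs_false (S := S) (f := f) fun j hj => by simpa using hc j hj
  rw [this] at h; exact absurd h (by simp)

/-- a parity sum with a single nonzero term -/
lemma xs_single {S : List (Fin n)} (hS : S.Nodup) {a : Fin n} (ha : a ∈ S) {f : Fin n → Bool}
    (h : ∀ j ∈ S, j ≠ a → f j = false) : xs S f = f a := by
  induction S with
  | nil => simp at ha
  | cons b S ih =>
    rw [List.nodup_cons] at hS
    rw [xs_cons]
    by_cases hb : b = a
    · subst hb
      rw [xs_false (S := S) fun j hj => h j (by simp [hj]) (by rintro rfl; exact hS.1 hj)]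
      simp
    · rw [h b (by simp) hb, ih hS.2 (by simpa [Ne.symm hb] using ha)
        fun j hj hja => h j (by simp [hj]) hja]
      simp

/-- a parity sum with two nonzero terms -/
lemma xs_pair {S : List (Fin n)} (hS : S.Nodup) {a b : Fin n} (ha : a ∈ S) (hb : b ∈ S)
    (hab : a ≠ b) {f : Fin n → Bool} (h : ∀ j ∈ S, j ≠ a → j ≠ b → f j = false) :
    xs S f = xor (f a) (f b) := by
  have e : xs S f = xor (xs S fun j => f j && decide (j = a)) (xs S fun j => f j && !decide (j = a)) := by
    rw [← xs_xor]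
    refine xs_congr fun j _ => ?_
    cases f j <;> cases decide (j = a) <;> rfl
  rw [e, xs_single hS ha (f := fun j => f j && decide (j = a)) (by intro j _ hj; simp [hj]),
    xs_single hS hb (f := fun j => f j && !decide (j = a))
      (by
        intro j hj hjb
        by_cases hja : j = a
        · simp [hja]
        · simp [h j hj hja hjb])]
  simp [Ne.symm hab]

lemma hit_iff {S : List (Fin n)} {j : Fin n} {b : Bool} {ξ : Fin n → Bool} :
    hit v S j b ξ = true ↔ ∀ k ∈ S, k ≠ j → ξ k = xor (sg v j k) b := by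
  unfold hit
  rw [List.all_eq_true]
  constructor
  · intro h k hk hkj
    simpa [hkj] using h k hk
  · intro h k hk
    by_cases hkj : k = j
    · simp [hkj]
    · simp [hkj, h k hk hkj]

lemma hit_congr {S : List (Fin n)} {j : Fin n} {b : Bool} {ξ ξ' : Fin n → Bool}
    (h : ∀ k ∈ S, ξ k = ξ' k) : hit v S j b ξ = hit v S j b ξ' := by
  rw [Bool.eq_iff_iff, hit_iff, hit_iff]
  constructor
  · intro g k hk hkj; rw [← h k hk]; exact g k hk hkj
  · intro g k hk hkj; rw [h k hk]; exact g k hk hkj

lemma hit_neg {S : List (Fin n)} {j : Fin n} {b : Bool} {ξ : Fin n → Bool} :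
    hit v S j b (neg ξ) = hit v S j (!b) ξ := by
  rw [Bool.eq_iff_iff, hit_iff, hit_iff]
  refine forall_congr' fun k => forall_congr' fun _ => forall_congr' fun _ => ?_
  simp only [neg_apply]
  cases ξ k <;> cases sg v j k <;> cases b <;> decide

lemma nu_congr {S : List (Fin n)} {l : Fin n} {x : Bool} {ξ ξ' : Fin n → Bool}
    (h : ∀ k ∈ S, ξ k = ξ' k) : nu c v S l x ξ = nu c v S l x ξ' := by
  unfold nu
  exact xs_congr fun j _ => by rw [hit_congr h]

lemma nu_neg {S : List (Fin n)} {l : Fin n} {x : Bool} {ξ : Fin n → Bool} :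
    nu c v S l x (neg ξ) = nu c v S l (!x) ξ := by
  unfold nu
  refine xs_congr fun j _ => ?_
  rw [hit_neg]
  congr 2
  cases sg v j l <;> cases x <;> rfl

lemma nub_congr {S : List (Fin n)} {l : Fin n} {ξ ξ' : Fin n → Bool}
    (h : ∀ k ∈ S, ξ k = ξ' k) : nub c v S l ξ = nub c v S l ξ' := by
  unfold nub; rw [nu_congr h, nu_congr h]

lemma nub_neg {S : List (Fin n)} {l : Fin n} {ξ : Fin n → Bool} :
    nub c v S l (neg ξ) = nub c v S l ξ := by
  unfold nub; rw [nu_neg, nu_neg, Bool.not_true, Bool.not_false, Bool.xor_comm]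

lemma pi_cons (l : Fin n) (x : Bool) (L : List (Fin n × Bool)) (ξ : Fin n → Bool) :
    pi c v ((l, x) :: L) ξ = xor ((ξ l == x) && pi c v L ξ) (nu c v (L.map Prod.fst) l x ξ) := rfl

lemma pi_congr {L : List (Fin n × Bool)} {ξ ξ' : Fin n → Bool}
    (h : ∀ k ∈ L.map Prod.fst, ξ k = ξ' k) : pi c v L ξ = pi c v L ξ' := by
  induction L with
  | nil => rfl
  | cons p L ih =>
    obtain ⟨l, x⟩ := p
    simp only [List.map_cons, List.mem_cons, forall_eq_or_imp] at h
    simp only [pi]
    rw [ih h.2, nu_congr h.2, h.1]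

@[simp] lemma lines_cons (l : Fin n) (x : Bool) (L : List (Fin n × Bool)) :
    lines ((l, x) :: L) = insert l (lines L) := by
  simp [lines]

@[simp] lemma lines_nil : lines ([] : List (Fin n × Bool)) = ∅ := rfl

lemma mem_lines {L : List (Fin n × Bool)} {k : Fin n} : k ∈ lines L ↔ k ∈ L.map Prod.fst := by
  simp [lines]

@[simp] lemma flip_cons (l : Fin n) (x : Bool) (L : List (Fin n × Bool)) :
    flip ((l, x) :: L) = (l, !x) :: flip L := rfl

@[simp] lemma lines_flip (L : List (Fin n × Bool)) : lines (flip L) = lines L := by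
  unfold lines flip; rw [List.map_map]; rfl

/-! ### insertion of the outermost line -/

lemma W_add (L : List (Fin n × Bool)) (l : Fin n) :
    W v ((l, true) :: L) + W v ((l, false) :: L) = 3 * W v L - 1 + sp v (lines L) l := by
  simp [W]; ring

lemma W_add_flip (L : List (Fin n × Bool)) (l : Fin n) :
    W v (flip ((l, true) :: L)) + W v (flip ((l, false) :: L)) =
      3 * W v (flip L) - 1 + sp v (lines L) l := by
  simp [W]; ring

lemma O_add (L : List (Fin n × Bool)) (l : Fin n) (hl : l ∉ lines L) :
    O c v ((l, true) :: L) + O c v ((l, false) :: L) = 3 * O c v L + 6 * Bad c v L l := by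
  unfold O Bad
  rw [lines_cons, lines_cons, Finset.sum_powerset_insert hl, Finset.sum_powerset_insert hl,
    Finset.mul_sum, Finset.mul_sum, ← Finset.sum_add_distrib, ← Finset.sum_add_distrib,
    ← Finset.sum_add_distrib, ← Finset.sum_add_distrib]
  refine Finset.sum_congr rfl fun Z hZ => ?_
  rw [Finset.mem_powerset] at hZ
  have hlZ : l ∉ Z := fun h => hl (hZ h)
  have h1 : ∀ k ∈ L.map Prod.fst, ind (insert l Z) k = ind Z k := by
    intro k hk
    have : k ≠ l := by rintro rfl; exact hl (mem_lines.2 hk)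
    simp [this]
  have h2 : ∀ k ∈ L.map Prod.fst, neg (ind (insert l Z)) k = neg (ind Z) k := by
    intro k hk; rw [neg_apply, neg_apply, h1 k hk]
  have e1 : ∀ x, pi c v ((l, x) :: L) (ind Z) =
      xor ((false == x) && pi c v L (ind Z)) (nu c v (L.map Prod.fst) l x (ind Z)) := by
    intro x; rw [pi_cons]; simp [hlZ]
  have e2 : ∀ x, pi c v ((l, x) :: L) (neg (ind Z)) =
      xor ((true == x) && pi c v L (neg (ind Z))) (nu c v (L.map Prod.fst) l (!x) (ind Z)) := by
    intro x; rw [pi_cons, nu_neg]; simp [hlZ]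
  have e3 : ∀ x, pi c v ((l, x) :: L) (ind (insert l Z)) =
      xor ((true == x) && pi c v L (ind Z)) (nu c v (L.map Prod.fst) l x (ind Z)) := by
    intro x; rw [pi_cons, pi_congr h1, nu_congr h1]; simp
  have e4 : ∀ x, pi c v ((l, x) :: L) (neg (ind (insert l Z))) =
      xor ((false == x) && pi c v L (neg (ind Z))) (nu c v (L.map Prod.fst) l (!x) (ind Z)) := by
    intro x; rw [pi_cons, pi_congr h2, nu_congr h2, nu_neg]; simp
  rw [Finset.card_insert_of_notMem hlZ]
  have hn : nub c v (L.map Prod.fst) l (ind Z) = xor (nu c v (L.map Prod.fst) l true (ind Z))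
    (nu c v (L.map Prod.fst) l false (ind Z)) := rfl
  cases ha : pi c v L (ind Z) <;> cases hb : pi c v L (neg (ind Z)) <;>
    cases hc : nu c v (L.map Prod.fst) l true (ind Z) <;>
    cases hd : nu c v (L.map Prod.fst) l false (ind Z) <;>
    simp [e1, e2, e3, e4, hn, ha, hb, hc, hd] <;> ring

theorem D_add (L : List (Fin n × Bool)) (l : Fin n) (hl : l ∉ lines L) :
    D c v ((l, true) :: L) + D c v ((l, false) :: L) =
      3 * D c v L + 18 * (sp v (lines L) l - 1) - 6 * Bad c v L l := by
  have h1 := W_add (v := v) L l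
  have h2 := W_add_flip (v := v) L l
  have h3 := O_add (c := c) (v := v) L l hl
  unfold D
  linear_combination 9 * h1 + 9 * h2 - h3

end Pool.Agent.KK
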