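import Mathlib
import Pool.Agent.KK.T0A

/-!
Gap patterns: the hits at a gap pattern, and the update of the bits.
-/

namespace Pool.Agent.KK

open Finset
open _root_.KK (sg rel Walls inner pbit oth ebit upA upB bad cnt gainT)

variable {n : ℕ} {c : Fin n → Fin n → Bool} {v : Fin n → Bool}

lemma rel_inj {r k l : Fin n} (h : rel r k = rel r l) : k = l := by
  unfold rel at h
  have hk := k.isLt; have hl := l.isLt; have hr := r.isLt
  apply Fin.ext
  simp only [Fin.lt_def] at h
  split_ifs at h <;> omega

/-- the two walls are unique -/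
lemma walls_unique {S : Finset (Fin n)} {r a b a' b' : Fin n} (h : Walls S r a b)
    (h' : Walls S r a' b') : a = a' ∧ b = b' := by
  obtain ⟨ha, hb, h1⟩ := h
  obtain ⟨ha', hb', h2⟩ := h'
  exact ⟨rel_inj (le_antisymm (h1 a' ha').1 (h2 a ha).1),
    rel_inj (le_antisymm (h2 b hb).2 (h1 b' hb').2)⟩

lemma sg_xor (v : Fin n → Bool) (r j k : Fin n) :
    xor (sg v r k) (sg v j k) = xor (decide (k ≤ r)) (decide (k ≤ j)) := by
  unfold sg
  split_ifs with h1 h2 h2 <;> simp [h1, h2]

/-- sign at the wall `b` before the gap -/
lemma sg_last {S : Finset (Fin n)} {r a b k : Fin n} (h : Walls S r a b) (hk : k ∈ S) :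
    sg v r k = xor (sg v b k) (decide (r < b)) := by
  have h1 := h.2.2 k hk
  have h2 : xor (sg v r k) (sg v b k) = decide (r < b) := by
    rw [sg_xor]
    have hk' := k.isLt; have hr := r.isLt; have hb := b.isLt
    unfold rel at h1
    simp only [Fin.lt_def, Fin.le_def] at h1 ⊢
    by_cases c1 : k.val ≤ r.val <;> by_cases c2 : k.val ≤ b.val <;>
      by_cases c3 : r.val < b.val <;> simp [c1, c2, c3] <;> (split_ifs at h1 <;> omega)
  rw [← h2]
  cases sg v r k <;> cases sg v b k <;> rfl

/-- sign at the wall `a` after the gap -/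
lemma sg_first {S : Finset (Fin n)} {r a b k : Fin n} (h : Walls S r a b) (hk : k ∈ S)
    (hka : k ≠ a) : sg v r k = xor (sg v a k) (decide (a ≤ r)) := by
  have h1 := h.2.2 k hk
  have h2 : xor (sg v r k) (sg v a k) = decide (a ≤ r) := by
    rw [sg_xor]
    have hk' := k.isLt; have hr := r.isLt; have ha := a.isLt
    have hne : k.val ≠ a.val := fun e => hka (Fin.ext e)
    unfold rel at h1
    simp only [Fin.lt_def, Fin.le_def] at h1 ⊢
    by_cases c1 : k.val ≤ r.val <;> by_cases c2 : k.val ≤ a.val <;>
      by_cases c3 : a.val ≤ r.val <;> simp [c1, c2, c3] <;> (split_ifs at h1 <;> omega)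
  rw [← h2]
  cases sg v r k <;> cases sg v a k <;> rfl

/-- hits at a gap pattern -/
lemma hit_gap {S : List (Fin n)} {r a b j : Fin n} (h : Walls S.toFinset r a b) (hab : a ≠ b)
    (hj : j ∈ S) (t : Bool) :
    hit v S j t (sg v r) = ((decide (j = b) && (t == decide (r < b))) ||
      (decide (j = a) && (t == decide (a ≤ r)))) := by
  have ha : a ∈ S := List.mem_toFinset.1 h.1
  have hb : b ∈ S := List.mem_toFinset.1 h.2.1
  by_cases hjb : j = b
  · subst hjb
    rw [Bool.eq_iff_iff, hit_iff]
    simp only [decide_true, Bool.true_and, Ne.symm hab, decide_false, Bool.false_and, Bool.or_false,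
      beq_iff_eq]
    constructor
    · intro g
      have h1 := g a ha hab
      rw [sg_last h (List.mem_toFinset.2 ha)] at h1
      have := congrArg (xor (sg v j a)) h1
      simpa using this.symm
    · rintro rfl k hk _
      exact sg_last h (List.mem_toFinset.2 hk)
  by_cases hja : j = a
  · subst hja
    rw [Bool.eq_iff_iff, hit_iff]
    simp only [decide_true, Bool.true_and, hab, decide_false, Bool.false_and, Bool.false_or,
      beq_iff_eq]
    constructor
    · intro g
      have h1 := g b hb hab.symm
      rw [sg_first h (List.mem_toFinset.2 hb) hab.symm] at h1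
      have := congrArg (xor (sg v j b)) h1
      simpa using this.symm
    · rintro rfl k hk hkj
      exact sg_first h (List.mem_toFinset.2 hk) hkj
  simp only [hjb, hja, decide_false, Bool.false_and, Bool.or_false]
  by_contra hc
  rw [Bool.not_eq_false, hit_iff] at hc
  have h1 := hc a ha (Ne.symm hja)
  have h2 := hc b hb (Ne.symm hjb)
  have h3 : xor (sg v r a) (sg v j a) = xor (sg v r b) (sg v j b) := by
    rw [h1, h2]
    cases sg v j a <;> cases sg v j b <;> cases t <;> rfl
  rw [sg_xor, sg_xor] at h3
  have hh := h.2.2 j (List.mem_toFinset.2 hj)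
  have hj' := j.isLt; have hr := r.isLt; have ha' := a.isLt; have hb' := b.isLt
  have n1 : j.val ≠ a.val := fun e => hja (Fin.ext e)
  have n2 : j.val ≠ b.val := fun e => hjb (Fin.ext e)
  unfold rel at hh
  simp only [Fin.lt_def, Fin.le_def] at hh h3
  by_cases c1 : a.val ≤ r.val <;> by_cases c2 : a.val ≤ j.val <;>
      by_cases c3 : b.val ≤ r.val <;> by_cases c4 : b.val ≤ j.val <;> simp [c1, c2, c3, c4] at h3 <;>
      (split_ifs at hh <;> omega)

/-- the sign of a line `l` in the direction of the last wall, on the side of the gap -/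
lemma sB_eq (v : Fin n → Bool) {r b l : Fin n} (hl : l ≠ b) :
    xor (sg v b l) (decide (r < b)) = xor (sg v r l) (decide (rel r b < rel r l)) := by
  have h1 : xor (sg v r l) (sg v b l) = xor (decide (r < b)) (decide (rel r b < rel r l)) := by
    rw [sg_xor]
    have hl' := l.isLt; have hr := r.isLt; have hb := b.isLt
    have hne : l.val ≠ b.val := fun e => hl (Fin.ext e)
    unfold rel
    simp only [Fin.lt_def, Fin.le_def]
    by_cases c1 : l.val ≤ r.val <;> by_cases c2 : l.val ≤ b.val <;>
      by_cases c3 : r.val < b.val <;> by_cases c4 : r.val < l.val <;> simp [c1, c2, c3, c4] <;> omega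
  revert h1
  cases sg v r l <;> cases sg v b l <;> cases decide (r < b) <;>
    cases decide (rel r b < rel r l) <;> decide

/-- the sign of a line `l` in the direction of the first wall, on the side of the gap -/
lemma sA_eq (v : Fin n → Bool) {r a l : Fin n} (hl : l ≠ a) :
    xor (sg v a l) (decide (a ≤ r)) = xor (sg v r l) (decide (rel r l < rel r a)) := by
  have h1 : xor (sg v r l) (sg v a l) = xor (decide (a ≤ r)) (decide (rel r l < rel r a)) := by
    rw [sg_xor]
    have hl' := l.isLt; have hr := r.isLt; have ha := a.isLt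
    have hne : l.val ≠ a.val := fun e => hl (Fin.ext e)
    unfold rel
    simp only [Fin.lt_def, Fin.le_def]
    by_cases c1 : l.val ≤ r.val <;> by_cases c2 : l.val ≤ a.val <;>
      by_cases c3 : r.val < a.val <;> by_cases c4 : r.val < l.val <;> by_cases c5 : a.val ≤ r.val <;>
      simp [c1, c2, c3, c4, c5] <;> omega
  revert h1
  cases sg v r l <;> cases sg v a l <;> cases decide (a ≤ r) <;>
    cases decide (rel r l < rel r a) <;> decide

/-- value of `nu` at a gap pattern -/
lemma nu_gap {S : List (Fin n)} (hS : S.Nodup) {r a b l : Fin n} (h : Walls S.toFinset r a b)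
    (hab : a ≠ b) (hl : l ∉ S) (x : Bool) :
    nu c v S l x (sg v r) =
      xor (c l b && (xor (sg v r l) (decide (rel r b < rel r l)) == !x))
        (c l a && (xor (sg v r l) (decide (rel r l < rel r a)) == !x)) := by
  have ha : a ∈ S := List.mem_toFinset.1 h.1
  have hb : b ∈ S := List.mem_toFinset.1 h.2.1
  have hlb : l ≠ b := by rintro rfl; exact hl hb
  have hla : l ≠ a := by rintro rfl; exact hl ha
  unfold nu
  rw [xs_pair hS hb ha (Ne.symm hab)]
  · rw [hit_gap h hab hb, hit_gap h hab ha]
    simp only [decide_true, Bool.true_and, Ne.symm hab, hab, decide_false, Bool.false_and,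
      Bool.or_false, Bool.false_or]
    rw [← sB_eq v hlb, ← sA_eq v hla]
    congr 2
    · cases sg v b l <;> cases x <;> cases decide (r < b) <;> rfl
    · cases sg v a l <;> cases x <;> cases decide (a ≤ r) <;> rfl
  · intro j hj hjb hja
    rw [hit_gap h hab hj]
    simp [hjb, hja]

/-- hypothesis on `c`: symmetric, with the alternating cocycle -/
structure Coc (c : Fin n → Fin n → Bool) (v : Fin n → Bool) : Prop where
  symm : ∀ i j, c i j = c j i
  alt : ∀ i j k, i < j → j < k →
    xor (c i j) (xor (c j k) (c i k)) = ((v i != v j) && (v j != v k))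

/-- the cocycle in the order of the lines after the position `r` -/
lemma Coc.rel (hc : Coc c v) {r i j k : Fin n} (h1 : rel r i < rel r j) (h2 : rel r j < rel r k) :
    xor (c i j) (xor (c j k) (c i k)) =
      ((sg v r i != sg v r j) && (sg v r j != sg v r k)) := by
  have hi := i.isLt; have hj := j.isLt; have hk := k.isLt; have hr := r.isLt
  unfold _root_.KK.rel at h1 h2
  unfold sg
  simp only [Fin.lt_def, Fin.le_def] at h1 h2 ⊢
  by_cases ci : r.val < i.val <;> by_cases cj : r.val < j.val <;> by_cases ck : r.val < k.val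
  all_goals simp only [ci, cj, ck, if_true, if_false] at h1 h2
  all_goals first
    | (exfalso; omega)
    | skip
  · rw [hc.alt i j k (by simp only [Fin.lt_def]; omega) (by simp only [Fin.lt_def]; omega)]
    simp [Nat.not_le.2 ci, Nat.not_le.2 cj, Nat.not_le.2 ck]
  · have := hc.alt k i j (by simp only [Fin.lt_def]; omega) (by simp only [Fin.lt_def]; omega)
    rw [hc.symm k i, hc.symm k j] at this
    simp only [Nat.not_le.2 ci, Nat.not_le.2 cj, Nat.not_lt.1 ck, if_true, if_false]
    revert this
    cases c i j <;> cases c j k <;> cases c i k <;> cases v i <;> cases v j <;> cases v k <;> decide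
  · have := hc.alt j k i (by simp only [Fin.lt_def]; omega) (by simp only [Fin.lt_def]; omega)
    rw [hc.symm j i, hc.symm k i] at this
    simp only [Nat.not_le.2 ci, Nat.not_lt.1 cj, Nat.not_lt.1 ck, if_true, if_false]
    revert this
    cases c i j <;> cases c j k <;> cases c i k <;> cases v i <;> cases v j <;> cases v k <;> decide
  · have := hc.alt i j k (by simp only [Fin.lt_def]; omega) (by simp only [Fin.lt_def]; omega)
    simp only [Nat.not_lt.1 ci, Nat.not_lt.1 cj, Nat.not_lt.1 ck, if_true]
    revert this
    cases c i j <;> cases c j k <;> cases c i k <;> cases v i <;> cases v j <;> cases v k <;> decide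

end Pool.Agent.KK
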