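import Mathlib
import Pool.Agent.KK.T0B

/-!
The bits of a gap, their update, and the sum of the bad weights.
-/

namespace Pool.Agent.KK

open Finset
open _root_.KK (sg rel Walls pbit oth ebit upA upB bad cnt gainT)

variable {n : ℕ} {c : Fin n → Fin n → Bool} {v : Fin n → Bool}

/-- the two bits of the gap at `r` with walls `a`, `b` -/
def bt (c : Fin n → Fin n → Bool) (v : Fin n → Bool) (L : List (Fin n × Bool)) (r a b : Fin n) :
    Bool × Bool :=
  (xor (pi c v L (sg v r)) (c a b), xor (pi c v L (neg (sg v r))) (c a b))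

lemma rel_lt_of_wall {S : Finset (Fin n)} {r a b : Fin n} (h : Walls S r a b) (hab : a ≠ b) :
    rel r a < rel r b :=
  lt_of_le_of_ne (h.2.2 a h.1).2 fun e => hab (rel_inj e)

/-- walls after the insertion of an inner line -/
lemma walls_inner {S : Finset (Fin n)} {r a b l : Fin n} (h : Walls S r a b)
    (hin : _root_.KK.inner r a b l = true) : Walls (insert l S) r a b := by
  unfold _root_.KK.inner at hin
  rw [Bool.and_eq_true, decide_eq_true_iff, decide_eq_true_iff] at hin
  refine ⟨Finset.mem_insert_of_mem h.1, Finset.mem_insert_of_mem h.2.1, fun x hx => ?_⟩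
  rcases Finset.mem_insert.1 hx with rfl | hx
  · exact ⟨hin.1.le, hin.2.le⟩
  · exact h.2.2 x hx

lemma walls_before {S : Finset (Fin n)} {r a b l : Fin n} (h : Walls S r a b)
    (hlt : rel r l < rel r a) : Walls (insert l S) r l b := by
  refine ⟨Finset.mem_insert_self _ _, Finset.mem_insert_of_mem h.2.1, fun x hx => ?_⟩
  rcases Finset.mem_insert.1 hx with rfl | hx
  · exact ⟨le_rfl, hlt.le.trans (h.2.2 b h.2.1).1⟩
  · exact ⟨hlt.le.trans (h.2.2 x hx).1, (h.2.2 x hx).2⟩

lemma walls_after {S : Finset (Fin n)} {r a b l : Fin n} (h : Walls S r a b)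
    (hlt : rel r b < rel r l) : Walls (insert l S) r a l := by
  refine ⟨Finset.mem_insert_of_mem h.1, Finset.mem_insert_self _ _, fun x hx => ?_⟩
  rcases Finset.mem_insert.1 hx with rfl | hx
  · exact ⟨(h.2.2 b h.2.1).1.trans hlt.le, le_rfl⟩
  · exact ⟨(h.2.2 x hx).1, (h.2.2 x hx).2.trans hlt.le⟩

variable {L : List (Fin n × Bool)} {S : Finset (Fin n)} {r a b l : Fin n}

lemma nu_gap' (hL : (L.map Prod.fst).Nodup) (h : Walls (lines L) r a b)
    (hab : a ≠ b) (hl : l ∉ lines L) (x : Bool) :
    nu c v (L.map Prod.fst) l x (sg v r) =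
      xor (c l b && (xor (sg v r l) (decide (rel r b < rel r l)) == !x))
        (c l a && (xor (sg v r l) (decide (rel r l < rel r a)) == !x)) :=
  nu_gap hL h hab (fun hh => hl (mem_lines.2 hh)) x

/-- update of the bits, inner line -/
lemma bt_inner (hc : Coc c v) (hL : (L.map Prod.fst).Nodup) (h : Walls (lines L) r a b)
    (hab : a ≠ b) (hl : l ∉ lines L) (hin : _root_.KK.inner r a b l = true) (x : Bool) :
    bt c v ((l, x) :: L) r a b = if sg v r l = x then ((bt c v L r a b).1, pbit v r a b l)
      else (pbit v r a b l, (bt c v L r a b).2) := by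
  have hin' := hin
  unfold _root_.KK.inner at hin'
  rw [Bool.and_eq_true, decide_eq_true_iff, decide_eq_true_iff] at hin'
  have h1 : ¬ rel r b < rel r l := by omega
  have h2 : ¬ rel r l < rel r a := by omega
  have hT := hc.rel hin'.1 hin'.2
  unfold bt
  rw [pi_cons, pi_cons, nu_neg, nu_gap' hL h hab hl, nu_gap' hL h hab hl]
  simp only [h1, h2, decide_false, Bool.xor_false, neg_apply]
  rw [hc.symm l a] at *
  unfold pbit
  revert hT
  generalize c a l = p1
  generalize c l b = p2
  generalize c a b = p3
  generalize pi c v L (sg v r) = A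
  generalize pi c v L (neg (sg v r)) = B
  generalize sg v r a = s1
  generalize sg v r b = s2
  generalize sg v r l = s3
  revert p1 p2 p3 A B s1 s2 s3 x
  decide

/-- update of the bits, line before the first wall -/
lemma bt_before (hc : Coc c v) (hL : (L.map Prod.fst).Nodup) (h : Walls (lines L) r a b)
    (hab : a ≠ b) (hl : l ∉ lines L) (hlt : rel r l < rel r a) (x : Bool) :
    bt c v ((l, x) :: L) r l b = if sg v r l = x then
        (xor (bt c v L r a b).1 (ebit v r a b l), false)
      else (false, xor (bt c v L r a b).2 (ebit v r a b l)) := by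
  have hab' := rel_lt_of_wall h hab
  have h1 : ¬ rel r b < rel r l := by omega
  have hT := hc.rel hlt hab'
  unfold bt
  rw [pi_cons, pi_cons, nu_neg, nu_gap' hL h hab hl, nu_gap' hL h hab hl]
  unfold ebit oth
  simp only [h1, hlt, decide_false, decide_true, Bool.xor_false, neg_apply, if_true]
  revert hT
  generalize c l a = p1
  generalize c l b = p2
  generalize c a b = p3
  generalize pi c v L (sg v r) = A
  generalize pi c v L (neg (sg v r)) = B
  generalize sg v r a = s1
  generalize sg v r b = s2
  generalize sg v r l = s3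
  revert p1 p2 p3 A B s1 s2 s3 x
  decide

/-- update of the bits, line after the last wall -/
lemma bt_after (hc : Coc c v) (hL : (L.map Prod.fst).Nodup) (h : Walls (lines L) r a b)
    (hab : a ≠ b) (hl : l ∉ lines L) (hlt : rel r b < rel r l) (x : Bool) :
    bt c v ((l, x) :: L) r a l = if sg v r l = x then
        (xor (bt c v L r a b).1 (ebit v r a b l), false)
      else (false, xor (bt c v L r a b).2 (ebit v r a b l)) := by
  have hab' := rel_lt_of_wall h hab
  have h1 : ¬ rel r l < rel r a := by omega
  have hT := hc.rel hab' hlt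
  unfold bt
  rw [pi_cons, pi_cons, nu_neg, nu_gap' hL h hab hl, nu_gap' hL h hab hl]
  unfold ebit oth
  simp only [h1, hlt, decide_false, decide_true, Bool.xor_false, neg_apply, if_false]
  rw [hc.symm l a, hc.symm l b]
  revert hT
  generalize c a l = p1
  generalize c b l = p2
  generalize c a b = p3
  generalize pi c v L (sg v r) = A
  generalize pi c v L (neg (sg v r)) = B
  generalize sg v r a = s1
  generalize sg v r b = s2
  generalize sg v r l = s3
  revert p1 p2 p3 A B s1 s2 s3 x
  decide

/-- the bits in terms of the set of lines -/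
lemma bits_step (hc : Coc c v) (hL : (L.map Prod.fst).Nodup) (h : Walls (lines L) r a b)
    (hab : a ≠ b) (hl : l ∉ lines L) {a' b' : Fin n} (h' : Walls (insert l (lines L)) r a' b')
    (f : Bool × Bool → ℤ) :
    f (bt c v ((l, true) :: L) r a' b') + f (bt c v ((l, false) :: L) r a' b') =
      f (upA v r a b l (bt c v L r a b)) + f (upB v r a b l (bt c v L r a b)) := by
  by_cases hin : _root_.KK.inner r a b l = true
  · obtain ⟨rfl, rfl⟩ := walls_unique h' (walls_inner h hin)
    rw [bt_inner hc hL h hab hl hin, bt_inner hc hL h hab hl hin]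
    unfold upA upB
    simp only [hin, if_true]
    cases sg v r l <;> simp [add_comm]
  · have hin0 : _root_.KK.inner r a b l = false := by simpa using hin
    have hla : l ≠ a := by rintro rfl; exact hl h.1
    have hlb : l ≠ b := by rintro rfl; exact hl h.2.1
    have hcase : rel r l < rel r a ∨ rel r b < rel r l := by
      unfold _root_.KK.inner at hin
      rw [Bool.and_eq_true, decide_eq_true_iff, decide_eq_true_iff, not_and_or, not_lt, not_lt] at hin
      rcases hin with h1 | h1
      · exact Or.inl (lt_of_le_of_ne h1 fun e => hla (rel_inj e))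
      · exact Or.inr (lt_of_le_of_ne h1 fun e => hlb (rel_inj e).symm)
    rcases hcase with hlt | hlt
    · obtain ⟨rfl, rfl⟩ := walls_unique h' (walls_before h hlt)
      rw [bt_before hc hL h hab hl hlt, bt_before hc hL h hab hl hlt]
      unfold upA upB
      simp only [hin0, Bool.false_eq_true, if_false]
      cases sg v r a' <;> simp [add_comm]
    · obtain ⟨rfl, rfl⟩ := walls_unique h' (walls_after h hlt)
      rw [bt_after hc hL h hab hl hlt, bt_after hc hL h hab hl hlt]
      unfold upA upB
      simp only [hin0, Bool.false_eq_true, if_false]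
      cases sg v r b' <;> simp [add_comm]

/-! ### gap patterns -/

/-- `ξ` is a gap pattern on `S` -/
def IsGap (v : Fin n → Bool) (S : Finset (Fin n)) (ξ : Fin n → Bool) : Prop :=
  ∃ r t, ∀ k ∈ S, ξ k = xor (sg v r k) t

lemma IsGap.neg {ξ : Fin n → Bool} (h : IsGap v S ξ) : IsGap v S (neg ξ) := by
  obtain ⟨r, t, h⟩ := h
  refine ⟨r, !t, fun k hk => ?_⟩
  rw [neg_apply, h k hk]
  cases sg v r k <;> cases t <;> rfl

lemma isGap_of_neg {ξ : Fin n → Bool} (h : IsGap v S (neg ξ)) : IsGap v S ξ := by
  have := h.neg
  rwa [neg_neg'] at this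

/-- agreement off the line `j` with a direction of `j` gives a gap pattern -/
lemma isGap_of_off {ξ : Fin n → Bool} {j : Fin n} {t : Bool}
    (h : ∀ k ∈ S, k ≠ j → ξ k = xor (sg v j k) t) : IsGap v S ξ := by
  by_cases hj : ξ j = xor (sg v j j) t
  · exact ⟨j, t, fun k hk => by
      by_cases hkj : k = j
      · rw [hkj]; exact hj
      · exact h k hk hkj⟩
  -- the position before `j`
  by_cases h0 : j.val = 0
  · have hn : 0 < n := j.pos
    refine ⟨⟨n - 1, by omega⟩, !t, fun k hk => ?_⟩
    have e1 : sg v ⟨n - 1, by omega⟩ k = !(v k) := by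
      unfold sg
      rw [if_pos]
      rw [Fin.le_def]; have := k.isLt; simp only; omega
    rw [e1]
    by_cases hkj : k = j
    · subst hkj
      have e2 : sg v k k = !(v k) := by unfold sg; rw [if_pos le_rfl]
      rw [e2] at hj
      revert hj
      cases ξ k <;> cases v k <;> cases t <;> decide
    · rw [h k hk hkj]
      have e2 : sg v j k = v k := by
        unfold sg
        rw [if_neg]
        rw [Fin.le_def]
        have : k.val ≠ j.val := fun e => hkj (Fin.ext e)
        omega
      rw [e2]
      cases v k <;> cases t <;> rfl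
  · have hlt : j.val - 1 < n := by have := j.isLt; omega
    refine ⟨⟨j.val - 1, hlt⟩, t, fun k hk => ?_⟩
    by_cases hkj : k = j
    · subst hkj
      have e2 : sg v k k = !(v k) := by unfold sg; rw [if_pos le_rfl]
      have e1 : sg v ⟨k.val - 1, hlt⟩ k = v k := by
        unfold sg
        rw [if_neg]
        rw [Fin.le_def]; simp only; omega
      rw [e2] at hj
      rw [e1]
      revert hj
      cases ξ k <;> cases v k <;> cases t <;> decide
    · rw [h k hk hkj]
      congr 1
      unfold sg
      have : k.val ≠ j.val := fun e => hkj (Fin.ext e)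
      by_cases hh : k ≤ j
      · rw [if_pos hh, if_pos]
        rw [Fin.le_def] at hh ⊢; simp only; omega
      · rw [if_neg hh, if_neg]
        rw [Fin.le_def] at hh ⊢; simp only; omega

lemma isGap_of_hit {T : List (Fin n)} {ξ : Fin n → Bool} {j : Fin n} {t : Bool}
    (h : hit v T j t ξ = true) : IsGap v T.toFinset ξ :=
  isGap_of_off fun k hk hkj => hit_iff.1 h k (List.mem_toFinset.1 hk) hkj

lemma isGap_of_nub {ξ : Fin n → Bool} (h : nub c v (L.map Prod.fst) l ξ = true) :
    IsGap v (lines L) ξ := by
  unfold nub at h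
  have : nu c v (L.map Prod.fst) l true ξ = true ∨ nu c v (L.map Prod.fst) l false ξ = true := by
    revert h
    cases nu c v (L.map Prod.fst) l true ξ <;> cases nu c v (L.map Prod.fst) l false ξ <;> decide
  rcases this with h | h
  all_goals
    obtain ⟨j, _, hj⟩ := exists_of_xs h
    rw [Bool.and_eq_true] at hj
    exact isGap_of_hit hj.2

/-- both values one: gap pattern -/
lemma isGap_of_both {ξ : Fin n → Bool} (h1 : pi c v L ξ = true)
    (h2 : pi c v L (neg ξ) = true) : IsGap v (lines L) ξ := by
  cases L with
  | nil => simp [pi] at h1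
  | cons p L =>
    obtain ⟨l, x⟩ := p
    have key : ∀ ζ : Fin n → Bool, ζ l ≠ x → pi c v ((l, x) :: L) ζ = true →
        IsGap v (lines ((l, x) :: L)) ζ := by
      intro ζ hζ hp
      rw [pi_cons] at hp
      have h0 : (ζ l == x) = false := by simpa using hζ
      rw [h0, Bool.false_and, Bool.false_xor] at hp
      obtain ⟨j, hj, hh⟩ := exists_of_xs hp
      rw [Bool.and_eq_true, hit_iff] at hh
      refine isGap_of_off (j := j) (t := xor (sg v j l) (!x)) fun k hk hkj => ?_
      rw [lines_cons, Finset.mem_insert] at hk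
      rcases hk with rfl | hk
      · revert hζ
        cases ζ k <;> cases x <;> cases sg v j k <;> decide
      · exact hh.2 k (mem_lines.1 hk) hkj
    by_cases hx : ξ l = x
    · refine isGap_of_neg (key (neg ξ) ?_ h2)
      rw [neg_apply, hx]; cases x <;> decide
    · exact key ξ hx h1

end Pool.Agent.KK
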