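import Mathlib
import Pool.Agent.KK.T0Bits

/-!
The type 0 data form a machine in the sense of `Mach.lean`.
-/

namespace Pool.Agent.KK

open Finset
open _root_.KK (sg rel Walls pbit oth ebit upA upB bad cnt gainT Cfg Mach)

variable {n : ℕ} {c : Fin n → Fin n → Bool} {v : Fin n → Bool}

/-- the bad event -/
def ev (c : Fin n → Fin n → Bool) (v : Fin n → Bool) (L : List (Fin n × Bool)) (l : Fin n)
    (ξ : Fin n → Bool) : Bool :=
  (pi c v L ξ == pi c v L (neg ξ)) && xor (pi c v L ξ) (nub c v (L.map Prod.fst) l ξ)

variable {L : List (Fin n × Bool)} {S : Finset (Fin n)} {r a b l : Fin n}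

lemma ev_congr {ξ ξ' : Fin n → Bool} (h : ∀ k ∈ lines L, ξ k = ξ' k) :
    ev c v L l ξ = ev c v L l ξ' := by
  have h1 : ∀ k ∈ L.map Prod.fst, ξ k = ξ' k := fun k hk => h k (mem_lines.2 hk)
  have h2 : ∀ k ∈ L.map Prod.fst, neg ξ k = neg ξ' k := fun k hk => by
    rw [neg_apply, neg_apply, h1 k hk]
  unfold ev
  rw [pi_congr h1, pi_congr h2, nub_congr h1]

lemma ev_neg (ξ : Fin n → Bool) : ev c v L l (neg ξ) = ev c v L l ξ := by
  unfold ev
  rw [neg_neg', nub_neg]
  cases pi c v L ξ <;> cases pi c v L (neg ξ) <;> rfl

lemma ev_gap (hc : Coc c v) (hL : (L.map Prod.fst).Nodup) (h : Walls (lines L) r a b)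
    (hab : a ≠ b) (hl : l ∉ lines L) :
    ev c v L l (sg v r) = bad v r a b l (bt c v L r a b) := by
  have hab' := rel_lt_of_wall h hab
  have hla : l ≠ a := by rintro rfl; exact hl h.1
  have hlb : l ≠ b := by rintro rfl; exact hl h.2.1
  have hn : nub c v (L.map Prod.fst) l (sg v r) = xor (c l a) (c l b) := by
    unfold nub
    rw [nu_gap' hL h hab hl, nu_gap' hL h hab hl]
    cases c l a <;> cases c l b <;> cases sg v r l <;> cases decide (rel r b < rel r l) <;>
      cases decide (rel r l < rel r a) <;> rfl
  unfold ev
  rw [hn]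
  unfold bad bt
  by_cases hin : _root_.KK.inner r a b l = true
  · have hin' := hin
    unfold _root_.KK.inner at hin'
    rw [Bool.and_eq_true, decide_eq_true_iff, decide_eq_true_iff] at hin'
    have hT := hc.rel hin'.1 hin'.2
    rw [if_pos hin]
    unfold pbit
    rw [hc.symm l a]
    revert hT
    generalize c a l = p1
    generalize c l b = p2
    generalize c a b = p3
    generalize pi c v L (sg v r) = A
    generalize pi c v L (neg (sg v r)) = B
    generalize sg v r a = s1
    generalize sg v r b = s2
    generalize sg v r l = s3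
    revert p1 p2 p3 A B s1 s2 s3
    decide
  · rw [if_neg hin]
    have hcase : rel r l < rel r a ∨ rel r b < rel r l := by
      unfold _root_.KK.inner at hin
      rw [Bool.and_eq_true, decide_eq_true_iff, decide_eq_true_iff, not_and_or, not_lt, not_lt] at hin
      rcases hin with h1 | h1
      · exact Or.inl (lt_of_le_of_ne h1 fun e => hla (rel_inj e))
      · exact Or.inr (lt_of_le_of_ne h1 fun e => hlb (rel_inj e).symm)
    rcases hcase with hlt | hlt
    · have hT := hc.rel hlt hab'
      unfold ebit oth
      rw [if_pos hlt]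
      revert hT
      generalize c l a = p1
      generalize c l b = p2
      generalize c a b = p3
      generalize pi c v L (sg v r) = A
      generalize pi c v L (neg (sg v r)) = B
      generalize sg v r a = s1
      generalize sg v r b = s2
      generalize sg v r l = s3
      revert p1 p2 p3 A B s1 s2 s3
      decide
    · have hT := hc.rel hab' hlt
      have h1 : ¬ rel r l < rel r a := by omega
      unfold ebit oth
      rw [if_neg h1, hc.symm l a, hc.symm l b]
      revert hT
      generalize c a l = p1
      generalize c b l = p2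
      generalize c a b = p3
      generalize pi c v L (sg v r) = A
      generalize pi c v L (neg (sg v r)) = B
      generalize sg v r a = s1
      generalize sg v r b = s2
      generalize sg v r l = s3
      revert p1 p2 p3 A B s1 s2 s3
      decide

/-- the set of a gap pattern -/
def Zg (v : Fin n → Bool) (S : Finset (Fin n)) (p : Fin n × Bool) : Finset (Fin n) :=
  S.filter fun k => xor (sg v p.1 k) p.2 = true

lemma ind_Zg (p : Fin n × Bool) {k : Fin n} (hk : k ∈ S) :
    ind (Zg v S p) k = xor (sg v p.1 k) p.2 := by
  unfold Zg ind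
  rw [Bool.eq_iff_iff, decide_eq_true_iff, Finset.mem_filter]
  simp only [hk, true_and]

lemma Zg_inj : Set.InjOn (Zg v S) (S ×ˢ (Finset.univ : Finset Bool) : Finset (Fin n × Bool)) := by
  rintro ⟨r, t⟩ hr ⟨r', t'⟩ hr' he
  simp only [Finset.coe_product, Finset.coe_univ, Set.mem_prod, Finset.mem_coe, Set.mem_univ,
    and_true] at hr hr'
  have key : ∀ k ∈ S, xor (decide (k ≤ r)) (decide (k ≤ r')) = xor t t' := by
    intro k hk
    have h1 := ind_Zg (v := v) (S := S) (r, t) hk
    rw [he, ind_Zg (v := v) (S := S) (r', t') hk] at h1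
    rw [← sg_xor v r r' k]
    revert h1
    simp only
    cases sg v r k <;> cases sg v r' k <;> cases t <;> cases t' <;> decide
  have k1 := key r hr
  have k2 := key r' hr'
  have hrr : r = r' := by
    rcases lt_trichotomy r r' with h | h | h
    · have e1 : decide (r ≤ r') = true := decide_eq_true h.le
      have e2 : decide (r' ≤ r) = false := decide_eq_false (not_le.2 h)
      rw [e1] at k1; rw [e2] at k2
      rw [← k2] at k1
      simp at k1
    · exact h
    · have e1 : decide (r' ≤ r) = true := decide_eq_true h.le
      have e2 : decide (r ≤ r') = false := decide_eq_false (not_le.2 h)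
      rw [e1] at k2; rw [e2] at k1
      rw [← k1] at k2
      simp at k2
  subst hrr
  rw [Bool.xor_self] at k1
  have : t = t' := by
    clear he key k2
    revert k1
    cases t <;> cases t' <;> decide
  rw [this]

lemma card_Zg_false (r : Fin n) : (Zg v S (r, false)).card = cnt v S r true := by
  unfold Zg cnt
  congr 1
  refine Finset.filter_congr fun k _ => ?_
  simp

lemma card_Zg_true (r : Fin n) : (Zg v S (r, true)).card = cnt v S r false := by
  unfold Zg cnt
  congr 1
  refine Finset.filter_congr fun k _ => ?_
  simp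

/-- existence of the walls -/
lemma exists_walls (hS : S.Nonempty) (r : Fin n) : ∃ a b, Walls S r a b := by
  obtain ⟨a, ha, h1⟩ := S.exists_min_image (rel r) hS
  obtain ⟨b, hb, h2⟩ := S.exists_max_image (rel r) hS
  exact ⟨a, b, ha, hb, fun x hx => ⟨h1 x hx, h2 x hx⟩⟩

lemma walls_ne (hS : 2 ≤ S.card) (h : Walls S r a b) : a ≠ b := by
  rintro rfl
  have : S ⊆ {a} := by
    intro x hx
    have := h.2.2 x hx
    rw [Finset.mem_singleton]
    exact rel_inj (le_antisymm this.2 this.1)
  have := Finset.card_le_card this
  rw [Finset.card_singleton] at this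
  omega

theorem Bad_eq (hc : Coc c v) (hL : (L.map Prod.fst).Nodup) (h2 : 2 ≤ (lines L).card)
    (hl : l ∉ lines L) (w : Fin n → Fin n) (hw : ∀ r ∈ lines L, Walls (lines L) r (w r) r) :
    Bad c v L l = ∑ r ∈ lines L, (2 ^ cnt v (lines L) r true + 2 ^ cnt v (lines L) r false) *
      (if bad v r (w r) r l (bt c v L r (w r) r) then 1 else 0) := by
  have hne : (lines L).Nonempty := Finset.card_pos.1 (by omega)
  have e1 : Bad c v L l = ∑ Z ∈ (lines L).powerset, 2 ^ Z.card *
      (if ev c v L l (ind Z) then 1 else 0) := rfl
  rw [e1]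
  have hsub : ((lines L ×ˢ (Finset.univ : Finset Bool)).image (Zg v (lines L))) ⊆
      (lines L).powerset := by
    intro Z hZ
    obtain ⟨p, _, rfl⟩ := Finset.mem_image.1 hZ
    exact Finset.mem_powerset.2 (Finset.filter_subset _ _)
  rw [← Finset.sum_subset hsub]
  · rw [Finset.sum_image Zg_inj, Finset.sum_product]
    refine Finset.sum_congr rfl fun r hr => ?_
    have hb := ev_gap hc hL (hw r hr) (walls_ne h2 (hw r hr)) hl
    have e2 : ev c v L l (ind (Zg v (lines L) (r, false))) = ev c v L l (sg v r) :=
      ev_congr fun k hk => by rw [ind_Zg _ hk]; simp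
    have e3 : ev c v L l (ind (Zg v (lines L) (r, true))) = ev c v L l (sg v r) := by
      rw [← ev_neg (sg v r)]
      exact ev_congr fun k hk => by rw [ind_Zg _ hk]; simp
    rw [Fintype.sum_bool, card_Zg_false, card_Zg_true, e2, e3, hb]
    ring
  · intro Z hZ hZ'
    rw [Finset.mem_powerset] at hZ
    have hng : ¬ IsGap v (lines L) (ind Z) := by
      rintro ⟨r, t, h⟩
      apply hZ'
      obtain ⟨a, b, hab⟩ := exists_walls hne r
      rw [Finset.mem_image]
      refine ⟨(b, xor t (decide (r < b))), ?_, ?_⟩
      · exact Finset.mem_product.2 ⟨hab.2.1, Finset.mem_univ _⟩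
      · ext k
        by_cases hk : k ∈ lines L
        · have h1 := h k hk
          rw [sg_last hab hk] at h1
          unfold Zg
          rw [Finset.mem_filter]
          simp only [hk, true_and]
          rw [ind_apply] at h1
          have : (k ∈ Z) ↔ decide (k ∈ Z) = true := by simp
          rw [this, h1]
          cases sg v b k <;> cases t <;> cases decide (r < b) <;> simp
        · constructor
          · intro h3; exact absurd (Finset.mem_filter.1 h3).1 hk
          · intro h3; exact absurd (hZ h3) hk
    have : ev c v L l (ind Z) = false := by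
      by_contra hcon
      rw [Bool.not_eq_false] at hcon
      unfold ev at hcon
      rw [Bool.and_eq_true, beq_iff_eq] at hcon
      apply hng
      cases h3 : pi c v L (ind Z) with
      | true =>
        refine isGap_of_both h3 ?_
        rw [← hcon.1]; exact h3
      | false =>
        rw [h3, Bool.false_xor] at hcon
        exact isGap_of_nub hcon.2
    rw [this]; simp

/-! ### the configurations and the machine -/

/-- signed lists of lines, outermost line first -/
def KL (n : ℕ) : Cfg n where
  Om := List (Fin n × Bool)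
  good S L := (L.map Prod.fst).Nodup ∧ lines L = S
  ins _ L l s := (l, s) :: L
  om0 := []
  good0 := ⟨by simp, by simp⟩
  goodS := by
    rintro S L l s ⟨h1, h2⟩ hl
    refine ⟨?_, by rw [lines_cons, h2]⟩
    rw [List.map_cons, List.nodup_cons]
    exact ⟨fun h => hl (by rw [← h2]; exact mem_lines.2 h), h1⟩

open scoped Classical in
/-- the first wall -/
noncomputable def wA (S : Finset (Fin n)) (r : Fin n) : Fin n :=
  if h : S.Nonempty then (exists_walls h r).choose else r

open scoped Classical in
/-- the last wall -/
noncomputable def wB (S : Finset (Fin n)) (r : Fin n) : Fin n :=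
  if h : S.Nonempty then (exists_walls h r).choose_spec.choose else r

lemma walls_wA_wB (h : S.Nonempty) (r : Fin n) : Walls S r (wA S r) (wB S r) := by
  unfold wA wB
  rw [dif_pos h, dif_pos h]
  exact (exists_walls h r).choose_spec.choose_spec

lemma wA_eq (h : Walls S r a b) : wA S r = a :=
  (walls_unique (walls_wA_wB ⟨a, h.1⟩ r) h).1

lemma wB_eq (h : Walls S r a b) : wB S r = b :=
  (walls_unique (walls_wA_wB ⟨a, h.1⟩ r) h).2

lemma br_asymm {i j : Fin n} (h : br v i j = true) : br v j i = false := by
  unfold br sg at *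
  rw [Bool.and_eq_true, decide_eq_true_iff, beq_iff_eq] at h
  obtain ⟨hij, h⟩ := h
  rcases lt_or_gt_of_ne hij with hlt | hlt
  · rw [if_neg (not_le.2 hlt)] at h
    rw [if_pos hlt.le, h]
    cases v i <;> simp
  · rw [if_pos hlt.le] at h
    rw [if_neg (not_le.2 hlt), ← h]
    cases v j <;> simp

lemma br_self (i : Fin n) : br v i i = false := by simp [br]

lemma not_span_two (x y : Fin n) : ¬ Span v {x, y} := by
  rintro ⟨_, h⟩
  obtain ⟨j, hj, h1⟩ := h x (by simp)
  obtain ⟨k, hk, h2⟩ := h y (by simp)
  simp only [Finset.mem_insert, Finset.mem_singleton] at hj hk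
  rcases hj with rfl | rfl
  · rw [br_self] at h1; exact absurd h1 (by simp)
  · rcases hk with rfl | rfl
    · rw [br_asymm h1] at h2; exact absurd h2 (by simp)
    · rw [br_self] at h2; exact absurd h2 (by simp)

lemma not_span_one (x : Fin n) : ¬ Span v {x} := by
  have := not_span_two (v := v) x x
  simpa using this

lemma sp_empty (l : Fin n) : sp v ∅ l = 0 := by
  unfold sp
  rw [Int.natCast_eq_zero, Finset.card_eq_zero, Finset.filter_eq_empty_iff]
  intro Z hZ
  rw [Finset.powerset_empty, Finset.mem_singleton] at hZ
  subst hZ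
  rintro ⟨_, h⟩
  exact not_span_one l (by simpa using h)

lemma sp_one (l l' : Fin n) : sp v {l'} l = 0 := by
  unfold sp
  rw [Int.natCast_eq_zero, Finset.card_eq_zero, Finset.filter_eq_empty_iff]
  intro Z hZ
  rw [Finset.mem_powerset, Finset.subset_singleton_iff] at hZ
  rcases hZ with rfl | rfl
  · rintro ⟨_, h⟩
    exact not_span_one l (by simpa using h)
  · rintro ⟨_, h⟩
    exact not_span_two l l' h

lemma pi_two (l l' : Fin n) (x x' : Bool) (ξ : Fin n → Bool) :
    pi c v [(l, x), (l', x')] ξ = c l l' := by
  simp only [pi, List.map_cons, List.map_nil, nu, xs_cons, xs_nil, Bool.and_false, Bool.xor_false,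
    Bool.false_xor, hit, List.all_cons, List.all_nil, decide_true, Bool.true_or, Bool.and_true]

lemma exists_two (hL : (L.map Prod.fst).Nodup) (h2 : (lines L).card = 2) :
    ∃ l x l' x', L = [(l, x), (l', x')] := by
  have : (lines L).card = L.length := by
    unfold lines
    rw [List.toFinset_card_of_nodup hL, List.length_map]
  rw [this] at h2
  match L, h2 with
  | [p, q], _ => exact ⟨p.1, p.2, q.1, q.2, rfl⟩

/-- the statement of the identity which computes `sp` -/
def SpFree (v : Fin n → Bool) : Prop :=
  ∀ (S : Finset (Fin n)) (l : Fin n), 2 ≤ S.card → l ∉ S → ∀ w : Fin n → Fin n,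
    (∀ r ∈ S, Walls S r (w r) r) →
    3 * (sp v S l - 1) = ∑ r ∈ S, (if _root_.KK.inner r (w r) r l then
      (2 : ℤ) ^ cnt v S r (!(sg v r l)) else -(2 ^ cnt v S r true + 2 ^ cnt v S r false))

lemma sum_cnt (v : Fin n → Bool) (S : Finset (Fin n)) (r : Fin n) (s : Bool) :
    (2 : ℤ) ^ cnt v S r true + 2 ^ cnt v S r false = 2 ^ cnt v S r s + 2 ^ cnt v S r (!s) := by
  cases s <;> simp [add_comm]

/-- the machine -/
noncomputable def mach (hc : Coc c v) (hsp : SpFree v) : Mach (KL n) v where
  D _ L := D c v L
  bits S L r := bt c v L r (wA S r) (wB S r)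
  start := by
    rintro S L h2 ⟨hL, rfl⟩
    have hne : (lines L).Nonempty := Finset.card_pos.1 (by omega)
    have hw := fun r => walls_wA_wB hne r
    obtain ⟨l, x, l', x', rfl⟩ := exists_two hL h2
    have hll : l ≠ l' := by
      simp at hL
      exact hL
    constructor
    · have hO : O c v [(l, x), (l', x')] = 0 := by
        unfold O
        refine Finset.sum_eq_zero fun Z _ => ?_
        rw [pi_two, pi_two]; simp
      have hW : ∀ x x', W v [(l, x), (l', x')] = 1 := by
        intro x x'
        have h1 : lines ([(l', x')] : List (Fin n × Bool)) = {l'} := by simp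
        simp only [W, h1, sp_one, lines_nil, sp_empty]
        cases x <;> cases x' <;> simp
      unfold D
      rw [hO, hW]
      have : flip [(l, x), (l', x')] = [(l, !x), (l', !x')] := rfl
      rw [this, hW]
      norm_num
    · intro r
      have hr := hw r
      have hab := walls_ne (le_of_eq h2.symm) hr
      have hmem : ∀ y ∈ lines [(l, x), (l', x')], y = l ∨ y = l' := by
        intro y hy; simpa using hy
      have hcc : c (wA (lines [(l, x), (l', x')]) r) (wB (lines [(l, x), (l', x')]) r) = c l l' := by
        rcases hmem _ hr.1 with h1 | h1 <;> rcases hmem _ hr.2.1 with h3 | h3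
        · exact absurd (h1.trans h3.symm) hab
        · rw [h1, h3]
        · rw [h1, h3, hc.symm]
        · exact absurd (h1.trans h3.symm) hab
      unfold bt
      rw [pi_two, pi_two, hcc, Bool.xor_self]
  stepB := by
    rintro S L l h2 ⟨hL, rfl⟩ hl r a b h f
    have hab := walls_ne h2 h
    rw [wA_eq h, wB_eq h]
    have hne : (insert l (lines L)).Nonempty := ⟨l, Finset.mem_insert_self _ _⟩
    exact bits_step hc hL h hab hl (walls_wA_wB hne r) f
  stepD := by
    rintro S L l h2 ⟨hL, rfl⟩ hl w hw
    change D c v ((l, true) :: L) + D c v ((l, false) :: L) = _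
    rw [D_add L l hl, Bad_eq hc hL h2 hl w hw]
    have h3 := hsp (lines L) l h2 hl w hw
    have h4 : 18 * (sp v (lines L) l - 1) = 6 * ∑ r ∈ lines L,
        (if _root_.KK.inner r (w r) r l then (2 : ℤ) ^ cnt v (lines L) r (!(sg v r l))
          else -(2 ^ cnt v (lines L) r true + 2 ^ cnt v (lines L) r false)) := by
      rw [← h3]; ring
    have h5 : ∀ x y z t : ℤ, y = z → x + y - t = x + (z - t) := by intros; linarith
    rw [h5 _ _ _ _ h4]
    rw [← mul_sub, ← Finset.sum_sub_distrib]
    congr 2
    refine Finset.sum_congr rfl fun r hr => ?_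
    rw [wA_eq (hw r hr), wB_eq (hw r hr)]
    unfold gainT
    have h6 := sum_cnt v (lines L) r (sg v r l)
    by_cases hin : _root_.KK.inner r (w r) r l = true
    · rw [if_pos hin, if_pos hin]
      by_cases hb : bad v r (w r) r l (bt c v L r (w r) r) = true
      · rw [if_pos hb, if_pos hb, h6]; ring
      · rw [if_neg hb, if_neg hb]; ring
    · rw [if_neg hin, if_neg hin]
      by_cases hb : bad v r (w r) r l (bt c v L r (w r) r) = true
      · rw [if_pos hb, if_pos hb]; ring
      · rw [if_neg hb, if_neg hb]; ring
  same := by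
    rintro S L h2 ⟨hL, rfl⟩ r r' a b h h'
    rw [wA_eq h, wB_eq h, wA_eq h', wB_eq h']
    unfold bt
    by_cases hd : decide (r < b) = decide (r' < b)
    · left
      have e : ∀ k ∈ L.map Prod.fst, sg v r' k = sg v r k := by
        intro k hk
        rw [sg_last h (mem_lines.2 hk), sg_last h' (mem_lines.2 hk), hd]
      have e' : ∀ k ∈ L.map Prod.fst, neg (sg v r') k = neg (sg v r) k := by
        intro k hk; rw [neg_apply, neg_apply, e k hk]
      rw [pi_congr e, pi_congr e']
    · right
      have e : ∀ k ∈ L.map Prod.fst, sg v r' k = neg (sg v r) k := by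
        intro k hk
        rw [neg_apply, sg_last h (mem_lines.2 hk), sg_last h' (mem_lines.2 hk)]
        revert hd
        cases sg v b k <;> cases decide (r < b) <;> cases decide (r' < b) <;> decide
      have e' : ∀ k ∈ L.map Prod.fst, neg (sg v r') k = sg v r k := by
        intro k hk; rw [neg_apply, e k hk, neg_apply, Bool.not_not]
      rw [pi_congr e, pi_congr e', Prod.swap_prod_mk]

end Pool.Agent.KK
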