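import Mathlib
import Pool.Agent.KK.Rec0

/-!
Flat sets (all signed vectors in an open half plane): the defect is constant.
-/

namespace Pool.Agent.KK

open Finset
open _root_.KK (sg rel Walls pbit oth ebit upA upB bad cnt gainT Cfg Mach)

variable {n : ℕ} {c : Fin n → Fin n → Bool} {v : Fin n → Bool}

/-- all signs in some direction agree -/
def Flat (v : Fin n → Bool) (S : Finset (Fin n)) : Prop := ∃ ρ s, ∀ j ∈ S, sg v ρ j = s

lemma Flat.mono {S T : Finset (Fin n)} (h : Flat v T) (hST : S ⊆ T) : Flat v S := by
  obtain ⟨ρ, s, h⟩ := h
  exact ⟨ρ, s, fun j hj => h j (hST hj)⟩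

lemma br_of_rel {ρ i j : Fin n} (h : rel ρ i < rel ρ j) (hs : sg v ρ i = sg v ρ j) :
    br v i j = true := by
  have hi := i.isLt; have hj := j.isLt; have hr := ρ.isLt
  have hij : i ≠ j := by rintro rfl; exact lt_irrefl _ h
  have hij' : i.val ≠ j.val := fun e => hij (Fin.ext e)
  unfold br
  rw [decide_eq_true hij, Bool.true_and, beq_iff_eq]
  unfold _root_.KK.rel at h
  unfold sg at hs ⊢
  simp only [Fin.lt_def, Fin.le_def] at h hs ⊢
  by_cases c1 : ρ.val < i.val <;> by_cases c2 : ρ.val < j.val
  all_goals simp only [c1, c2, if_true, if_false] at h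
  all_goals first
    | (exfalso; omega)
    | skip
  · rw [if_neg (by omega), if_neg (by omega)] at hs
    rw [if_neg (by omega), hs]
  · rw [if_neg (by omega), if_pos (by omega)] at hs
    rw [if_pos (by omega), hs]
  · rw [if_pos (by omega), if_pos (by omega)] at hs
    rw [if_neg (by omega)]
    revert hs; cases v i <;> cases v j <;> decide

lemma not_span_of_flat {Z : Finset (Fin n)} (h : Flat v Z) : ¬ Span v Z := by
  rintro ⟨hne, hZ⟩
  obtain ⟨ρ, s, h⟩ := h
  obtain ⟨i, hi, hmin⟩ := Z.exists_min_image (rel ρ) hne
  obtain ⟨j, hj, hb⟩ := hZ i hi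
  have hij : i ≠ j := by
    rintro rfl
    rw [br_self] at hb; exact absurd hb (by simp)
  have hlt : rel ρ i < rel ρ j :=
    lt_of_le_of_ne (hmin j hj) fun e => hij (rel_inj e)
  have := br_asymm (br_of_rel (v := v) hlt ((h i hi).trans (h j hj).symm))
  rw [this] at hb; exact absurd hb (by simp)

lemma sp_of_flat {S : Finset (Fin n)} {l : Fin n} (h : Flat v (insert l S)) : sp v S l = 0 := by
  unfold sp
  rw [Int.natCast_eq_zero, Finset.card_eq_zero, Finset.filter_eq_empty_iff]
  intro Z hZ
  rw [Finset.mem_powerset] at hZ
  rintro ⟨_, h2⟩
  exact not_span_of_flat (h.mono (Finset.insert_subset_insert _ hZ)) h2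

/-- on a flat set the cocycle vanishes -/
lemma Coc.flat (hc : Coc c v) {S : Finset (Fin n)} (hf : Flat v S) {i j k : Fin n} (hi : i ∈ S)
    (hj : j ∈ S) (hk : k ∈ S) (hij : i ≠ j) (hjk : j ≠ k) (hik : i ≠ k) :
    xor (c i j) (xor (c j k) (c i k)) = false := by
  obtain ⟨ρ, s, h⟩ := hf
  have key : ∀ {a b d : Fin n}, a ∈ S → b ∈ S → d ∈ S → _root_.KK.rel ρ a < _root_.KK.rel ρ b → _root_.KK.rel ρ b < _root_.KK.rel ρ d →
      xor (c a b) (xor (c b d) (c a d)) = false := by
    intro a b d ha hb hd h1 h2
    rw [hc.rel h1 h2, h a ha, h b hb, h d hd]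
    cases s <;> rfl
  have h1 := lt_or_gt_of_ne fun e : _root_.KK.rel ρ i = _root_.KK.rel ρ j => hij (rel_inj e)
  have h2 := lt_or_gt_of_ne fun e : _root_.KK.rel ρ j = _root_.KK.rel ρ k => hjk (rel_inj e)
  have h3 := lt_or_gt_of_ne fun e : _root_.KK.rel ρ i = _root_.KK.rel ρ k => hik (rel_inj e)
  rcases h1 with h1 | h1 <;> rcases h2 with h2 | h2 <;> rcases h3 with h3 | h3
  · exact key hi hj hk h1 h2
  · exfalso; omega
  · have := key hi hk hj h3 h2
    rw [hc.symm k j] at this
    revert this
    cases c i j <;> cases c j k <;> cases c i k <;> decide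
  · have := key hk hi hj h3 h1
    rw [hc.symm k i, hc.symm k j] at this
    revert this
    cases c i j <;> cases c j k <;> cases c i k <;> decide
  · have := key hj hi hk h1 h3
    rw [hc.symm j i] at this
    revert this
    cases c i j <;> cases c j k <;> cases c i k <;> decide
  · have := key hj hk hi h2 h3
    rw [hc.symm j i, hc.symm k i] at this
    revert this
    cases c i j <;> cases c j k <;> cases c i k <;> decide
  · exfalso; omega
  · have := key hk hj hi h2 h1
    rw [hc.symm k j, hc.symm j i, hc.symm k i] at this
    revert this
    cases c i j <;> cases c j k <;> cases c i k <;> decide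

/-- on a flat set nothing is written -/
lemma flat_bits (hc : Coc c v) {S : Finset (Fin n)} {r a b l : Fin n} (h : Walls S r a b)
    (hab : a ≠ b) (hl : l ∉ S) (hf : Flat v (insert l S)) :
    (if _root_.KK.inner r a b l then pbit v r a b l else ebit v r a b l) = false := by
  have hla : l ≠ a := by rintro rfl; exact hl h.1
  have hlb : l ≠ b := by rintro rfl; exact hl h.2.1
  have ma : a ∈ insert l S := Finset.mem_insert_of_mem h.1
  have mb : b ∈ insert l S := Finset.mem_insert_of_mem h.2.1
  have ml : l ∈ insert l S := Finset.mem_insert_self _ _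
  have hab' := rel_lt_of_wall h hab
  by_cases hin : _root_.KK.inner r a b l = true
  · rw [if_pos hin]
    unfold _root_.KK.inner at hin
    rw [Bool.and_eq_true, decide_eq_true_iff, decide_eq_true_iff] at hin
    have hT := hc.rel hin.1 hin.2
    rw [hc.flat hf ma ml mb hla.symm hlb hab] at hT
    unfold pbit
    revert hT
    cases sg v r a <;> cases sg v r b <;> cases sg v r l <;> decide
  · rw [if_neg hin]
    have hcase : rel r l < rel r a ∨ rel r b < rel r l := by
      unfold _root_.KK.inner at hin
      rw [Bool.and_eq_true, decide_eq_true_iff, decide_eq_true_iff, not_and_or, not_lt, not_lt] at hin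
      rcases hin with h1 | h1
      · exact Or.inl (lt_of_le_of_ne h1 fun e => hla (rel_inj e))
      · exact Or.inr (lt_of_le_of_ne h1 fun e => hlb (rel_inj e).symm)
    rcases hcase with hlt | hlt
    · have hT := hc.rel hlt hab'
      rw [hc.flat hf ml ma mb hla hab hlb] at hT
      unfold ebit oth
      rw [if_pos hlt]
      revert hT
      cases sg v r a <;> cases sg v r b <;> cases sg v r l <;> decide
    · have hT := hc.rel hab' hlt
      have h1 : ¬ rel r l < rel r a := by omega
      rw [hc.flat hf ma mb ml hab hlb.symm hla.symm] at hT
      unfold ebit oth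
      rw [if_neg h1]
      revert hT
      cases sg v r a <;> cases sg v r b <;> cases sg v r l <;> decide

lemma O_nonneg (L : List (Fin n × Bool)) : 0 ≤ O c v L := by
  unfold O
  refine Finset.sum_nonneg fun Z _ => ?_
  positivity

theorem flat_main (hc : Coc c v) : ∀ (L : List (Fin n × Bool)), (L.map Prod.fst).Nodup →
    Flat v (lines L) → W v L = 1 ∧ W v (flip L) = 1 ∧ O c v L = 0 ∧
      ∀ r a b, Walls (lines L) r a b → a ≠ b → bt c v L r a b = (false, false) := by
  intro L
  induction L with
  | nil =>
    intro _ _
    refine ⟨rfl, rfl, ?_, ?_⟩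
    · unfold O
      refine Finset.sum_eq_zero fun Z _ => ?_
      simp [pi]
    · intro r a b h _
      exact absurd h.1 (by simp)
  | cons p L ih =>
    obtain ⟨l, x⟩ := p
    intro hL hf
    rw [List.map_cons, List.nodup_cons] at hL
    have hl : l ∉ lines L := fun h => hL.1 (mem_lines.1 h)
    rw [lines_cons] at hf
    have hf' : Flat v (lines L) := hf.mono (Finset.subset_insert _ _)
    obtain ⟨h1, h2, h3, h4⟩ := ih hL.2 hf'
    have hsp : sp v (lines L) l = 0 := sp_of_flat hf
    have hW : ∀ y, W v ((l, y) :: L) = 1 := by
      intro y; simp only [W, h1, hsp]; cases y <;> simp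
    have hW' : ∀ y, W v ((l, y) :: flip L) = 1 := by
      intro y; simp only [W, h2, lines_flip, hsp]; cases y <;> simp
    refine ⟨hW x, by rw [flip_cons]; exact hW' _, ?_⟩
    rcases Nat.lt_or_ge (lines L).card 2 with hcard | hcard
    · -- at most two lines in total
      have hlen : L.length < 2 := by
        have : (lines L).card = L.length := by
          unfold lines
          rw [List.toFinset_card_of_nodup hL.2, List.length_map]
        omega
      match L, hlen with
      | [], _ =>
        constructor
        · unfold O
          refine Finset.sum_eq_zero fun Z _ => ?_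
          simp [pi, nu]
        · intro r a b h hab
          exfalso
          rw [lines_cons] at h
          have ha := h.1; have hb := h.2.1
          simp at ha hb
          exact hab (ha.trans hb.symm)
      | [(l', x')], _ =>
        constructor
        · unfold O
          refine Finset.sum_eq_zero fun Z _ => ?_
          rw [pi_two, pi_two]; simp
        · intro r a b h hab
          unfold bt
          rw [pi_two, pi_two]
          have hcc : c a b = c l l' := by
            have ha := h.1; have hb := h.2.1
            rw [lines_cons] at ha hb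
            simp at ha hb
            rcases ha with ha | ha <;> rcases hb with hb | hb
            · exact absurd (ha.trans hb.symm) hab
            · rw [ha, hb]
            · rw [ha, hb, hc.symm]
            · exact absurd (ha.trans hb.symm) hab
          rw [hcc, Bool.xor_self]
    · have hne : (lines L).Nonempty := Finset.card_pos.1 (by omega)
      have hzero : O c v ((l, true) :: L) + O c v ((l, false) :: L) = 0 := by
        rw [O_add L l hl, h3]
        have hwr : ∀ r ∈ lines L, Walls (lines L) r (wA (lines L) r) r := by
          intro r hr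
          have hw := walls_wA_wB hne r
          have hb : wB (lines L) r = r := by
            have h5 := (hw.2.2 r hr).2
            have h6 : rel r (wB (lines L) r) ≤ rel r r := by
              unfold _root_.KK.rel
              have := (wB (lines L) r).isLt
              have := r.isLt
              simp only [Fin.lt_def]
              split_ifs <;> omega
            exact rel_inj (le_antisymm h6 h5)
          rw [hb] at hw
          exact hw
        rw [Bad_eq hc hL.2 hcard hl _ hwr]
        rw [Finset.sum_eq_zero]
        · simp
        · intro r hr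
          have hw := hwr r hr
          have hab := walls_ne hcard hw
          have hb := flat_bits hc hw hab hl hf
          rw [h4 r _ _ hw hab]
          unfold bad
          by_cases hin : _root_.KK.inner r (wA (lines L) r) r l = true
          · rw [if_pos hin] at hb ⊢
            rw [hb]; simp
          · rw [if_neg hin] at hb ⊢
            rw [hb]; simp
      have p1 := O_nonneg (c := c) (v := v) ((l, true) :: L)
      have p2 := O_nonneg (c := c) (v := v) ((l, false) :: L)
      refine ⟨by cases x <;> linarith, ?_⟩
      intro r a' b' h' hab'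
      obtain ⟨a, b, h⟩ := exists_walls hne r
      have hab := walls_ne hcard h
      have hb := flat_bits hc h hab hl hf
      have hs := bits_step hc hL.2 h hab hl (a' := a') (b' := b') (by rw [← lines_cons l x]; exact h')
      have h5 := h4 r a b h hab
      have h6 := hs fun y => if y = (false, false) then 0 else 1
      rw [h5] at h6
      unfold upA upB at h6
      have h7 : (if _root_.KK.inner r a b l then (pbit v r a b l, false) else
          (xor false (ebit v r a b l), false)) = (false, false) := by
        by_cases hin : _root_.KK.inner r a b l = true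
        · rw [if_pos hin] at hb ⊢; rw [hb]
        · rw [if_neg hin] at hb ⊢; rw [hb]; rfl
      have h8 : (if _root_.KK.inner r a b l then (false, pbit v r a b l) else
          (false, xor false (ebit v r a b l))) = (false, false) := by
        by_cases hin : _root_.KK.inner r a b l = true
        · rw [if_pos hin] at hb ⊢; rw [hb]
        · rw [if_neg hin] at hb ⊢; rw [hb]; rfl
      simp only [h7, h8, if_true, add_zero] at h6
      by_contra hcon
      cases x
      · rw [if_neg hcon] at h6
        split_ifs at h6 <;> simp at h6
      · rw [if_neg hcon] at h6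
        split_ifs at h6 <;> simp at h6

theorem flat_D (hc : Coc c v) {L : List (Fin n × Bool)} (hL : (L.map Prod.fst).Nodup)
    (hf : Flat v (lines L)) : D c v L = 18 := by
  obtain ⟨h1, h2, h3, _⟩ := flat_main hc L hL hf
  unfold D
  rw [h1, h2, h3]; norm_num

theorem hflat (hc : Coc c v) (hsp : SpFree v) (S : Finset (Fin n)) (w : (KL n).Om)
    (hw : (KL n).good S w) (hS : ∃ r s, ∀ j ∈ S, sg v r j = s) : (mach hc hsp).D S w = 18 := by
  obtain ⟨h1, rfl⟩ := hw
  exact flat_D hc h1 hS

end Pool.Agent.KK
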