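import Mathlib
import Pool.Agent.KK.T0
import Pool.Agent.K2L.Defs

/-!
The odd weight `C0` of a tie without free coordinate is the weight `O` of the signed order.
-/

set_option autoImplicit false

namespace Pool.Agent.KK

open Finset
open _root_.KK (sg)

variable {n : ℕ}

/-- signs as booleans -/
def bo (σ : Fin n → ℤˣ) : Fin n → Bool := fun l => decide (σ l = 1)

/-- does the corner of the lines `i`, `j` see the direction given by the signs `h` -/
def cc (σ h : Fin n → ℤˣ) (i j : Fin n) : Bool :=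
  if i < j then decide (h j = σ i) && decide (h i = - σ j)
  else if j < i then decide (h i = σ j) && decide (h j = - σ i) else false

/-- `L` is the list of all lines by decreasing rank, the sign of the line `l` is `σ l * e l` -/
structure SortList (r : Fin n → ℕ) (e σ : Fin n → ℤˣ) (L : List (Fin n × Bool)) : Prop where
  dec : L.Pairwise (fun a b => r b.1 < r a.1)
  all : ∀ l, l ∈ L.map Prod.fst
  sgn : ∀ p ∈ L, p.2 = decide (σ p.1 * e p.1 = 1)

theorem cc_symm (σ h : Fin n → ℤˣ) (i j : Fin n) : cc σ h i j = cc σ h j i := by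
  unfold cc
  rcases lt_trichotomy i j with hij | hij | hij
  · rw [if_pos hij, if_neg (not_lt.mpr hij.le), if_pos hij]
  · subst hij; rfl
  · rw [if_neg (not_lt.mpr hij.le), if_pos hij, if_pos hij]

theorem cc_lt {σ h : Fin n → ℤˣ} {i j : Fin n} (hij : i < j) :
    cc σ h i j = (decide (h j = σ i) && decide (h i = - σ j)) := by
  unfold cc
  rw [if_pos hij]

theorem cc_tri_aux : ∀ a b c x y z : ℤˣ, (a = c → b = a) →
    (xor (decide (b = x) && decide (a = -y)) (xor (decide (c = y) && decide (b = -z))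
      (decide (c = x) && decide (a = -z)))) =
    ((decide (x = 1) != decide (y = 1)) && (decide (y = 1) != decide (z = 1))) := by
  decide

/-- the triangle identity -/
theorem cc_tri {σ h : Fin n → ℤˣ} (hh : K2L.Mono h) {i j k : Fin n} (hij : i < j) (hjk : j < k) :
    xor (cc σ h i j) (xor (cc σ h j k) (cc σ h i k)) =
      ((bo σ i != bo σ j) && (bo σ j != bo σ k)) := by
  rw [cc_lt hij, cc_lt hjk, cc_lt (hij.trans hjk)]
  exact cc_tri_aux _ _ _ _ _ _ (hh i j k hij hjk)

/-- number of the pairs of lines of `A` whose tile (off `A` nothing is required) is seen -/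
def cn (r : Fin n → ℕ) (e σ h : Fin n → ℤˣ) (A : Finset (Fin n)) (ξ : Fin n → ℤˣ) : ℕ :=
  ∑ i ∈ A, ∑ j ∈ A, if i < j ∧ (∀ k ∈ A, k ≠ i → k ≠ j → ξ k * K2L.tau r e i j k = σ k) ∧
    cc σ h i j = true then 1 else 0

theorem b0_eq_cn (r : Fin n → ℕ) (e σ h ξ : Fin n → ℤˣ) :
    K2L.b0 r e ξ σ h = cn r e σ h univ ξ := by
  unfold K2L.b0 cn
  rw [Finset.card_filter, ← Finset.univ_product_univ, Finset.sum_product]
  refine Finset.sum_congr rfl fun i _ => Finset.sum_congr rfl fun j _ => ?_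
  refine if_congr ?_ rfl rfl
  constructor
  · rintro ⟨h1, h2, h3, h4⟩
    refine ⟨h1, fun k _ hk1 hk2 => h2 k hk1 hk2, ?_⟩
    simp only at h1 h3 h4
    rw [cc_lt h1]
    simp only [K2L.chi, if_pos h1, if_neg (not_lt.mpr h1.le), mul_one, mul_neg] at h3 h4
    simp [h3, h4]
  · rintro ⟨h1, h2, h3⟩
    rw [cc_lt h1] at h3
    simp only [Bool.and_eq_true, decide_eq_true_eq] at h3
    refine ⟨h1, fun k hk1 hk2 => h2 k (Finset.mem_univ k) hk1 hk2, ?_, ?_⟩
    · simp only [K2L.chi, if_pos h1, mul_one]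
      exact h3.1
    · simp only [K2L.chi, if_neg (not_lt.mpr h1.le), mul_neg, mul_one]
      exact h3.2

theorem tau_outer {r : Fin n → ℕ} {e : Fin n → ℤˣ} {i j l : Fin n} (hi : r i < r l)
    (hj : r j < r l) : K2L.tau r e i j l = e l := by
  unfold K2L.tau
  rw [if_pos ⟨hi, hj⟩]

theorem tau_left {r : Fin n → ℕ} {e : Fin n → ℤˣ} {l j k : Fin n} (hj : r j < r l)
    (hk : r k < r l) : K2L.tau r e l j k = -(e l * K2L.chi j k * K2L.chi j l) := by
  unfold K2L.tau
  rw [if_neg (fun hh => absurd hh.1 (not_lt.mpr hk.le)), if_pos hj]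

theorem tau_right {r : Fin n → ℕ} {e : Fin n → ℤˣ} {l j k : Fin n} (hj : r j < r l)
    (hk : r k < r l) : K2L.tau r e j l k = -(e l * K2L.chi j k * K2L.chi j l) := by
  unfold K2L.tau
  rw [if_neg (fun hh => absurd hh.2 (not_lt.mpr hk.le)), if_neg (not_lt.mpr hj.le)]

/-- number of the corners on the outermost line `l` -/
def cl (e σ h : Fin n → ℤˣ) (A : Finset (Fin n)) (l : Fin n) (ξ : Fin n → ℤˣ) : ℕ :=
  ∑ j ∈ A, if cc σ h l j = true ∧ (∀ k ∈ A, k ≠ j →
    ξ k * -(e l * K2L.chi j k * K2L.chi j l) = σ k) then 1 else 0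

theorem cn_insert {r : Fin n → ℕ} {e σ h : Fin n → ℤˣ} {A : Finset (Fin n)} {l : Fin n}
    (hl : l ∉ A) (hr : ∀ k ∈ A, r k < r l) (ξ : Fin n → ℤˣ) :
    cn r e σ h (insert l A) ξ =
      (if ξ l * e l = σ l then cn r e σ h A ξ else 0) + cl e σ h A l ξ := by
  have hne : ∀ j ∈ A, j ≠ l := fun j hj hh => hl (hh ▸ hj)
  have h0 : cn r e σ h (insert l A) ξ =
      (∑ i ∈ A, ∑ j ∈ A, if i < j ∧ (∀ k ∈ insert l A, k ≠ i → k ≠ j →
        ξ k * K2L.tau r e i j k = σ k) ∧ cc σ h i j = true then 1 else 0) +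
      ∑ j ∈ A, ((if l < j ∧ (∀ k ∈ insert l A, k ≠ l → k ≠ j →
        ξ k * K2L.tau r e l j k = σ k) ∧ cc σ h l j = true then 1 else 0) +
       (if j < l ∧ (∀ k ∈ insert l A, k ≠ j → k ≠ l →
        ξ k * K2L.tau r e j l k = σ k) ∧ cc σ h j l = true then 1 else 0)) := by
    unfold cn
    rw [Finset.sum_insert hl, Finset.sum_insert hl, if_neg (fun hh => lt_irrefl _ hh.1), zero_add,
      Finset.sum_congr rfl (fun i _ => Finset.sum_insert (a := l) (s := A) (f := fun j =>
        if i < j ∧ (∀ k ∈ insert l A, k ≠ i → k ≠ j → ξ k * K2L.tau r e i j k = σ k) ∧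
          cc σ h i j = true then 1 else 0) hl), Finset.sum_add_distrib, Finset.sum_add_distrib]
    ring
  rw [h0]
  congr 1
  · -- pairs of inner lines
    unfold cn
    by_cases hc : ξ l * e l = σ l
    · rw [if_pos hc]
      refine Finset.sum_congr rfl fun i hi => Finset.sum_congr rfl fun j hj => ?_
      refine if_congr ?_ rfl rfl
      constructor
      · rintro ⟨h1, h2, h3⟩
        exact ⟨h1, fun k hk => h2 k (Finset.mem_insert_of_mem hk), h3⟩
      · rintro ⟨h1, h2, h3⟩
        refine ⟨h1, fun k hk hki hkj => ?_, h3⟩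
        rcases Finset.mem_insert.mp hk with rfl | hk
        · rw [tau_outer (hr i hi) (hr j hj)]
          exact hc
        · exact h2 k hk hki hkj
    · rw [if_neg hc]
      refine Finset.sum_eq_zero fun i hi => Finset.sum_eq_zero fun j hj => ?_
      refine if_neg ?_
      rintro ⟨h1, h2, h3⟩
      apply hc
      have := h2 l (Finset.mem_insert_self l A) (fun hh => hl (hh ▸ hi)) (fun hh => hl (hh ▸ hj))
      rwa [tau_outer (hr i hi) (hr j hj)] at this
  · unfold cl
    refine Finset.sum_congr rfl fun j hj => ?_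
    rcases lt_or_gt_of_ne (hne j hj) with hjl | hjl
    · rw [if_neg (fun hh => absurd hh.1 (not_lt.mpr hjl.le)), zero_add]
      refine if_congr ?_ rfl rfl
      constructor
      · rintro ⟨h1, h2, h3⟩
        refine ⟨by rw [cc_symm]; exact h3, fun k hk hkj => ?_⟩
        have := h2 k (Finset.mem_insert_of_mem hk) hkj (hne k hk)
        rwa [tau_right (hr j hj) (hr k hk)] at this
      · rintro ⟨h2, h3⟩
        refine ⟨hjl, fun k hk hkj hkl => ?_, by rw [cc_symm]; exact h2⟩
        rcases Finset.mem_insert.mp hk with rfl | hk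
        · exact absurd rfl hkl
        · rw [tau_right (hr j hj) (hr k hk)]
          exact h3 k hk hkj
    · rw [if_neg (c := j < l ∧ _) (fun hh => absurd hh.1 (not_lt.mpr hjl.le)), add_zero]
      refine if_congr ?_ rfl rfl
      constructor
      · rintro ⟨h1, h2, h3⟩
        refine ⟨h3, fun k hk hkj => ?_⟩
        have := h2 k (Finset.mem_insert_of_mem hk) (hne k hk) hkj
        rwa [tau_left (hr j hj) (hr k hk)] at this
      · rintro ⟨h2, h3⟩
        refine ⟨hjl, fun k hk hkl hkj => ?_, h2⟩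
        rcases Finset.mem_insert.mp hk with rfl | hk
        · exact absurd rfl hkl
        · rw [tau_left (hr j hj) (hr k hk)]
          exact h3 k hk hkj

theorem xs_eq (S : List (Fin n)) (hS : S.Nodup) (f : Fin n → Bool) :
    xs S f = (∑ j ∈ S.toFinset, if f j = true then 1 else 0 : ℕ).bodd := by
  induction S with
  | nil => simp [xs]
  | cons a S ih =>
    rw [List.nodup_cons] at hS
    have h1 : xs (a :: S) f = xor (f a) (xs S f) := rfl
    rw [h1, ih hS.2, List.toFinset_cons, Finset.sum_insert (by simpa using hS.1), Nat.bodd_add]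
    congr 1
    cases f a <;> rfl

theorem sign_aux1 : ∀ a b c d : ℤˣ, (decide (a = 1) = xor (decide (b = 1))
    (xor (decide (c = 1)) (!decide (c * d = 1))) ↔ a * -(d * 1 * 1) = b) := by decide

theorem sign_aux2 : ∀ a b c d : ℤˣ, (decide (a = 1) = xor (decide (b = 1))
    (xor (!decide (c = 1)) (!decide (c * d = 1))) ↔ a * -(d * 1 * -1) = b) := by decide

theorem sign_aux3 : ∀ a b c d : ℤˣ, (decide (a = 1) = xor (!decide (b = 1))
    (xor (decide (c = 1)) (!decide (c * d = 1))) ↔ a * -(d * -1 * 1) = b) := by decide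

theorem sign_aux4 : ∀ a b c d : ℤˣ, (decide (a = 1) = xor (!decide (b = 1))
    (xor (!decide (c = 1)) (!decide (c * d = 1))) ↔ a * -(d * -1 * -1) = b) := by decide

theorem sign_tr (σ ξ e : Fin n → ℤˣ) {j k l : Fin n} (hk : k ≠ j) (hl : l ≠ j) :
    (bo ξ k = xor (sg (bo σ) j k) (xor (sg (bo σ) j l) (!decide (σ l * e l = 1)))) ↔
      ξ k * -(e l * K2L.chi j k * K2L.chi j l) = σ k := by
  unfold sg bo K2L.chi
  rcases lt_or_gt_of_ne hk with hk | hk <;> rcases lt_or_gt_of_ne hl with hl | hl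
  · rw [if_pos hk.le, if_pos hl.le, if_neg (not_lt.mpr hk.le), if_neg (not_lt.mpr hl.le)]
    exact sign_aux4 _ _ _ _
  · rw [if_pos hk.le, if_neg (not_le.mpr hl), if_neg (not_lt.mpr hk.le), if_pos hl]
    exact sign_aux3 _ _ _ _
  · rw [if_neg (not_le.mpr hk), if_pos hl.le, if_pos hk, if_neg (not_lt.mpr hl.le)]
    exact sign_aux2 _ _ _ _
  · rw [if_neg (not_le.mpr hk), if_neg (not_le.mpr hl), if_pos hk, if_pos hl]
    exact sign_aux1 _ _ _ _

theorem nu_eq (σ h e ξ : Fin n → ℤˣ) (S : List (Fin n)) (hS : S.Nodup) (l : Fin n)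
    (hl : l ∉ S) :
    nu (cc σ h) (bo σ) S l (decide (σ l * e l = 1)) (bo ξ) =
      (cl e σ h S.toFinset l ξ).bodd := by
  unfold nu cl
  rw [xs_eq S hS]
  congr 1
  refine Finset.sum_congr rfl fun j hj => ?_
  refine if_congr ?_ rfl rfl
  rw [List.mem_toFinset] at hj
  have hlj : l ≠ j := fun hh => hl (hh ▸ hj)
  rw [Bool.and_eq_true]
  refine and_congr Iff.rfl ?_
  unfold hit
  rw [List.all_eq_true]
  constructor
  · intro hh k hk hkj
    have h1 := hh k (by simpa using hk)
    rw [Bool.or_eq_true, decide_eq_true_eq, beq_iff_eq] at h1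
    rcases h1 with h1 | h1
    · exact absurd h1 hkj
    · exact (sign_tr σ ξ e hkj hlj).mp h1
  · intro hh k hk
    rw [Bool.or_eq_true, decide_eq_true_eq, beq_iff_eq]
    by_cases hkj : k = j
    · exact Or.inl hkj
    · exact Or.inr ((sign_tr σ ξ e hkj hlj).mpr (hh k (by simpa using hk) hkj))

theorem beq_aux : ∀ a c d : ℤˣ, ((decide (a = 1) == decide (c * d = 1)) = true ↔ a * d = c) := by
  decide

theorem pi_eq (r : Fin n → ℕ) (e σ h ξ : Fin n → ℤˣ) : ∀ (L : List (Fin n × Bool)),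
    L.Pairwise (fun a b => r b.1 < r a.1) → (∀ p ∈ L, p.2 = decide (σ p.1 * e p.1 = 1)) →
    pi (cc σ h) (bo σ) L (bo ξ) = (cn r e σ h (lines L) ξ).bodd
  | [], _, _ => by
    simp [pi, cn, lines]
  | (l, x) :: L, hL, hx => by
    rw [List.pairwise_cons] at hL
    have hx0 : x = decide (σ l * e l = 1) := hx (l, x) (List.mem_cons_self)
    have hx1 : ∀ p ∈ L, p.2 = decide (σ p.1 * e p.1 = 1) :=
      fun p hp => hx p (List.mem_cons_of_mem _ hp)
    have hlS : l ∉ L.map Prod.fst := by
      intro hh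
      rw [List.mem_map] at hh
      obtain ⟨p, hp, hpl⟩ := hh
      have := hL.1 p hp
      rw [hpl] at this
      exact lt_irrefl _ this
    have hnd : (L.map Prod.fst).Nodup := by
      rw [List.nodup_iff_pairwise_ne, List.pairwise_map]
      exact hL.2.imp fun {a b} hab => fun hh => by rw [hh] at hab; exact lt_irrefl _ hab
    have hr : ∀ k ∈ (L.map Prod.fst).toFinset, r k < r l := by
      intro k hk
      rw [List.mem_toFinset, List.mem_map] at hk
      obtain ⟨p, hp, rfl⟩ := hk
      exact hL.1 p hp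
    have h1 : lines ((l, x) :: L) = insert l (L.map Prod.fst).toFinset := by
      unfold lines
      rw [List.map_cons, List.toFinset_cons]
    have h2 : pi (cc σ h) (bo σ) ((l, x) :: L) (bo ξ) =
        xor ((bo ξ l == x) && pi (cc σ h) (bo σ) L (bo ξ))
          (nu (cc σ h) (bo σ) (L.map Prod.fst) l x (bo ξ)) := rfl
    rw [h2, h1, cn_insert (by simpa using hlS) hr, Nat.bodd_add, pi_eq r e σ h ξ L hL.2 hx1, hx0,
      nu_eq σ h e ξ _ hnd l hlS]
    congr 1
    have h3 := beq_aux (ξ l) (σ l) (e l)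
    by_cases hc : ξ l * e l = σ l
    · rw [if_pos hc]
      have h4 : (bo ξ l == decide (σ l * e l = 1)) = true := h3.mpr hc
      rw [h4, Bool.true_and]
      rfl
    · rw [if_neg hc]
      have h4 : (bo ξ l == decide (σ l * e l = 1)) = false := by
        rw [Bool.eq_false_iff]
        exact fun hh => hc (h3.mp hh)
      rw [h4, Bool.false_and]
      rfl

theorem b0_neg (r : Fin n → ℕ) (e σ h ξ : Fin n → ℤˣ) :
    K2L.b0 r e ξ (-σ) (-h) = K2L.b0 r e (-ξ) σ h := by
  unfold K2L.b0
  congr 1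
  refine Finset.filter_congr fun p _ => ?_
  simp only [Pi.neg_apply, neg_mul, neg_inj]
  refine and_congr Iff.rfl (and_congr ?_ Iff.rfl)
  refine forall_congr' fun k => forall_congr' fun _ => forall_congr' fun _ => ?_
  constructor
  · intro hh; rw [hh, neg_neg]
  · intro hh; rw [← hh, neg_neg]

theorem bo_neg (ξ : Fin n → ℤˣ) : bo (-ξ) = neg (bo ξ) := by
  funext l
  unfold bo neg
  have : ∀ a : ℤˣ, decide (-a = 1) = !decide (a = 1) := by decide
  exact this (ξ l)

/-- subsets and sign vectors -/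
def setEquiv (n : ℕ) : Finset (Fin n) ≃ (Fin n → ℤˣ) where
  toFun Z := fun l => if l ∈ Z then 1 else -1
  invFun ξ := univ.filter fun l => ξ l = 1
  left_inv Z := by
    ext l
    by_cases hl : l ∈ Z
    · simp [hl]
    · simp [hl]
  right_inv ξ := by
    funext l
    rcases Int.units_eq_one_or (ξ l) with hl | hl
    · simp [hl]
    · simp [hl]

theorem bo_setEquiv (Z : Finset (Fin n)) : bo (setEquiv n Z) = ind Z := by
  funext l
  by_cases hl : l ∈ Z
  · simp [bo, ind, setEquiv, hl]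
  · simp [bo, ind, setEquiv, hl]

theorem wt_setEquiv (Z : Finset (Fin n)) : K2L.wt (setEquiv n Z) = 2 ^ Z.card := by
  unfold K2L.wt
  congr 2
  exact (setEquiv n).left_inv Z

theorem lines_univ {L : List (Fin n × Bool)} (hL : ∀ l, l ∈ L.map Prod.fst) :
    lines L = univ := by
  ext l
  simp only [lines, List.mem_toFinset, Finset.mem_univ, iff_true]
  exact hL l

theorem mod_two_xor (a b : ℕ) : (a + b) % 2 = if xor a.bodd b.bodd then 1 else 0 := by
  rw [Nat.mod_two_of_bodd, Nat.bodd_add]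
  cases xor a.bodd b.bodd <;> rfl

/-- the odd weight of a tie without free coordinate -/
theorem C0_eq {r : Fin n → ℕ} {e σ : Fin n → ℤˣ} (h : Fin n → ℤˣ) {L : List (Fin n × Bool)}
    (hL : SortList r e σ L) :
    (K2L.C0 r e σ h : ℤ) = O (cc σ h) (bo σ) L := by
  unfold K2L.C0 O
  rw [lines_univ hL.all, Finset.powerset_univ, Nat.cast_sum,
    ← Equiv.sum_comp (setEquiv n)]
  refine Finset.sum_congr rfl fun Z _ => ?_
  rw [Nat.cast_mul, wt_setEquiv, mod_two_xor, b0_neg, b0_eq_cn, b0_eq_cn, ← lines_univ hL.all,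
    ← pi_eq r e σ h _ L hL.dec hL.sgn, ← pi_eq r e σ h _ L hL.dec hL.sgn, bo_neg, bo_setEquiv]
  push_cast
  rfl

/-- the local surplus of a tie without free coordinate -/
theorem X0_eq {r : Fin n → ℕ} {e σ : Fin n → ℤˣ} (h : Fin n → ℤˣ) {L : List (Fin n × Bool)}
    (hL : SortList r e σ L) (h1 : (K2L.W0 r e σ : ℤ) = W (bo σ) L)
    (h2 : (K2L.W0 r e (-σ) : ℤ) = W (bo σ) (flip L)) :
    K2L.X0 r e σ h = D (cc σ h) (bo σ) L := by
  unfold K2L.X0 D
  rw [h1, h2, C0_eq h hL]

end Pool.Agent.KK
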