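import Mathlib
import Pool.Agent.KK.T0C

/-!
Auxiliary facts on signed orders: change of all signs, existence of the sorted list.
-/

set_option autoImplicit false

namespace Pool.Agent.KK

open Finset
open _root_.KK (sg)

variable {n : ℕ}

theorem br_neg (v : Fin n → Bool) (i j : Fin n) : br (neg v) i j = br v i j := by
  unfold br sg neg
  by_cases h : j ≤ i
  · simp only [if_pos h]
    cases v i <;> cases v j <;> rfl
  · simp only [if_neg h]
    cases v i <;> cases v j <;> rfl

theorem span_neg (v : Fin n → Bool) (Z : Finset (Fin n)) : Span (neg v) Z ↔ Span v Z := by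
  unfold Span
  simp only [br_neg]

theorem sp_neg (v : Fin n → Bool) (S : Finset (Fin n)) (l : Fin n) : sp (neg v) S l = sp v S l := by
  unfold sp
  simp only [span_neg]

theorem W_neg (v : Fin n → Bool) : ∀ L : List (Fin n × Bool), W (neg v) L = W v L
  | [] => rfl
  | (l, x) :: L => by
    unfold W
    rw [W_neg v L, sp_neg]

theorem flip_flip (L : List (Fin n × Bool)) : flip (flip L) = L := by
  unfold flip
  rw [List.map_map]
  conv_rhs => rw [← List.map_id L]
  refine List.map_congr_left fun p _ => ?_
  simp

theorem flip_map_fst (L : List (Fin n × Bool)) : (flip L).map Prod.fst = L.map Prod.fst := by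
  unfold flip
  rw [List.map_map]
  rfl

theorem lines_flip (L : List (Fin n × Bool)) : lines (flip L) = lines L := by
  unfold lines
  rw [flip_map_fst]

theorem SortList.flip {r : Fin n → ℕ} {e σ : Fin n → ℤˣ} {L : List (Fin n × Bool)}
    (hL : SortList r e σ L) : SortList r e (-σ) (flip L) where
  dec := by
    unfold KK.flip
    rw [List.pairwise_map]
    exact hL.dec
  all l := by
    rw [flip_map_fst]
    exact hL.all l
  sgn p hp := by
    unfold KK.flip at hp
    rw [List.mem_map] at hp
    obtain ⟨q, hq, rfl⟩ := hp
    have h1 := hL.sgn q hq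
    simp only [Pi.neg_apply]
    rw [h1]
    have : ∀ a b : ℤˣ, (!decide (a * b = 1)) = decide (-a * b = 1) := by decide
    exact this _ _

/-- the list of an order -/
theorem sortList_of_order {r : Fin n → ℕ} (e σ : Fin n → ℤˣ) {o : List (Fin n)}
    (ho : o.Pairwise (fun a b => r b < r a)) (hall : ∀ l, l ∈ o) :
    SortList r e σ (o.map fun l => (l, decide (σ l * e l = 1))) where
  dec := by
    rw [List.pairwise_map]
    exact ho
  all l := by
    rw [List.map_map]
    simpa using hall l
  sgn p hp := by
    rw [List.mem_map] at hp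
    obtain ⟨l, _, rfl⟩ := hp
    rfl

/-- an injective rank is the rank of an order -/
theorem exists_order {r : Fin n → ℕ} (hr : Function.Injective r) :
    ∃ o : List (Fin n), o.Pairwise (fun a b => r b < r a) ∧ ∀ l, l ∈ o := by
  have h1 : (List.finRange n).mergeSort (fun a b => decide (r b ≤ r a)) |>.Pairwise
      (fun a b => decide (r b ≤ r a) = true) := by
    refine List.pairwise_mergeSort (fun a b c => ?_) (fun a b => ?_) _
    · simp only [decide_eq_true_eq]
      exact fun h1 h2 => h2.trans h1
    · rw [Bool.or_eq_true, decide_eq_true_eq, decide_eq_true_eq]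
      exact le_total _ _
  have h2 : ((List.finRange n).mergeSort (fun a b => decide (r b ≤ r a))).Nodup := by
    rw [(List.mergeSort_perm _ _).nodup_iff]
    exact List.nodup_finRange n
  refine ⟨(List.finRange n).mergeSort (fun a b => decide (r b ≤ r a)), ?_, fun l => ?_⟩
  · rw [List.nodup_iff_pairwise_ne] at h2
    refine (h1.and h2).imp fun {a b} hab => ?_
    have h3 : r b ≤ r a := by simpa using hab.1
    exact lt_of_le_of_ne h3 (fun hh => hab.2 (hr hh).symm)
  · rw [List.mem_mergeSort]
    exact List.mem_finRange l

theorem exists_sortList {r : Fin n → ℕ} (hr : Function.Injective r) (e σ : Fin n → ℤˣ) :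
    ∃ L, SortList r e σ L := by
  obtain ⟨o, ho, hall⟩ := exists_order hr
  exact ⟨_, sortList_of_order e σ ho hall⟩

/-- the transport of the vertex weight to the opposite vertex -/
theorem W0_neg_of {r : Fin n → ℕ} {e σ : Fin n → ℤˣ} {L : List (Fin n × Bool)}
    (hW : ∀ (σ : Fin n → ℤˣ) (L : List (Fin n × Bool)), SortList r e σ L →
      (K2L.W0 r e σ : ℤ) = W (bo σ) L) (hL : SortList r e σ L) :
    (K2L.W0 r e (-σ) : ℤ) = W (bo σ) (flip L) := by
  rw [hW (-σ) (flip L) hL.flip, bo_neg, W_neg]

end Pool.Agent.KK
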