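import Mathlib
import Pool.Agent.KK.T0D
import Pool.Agent.K2L.Law

/-!
The sum over the sides in the machine of a type 0 tie is the sum over all sign vectors `e`.
-/

set_option autoImplicit false

namespace Pool.Agent.KK

open Finset

variable {n : ℕ}

/-- configurations of the far lines: signed orders, outermost line first -/
def cfgT0 (n : ℕ) : _root_.KK.Cfg n where
  Om := List (Fin n × Bool)
  good S L := (L.map Prod.fst).Nodup ∧ lines L = S
  ins _ L l s := (l, s) :: L
  om0 := []
  good0 := ⟨by simp, by simp [lines]⟩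
  goodS S L l s h hl := by
    refine ⟨?_, ?_⟩
    · rw [List.map_cons, List.nodup_cons]
      refine ⟨fun hm => hl ?_, h.1⟩
      rw [← h.2]
      unfold lines
      rw [List.mem_toFinset]
      exact hm
    · unfold lines
      rw [List.map_cons, List.toFinset_cons, ← h.2]
      rfl

/-- signed list of an order -/
def slist (σ e : Fin n → ℤˣ) (o : List (Fin n)) : List (Fin n × Bool) :=
  o.map fun l => (l, decide (σ l * e l = 1))

/-- sign vectors which are `1` off the list -/
def supp (o : List (Fin n)) : Finset (Fin n → ℤˣ) :=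
  Finset.univ.filter fun e => ∀ k, k ∉ o → e k = 1

theorem mem_supp {o : List (Fin n)} {e : Fin n → ℤˣ} : e ∈ supp o ↔ ∀ k, k ∉ o → e k = 1 := by
  unfold supp
  rw [Finset.mem_filter]
  exact ⟨fun h => h.2, fun h => ⟨Finset.mem_univ _, h⟩⟩

theorem slist_update {σ e : Fin n → ℤˣ} {o : List (Fin n)} {l : Fin n} (hl : l ∉ o) (s : ℤˣ) :
    slist σ (Function.update e l s) o = slist σ e o := by
  unfold slist
  refine List.map_congr_left fun k hk => ?_
  have : k ≠ l := fun h => hl (h ▸ hk)
  rw [Function.update_of_ne this]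

theorem sum_supp_cons {o : List (Fin n)} {l : Fin n} (hl : l ∉ o) (G : (Fin n → ℤˣ) → ℤ) :
    ∑ e ∈ supp (l :: o), G e =
      ∑ e ∈ supp o, (G (Function.update e l 1) + G (Function.update e l (-1))) := by
  classical
  have h2 : ∑ e ∈ supp o, (G (Function.update e l 1) + G (Function.update e l (-1))) =
      ∑ p ∈ supp o ×ˢ (Finset.univ : Finset ℤˣ), G (Function.update p.1 l p.2) := by
    rw [Finset.sum_product]
    refine Finset.sum_congr rfl fun e _ => ?_
    have : (Finset.univ : Finset ℤˣ) = {1, -1} := by decide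
    rw [this, Finset.sum_pair (by decide)]
  rw [h2]
  symm
  refine Finset.sum_bij' (fun p _ => Function.update p.1 l p.2)
    (fun e _ => (Function.update e l 1, e l)) ?_ ?_ ?_ ?_ ?_
  · intro p hp
    rw [Finset.mem_product] at hp
    rw [mem_supp]
    intro k hk
    rw [List.mem_cons, not_or] at hk
    rw [Function.update_of_ne hk.1]
    exact mem_supp.1 hp.1 k hk.2
  · intro e he
    rw [Finset.mem_product]
    refine ⟨?_, Finset.mem_univ _⟩
    rw [mem_supp]
    intro k hk
    by_cases hkl : k = l
    · subst hkl; simp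
    · show Function.update e l 1 k = 1
      rw [Function.update_of_ne hkl]
      exact mem_supp.1 he k (by rw [List.mem_cons, not_or]; exact ⟨hkl, hk⟩)
  · intro p hp
    rw [Finset.mem_product] at hp
    have h1 : p.1 l = 1 := mem_supp.1 hp.1 l hl
    refine Prod.ext ?_ ?_
    · show Function.update (Function.update p.1 l p.2) l 1 = p.1
      rw [Function.update_idem, ← h1, Function.update_eq_self]
    · show Function.update p.1 l p.2 l = p.2
      rw [Function.update_self]
  · intro e _
    show Function.update (Function.update e l 1) l (e l) = e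
    rw [Function.update_idem, Function.update_eq_self]
  · intro p _
    rfl

theorem two_signs (a : ℤˣ) (F : Bool → ℤ) :
    F true + F false = F (decide (a * 1 = 1)) + F (decide (a * (-1) = 1)) := by
  rcases Int.units_eq_one_or a with h | h
  · subst h
    have h1 : decide ((1 : ℤˣ) * 1 = 1) = true := by decide
    have h2 : decide ((1 : ℤˣ) * (-1) = 1) = false := by decide
    rw [h1, h2]
  · subst h
    have h1 : decide ((-1 : ℤˣ) * 1 = 1) = false := by decide
    have h2 : decide ((-1 : ℤˣ) * (-1) = 1) = true := by decide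
    rw [h1, h2, add_comm]

theorem EO_supp (σ : Fin n → ℤˣ) : ∀ (o : List (Fin n)), o.Nodup → ∀ F : List (Fin n × Bool) → ℤ,
    _root_.KK.EO (cfgT0 n) o F = ∑ e ∈ supp o, F (slist σ e o)
  | [], _, F => by
    show F [] = _
    have : supp ([] : List (Fin n)) = {fun _ => 1} := by
      ext e
      rw [mem_supp, Finset.mem_singleton]
      constructor
      · intro h; funext k; exact h k (by simp)
      · intro h k _; rw [h]
    rw [this, Finset.sum_singleton]
    rfl
  | l :: o, ho, F => by
    rw [List.nodup_cons] at ho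
    refine (EO_supp σ o ho.2 (fun w => F ((l, true) :: w) + F ((l, false) :: w))).trans ?_
    rw [sum_supp_cons ho.1]
    refine Finset.sum_congr rfl fun e _ => ?_
    have h : ∀ s : ℤˣ, slist σ (Function.update e l s) (l :: o) =
        (l, decide (σ l * s = 1)) :: slist σ e o := by
      intro s
      unfold slist
      rw [List.map_cons, Function.update_self]
      congr 1
      exact slist_update (σ := σ) ho.1 s
    rw [h, h]
    exact two_signs (σ l) fun b => F ((l, b) :: slist σ e o)

theorem supp_all {o : List (Fin n)} (hall : ∀ l, l ∈ o) : supp o = Finset.univ := by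
  ext e
  rw [mem_supp]
  exact ⟨fun _ => Finset.mem_univ _, fun _ k hk => absurd (hall k) hk⟩

/-- the sum over the sides for an order of all lines is the sum over all sign vectors -/
theorem EO_eq_sum (σ : Fin n → ℤˣ) {o : List (Fin n)} (ho : o.Nodup) (hall : ∀ l, l ∈ o)
    (F : List (Fin n × Bool) → ℤ) :
    _root_.KK.EO (cfgT0 n) o F = ∑ e : Fin n → ℤˣ, F (slist σ e o) := by
  rw [EO_supp σ o ho, supp_all hall]

theorem rkL_pairwise {o : List (Fin n)} (ho : o.Nodup) :
    o.Pairwise (fun a b => K2L.rkL o b < K2L.rkL o a) := by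
  rw [List.pairwise_iff_getElem]
  intro i j hi hj hij
  have h1 : o.idxOf o[i] = i := ho.idxOf_getElem i hi
  have h2 : o.idxOf o[j] = j := ho.idxOf_getElem j hj
  unfold K2L.rkL
  rw [h1, h2]
  omega

theorem rkL_injective {o : List (Fin n)} (ho : o.Nodup) (hall : ∀ l, l ∈ o) :
    Function.Injective (K2L.rkL o) := by
  intro a b hab
  have ha : o.idxOf a < o.length := List.idxOf_lt_length_of_mem (hall a)
  have hb : o.idxOf b < o.length := List.idxOf_lt_length_of_mem (hall b)
  unfold K2L.rkL at hab
  have : o.idxOf a = o.idxOf b := by omega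
  exact (List.idxOf_inj (hall a)).1 this

/-- the signed list of an order is the sorted list for its ranks -/
theorem slist_sortList (σ e : Fin n → ℤˣ) {o : List (Fin n)} (ho : o.Nodup) (hall : ∀ l, l ∈ o) :
    SortList (K2L.rkL o) e σ (slist σ e o) :=
  sortList_of_order e σ (rkL_pairwise ho) hall

/-- the orders of the law are orders of all lines -/
theorem ords_mem {m : ℕ} (hm : 6 ≤ m) {o : List (Fin m)} (ho : o ∈ _root_.KK.ords m) :
    o.Nodup ∧ ∀ l, l ∈ o := by
  obtain ⟨k, rfl⟩ := Nat.exists_eq_add_of_le' hm
  rw [K2L.ords_eq, List.mem_map] at ho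
  obtain ⟨o', _, rfl⟩ := ho
  exact ⟨K2L.toL_nodup o', K2L.mem_toL o'⟩

/-- if `F` of the sorted signed list is `X` of ranks and signs, then the expectation of `F` is the
average of `X` -/
theorem EL_eq_sum {m : ℕ} (hm : 6 ≤ m) (σ : Fin m → ℤˣ) (F : List (Fin m × Bool) → ℤ)
    (X : (Fin m → ℕ) → (Fin m → ℤˣ) → ℤ)
    (hX : ∀ (r : Fin m → ℕ) (e : Fin m → ℤˣ) (L : List (Fin m × Bool)), Function.Injective r →
      SortList r e σ L → X r e = F L) :
    _root_.KK.EL (cfgT0 m) F =
      ((_root_.KK.ords m).map fun o => ∑ e : Fin m → ℤˣ, X (K2L.rkL o) e).sum := by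
  unfold _root_.KK.EL
  congr 1
  refine List.map_congr_left fun o ho => ?_
  obtain ⟨h1, h2⟩ := ords_mem hm ho
  rw [EO_eq_sum σ h1 h2]
  refine Finset.sum_congr rfl fun e _ => ?_
  exact (hX _ e _ (rkL_injective h1 h2) (slist_sortList σ e h1 h2)).symm

end Pool.Agent.KK
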