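import Mathlib
import Pool.Agent.KK.Flat

/-!
The identity for the number of new spanning sets.
-/

namespace Pool.Agent.KK

open Finset
open _root_.KK (sg rel Walls cnt)

variable {n : ℕ} {v : Fin n → Bool}

lemma br_of_not {i j : Fin n} (hij : i ≠ j) (h : br v j i = false) : br v i j = true := by
  unfold br sg at *
  rw [decide_eq_true hij.symm, Bool.true_and] at h
  rw [decide_eq_true hij, Bool.true_and]
  rcases lt_or_gt_of_ne hij with hlt | hlt
  · rw [if_pos hlt.le] at h
    rw [if_neg (not_le.2 hlt)]
    revert h; cases v i <;> cases v j <;> decide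
  · rw [if_neg (not_le.2 hlt)] at h
    rw [if_pos hlt.le]
    revert h; cases v i <;> cases v j <;> decide

lemma span_insert {Z : Finset (Fin n)} {l : Fin n} (h : Span v Z) : Span v (insert l Z) := by
  refine ⟨⟨l, Finset.mem_insert_self _ _⟩, fun i hi => ?_⟩
  rcases Finset.mem_insert.1 hi with rfl | hi
  · by_contra hc
    push Not at hc
    have h1 : ∀ j ∈ Z, sg v i j = v i ∨ j = i := by
      intro j hj
      have h2 := hc j (Finset.mem_insert_of_mem hj)
      by_cases hji : j = i
      · exact Or.inr hji
      · left
        have h3 := br_of_not (Ne.symm hji) (by simpa using h2)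
        unfold br at h3
        rw [Bool.and_eq_true, beq_iff_eq] at h3
        exact h3.2
    by_cases hiZ : i ∈ Z
    · obtain ⟨j, hj, hb⟩ := h.2 i hiZ
      exact hc j (Finset.mem_insert_of_mem hj) hb
    · refine not_span_of_flat (v := v) (Z := Z) ⟨i, v i, fun j hj => ?_⟩ h
      rcases h1 j hj with h4 | h4
      · exact h4
      · rw [h4] at hj; exact absurd hj hiZ
  · obtain ⟨j, hj, hb⟩ := h.2 i hi
    exact ⟨j, Finset.mem_insert_of_mem hj, hb⟩

/-- number of lines of `T` after `i` in the half plane -/
def hh (v : Fin n → Bool) (T : Finset (Fin n)) (i : Fin n) : ℕ :=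
  (T.filter fun j => br v i j = true).card

/-- number of nonempty subsets which do not span -/
lemma card_nonspan (T : Finset (Fin n)) :
    (T.powerset.filter fun Z => Z.Nonempty ∧ ¬ Span v Z).card = ∑ i ∈ T, 2 ^ hh v T i := by
  have e : (T.powerset.filter fun Z => Z.Nonempty ∧ ¬ Span v Z) =
      T.biUnion fun i => ((T.filter fun j => br v i j = true).powerset).image (insert i) := by
    ext Z
    rw [Finset.mem_filter, Finset.mem_powerset, Finset.mem_biUnion]
    constructor
    · rintro ⟨hZT, hne, hns⟩
      unfold Span at hns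
      push Not at hns
      obtain ⟨i, hi, h⟩ := hns hne
      refine ⟨i, hZT hi, ?_⟩
      rw [Finset.mem_image]
      refine ⟨Z.erase i, ?_, Finset.insert_erase hi⟩
      rw [Finset.mem_powerset]
      intro j hj
      rw [Finset.mem_erase] at hj
      rw [Finset.mem_filter]
      exact ⟨hZT hj.2, br_of_not hj.1.symm (by simpa using h j hj.2)⟩
    · rintro ⟨i, hi, h⟩
      rw [Finset.mem_image] at h
      obtain ⟨Y, hY, rfl⟩ := h
      rw [Finset.mem_powerset] at hY
      refine ⟨Finset.insert_subset hi (hY.trans (Finset.filter_subset _ _)),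
        ⟨i, Finset.mem_insert_self _ _⟩, ?_⟩
      rintro ⟨_, h⟩
      obtain ⟨j, hj, hb⟩ := h i (Finset.mem_insert_self _ _)
      rcases Finset.mem_insert.1 hj with rfl | hj
      · rw [br_self] at hb; exact absurd hb (by simp)
      · have := (Finset.mem_filter.1 (hY hj)).2
        rw [br_asymm this] at hb; exact absurd hb (by simp)
  rw [e, Finset.card_biUnion]
  · refine Finset.sum_congr rfl fun i hi => ?_
    rw [Finset.card_image_of_injOn, Finset.card_powerset]
    · rfl
    · intro Y hY Y' hY' he
      have hn : ∀ Y ∈ ((T.filter fun j => br v i j = true).powerset : Finset _), i ∉ Y := by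
        intro Y hY hiY
        have := (Finset.mem_filter.1 (Finset.mem_powerset.1 hY hiY)).2
        rw [br_self] at this; exact absurd this (by simp)
      have h1 := hn Y hY
      have h2 := hn Y' hY'
      rw [← Finset.erase_insert h1, ← Finset.erase_insert h2, he]
  · intro i hi j hj hij
    change Disjoint _ _
    rw [Finset.disjoint_left]
    intro Z h1 h2
    rw [Finset.mem_image] at h1 h2
    obtain ⟨Y, hY, rfl⟩ := h1
    obtain ⟨Y', hY', he⟩ := h2
    rw [Finset.mem_powerset] at hY hY'
    have hjm : j ∈ insert i Y := by rw [← he]; exact Finset.mem_insert_self _ _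
    have him : i ∈ insert j Y' := by rw [he]; exact Finset.mem_insert_self _ _
    rcases Finset.mem_insert.1 hjm with h | h
    · exact hij h.symm
    rcases Finset.mem_insert.1 him with h' | h'
    · exact hij h'
    have b1 := (Finset.mem_filter.1 (hY h)).2
    have b2 := (Finset.mem_filter.1 (hY' h')).2
    rw [br_asymm b1] at b2
    exact absurd b2 (by simp)

lemma sp_eq (S : Finset (Fin n)) (l : Fin n) (hl : l ∉ S) :
    sp v S l = 1 + ∑ i ∈ S.filter (fun i => br v l i = true), (2 : ℤ) ^ hh v S i - 2 ^ hh v S l := by
  -- A : non spanning subsets of S, B : those which stay non spanning with l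
  have hA : ((S.powerset.filter fun Z => ¬ Span v Z).card : ℤ) = 1 + ∑ i ∈ S, (2 : ℤ) ^ hh v S i := by
    have e : (S.powerset.filter fun Z => ¬ Span v Z) =
        insert ∅ (S.powerset.filter fun Z => Z.Nonempty ∧ ¬ Span v Z) := by
      ext Z
      simp only [Finset.mem_filter, Finset.mem_powerset, Finset.mem_insert]
      constructor
      · rintro ⟨h1, h2⟩
        rcases Finset.eq_empty_or_nonempty Z with h | h
        · exact Or.inl h
        · exact Or.inr ⟨h1, h, h2⟩
      · rintro (rfl | ⟨h1, _, h2⟩)
        · exact ⟨Finset.empty_subset _, fun h => by simpa using h.1⟩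
        · exact ⟨h1, h2⟩
    rw [e, Finset.card_insert_of_notMem, card_nonspan]
    · push_cast; ring
    · simp
  have hT := card_nonspan (v := v) (insert l S)
  have hsplit : ((insert l S).powerset.filter fun Z => Z.Nonempty ∧ ¬ Span v Z).card =
      (S.powerset.filter fun Z => Z.Nonempty ∧ ¬ Span v Z).card +
      (S.powerset.filter fun Z => ¬ Span v (insert l Z)).card := by
    rw [Finset.powerset_insert, Finset.filter_union, Finset.card_union_of_disjoint]
    · congr 1
      rw [Finset.filter_image, Finset.card_image_of_injOn]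
      · congr 1
        refine Finset.filter_congr fun Z _ => ?_
        simp
      · intro Y hY Y' hY' he
        have h1 : l ∉ Y := fun h => hl (Finset.mem_powerset.1 (Finset.mem_filter.1 hY).1 h)
        have h2 : l ∉ Y' := fun h => hl (Finset.mem_powerset.1 (Finset.mem_filter.1 hY').1 h)
        rw [← Finset.erase_insert h1, ← Finset.erase_insert h2, he]
    · rw [Finset.disjoint_left]
      intro Z h1 h2
      have h3 := Finset.mem_powerset.1 (Finset.mem_filter.1 h1).1
      obtain ⟨Y, _, rfl⟩ := Finset.mem_image.1 (Finset.mem_filter.1 h2).1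
      exact hl (h3 (Finset.mem_insert_self _ _))
  have hB : ((S.powerset.filter fun Z => ¬ Span v (insert l Z)).card : ℤ) =
      2 ^ hh v S l + ∑ i ∈ S.filter (fun i => ¬ br v l i = true), (2 : ℤ) ^ hh v S i := by
    rw [hT, card_nonspan] at hsplit
    have h1 : ∑ i ∈ insert l S, 2 ^ hh v (insert l S) i = 2 ^ hh v S l +
        (∑ i ∈ S, 2 ^ hh v S i + ∑ i ∈ S.filter (fun i => ¬ br v l i = true), 2 ^ hh v S i) := by
      rw [Finset.sum_insert hl]
      congr 1
      · congr 1
        unfold hh
        rw [Finset.filter_insert, if_neg]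
        rw [br_self]; simp
      · rw [Finset.sum_filter, ← Finset.sum_add_distrib]
        refine Finset.sum_congr rfl fun i hi => ?_
        have hil : i ≠ l := by rintro rfl; exact hl hi
        unfold hh
        rw [Finset.filter_insert]
        by_cases hb : br v l i = true
        · rw [if_neg (by rw [br_asymm hb]; simp), if_neg (by simp [hb]), add_zero]
        · have hb' : br v i l = true := br_of_not hil (by simpa using hb)
          rw [if_pos hb', if_pos hb, Finset.card_insert_of_notMem, pow_succ]
          · ring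
          · intro hm; exact hl (Finset.mem_filter.1 hm).1
    rw [h1] at hsplit
    have h2 : (S.powerset.filter fun Z => ¬ Span v (insert l Z)).card =
        2 ^ hh v S l + ∑ i ∈ S.filter (fun i => ¬ br v l i = true), 2 ^ hh v S i := by omega
    rw [h2]; push_cast; ring
  have hsp : (S.powerset.filter fun Z => ¬ Span v Z).card =
      (S.powerset.filter fun Z => ¬ Span v Z ∧ Span v (insert l Z)).card +
      (S.powerset.filter fun Z => ¬ Span v (insert l Z)).card := by
    rw [← Finset.card_union_of_disjoint]
    · congr 1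
      ext Z
      simp only [Finset.mem_filter, Finset.mem_union]
      constructor
      · rintro ⟨h1, h2⟩
        by_cases h3 : Span v (insert l Z)
        · exact Or.inl ⟨h1, h2, h3⟩
        · exact Or.inr ⟨h1, h3⟩
      · rintro (⟨h1, h2, _⟩ | ⟨h1, h2⟩)
        · exact ⟨h1, h2⟩
        · exact ⟨h1, fun h => h2 (span_insert h)⟩
    · rw [Finset.disjoint_left]
      intro Z h1 h2
      exact (Finset.mem_filter.1 h2).2 (Finset.mem_filter.1 h1).2.2
  have hsum : ∑ i ∈ S, (2 : ℤ) ^ hh v S i = ∑ i ∈ S.filter (fun i => br v l i = true), (2 : ℤ) ^ hh v S i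
      + ∑ i ∈ S.filter (fun i => ¬ br v l i = true), (2 : ℤ) ^ hh v S i :=
    (Finset.sum_filter_add_sum_filter_not _ _ _).symm
  unfold sp
  have h5 : ((S.powerset.filter fun Z => ¬ Span v Z).card : ℤ) =
      ((S.powerset.filter fun Z => ¬ Span v Z ∧ Span v (insert l Z)).card : ℤ) +
      ((S.powerset.filter fun Z => ¬ Span v (insert l Z)).card : ℤ) := by exact_mod_cast hsp
  rw [hA, hB, hsum] at h5
  linarith

/-! ### the half circle -/

/-- number of lines of `S` whose sign at position `r` differs from that of `l` -/
def dd (v : Fin n → Bool) (S : Finset (Fin n)) (l r : Fin n) : ℕ :=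
  (S.filter fun j => sg v r j ≠ sg v r l).card

lemma F1 {l x i : Fin n} (h : rel l x < rel l i) (hxl : x ≠ l) (hil : i ≠ l) :
    (sg v x i ≠ sg v x l) ↔ br v l i = true := by
  have hl := l.isLt; have hx := x.isLt; have hi := i.isLt
  have n1 : x.val ≠ l.val := fun e => hxl (Fin.ext e)
  have n2 : i.val ≠ l.val := fun e => hil (Fin.ext e)
  unfold br
  rw [decide_eq_true (Ne.symm hil), Bool.true_and, beq_iff_eq]
  unfold _root_.KK.rel at h
  unfold sg
  simp only [Fin.lt_def, Fin.le_def] at h ⊢
  by_cases c1 : l.val < x.val <;> by_cases c2 : l.val < i.val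
  all_goals simp only [c1, c2, if_true, if_false] at h
  all_goals first
    | (exfalso; omega)
    | skip
  · rw [if_neg (show ¬ i.val ≤ x.val by omega), if_pos (show l.val ≤ x.val by omega),
      if_neg (show ¬ i.val ≤ l.val by omega)]
    cases v i <;> cases v l <;> decide
  · rw [if_pos (show i.val ≤ x.val by omega), if_pos (show l.val ≤ x.val by omega),
      if_pos (show i.val ≤ l.val by omega)]
    cases v i <;> cases v l <;> decide
  · rw [if_neg (show ¬ i.val ≤ x.val by omega), if_neg (show ¬ l.val ≤ x.val by omega),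
      if_pos (show i.val ≤ l.val by omega)]
    cases v i <;> cases v l <;> decide

lemma F2 {l x i : Fin n} (h : rel l x < rel l i) (hxl : x ≠ l) (hil : i ≠ l) :
    (sg v i x ≠ sg v i l) ↔ ¬ br v l x = true := by
  have hl := l.isLt; have hx := x.isLt; have hi := i.isLt
  have n1 : x.val ≠ l.val := fun e => hxl (Fin.ext e)
  have n2 : i.val ≠ l.val := fun e => hil (Fin.ext e)
  unfold br
  rw [decide_eq_true (Ne.symm hxl), Bool.true_and, beq_iff_eq]
  unfold _root_.KK.rel at h
  unfold sg
  simp only [Fin.lt_def, Fin.le_def] at h ⊢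
  by_cases c1 : l.val < x.val <;> by_cases c2 : l.val < i.val
  all_goals simp only [c1, c2, if_true, if_false] at h
  all_goals first
    | (exfalso; omega)
    | skip
  · rw [if_pos (show x.val ≤ i.val by omega), if_pos (show l.val ≤ i.val by omega),
      if_neg (show ¬ x.val ≤ l.val by omega)]
    cases v x <;> cases v l <;> decide
  · rw [if_neg (show ¬ x.val ≤ i.val by omega), if_neg (show ¬ l.val ≤ i.val by omega),
      if_neg (show ¬ x.val ≤ l.val by omega)]
  · rw [if_pos (show x.val ≤ i.val by omega), if_neg (show ¬ l.val ≤ i.val by omega),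
      if_pos (show x.val ≤ l.val by omega)]

lemma F3 {l i : Fin n} (hil : i ≠ l) : (sg v i i ≠ sg v i l) ↔ ¬ br v l i = true := by
  have n2 : i.val ≠ l.val := fun e => hil (Fin.ext e)
  unfold br
  rw [decide_eq_true (Ne.symm hil), Bool.true_and, beq_iff_eq]
  unfold sg
  simp only [Fin.le_def]
  rw [if_pos le_rfl]
  rcases Nat.lt_or_ge l.val i.val with h | h
  · rw [if_pos h.le, if_neg (by omega)]
    cases v i <;> cases v l <;> decide
  · rw [if_neg (by omega), if_pos h]

lemma half (l : Fin n) (S : Finset (Fin n)) : l ∉ S →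
    ∑ i ∈ S, (if br v l i = true then 2 * (2 : ℤ) ^ dd v S l i else -(2 ^ dd v S l i)) =
      2 * 2 ^ hh v S l - 2 * 2 ^ (S.filter fun j => ¬ br v l j = true).card := by
  refine Finset.induction_on_max_value (rel l) S ?_ ?_
  · intro _; simp [hh]
  · intro i T hiT hmax ih hl
    have hil : i ≠ l := by rintro rfl; exact hl (Finset.mem_insert_self _ _)
    have hlT : l ∉ T := fun h => hl (Finset.mem_insert_of_mem h)
    have ih' := ih hlT
    have hlt : ∀ x ∈ T, rel l x < rel l i := fun x hx =>
      lt_of_le_of_ne (hmax x hx) fun e => hiT (by rw [← rel_inj e]; exact hx)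
    have hxl : ∀ x ∈ T, x ≠ l := fun x hx e => hlT (e ▸ hx)
    rw [Finset.sum_insert hiT]
    have hdi : dd v (insert i T) l i = (T.filter fun j => ¬ br v l j = true).card +
        (if br v l i = true then 0 else 1) := by
      unfold dd
      rw [Finset.filter_insert]
      have e : (T.filter fun j => sg v i j ≠ sg v i l) = T.filter fun j => ¬ br v l j = true :=
        Finset.filter_congr fun x hx => F2 (hlt x hx) (hxl x hx) hil
      by_cases hb : br v l i = true
      · rw [if_neg (by rw [F3 hil]; simpa using hb), e, if_pos hb, add_zero]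
      · rw [if_pos ((F3 hil).2 hb), if_neg hb, Finset.card_insert_of_notMem, e]
        intro hm; exact hiT (Finset.mem_filter.1 hm).1
    have hdx : ∀ x ∈ T, dd v (insert i T) l x = dd v T l x + (if br v l i = true then 1 else 0) := by
      intro x hx
      unfold dd
      rw [Finset.filter_insert]
      by_cases hb : br v l i = true
      · rw [if_pos ((F1 (hlt x hx) (hxl x hx) hil).2 hb), if_pos hb, Finset.card_insert_of_notMem]
        intro hm; exact hiT (Finset.mem_filter.1 hm).1
      · rw [if_neg (by rw [F1 (hlt x hx) (hxl x hx) hil]; exact hb), if_neg hb, add_zero]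
    have hhl : hh v (insert i T) l = hh v T l + (if br v l i = true then 1 else 0) := by
      unfold hh
      rw [Finset.filter_insert]
      by_cases hb : br v l i = true
      · rw [if_pos hb, if_pos hb, Finset.card_insert_of_notMem]
        intro hm; exact hiT (Finset.mem_filter.1 hm).1
      · rw [if_neg hb, if_neg hb, add_zero]
    have hnl : ((insert i T).filter fun j => ¬ br v l j = true).card =
        (T.filter fun j => ¬ br v l j = true).card + (if br v l i = true then 0 else 1) := by
      rw [Finset.filter_insert]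
      by_cases hb : br v l i = true
      · rw [if_neg (by simpa using hb), if_pos hb, add_zero]
      · rw [if_pos hb, if_neg hb, Finset.card_insert_of_notMem]
        intro hm; exact hiT (Finset.mem_filter.1 hm).1
    rw [hdi, hhl, hnl]
    have hs : ∑ x ∈ T, (if br v l x = true then 2 * (2 : ℤ) ^ dd v (insert i T) l x else
        -(2 ^ dd v (insert i T) l x)) = (if br v l i = true then 2 else 1) *
        ∑ x ∈ T, (if br v l x = true then 2 * (2 : ℤ) ^ dd v T l x else -(2 ^ dd v T l x)) := by
      rw [Finset.mul_sum]
      refine Finset.sum_congr rfl fun x hx => ?_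
      rw [hdx x hx]
      by_cases hb : br v l i = true
      · rw [if_pos hb, if_pos hb, pow_succ]; split_ifs <;> ring
      · rw [if_neg hb, if_neg hb, add_zero, one_mul]
    rw [hs, ih']
    by_cases hb : br v l i = true
    · simp only [hb, if_true]; ring
    · simp only [hb]; simp; ring

theorem sp_free (v : Fin n → Bool) : SpFree v := by
  intro S l hS hl w hw
  have hne : S.Nonempty := Finset.card_pos.1 (by omega)
  have hil : ∀ i ∈ S, i ≠ l := fun i hi e => hl (e ▸ hi)
  -- the last line before l
  obtain ⟨a0, r0, hW⟩ := exists_walls hne l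
  have hr0 : r0 ∈ S := hW.2.1
  have hr0l : r0 ≠ l := hil r0 hr0
  have hinner : ∀ r ∈ S, (_root_.KK.inner r (w r) r l = true ↔ r ≠ r0) := by
    intro r hr
    have hrl := hil r hr
    have h1 := (hw r hr)
    have n1 : r.val ≠ l.val := fun e => hrl (Fin.ext e)
    have n2 : r0.val ≠ l.val := fun e => hr0l (Fin.ext e)
    have hl' := l.isLt; have hr' := r.isLt; have hr0' := r0.isLt; have hw' := (w r).isLt
    unfold _root_.KK.inner
    rw [Bool.and_eq_true, decide_eq_true_iff, decide_eq_true_iff]
    constructor
    · rintro ⟨h2, _⟩ rfl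
      have h3 := (hW.2.2 (w r) h1.1).2
      unfold _root_.KK.rel at h2 h3
      simp only [Fin.lt_def] at h2 h3
      split_ifs at h2 h3 <;> omega
    · intro hne'
      have n3 : r.val ≠ r0.val := fun e => hne' (Fin.ext e)
      have h3 := (hW.2.2 r hr).2
      have h4 := (h1.2.2 r0 hr0).1
      have h5 : rel r r0 < rel r l := by
        unfold _root_.KK.rel at h3 ⊢
        simp only [Fin.lt_def] at h3 ⊢
        split_ifs at h3 ⊢ <;> omega
      refine ⟨lt_of_le_of_lt h4 h5, ?_⟩
      unfold _root_.KK.rel
      simp only [Fin.lt_def]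
      split_ifs <;> omega
  -- the exponents
  have hcnt : ∀ r, cnt v S r (!(sg v r l)) = dd v S l r := by
    intro r
    unfold cnt dd
    congr 1
    refine Finset.filter_congr fun j _ => ?_
    cases sg v r j <;> cases sg v r l <;> decide
  have hsum : ∑ r ∈ S, (if _root_.KK.inner r (w r) r l then
      (2 : ℤ) ^ cnt v S r (!(sg v r l)) else -(2 ^ cnt v S r true + 2 ^ cnt v S r false)) =
      ∑ r ∈ S, (2 : ℤ) ^ dd v S l r - 2 ^ dd v S l r0 -
        (2 ^ cnt v S r0 true + 2 ^ cnt v S r0 false) := by
    rw [← Finset.add_sum_erase S _ hr0, ← Finset.add_sum_erase S (fun r => (2 : ℤ) ^ dd v S l r) hr0]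
    have e1 : ∑ r ∈ S.erase r0, (if _root_.KK.inner r (w r) r l then
      (2 : ℤ) ^ cnt v S r (!(sg v r l)) else -(2 ^ cnt v S r true + 2 ^ cnt v S r false)) =
      ∑ r ∈ S.erase r0, (2 : ℤ) ^ dd v S l r := by
      refine Finset.sum_congr rfl fun r hr => ?_
      rw [Finset.mem_erase] at hr
      rw [if_pos ((hinner r hr.2).2 hr.1), hcnt]
    rw [e1, if_neg (fun h => (hinner r0 hr0).1 h rfl)]
    ring
  -- the values at r0
  have hr0sg : ∀ k ∈ S, sg v r0 k = xor (sg v l k) (decide (l < r0)) := by
    intro k hk
    rw [sg_last hW hk]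
    cases sg v r0 k <;> cases decide (l < r0) <;> rfl
  have hr0l' : sg v r0 l = xor (v l) (decide (l < r0)) := by
    unfold sg
    rcases lt_or_gt_of_ne hr0l with h | h
    · rw [if_neg (not_le.2 h), decide_eq_false (not_lt.2 h.le)]; simp
    · rw [if_pos h.le, decide_eq_true h]; simp
  have hd0 : dd v S l r0 = (S.filter fun j => ¬ br v l j = true).card := by
    unfold dd
    congr 1
    refine Finset.filter_congr fun j hj => ?_
    rw [hr0sg j hj, hr0l']
    unfold br
    rw [decide_eq_true (hil j hj).symm, Bool.true_and, beq_iff_eq]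
    cases sg v l j <;> cases v l <;> cases decide (l < r0) <;> decide
  have hw0 : (2 : ℤ) ^ cnt v S r0 true + 2 ^ cnt v S r0 false =
      2 ^ (S.filter fun j => ¬ br v l j = true).card + 2 ^ hh v S l := by
    rw [sum_cnt v S r0 (!(sg v r0 l)), hcnt, hd0, Bool.not_not]
    congr 2
    unfold cnt hh
    congr 1
    refine Finset.filter_congr fun j hj => ?_
    rw [hr0sg j hj, hr0l']
    unfold br
    rw [decide_eq_true (hil j hj).symm, Bool.true_and, beq_iff_eq]
    cases sg v l j <;> cases v l <;> cases decide (l < r0) <;> decide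
  have hhalf := half (v := v) l S hl
  have hhi : ∀ i ∈ S.filter (fun i => br v l i = true), hh v S i = dd v S l i := by
    intro i hi
    rw [Finset.mem_filter] at hi
    have h1 : sg v i l = !(v i) := by
      have h2 := br_asymm hi.2
      unfold br at h2
      rw [decide_eq_true (hil i hi.1), Bool.true_and] at h2
      revert h2
      cases sg v i l <;> cases v i <;> decide
    unfold hh dd
    congr 1
    refine Finset.filter_congr fun j hj => ?_
    by_cases hji : i = j
    · subst hji
      rw [br_self]
      have h3 : sg v i i = !(v i) := by unfold sg; rw [if_pos le_rfl]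
      rw [h1, h3]; simp
    · unfold br
      rw [decide_eq_true hji, Bool.true_and, beq_iff_eq, h1]
      cases sg v i j <;> cases v i <;> decide
  rw [hsum, hd0, hw0, sp_eq S l hl]
  have e2 : ∑ i ∈ S.filter (fun i => br v l i = true), (2 : ℤ) ^ hh v S i =
      ∑ i ∈ S.filter (fun i => br v l i = true), (2 : ℤ) ^ dd v S l i :=
    Finset.sum_congr rfl fun i hi => by rw [hhi i hi]
  rw [e2]
  have e3 : ∑ i ∈ S, (if br v l i = true then 2 * (2 : ℤ) ^ dd v S l i else -(2 ^ dd v S l i)) =
      3 * ∑ i ∈ S.filter (fun i => br v l i = true), (2 : ℤ) ^ dd v S l i -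
        ∑ i ∈ S, (2 : ℤ) ^ dd v S l i := by
    rw [Finset.sum_filter, Finset.mul_sum, ← Finset.sum_sub_distrib]
    refine Finset.sum_congr rfl fun i _ => ?_
    split_ifs <;> ring
  rw [e3] at hhalf
  linarith

end Pool.Agent.KK
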