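import Mathlib
import Pool.Agent.KK.T0D

/-!
The vertex weight `W0` of a sign vector is the weight `W` of the signed order.
-/

set_option autoImplicit false

namespace Pool.Agent.KK

open Finset
open _root_.KK (sg)

variable {n : ℕ}

theorem br_lt {v : Fin n → Bool} {i j : Fin n} (h : i < j) : br v i j = (v j == v i) := by
  unfold br sg
  rw [if_neg (not_le.2 h)]
  simp [h.ne]

theorem br_gt {v : Fin n → Bool} {i j : Fin n} (h : j < i) : br v i j = !(v j == v i) := by
  unfold br sg
  rw [if_pos h.le]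
  have : decide (i ≠ j) = true := decide_eq_true h.ne'
  rw [this, Bool.true_and]
  cases v i <;> cases v j <;> rfl

/-- an alternating triple -/
def Al (v : Fin n → Bool) (a b c : Fin n) : Prop := a < b ∧ b < c ∧ v a = v c ∧ v b ≠ v a

/-- spanning sets are those which contain an alternating triple -/
theorem span_iff {v : Fin n → Bool} {Z : Finset (Fin n)} :
    Span v Z ↔ ∃ a ∈ Z, ∃ b ∈ Z, ∃ c ∈ Z, Al v a b c := by
  constructor
  · rintro ⟨hne, h⟩
    obtain ⟨a, ha, hmin⟩ := Z.exists_min_image id hne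
    simp only [id] at hmin
    obtain ⟨j, hj, hja⟩ := h a ha
    have hne : (Z.filter fun j => a < j ∧ v j ≠ v a).Nonempty := by
      refine ⟨j, ?_⟩
      rw [Finset.mem_filter]
      have h1 := hmin j hj
      rcases h1.eq_or_lt with h2 | h2
      · exfalso
        subst h2
        simp [br] at hja
      · rw [br_gt h2] at hja
        refine ⟨hj, h2, fun h3 => ?_⟩
        rw [h3] at hja
        simp at hja
    obtain ⟨b, hb, hbmin⟩ := (Z.filter fun j => a < j ∧ v j ≠ v a).exists_min_image id hne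
    simp only [id, Finset.mem_filter] at hb hbmin
    obtain ⟨hbZ, hab, hvb⟩ := hb
    obtain ⟨c, hc, hcb⟩ := h b hbZ
    rcases lt_trichotomy c b with hlt | heq | hgt
    · exfalso
      rw [br_lt hlt, beq_iff_eq] at hcb
      rcases (hmin c hc).eq_or_lt with h2 | h2
      · rw [← h2] at hcb
        exact hvb hcb
      · have h3 := hbmin c ⟨hc, h2, by rw [← hcb]; exact hvb⟩
        exact absurd h3 (not_le.2 hlt)
    · exfalso
      subst heq
      simp [br] at hcb
    · rw [br_gt hgt] at hcb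
      refine ⟨a, ha, b, hbZ, c, hc, hab, hgt, ?_, hvb⟩
      revert hcb hvb
      cases v a <;> cases v b <;> cases v c <;> simp
  · rintro ⟨a, ha, b, hb, c, hc, hab, hbc, hac, hvb⟩
    refine ⟨⟨a, ha⟩, fun i hi => ?_⟩
    by_cases hvi : v i = v a
    · rcases lt_or_ge a i with h1 | h1
      · exact ⟨a, ha, by rw [br_lt h1, hvi]; simp⟩
      · refine ⟨b, hb, ?_⟩
        rw [br_gt (lt_of_le_of_lt h1 hab), hvi]
        revert hvb
        cases v a <;> cases v b <;> simp
    · rcases lt_or_ge b i with h1 | h1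
      · refine ⟨b, hb, ?_⟩
        rw [br_lt h1]
        revert hvb hvi
        cases v a <;> cases v b <;> cases v i <;> simp
      · refine ⟨c, hc, ?_⟩
        rw [br_gt (lt_of_le_of_lt h1 hbc)]
        revert hac hvi
        cases v a <;> cases v c <;> cases v i <;> simp

theorem span_mono {v : Fin n → Bool} {Z Z' : Finset (Fin n)} (h : Z ⊆ Z') (hZ : Span v Z) :
    Span v Z' := by
  rw [span_iff] at hZ ⊢
  obtain ⟨a, ha, b, hb, c, hc, hh⟩ := hZ
  exact ⟨a, h ha, b, h hb, c, h hc, hh⟩

/-- the triple contains `l` -/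
def Has (l a b c : Fin n) : Prop := l = a ∨ l = b ∨ l = c

/-- if `insert l Z` spans then some alternating triple contains `l` -/
theorem exists_has {v : Fin n → Bool} {Z : Finset (Fin n)} {l : Fin n} (hl : l ∉ Z)
    (h : Span v (insert l Z)) :
    ∃ a ∈ insert l Z, ∃ b ∈ insert l Z, ∃ c ∈ insert l Z, Al v a b c ∧ Has l a b c := by
  by_cases hZ : Span v Z
  · rw [span_iff] at hZ
    obtain ⟨a, ha, b, hb, c, hc, hab, hbc, hac, hvb⟩ := hZ
    have hla : l ≠ a := by rintro rfl; exact hl ha
    have hlb : l ≠ b := by rintro rfl; exact hl hb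
    have hlc : l ≠ c := by rintro rfl; exact hl hc
    have ha' := Finset.mem_insert_of_mem (a := a) (b := l) ha
    have hb' := Finset.mem_insert_of_mem (a := b) (b := l) hb
    have hc' := Finset.mem_insert_of_mem (a := c) (b := l) hc
    have hl' := Finset.mem_insert_self l Z
    by_cases hvl : v l = v a
    · rcases lt_or_gt_of_ne hlb with h1 | h1
      · exact ⟨l, hl', b, hb', c, hc', ⟨h1, hbc, hvl.trans hac, by rw [hvl]; exact hvb⟩,
          Or.inl rfl⟩
      · exact ⟨a, ha', b, hb', l, hl', ⟨hab, h1, hvl.symm, hvb⟩, Or.inr (Or.inr rfl)⟩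
    · have hlb' : v l = v b := by
        revert hvl hvb
        cases v a <;> cases v b <;> cases v l <;> simp
      rcases lt_or_gt_of_ne hla with h1 | h1
      · exact ⟨l, hl', a, ha', b, hb', ⟨h1, hab, hlb', fun h => hvl h.symm⟩, Or.inl rfl⟩
      · rcases lt_or_gt_of_ne hlc with h2 | h2
        · exact ⟨a, ha', l, hl', c, hc', ⟨h1, h2, hac, hvl⟩, Or.inr (Or.inl rfl)⟩
        · refine ⟨b, hb', c, hc', l, hl', ⟨hbc, h2, hlb'.symm, ?_⟩, Or.inr (Or.inr rfl)⟩
          rw [← hac]
          exact fun h => hvb h.symm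
  · rw [span_iff] at h
    obtain ⟨a, ha, b, hb, c, hc, hh⟩ := h
    refine ⟨a, ha, b, hb, c, hc, hh, ?_⟩
    by_contra hcon
    unfold Has at hcon
    push Not at hcon
    apply hZ
    rw [span_iff]
    refine ⟨a, ?_, b, ?_, c, ?_, hh⟩
    · exact (Finset.mem_insert.1 ha).resolve_left hcon.1.symm
    · exact (Finset.mem_insert.1 hb).resolve_left hcon.2.1.symm
    · exact (Finset.mem_insert.1 hc).resolve_left hcon.2.2.symm

theorem bo_eq {σ : Fin n → ℤˣ} {a b : Fin n} : bo σ a = bo σ b ↔ σ a = σ b := by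
  unfold bo
  have : ∀ x y : ℤˣ, decide (x = 1) = decide (y = 1) ↔ x = y := by decide
  exact this _ _

theorem alt_iff {σ : Fin n → ℤˣ} {a b c : Fin n} : K2L.Alt σ a b c ↔ Al (bo σ) a b c := by
  unfold K2L.Alt Al
  rw [bo_eq, ne_eq, ne_eq, bo_eq]

/-- a face of the tie: spanning and all alternating triples have the right outermost sign -/
def Good (r : Fin n → ℕ) (e σ : Fin n → ℤˣ) (Z : Finset (Fin n)) : Prop :=
  (∃ a ∈ Z, ∃ b ∈ Z, ∃ c ∈ Z, K2L.Alt σ a b c) ∧
    ∀ a ∈ Z, ∀ b ∈ Z, ∀ c ∈ Z, K2L.Alt σ a b c → K2L.OutOK r e σ a b c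

instance (r : Fin n → ℕ) (e σ : Fin n → ℤˣ) (Z : Finset (Fin n)) : Decidable (Good r e σ Z) := by
  unfold Good; infer_instance

theorem span_bo {σ : Fin n → ℤˣ} {Z : Finset (Fin n)} :
    Span (bo σ) Z ↔ ∃ a ∈ Z, ∃ b ∈ Z, ∃ c ∈ Z, K2L.Alt σ a b c := by
  rw [span_iff]
  simp only [alt_iff]

theorem good_empty (r : Fin n → ℕ) (e σ : Fin n → ℤˣ) : ¬ Good r e σ ∅ := by
  rintro ⟨⟨a, ha, _⟩, _⟩
  simp at ha

/-- insertion of the outermost line -/
theorem good_insert {r : Fin n → ℕ} {e σ : Fin n → ℤˣ} {Z : Finset (Fin n)} {l : Fin n}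
    (hl : l ∉ Z) (hr : ∀ k ∈ Z, r k < r l) :
    Good r e σ (insert l Z) ↔
      e l = σ l ∧ (Good r e σ Z ∨ (¬ Span (bo σ) Z ∧ Span (bo σ) (insert l Z))) := by
  have hmem : ∀ k ∈ insert l Z, k ≠ l → k ∈ Z := fun k hk hkl =>
    (Finset.mem_insert.1 hk).resolve_left hkl
  have hout : e l = σ l → ∀ a ∈ insert l Z, ∀ b ∈ insert l Z, ∀ c ∈ insert l Z,
      K2L.Alt σ a b c → Has l a b c → K2L.OutOK r e σ a b c := by
    intro he a ha b hb c hc hA hH
    obtain ⟨hab, hbc, _, _⟩ := hA
    rcases hH with rfl | rfl | rfl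
    · have h1 := hr b (hmem b hb hab.ne')
      have h2 := hr c (hmem c hc (hab.trans hbc).ne')
      exact ⟨fun _ _ => he, fun h _ => absurd h h1.le.not_gt, fun h _ => absurd h h2.le.not_gt⟩
    · have h1 := hr a (hmem a ha hab.ne)
      have h2 := hr c (hmem c hc hbc.ne')
      exact ⟨fun h _ => absurd h h1.le.not_gt, fun _ _ => he, fun _ h => absurd h h2.le.not_gt⟩
    · have h1 := hr a (hmem a ha (hab.trans hbc).ne)
      have h2 := hr b (hmem b hb hbc.ne)
      exact ⟨fun _ h => absurd h h1.le.not_gt, fun _ h => absurd h h2.le.not_gt, fun _ _ => he⟩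
  constructor
  · rintro ⟨h1, h2⟩
    have hsp : Span (bo σ) (insert l Z) := span_bo.2 h1
    refine ⟨?_, ?_⟩
    · obtain ⟨a, ha, b, hb, c, hc, hA, hH⟩ := exists_has hl hsp
      obtain ⟨hab, hbc, _, _⟩ := id hA
      have h3 := h2 a ha b hb c hc (alt_iff.2 hA)
      rcases hH with rfl | rfl | rfl
      · exact h3.1 (hr b (hmem b hb hab.ne')) (hr c (hmem c hc (hab.trans hbc).ne'))
      · exact h3.2.1 (hr a (hmem a ha hab.ne)) (hr c (hmem c hc hbc.ne'))
      · exact h3.2.2 (hr a (hmem a ha (hab.trans hbc).ne)) (hr b (hmem b hb hbc.ne))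
    · by_cases hZ : Span (bo σ) Z
      · left
        exact ⟨span_bo.1 hZ, fun a ha b hb c hc hA => h2 a (Finset.mem_insert_of_mem ha) b
          (Finset.mem_insert_of_mem hb) c (Finset.mem_insert_of_mem hc) hA⟩
      · right
        exact ⟨hZ, hsp⟩
  · rintro ⟨he, h | ⟨h1, h2⟩⟩
    · refine ⟨?_, fun a ha b hb c hc hA => ?_⟩
      · obtain ⟨a, ha, b, hb, c, hc, hA⟩ := h.1
        exact ⟨a, Finset.mem_insert_of_mem ha, b, Finset.mem_insert_of_mem hb, c,
          Finset.mem_insert_of_mem hc, hA⟩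
      · by_cases hH : Has l a b c
        · exact hout he a ha b hb c hc hA hH
        · unfold Has at hH
          push Not at hH
          exact h.2 a (hmem a ha hH.1.symm) b (hmem b hb hH.2.1.symm) c
            (hmem c hc hH.2.2.symm) hA
    · refine ⟨span_bo.1 h2, fun a ha b hb c hc hA => ?_⟩
      by_cases hH : Has l a b c
      · exact hout he a ha b hb c hc hA hH
      · exfalso
        unfold Has at hH
        push Not at hH
        exact h1 (span_bo.2 ⟨a, hmem a ha hH.1.symm, b, hmem b hb hH.2.1.symm, c,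
          hmem c hc hH.2.2.symm, hA⟩)

/-- number of the good subsets of `S` -/
def NN (r : Fin n → ℕ) (e σ : Fin n → ℤˣ) (S : Finset (Fin n)) : ℤ :=
  ∑ Z ∈ S.powerset, if Good r e σ Z then 1 else 0

theorem NN_empty (r : Fin n → ℕ) (e σ : Fin n → ℤˣ) : NN r e σ ∅ = 0 := by
  unfold NN
  rw [Finset.powerset_empty, Finset.sum_singleton, if_neg (good_empty r e σ)]

theorem NN_insert {r : Fin n → ℕ} {e σ : Fin n → ℤˣ} {S : Finset (Fin n)} {l : Fin n}
    (hl : l ∉ S) (hr : ∀ k ∈ S, r k < r l) :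
    NN r e σ (insert l S) = NN r e σ S + if e l = σ l then NN r e σ S + sp (bo σ) S l else 0 := by
  unfold NN
  rw [Finset.sum_powerset_insert hl]
  congr 1
  have key : ∀ Z ∈ S.powerset, (if Good r e σ (insert l Z) then (1 : ℤ) else 0) =
      if e l = σ l then ((if Good r e σ Z then 1 else 0) +
        if ¬ Span (bo σ) Z ∧ Span (bo σ) (insert l Z) then 1 else 0) else 0 := by
    intro Z hZ
    rw [Finset.mem_powerset] at hZ
    have h := good_insert (e := e) (σ := σ) (fun h => hl (hZ h)) (fun k hk => hr k (hZ hk))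
    by_cases he : e l = σ l
    · rw [if_pos he]
      by_cases hG : Good r e σ Z
      · have h1 : Span (bo σ) Z := span_bo.2 hG.1
        have h2 : ¬ (¬ Span (bo σ) Z ∧ Span (bo σ) (insert l Z)) := fun h3 => h3.1 h1
        rw [if_pos hG, if_neg h2, if_pos (h.2 ⟨he, Or.inl hG⟩)]
        rfl
      · by_cases hB : ¬ Span (bo σ) Z ∧ Span (bo σ) (insert l Z)
        · rw [if_neg hG, if_pos hB, if_pos (h.2 ⟨he, Or.inr hB⟩)]
          rfl
        · rw [if_neg hG, if_neg hB, if_neg]
          · rfl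
          · intro h2
            rcases (h.1 h2).2 with h3 | h3
            · exact hG h3
            · exact hB h3
    · rw [if_neg he, if_neg (fun h2 => he (h.1 h2).1)]
  rw [Finset.sum_congr rfl key]
  by_cases he : e l = σ l
  · simp only [if_pos he]
    rw [Finset.sum_add_distrib]
    congr 1
    unfold sp
    rw [Finset.card_filter]
    push_cast
    rfl
  · simp only [if_neg he, Finset.sum_const_zero]

theorem W_eq_NN {r : Fin n → ℕ} {e σ : Fin n → ℤˣ} : ∀ L : List (Fin n × Bool),
    L.Pairwise (fun a b => r b.1 < r a.1) → (∀ p ∈ L, p.2 = decide (σ p.1 * e p.1 = 1)) →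
      W (bo σ) L = 1 + NN r e σ (lines L)
  | [], _, _ => by
    have h : lines ([] : List (Fin n × Bool)) = ∅ := rfl
    rw [h, NN_empty]
    rfl
  | (l, x) :: L, hd, hs => by
    rw [List.pairwise_cons] at hd
    have ih := W_eq_NN L hd.2 (fun p hp => hs p (List.mem_cons_of_mem _ hp))
    have hr : ∀ k ∈ lines L, r k < r l := by
      intro k hk
      unfold lines at hk
      rw [List.mem_toFinset, List.mem_map] at hk
      obtain ⟨p, hp, rfl⟩ := hk
      exact hd.1 p hp
    have hl : l ∉ lines L := fun h => absurd (hr l h) (lt_irrefl _)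
    have hx : x = decide (σ l * e l = 1) := hs (l, x) List.mem_cons_self
    have hxe : x = true ↔ e l = σ l := by
      rw [hx]
      have : ∀ a b : ℤˣ, decide (a * b = 1) = true ↔ b = a := by decide
      exact this _ _
    have hlin : lines ((l, x) :: L) = insert l (lines L) := by simp [lines]
    rw [hlin, NN_insert hl hr]
    have hW : W (bo σ) ((l, x) :: L) = W (bo σ) L +
      (if x then W (bo σ) L - 1 + sp (bo σ) (lines L) l else 0) := rfl
    rw [hW, ih]
    by_cases he : e l = σ l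
    · rw [if_pos he, if_pos (hxe.2 he)]
      ring
    · rw [if_neg he, if_neg (fun h => he (hxe.1 h))]
      ring

/-- the vertex weight of a tie is the weight of the signed order -/
theorem W0_eq {r : Fin n → ℕ} {e σ : Fin n → ℤˣ} {L : List (Fin n × Bool)}
    (hL : SortList r e σ L) : (K2L.W0 r e σ : ℤ) = W (bo σ) L := by
  rw [W_eq_NN L hL.dec hL.sgn]
  have h : lines L = Finset.univ := by
    ext k
    unfold lines
    rw [List.mem_toFinset]
    exact ⟨fun _ => Finset.mem_univ _, fun _ => hL.all k⟩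
  rw [h]
  unfold K2L.W0 NN
  rw [Finset.powerset_univ, Finset.card_filter]
  push_cast
  rfl

end Pool.Agent.KK
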