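import Pool.Agent.KK.Pert

/-!
# The perturbed parity lemma for real and lexicographic lifts
-/

set_option autoImplicit false

open scoped BigOperators

namespace Pool.Agent.KK

/-- two solutions that agree off two coordinates are equal -/
theorem eq_of_sum {ι : Type*} [Fintype ι] [DecidableEq ι] (u : ι → ℝ × ℝ) {i j : ι} (hij : i ≠ j)
    (hD : dt (u i) (u j) ≠ 0) {y y' : ι → ℝ} (hy : ∑ l, y l • u l = 0)
    (hy' : ∑ l, y' l • u l = 0) (h : ∀ l, l ≠ i → l ≠ j → y l = y' l) : y = y' := by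
  have h0 : (y i - y' i) • u i + (y j - y' j) • u j = 0 := by
    have h1 : ∑ l, (y l - y' l) • u l = 0 := by
      simp only [sub_smul, Finset.sum_sub_distrib]
      rw [hy, hy', sub_zero]
    rw [← Finset.sum_subset (Finset.subset_univ ({i, j} : Finset ι)), Finset.sum_pair hij] at h1
    · exact h1
    · intro l _ hl
      rw [Finset.mem_insert, Finset.mem_singleton, not_or] at hl
      rw [h l hl.1 hl.2, sub_self, zero_smul]
  have h1 : y i = y' i := by
    have h2 : dt ((y i - y' i) • u i + (y j - y' j) • u j) (u j) = 0 := by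
      rw [h0, dt_zero_left]
    rw [dt_add_left, dt_smul_left, dt_smul_left, dt_self, mul_zero, add_zero] at h2
    exact sub_eq_zero.1 ((mul_eq_zero.1 h2).resolve_right hD)
  have h3 : y j = y' j := by
    have h2 : dt (u i) ((y i - y' i) • u i + (y j - y' j) • u j) = 0 := by
      rw [h0, dt_zero_right]
    rw [dt_add_right, dt_smul_right, dt_smul_right, dt_self, mul_zero, zero_add] at h2
    exact sub_eq_zero.1 ((mul_eq_zero.1 h2).resolve_right hD)
  funext l
  by_cases hi : l = i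
  · rw [hi, h1]
  · by_cases hj : l = j
    · rw [hj, h3]
    · exact h l hi hj

theorem vx_congr {ι : Type*} [Fintype ι] [DecidableEq ι] (u : ι → ℝ × ℝ) {z z' : ι → ℝ} {i j : ι}
    (h : ∀ l, l ≠ i → l ≠ j → z l = z' l) : vx u z i j = vx u z' i j := by
  have h1 : SE2 u z i j = SE2 u z' i j := SE2_congr u h
  funext l
  unfold vx
  rw [h1]
  split_ifs with a b
  · rfl
  · rfl
  · exact h l a b

theorem GT_congr {ι : Type*} [Fintype ι] [DecidableEq ι] (u : ι → ℝ × ℝ) (w : ι → ℝ)
    {z z' : ι → ℝ} {i j : ι} (h : ∀ l, l ≠ i → l ≠ j → z l = z' l) :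
    GT u w z i j ↔ GT u w z' i j := by
  unfold GT
  rw [vx_congr u h]

/-- the perturbed parity lemma for a real lift -/
theorem pert_om {ι : Type*} [Fintype ι] [LinearOrder ι] (h2 : 2 ≤ Fintype.card ι) (u : ι → ℝ × ℝ)
    (hu : ∀ i j, i ≠ j → dt (u i) (u j) ≠ 0) (om : ι → ℝ)
    (hom : ∀ i j l, i ≠ j → i ≠ l → j ≠ l → D3 u om i j l ≠ 0) (w : ι → ℝ)
    (hw : ∀ s : ι → ℝ, IsSgn s → ∀ i, dt (SE (fun l => w l • u l) s i) (u i) ≠ 0)
    (xi : ι → ℝ) (hxi : IsSgn xi)
    [DecidablePred fun x : ι × ι => x.1 < x.2 ∧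
      GT u w (fun l => xi l * sgom u om x.1 x.2 l) x.1 x.2] :
    Odd (Finset.univ.filter fun x : ι × ι => x.1 < x.2 ∧
      GT u w (fun l => xi l * sgom u om x.1 x.2 l) x.1 x.2).card := by
  refine pert h2 u hu (sgom u om) (sgom_comm u om) (tom u om) ?_ ?_ w hw xi hxi
  · intro a k hk l hl h
    by_contra hne
    apply hom a k l (Ne.symm hk) (Ne.symm hl) hne
    rw [D3_eq u om (hu a k (Ne.symm hk)) (hu a l (Ne.symm hl)), h, sub_self, mul_zero]
  · intro a k l hka hla hkl
    have h1 := hu a k hka.symm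
    have h2 := hu a l hla.symm
    have h3 := hom a k l hka.symm hla.symm hkl
    have h4 : tom u om a k - tom u om a l ≠ 0 := by
      intro h
      apply h3
      rw [D3_eq u om h1 h2, h, mul_zero]
    unfold sgom
    have h5 : D3 u om a k l * dt (u a) (u k) =
        (dt (u a) (u k) * dt (u a) (u k)) * (dt (u a) (u l) * (tom u om a k - tom u om a l)) := by
      rw [D3_eq u om h1 h2]; ring
    rw [h5, sn_mul (mul_ne_zero h1 h1) (mul_ne_zero h2 h4), sn_mul h1 h1, sn_mul_self, one_mul,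
      sn_mul h2 h4]
    congr 1
    unfold sn
    by_cases h : tom u om a l < tom u om a k
    · rw [if_pos (by linarith), if_pos h]
    · rw [if_neg (by linarith), if_neg h]

/-- the perturbed parity lemma for lexicographic signs -/
theorem pert_lex {ι : Type*} [Fintype ι] [LinearOrder ι] (h2 : 2 ≤ Fintype.card ι)
    (u : ι → ℝ × ℝ) (hu : ∀ i j, i ≠ j → dt (u i) (u j) ≠ 0) (r : ι → ℕ)
    (hr : Function.Injective r) (e : ι → ℝ) (he : IsSgn e) (w : ι → ℝ)
    (hw : ∀ s : ι → ℝ, IsSgn s → ∀ i, dt (SE (fun l => w l • u l) s i) (u i) ≠ 0)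
    (xi : ι → ℝ) (hxi : IsSgn xi)
    [DecidablePred fun x : ι × ι => x.1 < x.2 ∧
      GT u w (fun l => xi l * lexsg u r e x.1 x.2 l) x.1 x.2] :
    Odd (Finset.univ.filter fun x : ι × ι => x.1 < x.2 ∧
      GT u w (fun l => xi l * lexsg u r e x.1 x.2 l) x.1 x.2).card := by
  classical
  obtain ⟨om, hom, hsg⟩ := exists_om u hu r hr e he
  have h := pert_om h2 u hu om hom w hw xi hxi
  convert h using 2
  ext x
  simp only [Finset.mem_filter, Finset.mem_univ, true_and]
  refine and_congr_right fun hx => ?_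
  refine GT_congr u w fun l h1 h3 => ?_
  rw [hsg x.1 x.2 l hx.ne h1.symm h3.symm]

end Pool.Agent.KK
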