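import Pool.Agent.KK.Base0Def

/-!
Base cases of type 0 (`n = 6` and `n = 7`): the computation of `Base0Def` is correct.
-/

set_option autoImplicit false

namespace KK

variable {n : ℕ}

/-! ### labels -/

theorem rel_lt_n (r l : Fin n) : rel r l < n := by
  have h1 := l.isLt
  have h2 := r.isLt
  unfold rel
  split_ifs with h
  · omega
  · rw [Fin.lt_def] at h
    omega

theorem rel_self_eq (r : Fin n) : rel r r = n - 1 := by
  have h2 := r.isLt
  unfold rel
  rw [if_neg (lt_irrefl r)]
  omega

theorem rel_inj_eq (r : Fin n) {a b : Fin n} (h : rel r a = rel r b) : a = b := by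
  have h1 := a.isLt
  have h2 := b.isLt
  have h3 := r.isLt
  unfold rel at h
  simp only [Fin.lt_def] at h
  ext
  split_ifs at h <;> omega

theorem Walls.last_eq {S : Finset (Fin n)} {r a b : Fin n} (h : Walls S r a b) (hr : r ∈ S) : b = r := by
  have h1 := (h.2.2 r hr).2
  have h2 := rel_lt_n r b
  have h3 := rel_self_eq r
  apply rel_inj_eq r
  omega

/-! ### counters -/

section

variable {K : Cfg n} {v : Fin n → Bool}

/-- number of side choices with the bits `x` at the position `r` -/
noncomputable def cn (M : Mach K v) (o : List (Fin n)) (r : Fin n) (x : Bool × Bool) : ℤ :=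
  EO K o (fun w => if M.bits o.toFinset w r = x then 1 else 0)

theorem EO_bits (M : Mach K v) (o : List (Fin n)) (r : Fin n) (f : Bool × Bool → ℤ) :
    EO K o (fun w => f (M.bits o.toFinset w r)) =
      f (false, false) * cn M o r (false, false) + f (true, false) * cn M o r (true, false)
        + f (false, true) * cn M o r (false, true) + f (true, true) * cn M o r (true, true) := by
  unfold cn
  rw [← EO_smul, ← EO_smul, ← EO_smul, ← EO_smul, ← EO_add, ← EO_add, ← EO_add]
  congr 1
  funext w
  rcases M.bits o.toFinset w r with ⟨_ | _, _ | _⟩ <;> simp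

theorem EO_stepB (M : Mach K v) (l : Fin n) (o : List (Fin n)) (ho : (l :: o).Nodup)
    (h2 : 2 ≤ o.length) {r a b : Fin n} (hw : Walls o.toFinset r a b) (f : Bool × Bool → ℤ) :
    EO K (l :: o) (fun w => f (M.bits (l :: o).toFinset w r)) =
      EO K o (fun w => f (upA v r a b l (M.bits o.toFinset w r))
        + f (upB v r a b l (M.bits o.toFinset w r))) := by
  rw [List.nodup_cons] at ho
  change EO K o (two K o.toFinset l _) = _
  apply EO_congr K o ho.2
  intro w hwg
  have hc : 2 ≤ o.toFinset.card := by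
    rw [List.toFinset_card_of_nodup ho.2]
    exact h2
  have h := M.stepB o.toFinset w l hc hwg (by simpa using ho.1) r a b hw f
  simp only [two, List.toFinset_cons]
  exact h

theorem cn_cons (M : Mach K v) (l : Fin n) (o : List (Fin n)) (ho : (l :: o).Nodup)
    (h2 : 2 ≤ o.length) {r a b : Fin n} (hw : Walls o.toFinset r a b) (x : Bool × Bool) :
    cn M (l :: o) r x =
      ((if upA v r a b l (false, false) = x then 1 else 0)
        + (if upB v r a b l (false, false) = x then 1 else 0)) * cn M o r (false, false)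
      + ((if upA v r a b l (true, false) = x then 1 else 0)
        + (if upB v r a b l (true, false) = x then 1 else 0)) * cn M o r (true, false)
      + ((if upA v r a b l (false, true) = x then 1 else 0)
        + (if upB v r a b l (false, true) = x then 1 else 0)) * cn M o r (false, true)
      + ((if upA v r a b l (true, true) = x then 1 else 0)
        + (if upB v r a b l (true, true) = x then 1 else 0)) * cn M o r (true, true) := by
  have h1 := EO_stepB M l o ho h2 hw (fun y => if y = x then 1 else 0)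
  have h3 := EO_bits M o r (fun y => (if upA v r a b l y = x then (1 : ℤ) else 0)
    + (if upB v r a b l y = x then 1 else 0))
  exact h1.trans h3

theorem EO_stepD (M : Mach K v) (l : Fin n) (o : List (Fin n)) (ho : (l :: o).Nodup)
    (h2 : 2 ≤ o.length) (a : Fin n → Fin n) (ha : ∀ r ∈ o.toFinset, Walls o.toFinset r (a r) r) :
    EO K (l :: o) (M.D (l :: o).toFinset) = 3 * EO K o (M.D o.toFinset)
      + 6 * ∑ r ∈ o.toFinset,
        (gainT v o.toFinset r (a r) r l (false, false) * cn M o r (false, false)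
          + gainT v o.toFinset r (a r) r l (true, false) * cn M o r (true, false)
          + gainT v o.toFinset r (a r) r l (false, true) * cn M o r (false, true)
          + gainT v o.toFinset r (a r) r l (true, true) * cn M o r (true, true)) := by
  rw [List.nodup_cons] at ho
  have hc : 2 ≤ o.toFinset.card := by
    rw [List.toFinset_card_of_nodup ho.2]
    exact h2
  have h1 : EO K (l :: o) (M.D (l :: o).toFinset) =
      EO K o (fun w => 3 * M.D o.toFinset w
        + 6 * ∑ r ∈ o.toFinset, gainT v o.toFinset r (a r) r l (M.bits o.toFinset w r)) := by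
    change EO K o (two K o.toFinset l _) = _
    apply EO_congr K o ho.2
    intro w hwg
    have h := M.stepD o.toFinset w l hc hwg (by simpa using ho.1) a ha
    simp only [two, List.toFinset_cons]
    exact h
  rw [h1, EO_add, EO_smul, EO_smul, EO_sum]
  congr 2
  apply Finset.sum_congr rfl
  intro r _
  exact EO_bits M o r (fun x => gainT v o.toFinset r (a r) r l x)

theorem cn_start (M : Mach K v) (x y : Fin n) (ho : [x, y].Nodup) (r : Fin n) (z : Bool × Bool) :
    cn M [x, y] r z = 4 * (if (false, false) = z then 1 else 0) := by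
  have hc : ([x, y] : List (Fin n)).toFinset.card = 2 := by
    rw [List.toFinset_card_of_nodup ho]
    rfl
  have h : cn M [x, y] r z = EO K [x, y] (fun _ => if (false, false) = z then 1 else 0) := by
    apply EO_congr K [x, y] ho
    intro w hw
    rw [(M.start _ w hc hw).2 r]
  rw [h, EO_const]
  norm_num

theorem D_start (M : Mach K v) (x y : Fin n) (ho : [x, y].Nodup) :
    EO K [x, y] (M.D [x, y].toFinset) = 4 * 18 := by
  have hc : ([x, y] : List (Fin n)).toFinset.card = 2 := by
    rw [List.toFinset_card_of_nodup ho]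
    rfl
  have h : EO K [x, y] (M.D [x, y].toFinset) = EO K [x, y] (fun _ => 18) := by
    apply EO_congr K [x, y] ho
    intro w hw
    rw [(M.start _ w hc hw).1]
  rw [h, EO_const]
  norm_num

/-! ### the invariant -/

/-- the state `t` describes the position `r` after the order `o` -/
structure Inv (M : Mach K v) (o : List (Fin n)) (r : Fin n) (t : RS) : Prop where
  walls : ∃ a b, Walls o.toFinset r a b ∧ rel r a = t.a ∧ rel r b = t.b
  hp : t.p = cnt v o.toFinset r true
  hq : t.q = cnt v o.toFinset r false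
  h0 : cn M o r (false, false) = 4 * (t.c0 : ℤ)
  h1 : cn M o r (true, false) = 4 * (t.c1 : ℤ)
  h2 : cn M o r (false, true) = 4 * (t.c2 : ℤ)
  h3 : cn M o r (true, true) = 4 * (t.c3 : ℤ)
  hon : t.on = decide (r ∈ o)

theorem cnt_insert (v : Fin n → Bool) {S : Finset (Fin n)} {l : Fin n} (hl : l ∉ S) (r : Fin n)
    (s : Bool) : cnt v (insert l S) r s = cnt v S r s + if sg v r l = s then 1 else 0 := by
  unfold cnt
  rw [Finset.filter_insert]
  split_ifs with h
  · rw [Finset.card_insert_of_notMem]
    simp [hl]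
  · rfl

theorem beq_rel (r l : Fin n) : Nat.beq (rel r l + 1) n = decide (r = l) := by
  have h1 := rel_self_eq r
  have h2 := rel_lt_n r l
  have h3 := r.isLt
  rw [Bool.eq_iff_iff, Nat.beq_eq, decide_eq_true_iff]
  constructor
  · intro h
    apply rel_inj_eq r
    omega
  · rintro rfl
    omega

theorem inv_start (M : Mach K v) (x y : Fin n) (ho : [x, y].Nodup) (r : Fin n) (s : ℕ → Bool)
    (hs : ∀ l : Fin n, s (rel r l) = sg v r l) :
    Inv M [x, y] r (rinit n s (rel r x) (rel r y)) := by
  have hxy : x ≠ y := by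
    intro h
    simp [h] at ho
  have hcnt : ∀ z, cnt v [x, y].toFinset r z =
      (if sg v r x = z then 1 else 0) + (if sg v r y = z then 1 else 0) := by
    intro z
    have h1 : [x, y].toFinset = insert x (insert y (∅ : Finset (Fin n))) := by
      simp
    rw [h1, cnt_insert v (by simpa using hxy) r z, cnt_insert v (by simp) r z]
    simp only [cnt, Finset.filter_empty, Finset.card_empty]
    ring
  refine ⟨?_, ?_, ?_, ?_, ?_, ?_, ?_, ?_⟩
  · by_cases h : rel r x < rel r y
    · refine ⟨x, y, ⟨by simp, by simp, ?_⟩, ?_, ?_⟩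
      · intro z hz
        simp only [List.toFinset_cons, List.toFinset_nil, insert_empty_eq, Finset.mem_insert,
          Finset.mem_singleton] at hz
        rcases hz with rfl | rfl
        · exact ⟨le_rfl, h.le⟩
        · exact ⟨h.le, le_rfl⟩
      · simp [rinit, Nat.blt_eq.mpr h]
      · simp [rinit, Nat.blt_eq.mpr h]
    · have h' : Nat.blt (rel r x) (rel r y) = false := by
        rw [← Bool.not_eq_true, Nat.blt_eq]
        exact h
      rw [not_lt] at h
      refine ⟨y, x, ⟨by simp, by simp, ?_⟩, ?_, ?_⟩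
      · intro z hz
        simp only [List.toFinset_cons, List.toFinset_nil, insert_empty_eq, Finset.mem_insert,
          Finset.mem_singleton] at hz
        rcases hz with rfl | rfl
        · exact ⟨h, le_rfl⟩
        · exact ⟨le_rfl, h⟩
      · simp [rinit, h']
      · simp [rinit, h']
  · rw [hcnt]
    simp only [rinit, hs]
    cases sg v r x <;> cases sg v r y <;> rfl
  · rw [hcnt]
    simp only [rinit, hs]
    cases sg v r x <;> cases sg v r y <;> rfl
  · rw [cn_start M x y ho r]
    simp [rinit]
  · rw [cn_start M x y ho r]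
    simp [rinit]
  · rw [cn_start M x y ho r]
    simp [rinit]
  · rw [cn_start M x y ho r]
    simp [rinit]
  · simp only [rinit, beq_rel, List.mem_cons, List.not_mem_nil, or_false]
    by_cases h1 : r = x <;> by_cases h2 : r = y <;> simp [h1, h2]

/-! ### the four kinds of steps -/

theorem upA_in {r a b l : Fin n} (hin : inner r a b l = true) (x : Bool × Bool) :
    upA v r a b l x = (pbit v r a b l, x.2) := by
  simp [upA, hin]

theorem upB_in {r a b l : Fin n} (hin : inner r a b l = true) (x : Bool × Bool) :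
    upB v r a b l x = (x.1, pbit v r a b l) := by
  simp [upB, hin]

theorem upA_out {r a b l : Fin n} (hin : inner r a b l = false) (x : Bool × Bool) :
    upA v r a b l x = (xor x.1 (ebit v r a b l), false) := by
  simp [upA, hin]

theorem upB_out {r a b l : Fin n} (hin : inner r a b l = false) (x : Bool × Bool) :
    upB v r a b l x = (false, xor x.2 (ebit v r a b l)) := by
  simp [upB, hin]

theorem cn_step1 (M : Mach K v) (l : Fin n) (o : List (Fin n)) (ho : (l :: o).Nodup)
    (h2 : 2 ≤ o.length) {r a b : Fin n} (hw : Walls o.toFinset r a b)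
    (hin : inner r a b l = true) (hpb : pbit v r a b l = true) :
    cn M (l :: o) r (false, false) = 0
    ∧ cn M (l :: o) r (true, false) = cn M o r (false, false) + cn M o r (true, false)
    ∧ cn M (l :: o) r (false, true) = cn M o r (false, false) + cn M o r (false, true)
    ∧ cn M (l :: o) r (true, true) = cn M o r (true, false) + cn M o r (false, true)
        + 2 * cn M o r (true, true) := by
  refine ⟨?_, ?_, ?_, ?_⟩ <;> rw [cn_cons M l o ho h2 hw] <;>
    simp only [upA_in hin, upB_in hin, hpb, Prod.mk.injEq, and_true, and_self, and_false,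
      if_true, if_false, reduceCtorEq] <;> ring

theorem cn_step2 (M : Mach K v) (l : Fin n) (o : List (Fin n)) (ho : (l :: o).Nodup)
    (h2 : 2 ≤ o.length) {r a b : Fin n} (hw : Walls o.toFinset r a b)
    (hin : inner r a b l = true) (hpb : pbit v r a b l = false) :
    cn M (l :: o) r (false, false) = 2 * cn M o r (false, false) + cn M o r (true, false)
        + cn M o r (false, true)
    ∧ cn M (l :: o) r (true, false) = cn M o r (true, false) + cn M o r (true, true)
    ∧ cn M (l :: o) r (false, true) = cn M o r (false, true) + cn M o r (true, true)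
    ∧ cn M (l :: o) r (true, true) = 0 := by
  refine ⟨?_, ?_, ?_, ?_⟩ <;> rw [cn_cons M l o ho h2 hw] <;>
    simp only [upA_in hin, upB_in hin, hpb, Prod.mk.injEq, and_true, and_self, and_false,
      if_true, if_false, reduceCtorEq] <;> ring

theorem cn_step3 (M : Mach K v) (l : Fin n) (o : List (Fin n)) (ho : (l :: o).Nodup)
    (h2 : 2 ≤ o.length) {r a b : Fin n} (hw : Walls o.toFinset r a b)
    (hin : inner r a b l = false) (heb : ebit v r a b l = true) :
    cn M (l :: o) r (false, false) = cn M o r (true, false) + cn M o r (false, true)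
        + 2 * cn M o r (true, true)
    ∧ cn M (l :: o) r (true, false) = cn M o r (false, false) + cn M o r (false, true)
    ∧ cn M (l :: o) r (false, true) = cn M o r (false, false) + cn M o r (true, false)
    ∧ cn M (l :: o) r (true, true) = 0 := by
  refine ⟨?_, ?_, ?_, ?_⟩ <;> rw [cn_cons M l o ho h2 hw] <;>
    simp only [upA_out hin, upB_out hin, heb, Bool.xor_true, Bool.not_true, Bool.not_false,
      Prod.mk.injEq, and_true, and_self, and_false,
      if_true, if_false, reduceCtorEq] <;> ring

theorem cn_step4 (M : Mach K v) (l : Fin n) (o : List (Fin n)) (ho : (l :: o).Nodup)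
    (h2 : 2 ≤ o.length) {r a b : Fin n} (hw : Walls o.toFinset r a b)
    (hin : inner r a b l = false) (heb : ebit v r a b l = false) :
    cn M (l :: o) r (false, false) = 2 * cn M o r (false, false) + cn M o r (true, false)
        + cn M o r (false, true)
    ∧ cn M (l :: o) r (true, false) = cn M o r (true, false) + cn M o r (true, true)
    ∧ cn M (l :: o) r (false, true) = cn M o r (false, true) + cn M o r (true, true)
    ∧ cn M (l :: o) r (true, true) = 0 := by
  refine ⟨?_, ?_, ?_, ?_⟩ <;> rw [cn_cons M l o ho h2 hw] <;>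
    simp only [upA_out hin, upB_out hin, heb, Bool.xor_false,
      Prod.mk.injEq, and_true, and_self, and_false,
      if_true, if_false, reduceCtorEq] <;> ring

theorem gain_in {S : Finset (Fin n)} {r a b l : Fin n} (hin : inner r a b l = true)
    (x : Bool × Bool) : gainT v S r a b l x =
      if (x.1 == x.2) && (x.1 != pbit v r a b l) then -(2 : ℤ) ^ cnt v S r (sg v r l)
        else (2 : ℤ) ^ cnt v S r (!(sg v r l)) := by
  simp [gainT, bad, hin]

theorem gain_out {S : Finset (Fin n)} {r a b l : Fin n} (hin : inner r a b l = false)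
    (x : Bool × Bool) : gainT v S r a b l x =
      -((2 : ℤ) ^ cnt v S r true + 2 ^ cnt v S r false)
        * (if (x.1 == x.2) && (x.1 != ebit v r a b l) then 2 else 1) := by
  simp [gainT, bad, hin]

/-- the contribution of the position `r` to the increase of the defect -/
noncomputable def gsum (M : Mach K v) (o : List (Fin n)) (r a b l : Fin n) : ℤ :=
  gainT v o.toFinset r a b l (false, false) * cn M o r (false, false)
    + gainT v o.toFinset r a b l (true, false) * cn M o r (true, false)
    + gainT v o.toFinset r a b l (false, true) * cn M o r (false, true)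
    + gainT v o.toFinset r a b l (true, true) * cn M o r (true, true)

theorem walls_in {S : Finset (Fin n)} {r a b l : Fin n} (hw : Walls S r a b)
    (h1 : rel r a < rel r l) (h2 : rel r l < rel r b) : Walls (insert l S) r a b := by
  refine ⟨Finset.mem_insert_of_mem hw.1, Finset.mem_insert_of_mem hw.2.1, fun x hx => ?_⟩
  rcases Finset.mem_insert.mp hx with rfl | hx
  · exact ⟨h1.le, h2.le⟩
  · exact hw.2.2 x hx

theorem walls_lo {S : Finset (Fin n)} {r a b l : Fin n} (hw : Walls S r a b)
    (h1 : rel r l < rel r a) : Walls (insert l S) r l b := by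
  refine ⟨Finset.mem_insert_self _ _, Finset.mem_insert_of_mem hw.2.1, fun x hx => ?_⟩
  have hab := (hw.2.2 b hw.2.1).1
  rcases Finset.mem_insert.mp hx with rfl | hx
  · exact ⟨le_rfl, by omega⟩
  · have := hw.2.2 x hx
    exact ⟨by omega, this.2⟩

theorem walls_hi {S : Finset (Fin n)} {r a b l : Fin n} (hw : Walls S r a b)
    (h1 : rel r b < rel r l) : Walls (insert l S) r a l := by
  refine ⟨Finset.mem_insert_of_mem hw.1, Finset.mem_insert_self _ _, fun x hx => ?_⟩
  have hab := (hw.2.2 b hw.2.1).1
  rcases Finset.mem_insert.mp hx with rfl | hx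
  · exact ⟨by omega, le_rfl⟩
  · have := hw.2.2 x hx
    exact ⟨this.1, by omega⟩

theorem Walls.unique {S : Finset (Fin n)} {r a b a' b' : Fin n} (h : Walls S r a b)
    (h' : Walls S r a' b') : a = a' ∧ b = b' := by
  have h1 := h.2.2 a' h'.1
  have h2 := h.2.2 b' h'.2.1
  have h3 := h'.2.2 a h.1
  have h4 := h'.2.2 b h.2.1
  exact ⟨rel_inj_eq r (by omega), rel_inj_eq r (by omega)⟩

theorem inv_of_walls {M : Mach K v} {o : List (Fin n)} {r : Fin n} {t : RS} (hI : Inv M o r t)
    {l : Fin n} (hl : l ∉ o) {a b : Fin n} (hw : Walls (insert l o.toFinset) r a b)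
    {c0 c1 c2 c3 g h : ℕ} {on : Bool}
    (h0 : cn M (l :: o) r (false, false) = 4 * (c0 : ℤ))
    (h1 : cn M (l :: o) r (true, false) = 4 * (c1 : ℤ))
    (h2 : cn M (l :: o) r (false, true) = 4 * (c2 : ℤ))
    (h3 : cn M (l :: o) r (true, true) = 4 * (c3 : ℤ))
    (hon : on = decide (r ∈ l :: o)) :
    Inv M (l :: o) r ⟨rel r a, rel r b, cond (sg v r l) (t.p + 1) t.p,
      cond (sg v r l) t.q (t.q + 1), c0, c1, c2, c3, g, h, on⟩ := by
  have hl' : l ∉ o.toFinset := by simpa using hl
  refine ⟨⟨a, b, ?_, rfl, rfl⟩, ?_, ?_, h0, h1, h2, h3, hon⟩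
  · rw [List.toFinset_cons]
    exact hw
  · rw [List.toFinset_cons, cnt_insert v hl', ← hI.hp]
    cases sg v r l <;> rfl
  · rw [List.toFinset_cons, cnt_insert v hl', ← hI.hq]
    cases sg v r l <;> rfl

theorem step_all (M : Mach K v) (l : Fin n) (o : List (Fin n)) (ho : (l :: o).Nodup)
    (h2 : 2 ≤ o.length) (r : Fin n) (s : ℕ → Bool) (hs : ∀ l : Fin n, s (rel r l) = sg v r l)
    (t : RS) (hI : Inv M o r t) :
    Inv M (l :: o) r (rstep n s (rel r l) t) ∧
      (r ∉ o → 4 * (((rstep n s (rel r l) t).g : ℤ) - ((rstep n s (rel r l) t).h : ℤ))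
        = 3 * (4 * ((t.g : ℤ) - (t.h : ℤ)))) ∧
      (∀ a, r ∈ o → Walls o.toFinset r a r →
        4 * (((rstep n s (rel r l) t).g : ℤ) - ((rstep n s (rel r l) t).h : ℤ))
        = 3 * (4 * ((t.g : ℤ) - (t.h : ℤ))) + 6 * gsum M o r a r l) := by
  obtain ⟨a, b, hw, ha, hb⟩ := hI.walls
  have hl : l ∉ o := (List.nodup_cons.mp ho).1
  have hl' : l ∉ o.toFinset := by simpa using hl
  have hla : rel r l ≠ rel r a := fun h => hl' (by rw [rel_inj_eq r h]; exact hw.1)
  have hlb : rel r l ≠ rel r b := fun h => hl' (by rw [rel_inj_eq r h]; exact hw.2.1)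
  have hab : rel r a ≤ rel r b := (hw.2.2 b hw.2.1).1
  have hp := hI.hp
  have hq := hI.hq
  have e0 := hI.h0
  have e1 := hI.h1
  have e2 := hI.h2
  have e3 := hI.h3
  have hon := hI.hon
  have hI' := hI
  rcases t with ⟨ta, tb, p, q, c0, c1, c2, c3, g, h, on⟩
  simp only at ha hb hp hq e0 e1 e2 e3 hon
  subst ha hb
  have hblA : Nat.blt (rel r a) (rel r l) = decide (rel r a < rel r l) := by
    rw [Bool.eq_iff_iff, Nat.blt_eq, decide_eq_true_iff]
  have hblB : Nat.blt (rel r l) (rel r b) = decide (rel r l < rel r b) := by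
    rw [Bool.eq_iff_iff, Nat.blt_eq, decide_eq_true_iff]
  have hblC : Nat.blt (rel r l) (rel r a) = decide (rel r l < rel r a) := by
    rw [Bool.eq_iff_iff, Nat.blt_eq, decide_eq_true_iff]
  have hblD : Nat.blt (rel r b) (rel r l) = decide (rel r b < rel r l) := by
    rw [Bool.eq_iff_iff, Nat.blt_eq, decide_eq_true_iff]
  have hgs : ∀ a', r ∈ o → Walls o.toFinset r a' r → a' = a ∧ b = r := by
    intro a' _ hw'
    obtain ⟨h1, h3⟩ := hw.unique hw'
    exact ⟨h1.symm, h3⟩
  by_cases hin : rel r a < rel r l ∧ rel r l < rel r b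
  · have hin' : inner r a b l = true := by
      simp [inner, hin]
    have hrl : r ≠ l := by
      rintro rfl
      have h3 := rel_self_eq r
      have h4 := rel_lt_n r b
      omega
    have hon' : on = decide (r ∈ l :: o) := by
      rw [hon, decide_eq_decide, List.mem_cons]
      exact ⟨Or.inr, fun h => h.resolve_left hrl⟩
    by_cases hpb : pbit v r a b l = true
    · obtain ⟨n0, n1, n2, n3⟩ := cn_step1 M l o ho h2 hw hin' hpb
      have hst : rstep n s (rel r l) ⟨rel r a, rel r b, p, q, c0, c1, c2, c3, g, h, on⟩ =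
          ⟨rel r a, rel r b, cond (sg v r l) (p + 1) p, cond (sg v r l) q (q + 1),
          0, c0 + c1, c0 + c2, c1 + c2 + 2 * c3,
          3 * g + cond on (6 * ((c1 + c2 + c3) * 2 ^ cond (sg v r l) q p)) 0,
          3 * h + cond on (6 * (c0 * 2 ^ cond (sg v r l) p q)) 0, on⟩ := by
        have hpb' := hpb
        unfold pbit at hpb'
        simp only [rstep, hblA, hblB, hs, hin.1, hin.2, decide_true, Bool.and_true, if_true, hpb']
      rw [hst]
      refine ⟨?_, ?_, ?_⟩
      · refine inv_of_walls hI' hl (walls_in hw hin.1 hin.2) ?_ ?_ ?_ ?_ hon'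
        · rw [n0]; simp
        · rw [n1, e0, e1]; push_cast; ring
        · rw [n2, e0, e2]; push_cast; ring
        · rw [n3, e1, e2, e3]; push_cast; ring
      · intro hr
        rw [hon]
        simp only [hr, decide_false, cond_false]
        push_cast
        ring
      · intro a' hr hw'
        obtain ⟨rfl, rfl⟩ := hgs a' hr hw'
        rw [hon]
        simp only [hr, decide_true, cond_true, gsum, gain_in hin', hpb, e0, e1, e2, e3]
        cases hsl : sg v b l <;> simp [hp, hq] <;> ring
    · rw [Bool.not_eq_true] at hpb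
      obtain ⟨n0, n1, n2, n3⟩ := cn_step2 M l o ho h2 hw hin' hpb
      have hst : rstep n s (rel r l) ⟨rel r a, rel r b, p, q, c0, c1, c2, c3, g, h, on⟩ =
          ⟨rel r a, rel r b, cond (sg v r l) (p + 1) p, cond (sg v r l) q (q + 1),
          2 * c0 + c1 + c2, c1 + c3, c2 + c3, 0,
          3 * g + cond on (6 * ((c0 + c1 + c2) * 2 ^ cond (sg v r l) q p)) 0,
          3 * h + cond on (6 * (c3 * 2 ^ cond (sg v r l) p q)) 0, on⟩ := by
        have hpb' := hpb
        unfold pbit at hpb'
        simp only [rstep, hblA, hblB, hs, hin.1, hin.2, decide_true, Bool.and_true, if_true, hpb',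
          Bool.false_eq_true, if_false]
      rw [hst]
      refine ⟨?_, ?_, ?_⟩
      · refine inv_of_walls hI' hl (walls_in hw hin.1 hin.2) ?_ ?_ ?_ ?_ hon'
        · rw [n0, e0, e1, e2]; push_cast; ring
        · rw [n1, e1, e3]; push_cast; ring
        · rw [n2, e2, e3]; push_cast; ring
        · rw [n3]; simp
      · intro hr
        rw [hon]
        simp only [hr, decide_false, cond_false]
        push_cast
        ring
      · intro a' hr hw'
        obtain ⟨rfl, rfl⟩ := hgs a' hr hw'
        rw [hon]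
        simp only [hr, decide_true, cond_true, gsum, gain_in hin', hpb, e0, e1, e2, e3]
        cases hsl : sg v b l <;> simp [hp, hq] <;> ring
  · have hin' : inner r a b l = false := by
      rw [← Bool.not_eq_true]
      intro h'
      apply hin
      simpa [inner] using h'
    have hdin : (decide (rel r a < rel r l) && decide (rel r l < rel r b)) = false := hin'
    have hon' : (on || decide (r = l)) = decide (r ∈ l :: o) := by
      rw [hon, Bool.eq_iff_iff]
      simp only [Bool.or_eq_true, decide_eq_true_iff, List.mem_cons]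
      exact or_comm
    -- the new walls
    have hnw : ∃ a2 b2, Walls (insert l o.toFinset) r a2 b2
        ∧ cond (Nat.blt (rel r l) (rel r a)) (rel r l) (rel r a) = rel r a2
        ∧ cond (Nat.blt (rel r b) (rel r l)) (rel r l) (rel r b) = rel r b2 := by
      by_cases hlo : rel r l < rel r a
      · refine ⟨l, b, walls_lo hw hlo, ?_, ?_⟩
        · rw [hblC, decide_eq_true hlo]
          rfl
        · rw [hblD, decide_eq_false (by omega)]
          rfl
      · have hhi : rel r b < rel r l := by
          by_contra hc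
          exact hin ⟨by omega, by omega⟩
        refine ⟨a, l, walls_hi hw hhi, ?_, ?_⟩
        · rw [hblC, decide_eq_false hlo]
          rfl
        · rw [hblD, decide_eq_true hhi]
          rfl
    obtain ⟨a2, b2, hw2, ea2, eb2⟩ := hnw
    have hoth : s (cond (Nat.blt (rel r l) (rel r a)) (rel r b) (rel r a)) = sg v r (oth r a b l) := by
      rw [hblC]
      unfold oth
      by_cases hlo : rel r l < rel r a
      · rw [decide_eq_true hlo, if_pos hlo, cond_true, hs]
      · rw [decide_eq_false hlo, if_neg hlo, cond_false, hs]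
    by_cases heb : ebit v r a b l = true
    · obtain ⟨n0, n1, n2, n3⟩ := cn_step3 M l o ho h2 hw hin' heb
      have hst : rstep n s (rel r l) ⟨rel r a, rel r b, p, q, c0, c1, c2, c3, g, h, on⟩ =
          ⟨rel r a2, rel r b2, cond (sg v r l) (p + 1) p, cond (sg v r l) q (q + 1),
          c1 + c2 + 2 * c3, c0 + c2, c0 + c1, 0,
          3 * g,
          3 * h + cond on (6 * ((2 * c0 + c1 + c2 + c3) * (2 ^ p + 2 ^ q))) 0,
          on || decide (r = l)⟩ := by
        have heb' := heb
        unfold ebit at heb'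
        rw [← hoth] at heb'
        rw [← ea2, ← eb2, ← beq_rel]
        simp only [rstep, hblA, hblB, hs, hdin, Bool.false_eq_true, if_false, if_true, heb']
      rw [hst]
      refine ⟨?_, ?_, ?_⟩
      · refine inv_of_walls hI' hl hw2 ?_ ?_ ?_ ?_ hon'
        · rw [n0, e1, e2, e3]; push_cast; ring
        · rw [n1, e0, e2]; push_cast; ring
        · rw [n2, e0, e1]; push_cast; ring
        · rw [n3]; simp
      · intro hr
        rw [hon]
        simp only [hr, decide_false, cond_false]
        push_cast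
        ring
      · intro a' hr hw'
        obtain ⟨rfl, rfl⟩ := hgs a' hr hw'
        rw [hon]
        simp only [hr, decide_true, cond_true, gsum, gain_out hin', heb, e0, e1, e2, e3]
        simp [hp, hq]
        ring
    · rw [Bool.not_eq_true] at heb
      obtain ⟨n0, n1, n2, n3⟩ := cn_step4 M l o ho h2 hw hin' heb
      have hst : rstep n s (rel r l) ⟨rel r a, rel r b, p, q, c0, c1, c2, c3, g, h, on⟩ =
          ⟨rel r a2, rel r b2, cond (sg v r l) (p + 1) p, cond (sg v r l) q (q + 1),
          2 * c0 + c1 + c2, c1 + c3, c2 + c3, 0,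
          3 * g,
          3 * h + cond on (6 * ((c0 + c1 + c2 + 2 * c3) * (2 ^ p + 2 ^ q))) 0,
          on || decide (r = l)⟩ := by
        have heb' := heb
        unfold ebit at heb'
        rw [← hoth] at heb'
        rw [← ea2, ← eb2, ← beq_rel]
        simp only [rstep, hblA, hblB, hs, hdin, Bool.false_eq_true, if_false, heb']
      rw [hst]
      refine ⟨?_, ?_, ?_⟩
      · refine inv_of_walls hI' hl hw2 ?_ ?_ ?_ ?_ hon'
        · rw [n0, e0, e1, e2]; push_cast; ring
        · rw [n1, e1, e3]; push_cast; ring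
        · rw [n2, e2, e3]; push_cast; ring
        · rw [n3]; simp
      · intro hr
        rw [hon]
        simp only [hr, decide_false, cond_false]
        push_cast
        ring
      · intro a' hr hw'
        obtain ⟨rfl, rfl⟩ := hgs a' hr hw'
        rw [hon]
        simp only [hr, decide_true, cond_true, gsum, gain_out hin', heb, e0, e1, e2, e3]
        simp [hp, hq]
        ring

/-- the value of the run: gains minus losses -/
def rval (t : RS) : ℤ := (t.g : ℤ) - (t.h : ℤ)

theorem EO_D_eq (M : Mach K v) (s : Fin n → ℕ → Bool)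
    (hs : ∀ r l : Fin n, s r (rel r l) = sg v r l) (o : List (Fin n)) (ho : o.Nodup)
    (h2 : 2 ≤ o.length) :
    EO K o (M.D o.toFinset) = 4 * (18 * 3 ^ (o.length - 2)
        + ∑ r, rval (run n (s r) (o.map (rel r)))) ∧
      ∀ r, Inv M o r (run n (s r) (o.map (rel r))) := by
  induction o with
  | nil => simp at h2
  | cons x o ih =>
    rcases o with _ | ⟨y, o⟩
    · simp at h2
    rcases o with _ | ⟨z, o⟩
    · refine ⟨?_, fun r => inv_start M x y ho r (s r) (hs r)⟩
      rw [D_start M x y ho]
      have h0 : ∀ r, rval (run n (s r) ([x, y].map (rel r))) = 0 := by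
        intro r
        simp [rval, run, rinit]
      rw [Finset.sum_congr rfl (fun r _ => h0 r)]
      simp
    · have h2' : 2 ≤ (y :: z :: o).length := by simp
      obtain ⟨hD, hInv⟩ := ih (List.nodup_cons.mp ho).2 h2'
      have hrun : ∀ r, run n (s r) ((x :: y :: z :: o).map (rel r)) =
          rstep n (s r) (rel r x) (run n (s r) ((y :: z :: o).map (rel r))) := fun r => rfl
      have hstep := fun r => step_all M x (y :: z :: o) ho h2' r (s r) (hs r) _ (hInv r)
      refine ⟨?_, fun r => ?_⟩
      · have hwx : ∀ r, ∃ a, r ∈ (y :: z :: o).toFinset → Walls (y :: z :: o).toFinset r a r := by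
          intro r
          obtain ⟨a, b, hw, _, _⟩ := (hInv r).walls
          refine ⟨a, fun hr => ?_⟩
          have hb := hw.last_eq hr
          rw [hb] at hw
          exact hw
        choose a ha using hwx
        rw [EO_stepD M x (y :: z :: o) ho h2' a (fun r hr => ha r hr), hD]
        have hlen : (x :: y :: z :: o).length - 2 = (y :: z :: o).length - 2 + 1 := by
          simp
        have hterm : ∀ r, 4 * rval (run n (s r) ((x :: y :: z :: o).map (rel r))) =
            3 * (4 * rval (run n (s r) ((y :: z :: o).map (rel r))))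
              + (if r ∈ (y :: z :: o).toFinset then 6 * gsum M (y :: z :: o) r (a r) r x else 0) := by
          intro r
          rw [hrun r]
          by_cases hr : r ∈ (y :: z :: o).toFinset
          · rw [if_pos hr]
            exact (hstep r).2.2 (a r) (List.mem_toFinset.mp hr) (ha r hr)
          · rw [if_neg hr, add_zero]
            exact (hstep r).2.1 (fun h => hr (List.mem_toFinset.mpr h))
        have hsum : ∑ r, 4 * rval (run n (s r) ((x :: y :: z :: o).map (rel r))) =
            3 * ∑ r, 4 * rval (run n (s r) ((y :: z :: o).map (rel r)))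
              + 6 * ∑ r ∈ (y :: z :: o).toFinset, gsum M (y :: z :: o) r (a r) r x := by
          rw [Finset.sum_congr rfl (fun r _ => hterm r), Finset.sum_add_distrib,
            Finset.sum_ite_mem, Finset.univ_inter, Finset.mul_sum, Finset.mul_sum]
        rw [← Finset.mul_sum, ← Finset.mul_sum] at hsum
        rw [hlen, pow_succ]
        have hg : ∀ r ∈ (y :: z :: o).toFinset, gsum M (y :: z :: o) r (a r) r x =
            gainT v (y :: z :: o).toFinset r (a r) r x (false, false) * cn M (y :: z :: o) r (false, false)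
          + gainT v (y :: z :: o).toFinset r (a r) r x (true, false) * cn M (y :: z :: o) r (true, false)
          + gainT v (y :: z :: o).toFinset r (a r) r x (false, true) * cn M (y :: z :: o) r (false, true)
          + gainT v (y :: z :: o).toFinset r (a r) r x (true, true) * cn M (y :: z :: o) r (true, true) :=
          fun r _ => rfl
        rw [← Finset.sum_congr rfl hg]
        linarith
      · rw [hrun r]
        exact (hstep r).1

end

/-! ### the two base cases -/

/-- sum of the values of the run over a list of label orders, for the signs given by the mask `u` -/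
def gval (n : ℕ) (B : List (List ℕ)) (u : ℕ) : ℤ :=
  (B.map fun x => rval (run n (fun k => Nat.testBit u k) x)).sum

theorem EL_D_eq {K : Cfg n} {v : Fin n → Bool} (M : Mach K v) (hn : 2 ≤ n) (B : List (List ℕ))
    (hB : ∀ r : Fin n, ((ords n).map fun o => o.map (rel r)).Perm B) (u : Fin n → ℕ)
    (hu : ∀ r l : Fin n, Nat.testBit (u r) (rel r l) = sg v r l) :
    EL K (M.D Finset.univ) = 4 * ((ords n).length * (18 * 3 ^ (n - 2)) + ∑ r, gval n B (u r)) := by
  unfold EL
  have h1 : ∀ o ∈ ords n, EO K o (M.D Finset.univ) = 4 * (18 * 3 ^ (n - 2)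
      + ∑ r, rval (run n (fun k => Nat.testBit (u r) k) (o.map (rel r)))) := by
    intro o ho
    obtain ⟨ha, hb⟩ := ords_perm o ho
    have hl := ords_length o ho
    have h := (EO_D_eq M (fun r k => Nat.testBit (u r) k) hu o ha (by omega)).1
    rw [hb, hl] at h
    exact h
  rw [List.map_congr_left h1, List.sum_map_mul_left, List.sum_map_add]
  congr 2
  · simp
  · have h2 : ∀ r, gval n B (u r) =
        ((ords n).map fun o => rval (run n (fun k => Nat.testBit (u r) k) (o.map (rel r)))).sum := by
      intro r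
      unfold gval
      rw [← ((hB r).map _).sum_eq, List.map_map]
      rfl
    rw [Finset.sum_congr rfl fun r _ => h2 r]
    generalize ords n = os
    induction os with
    | nil => simp
    | cons o os ih =>
      simp only [List.map_cons, List.sum_cons, ih, Finset.sum_add_distrib]

/-- the label orders for `n = 6` -/
def B6 : List (List ℕ) :=
  [[5, 2, 4, 3, 1, 0], [2, 4, 5, 3, 1, 0], [0, 3, 5, 4, 2, 1], [3, 5, 0, 4, 2, 1], [1, 4, 0, 5, 3,
   2], [4, 0, 1, 5, 3, 2], [2, 5, 1, 0, 4, 3], [5, 1, 2, 0, 4, 3], [3, 0, 2, 1, 5, 4], [0, 2, 3,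
   1, 5, 4], [4, 1, 3, 2, 0, 5], [1, 3, 4, 2, 0, 5]]

/-- the label orders for `n = 7` -/
def B7 : List (List ℕ) :=
  [[0, 6, 3, 5, 4, 2, 1], [0, 3, 5, 6, 4, 2, 1], [0, 1, 4, 6, 5, 3, 2], [0, 4, 6, 1, 5, 3, 2], [0,
   2, 5, 1, 6, 4, 3], [0, 5, 1, 2, 6, 4, 3], [0, 3, 6, 2, 1, 5, 4], [0, 6, 2, 3, 1, 5, 4], [0, 4,
   1, 3, 2, 6, 5], [0, 1, 3, 4, 2, 6, 5], [0, 5, 2, 4, 3, 1, 6], [0, 2, 4, 5, 3, 1, 6], [1, 6, 3,
   5, 4, 2, 0], [1, 3, 5, 6, 4, 2, 0], [1, 0, 4, 6, 5, 3, 2], [1, 4, 6, 0, 5, 3, 2], [1, 2, 5, 0,
   6, 4, 3], [1, 5, 0, 2, 6, 4, 3], [1, 3, 6, 2, 0, 5, 4], [1, 6, 2, 3, 0, 5, 4], [1, 4, 0, 3, 2,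
   6, 5], [1, 0, 3, 4, 2, 6, 5], [1, 5, 2, 4, 3, 0, 6], [1, 2, 4, 5, 3, 0, 6], [2, 6, 3, 5, 4, 1,
   0], [2, 3, 5, 6, 4, 1, 0], [2, 0, 4, 6, 5, 3, 1], [2, 4, 6, 0, 5, 3, 1], [2, 1, 5, 0, 6, 4, 3],
   [2, 5, 0, 1, 6, 4, 3], [2, 3, 6, 1, 0, 5, 4], [2, 6, 1, 3, 0, 5, 4], [2, 4, 0, 3, 1, 6, 5], [2,
   0, 3, 4, 1, 6, 5], [2, 5, 1, 4, 3, 0, 6], [2, 1, 4, 5, 3, 0, 6], [3, 6, 2, 5, 4, 1, 0], [3, 2,
   5, 6, 4, 1, 0], [3, 0, 4, 6, 5, 2, 1], [3, 4, 6, 0, 5, 2, 1], [3, 1, 5, 0, 6, 4, 2], [3, 5, 0,
   1, 6, 4, 2], [3, 2, 6, 1, 0, 5, 4], [3, 6, 1, 2, 0, 5, 4], [3, 4, 0, 2, 1, 6, 5], [3, 0, 2, 4,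
   1, 6, 5], [3, 5, 1, 4, 2, 0, 6], [3, 1, 4, 5, 2, 0, 6], [4, 6, 2, 5, 3, 1, 0], [4, 2, 5, 6, 3,
   1, 0], [4, 0, 3, 6, 5, 2, 1], [4, 3, 6, 0, 5, 2, 1], [4, 1, 5, 0, 6, 3, 2], [4, 5, 0, 1, 6, 3,
   2], [4, 2, 6, 1, 0, 5, 3], [4, 6, 1, 2, 0, 5, 3], [4, 3, 0, 2, 1, 6, 5], [4, 0, 2, 3, 1, 6, 5],
   [4, 5, 1, 3, 2, 0, 6], [4, 1, 3, 5, 2, 0, 6], [5, 6, 2, 4, 3, 1, 0], [5, 2, 4, 6, 3, 1, 0], [5,
   0, 3, 6, 4, 2, 1], [5, 3, 6, 0, 4, 2, 1], [5, 1, 4, 0, 6, 3, 2], [5, 4, 0, 1, 6, 3, 2], [5, 2,
   6, 1, 0, 4, 3], [5, 6, 1, 2, 0, 4, 3], [5, 3, 0, 2, 1, 6, 4], [5, 0, 2, 3, 1, 6, 4], [5, 4, 1,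
   3, 2, 0, 6], [5, 1, 3, 4, 2, 0, 6], [6, 5, 2, 4, 3, 1, 0], [6, 2, 4, 5, 3, 1, 0], [6, 0, 3, 5,
   4, 2, 1], [6, 3, 5, 0, 4, 2, 1], [6, 1, 4, 0, 5, 3, 2], [6, 4, 0, 1, 5, 3, 2], [6, 2, 5, 1, 0,
   4, 3], [6, 5, 1, 2, 0, 4, 3], [6, 3, 0, 2, 1, 5, 4], [6, 0, 2, 3, 1, 5, 4], [6, 4, 1, 3, 2, 0,
   5], [6, 1, 3, 4, 2, 0, 5]]

/-- the values for `n = 6` -/
def T6 : List ℤ :=
  [-7608, -6396, -7944, -1092, -6216, -1452, -4368, 2028, -5352, -1092, -2280, 2244, -4008, 228,
   -3984, 1644, -6612, -1920, -2748, 1848, -3468, -168, -2364, 1896, -2532, 192, -996, 1824,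
   -3588, -1488, -5628, -2616, -2616, -5628, -1488, -3588, 1824, -996, 192, -2532, 1896, -2364,
   -168, -3468, 1848, -2748, -1920, -6612, 1644, -3984, 228, -4008, 2244, -2280, -1092, -5352,
   2028, -4368, -1452, -6216, -1092, -7944, -6396, -7608]

/-- the values for `n = 7` -/
def T7 : List ℤ :=
  [-206064, -182124, -207612, -35352, -157536, -43236, -87372, 49896, -141984, -36972, -78084,
   49032, -77760, 25668, -43020, 80280, -137988, -34704, -71472, 50652, -64620, 31272, -28728,
   82980, -66468, 23400, -28920, 71316, -49620, 33192, -66768, 49068, -153108, -45936, -71760,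
   43308, -64884, 24288, -23352, 80172, -61644, 18960, -21768, 68508, -36756, 34704, -51048,
   52092, -47496, 22164, -10572, 69264, -20760, 38484, -36180, 52200, -25416, 23892, -40404,
   31896, -69336, -20412, -147564, -74736, -74736, -147564, -20412, -69336, 31896, -40404, 23892,
   -25416, 52200, -36180, 38484, -20760, 69264, -10572, 22164, -47496, 52092, -51048, 34704,
   -36756, 68508, -21768, 18960, -61644, 80172, -23352, 24288, -64884, 43308, -71760, -45936,
   -153108, 49068, -66768, 33192, -49620, 71316, -28920, 23400, -66468, 82980, -28728, 31272,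
   -64620, 50652, -71472, -34704, -137988, 80280, -43020, 25668, -77760, 49032, -78084, -36972,
   -141984, 49896, -87372, -43236, -157536, -35352, -207612, -182124, -206064]

theorem perm6 : ∀ r : Fin 6, ((ords 6).map fun o => o.map (rel r)).isPerm B6 = true := by
  decide +kernel

theorem perm7 : ∀ r : Fin 7, ((ords 7).map fun o => o.map (rel r)).isPerm B7 = true := by
  decide +kernel

theorem tab6 : ∀ u < 64, gval 6 B6 u = T6.getD u 0 := by
  decide +kernel

theorem tab7 : ∀ u < 128, gval 7 B7 u = T7.getD u 0 := by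
  decide +kernel

theorem um6 : ∀ w < 64, ∀ r : Fin 6, um 6 w r < 64 ∧
    ∀ l : Fin 6, Nat.testBit (um 6 w r) (rel r l) = sg (fun i => Nat.testBit w i) r l := by
  decide +kernel

theorem um7 : ∀ w < 128, ∀ r : Fin 7, um 7 w r < 128 ∧
    ∀ l : Fin 7, Nat.testBit (um 7 w r) (rel r l) = sg (fun i => Nat.testBit w i) r l := by
  decide +kernel

theorem fin6 : ∀ w < 64, 0 ≤ (ords 6).length * (18 * 3 ^ (6 - 2))
    + ∑ r : Fin 6, T6.getD (um 6 w r) 0 := by
  decide +kernel

theorem fin7 : ∀ w < 128, 0 ≤ (ords 7).length * (18 * 3 ^ (7 - 2))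
    + ∑ r : Fin 7, T7.getD (um 7 w r) 0 := by
  decide +kernel

/-- type 0, six lines -/
theorem base0_6 {K : Cfg 6} {v : Fin 6 → Bool} (M : Mach K v) : 0 ≤ EL K (M.D Finset.univ) := by
  have hw : Nat.ofBits v < 64 := Nat.ofBits_lt_two_pow v
  have hv : v = fun i : Fin 6 => Nat.testBit (Nat.ofBits v) i := by
    funext i
    rw [Nat.testBit_ofBits_lt v i i.isLt]
  generalize hW : Nat.ofBits v = w at hw hv
  subst hv
  rw [EL_D_eq M (by norm_num) B6 (fun r => List.isPerm_iff.mp (perm6 r)) (fun r => um 6 w r)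
    (fun r l => (um6 w hw r).2 l), Finset.sum_congr rfl fun r _ => tab6 _ (um6 w hw r).1]
  have := fin6 w hw
  linarith

/-- type 0, seven lines -/
theorem base0_7 {K : Cfg 7} {v : Fin 7 → Bool} (M : Mach K v) : 0 ≤ EL K (M.D Finset.univ) := by
  have hw : Nat.ofBits v < 128 := Nat.ofBits_lt_two_pow v
  have hv : v = fun i : Fin 7 => Nat.testBit (Nat.ofBits v) i := by
    funext i
    rw [Nat.testBit_ofBits_lt v i i.isLt]
  generalize hW : Nat.ofBits v = w at hw hv
  subst hv
  rw [EL_D_eq M (by norm_num) B7 (fun r => List.isPerm_iff.mp (perm7 r)) (fun r => um 7 w r)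
    (fun r l => (um7 w hw r).2 l), Finset.sum_congr rfl fun r _ => tab7 _ (um7 w hw r).1]
  have := fin7 w hw
  linarith

end KK
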