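import Mathlib.Algebra.Order.Ring.Int
import Mathlib.Tactic.Linarith
import Mathlib.Tactic.Positivity
import Mathlib.Algebra.Order.BigOperators.Group.Finset
import Mathlib.Data.Fintype.Prod
import Mathlib.Data.Finset.Max
import Mathlib.Algebra.BigOperators.Ring.Finset
import Mathlib.Algebra.Group.Fin.Basic
import Pool.Agent.KK.Mach

namespace KK
namespace PairC

def b2 (b : Bool) : ℕ := if b then 1 else 0

def pB (sa sb sl : Bool) : Bool := (sa == sb) && (sl != sa)
def eB (sa sb sl so : Bool) : Bool := (sa != sb) && (sl == so)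
/-- number of bad states: second insertion with written bit `q`, after states `X` and `Y` -/
def nb (q : Bool) (X Y : Bool × Bool) : ℕ :=
  b2 ((X.1 == X.2) && (X.1 != q)) + b2 ((Y.1 == Y.2) && (Y.1 != q))
def iA (q : Bool) (x : Bool × Bool) : Bool × Bool := (q, x.2)
def iB (q : Bool) (x : Bool × Bool) : Bool × Bool := (x.1, q)
def oA (q : Bool) (x : Bool × Bool) : Bool × Bool := (xor x.1 q, false)
def oB (q : Bool) (x : Bool × Bool) : Bool × Bool := (false, xor x.2 q)

/-- second insertion inner or outer with bit `q`, first insertion inner with bit `p` -/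
def nI (q p : Bool) (x : Bool × Bool) : ℕ := nb q (iA p x) (iB p x)
/-- second insertion inner or outer with bit `q`, first insertion outer with bit `p` -/
def nO (q p : Bool) (x : Bool × Bool) : ℕ := nb q (oA p x) (oB p x)

theorem nI_swap (q p : Bool) (x : Bool × Bool) : nI q p x.swap = nI q p x := by
  obtain ⟨a, b⟩ := x; revert q p a b; decide

theorem nO_swap (q p : Bool) (x : Bool × Bool) : nO q p x.swap = nO q p x := by
  obtain ⟨a, b⟩ := x; revert q p a b; decide

/-- generic position: both lines inner -/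
theorem gen (sa sb sx sy : Bool) (x : Bool × Bool) :
    ((sa = sb ∧ sx ≠ sy) → nI (pB sa sb sy) (pB sa sb sx) x + nI (pB sa sb sx) (pB sa sb sy) x ≤ 2) ∧
    (¬ (sa = sb ∧ sx ≠ sy) → nI (pB sa sb sy) (pB sa sb sx) x = 0 ∧
      nI (pB sa sb sx) (pB sa sb sy) x = 0) := by
  obtain ⟨a, b⟩ := x; revert sa sb sx sy a b; decide

/-- block of the gaps around `x` (not adjacent to `y`). Signs at the position before `x`:
`si` of the line before `x`, `sj` of the line after `x`. -/
theorem blk1 (si sj sx sy : Bool) (x : Bool × Bool) (h : si = sx ∧ sx ≠ sy) :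
    nO (pB sj (!sx) sy) (eB sj si (!sx) sj) x = 0 ∧
    nO (pB sx si sy) (eB sj si sx si) x + nI (eB sj si sx si) (pB sj si sy) x ≤ 2 := by
  obtain ⟨a, b⟩ := x; revert si sj sx sy a b; decide

theorem blk2 (si sj sx sy : Bool) (x : Bool × Bool) (h : (!sx) = sj ∧ (!sx) ≠ sy) :
    nO (pB sx si sy) (eB sj si sx si) x = 0 ∧
    nO (pB sj (!sx) sy) (eB sj si (!sx) sj) x + nI (eB sj si sx si) (pB sj si sy) x ≤ 2 := by
  obtain ⟨a, b⟩ := x; revert si sj sx sy a b; decide

theorem blk3 (si sj sx sy : Bool) (x : Bool × Bool) (h : ¬ (si = sx ∧ sx ≠ sy))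
    (h' : ¬ ((!sx) = sj ∧ (!sx) ≠ sy)) :
    nO (pB sx si sy) (eB sj si sx si) x = 0 ∧ nO (pB sj (!sx) sy) (eB sj si (!sx) sj) x = 0 ∧
      nI (eB sj si sx si) (pB sj si sy) x = 0 := by
  obtain ⟨a, b⟩ := x; revert si sj sx sy a b; decide

/-- adjacent block: `y` directly after `x`. Signs at the position before `x`.
`M1`: position before x, order (x, y); `M2`: position x, order (x, y); `M3`: position before x,
order (y, x); `M4`: position y, order (y, x). -/
def M1 (si sj sx sy : Bool) (x : Bool × Bool) : ℕ := nO (pB sx si sy) (eB sj si sx si) x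
def M2 (si sj sx sy : Bool) (x : Bool × Bool) : ℕ := nO (eB sj (!sx) sy (!sx)) (eB sj si (!sx) sj) x
def M3 (si sj sx sy : Bool) (x : Bool × Bool) : ℕ := nO (eB sy si sx si) (eB sj si sy si) x
def M4 (si sj sx sy : Bool) (x : Bool × Bool) : ℕ := nO (pB sj (!sy) (!sx)) (eB sj si (!sy) sj) x

theorem adj0 (si sj sx sy : Bool) (x : Bool × Bool) (h : sx = sy) :
    M1 si sj sx sy x = 0 ∧ M2 si sj sx sy x = 0 ∧ M3 si sj sx sy x = 0 ∧ M4 si sj sx sy x = 0 := by
  obtain ⟨a, b⟩ := x; revert si sj sx sy a b; decide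

theorem adj1 (si sj sx sy : Bool) (x : Bool × Bool) (h : sx ≠ sy) (h1 : si = sx) (h2 : sj = sx) :
    M1 si sj sx sy x ≤ 2 ∧ M2 si sj sx sy x ≤ 2 ∧ M3 si sj sx sy x ≤ 2 ∧ M4 si sj sx sy x ≤ 2 := by
  obtain ⟨a, b⟩ := x; revert si sj sx sy a b; decide

theorem adj2 (si sj sx sy : Bool) (x : Bool × Bool) (h : sx ≠ sy) (h1 : ¬ (si ≠ sx ∧ sj ≠ sx))
    (h2 : ¬ (si = sx ∧ sj = sx)) :
    M1 si sj sx sy x + M2 si sj sx sy x + M3 si sj sx sy x + M4 si sj sx sy x ≤ 2 := by
  obtain ⟨a, b⟩ := x; revert si sj sx sy a b; decide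

theorem adj3 (si sj sx sy : Bool) (x : Bool × Bool) (h : sx ≠ sy) (h1 : si ≠ sx) (h2 : sj ≠ sx) :
    M1 si sj sx sy x = 0 ∧ M2 si sj sx sy x = 0 ∧ M3 si sj sx sy x = 0 ∧ M4 si sj sx sy x = 0 := by
  obtain ⟨a, b⟩ := x; revert si sj sx sy a b; decide

variable {n : ℕ}

theorem succ_val [NeZero n] (hn : 2 ≤ n) (r : Fin n) :
    (r + 1).val = if r.val + 1 = n then 0 else r.val + 1 := by
  have h1 : ((1 : Fin n)).val = 1 := by
    rw [Fin.val_one', Nat.mod_eq_of_lt (by omega)]
  rw [Fin.val_add, h1]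
  split_ifs with h
  · rw [h, Nat.mod_self]
  · exact Nat.mod_eq_of_lt (by omega)

theorem rel_self (r : Fin n) : rel r r = n - 1 := by
  have := r.isLt
  simp only [rel, lt_irrefl, if_false]; omega

theorem rel_eq (r l : Fin n) : rel r l = if r.val < l.val then l.val - r.val - 1 else l.val + n - r.val - 1 := rfl

theorem rel_lt (r l : Fin n) : rel r l < n := by
  have := r.isLt; have := l.isLt
  rw [rel_eq]; split_ifs <;> omega

theorem rel_next [NeZero n] (hn : 2 ≤ n) (r : Fin n) : rel r (r + 1) = 0 := by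
  have := r.isLt
  rw [rel_eq, succ_val hn]; split_ifs <;> omega

theorem rel_inj (r a b : Fin n) (h : rel r a = rel r b) : a = b := by
  have := r.isLt; have := a.isLt; have := b.isLt
  rw [rel_eq, rel_eq] at h
  apply Fin.ext
  split_ifs at h <;> omega

theorem rel_succ_right [NeZero n] (hn : 2 ≤ n) (r l : Fin n) (h : l ≠ r) : rel r (l + 1) = rel r l + 1 := by
  have := r.isLt; have := l.isLt
  have h' : l.val ≠ r.val := fun hh => h (Fin.ext hh)
  rw [rel_eq, rel_eq, succ_val hn]; split_ifs <;> omega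

theorem rel_succ_left [NeZero n] (hn : 2 ≤ n) (r l : Fin n) (h : l ≠ r + 1) : rel (r + 1) l + 1 = rel r l := by
  have := r.isLt; have := l.isLt
  have h' : l.val ≠ (r + 1).val := fun hh => h (Fin.ext hh)
  rw [succ_val hn] at h'
  rw [rel_eq, rel_eq, succ_val hn]; split_ifs at h' ⊢ <;> omega

theorem rel_pos [NeZero n] (hn : 2 ≤ n) (r l : Fin n) (h : l ≠ r + 1) : 0 < rel r l := by
  have := rel_succ_left hn r l h; omega

theorem rel_lt_last (r l : Fin n) (h : l ≠ r) : rel r l < n - 1 := by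
  have h1 := rel_lt r l
  rcases Nat.lt_or_ge (rel r l) (n - 1) with h2 | h2
  · exact h2
  · exact absurd (rel_inj r l r (by rw [rel_self]; omega)) h

theorem ne_succ [NeZero n] (hn : 2 ≤ n) (r : Fin n) : r + 1 ≠ r := by
  intro h
  have h1 := rel_next hn r
  rw [h, rel_self] at h1; omega

/-- the flag of the wrap-around -/
def wr [NeZero n] (r : Fin n) : Bool := decide (r.val + 1 = n)

theorem sg_succ [NeZero n] (hn : 2 ≤ n) (v : Fin n → Bool) (r l : Fin n) (h : l ≠ r + 1) :
    sg v (r + 1) l = xor (wr r) (sg v r l) := by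
  have := r.isLt; have := l.isLt
  have h' : l.val ≠ (r + 1).val := fun hh => h (Fin.ext hh)
  rw [succ_val hn] at h'
  unfold sg wr
  by_cases h0 : r.val + 1 = n
  · rw [if_pos h0] at h'
    have e1 : ¬ (l ≤ r + 1) := by rw [Fin.le_def, succ_val hn, if_pos h0]; omega
    have e2 : l ≤ r := by rw [Fin.le_def]; omega
    rw [if_neg e1, if_pos e2]; simp [h0]
  · rw [if_neg h0] at h'
    by_cases e2 : l ≤ r
    · have e3 := Fin.le_def.1 e2
      have e1 : (l ≤ r + 1) := by rw [Fin.le_def, succ_val hn, if_neg h0]; omega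
      rw [if_pos e1, if_pos e2]; simp [h0]
    · have e3 : ¬ (l.val ≤ r.val) := fun hh => e2 (Fin.le_def.2 hh)
      have e1 : ¬ (l ≤ r + 1) := by rw [Fin.le_def, succ_val hn, if_neg h0]; omega
      rw [if_neg e1, if_neg e2]; simp [h0]

theorem sg_succ_self [NeZero n] (hn : 2 ≤ n) (v : Fin n → Bool) (r : Fin n) :
    sg v (r + 1) (r + 1) = xor (wr r) (!(sg v r (r + 1))) := by
  have := r.isLt
  unfold sg wr
  rw [if_pos (le_refl _)]
  by_cases h0 : r.val + 1 = n
  · have e2 : r + 1 ≤ r := by rw [Fin.le_def, succ_val hn, if_pos h0]; omega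
    rw [if_pos e2]; simp [h0]
  · have e2 : ¬ (r + 1 ≤ r) := by rw [Fin.le_def, succ_val hn, if_neg h0]; omega
    rw [if_neg e2]; simp [h0]

theorem pB_xor (c a b l : Bool) : pB (xor c a) (xor c b) (xor c l) = pB a b l := by
  revert c a b l; decide

theorem eB_xor (c a b l o : Bool) : eB (xor c a) (xor c b) (xor c l) (xor c o) = eB a b l o := by
  revert c a b l o; decide

/-! ### Walls -/

theorem walls_erase [NeZero n] (hn : 2 ≤ n) (y r : Fin n) (h : r ≠ y) :
    Walls (Finset.univ.erase y) r (if r + 1 = y then y + 1 else r + 1) r := by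
  refine ⟨?_, ?_, ?_⟩
  · rw [Finset.mem_erase]
    refine ⟨?_, Finset.mem_univ _⟩
    split_ifs with h1
    · exact ne_succ hn y
    · exact h1
  · exact Finset.mem_erase.2 ⟨h, Finset.mem_univ _⟩
  · intro z hz
    have hz' := (Finset.mem_erase.1 hz).1
    refine ⟨?_, ?_⟩
    · split_ifs with h1
      · have h2 := rel_succ_right hn r (r + 1) (ne_succ hn r)
        rw [rel_next hn] at h2
        rw [← h1, h2]
        have := rel_pos hn r z (by rw [h1]; exact hz')
        omega
      · rw [rel_next hn]; omega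
    · have := rel_lt r z; rw [rel_self]; omega

/-- first wall of `univ.erase y` at `r` -/
def f1 [NeZero n] (y r : Fin n) : Fin n := if r + 1 = y then y + 1 else r + 1

/-- all lines except `x` and `y` -/
def S2 (x y : Fin n) : Finset (Fin n) := (Finset.univ.erase y).erase x

theorem mem_S2 (x y z : Fin n) : z ∈ S2 x y ↔ z ≠ x ∧ z ≠ y := by
  simp [S2]

theorem S2_comm (x y : Fin n) : S2 x y = S2 y x := by
  ext z; simp only [mem_S2]; exact and_comm

theorem w_gen [NeZero n] (hn : 5 ≤ n) (x y r : Fin n) (h1 : r ≠ x) (h2 : r ≠ y) (h3 : r + 1 ≠ x)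
    (h4 : r + 1 ≠ y) : Walls (S2 x y) r (r + 1) r := by
  refine ⟨(mem_S2 _ _ _).2 ⟨h3, h4⟩, (mem_S2 _ _ _).2 ⟨h1, h2⟩, fun z hz => ?_⟩
  rw [rel_next (by omega), rel_self]
  have := rel_lt r z
  omega

theorem w_p [NeZero n] (hn : 5 ≤ n) (p x y : Fin n) (hx : p + 1 = x) (h1 : p ≠ y) (h2 : x ≠ y)
    (h3 : x + 1 ≠ y) : Walls (S2 x y) p (x + 1) p := by
  have e1 : p ≠ x := by rw [← hx]; exact (ne_succ (by omega) p).symm
  refine ⟨(mem_S2 _ _ _).2 ⟨ne_succ (by omega) x, h3⟩, (mem_S2 _ _ _).2 ⟨e1, h1⟩, fun z hz => ?_⟩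
  have hz' := (mem_S2 _ _ _).1 hz
  have e2 : rel p (x + 1) = 1 := by
    rw [rel_succ_right (by omega) p x e1.symm, ← hx, rel_next (by omega)]
  have e3 := rel_pos (by omega) p z (by rw [hx]; exact hz'.1)
  have e4 := rel_lt p z
  rw [e2, rel_self]; omega

theorem w_x [NeZero n] (hn : 5 ≤ n) (p x y : Fin n) (hx : p + 1 = x) (h1 : p ≠ y) (h2 : x ≠ y)
    (h3 : x + 1 ≠ y) : Walls (S2 x y) x (x + 1) p := by
  have e1 : p ≠ x := by rw [← hx]; exact (ne_succ (by omega) p).symm
  refine ⟨(mem_S2 _ _ _).2 ⟨ne_succ (by omega) x, h3⟩, (mem_S2 _ _ _).2 ⟨e1, h1⟩, fun z hz => ?_⟩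
  have hz' := (mem_S2 _ _ _).1 hz
  have e2 : rel x p + 1 = n - 1 := by
    rw [← hx, rel_succ_left (by omega) p p (by rw [hx]; exact e1), rel_self]
  have e3 := rel_lt_last x z hz'.1
  rw [rel_next (by omega)]; omega

theorem ne2 [NeZero n] (hn : 5 ≤ n) (x : Fin n) : x + 1 + 1 ≠ x := by
  intro h
  have h1 := rel_succ_right (by omega) x (x + 1) (ne_succ (by omega) x)
  rw [rel_next (by omega), h, rel_self] at h1; omega

theorem ne3 [NeZero n] (hn : 5 ≤ n) (x : Fin n) : x + 1 + 1 + 1 ≠ x := by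
  intro h
  have h1 := rel_succ_right (by omega) x (x + 1) (ne_succ (by omega) x)
  have h2 := rel_succ_right (by omega) x (x + 1 + 1) (ne2 hn x)
  rw [h1, rel_next (by omega), h, rel_self] at h2; omega

theorem a_p [NeZero n] (hn : 5 ≤ n) (p x y : Fin n) (hx : p + 1 = x) (hy : x + 1 = y) :
    Walls (S2 x y) p (y + 1) p := by
  subst hx; subst hy
  refine ⟨(mem_S2 _ _ _).2 ⟨ne2 hn _, ne_succ (by omega) _⟩,
    (mem_S2 _ _ _).2 ⟨(ne_succ (by omega) p).symm, (ne2 hn p).symm⟩, fun z hz => ?_⟩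
  have hz' := (mem_S2 _ _ _).1 hz
  have e1 := rel_succ_right (by omega) p (p + 1) (ne_succ (by omega) p)
  have e2 := rel_succ_right (by omega) p (p + 1 + 1) (ne2 hn p)
  rw [rel_next (by omega)] at e1
  have e3 := rel_pos (by omega) p z hz'.1
  have e4 : rel p z ≠ 1 := fun h => hz'.2 (rel_inj p _ _ (by rw [h, e1]))
  have e5 := rel_lt p z
  rw [e2, e1, rel_self]; omega

theorem a_x [NeZero n] (hn : 5 ≤ n) (p x y : Fin n) (hx : p + 1 = x) (hy : x + 1 = y) :
    Walls (S2 x y) x (y + 1) p := by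
  subst hx; subst hy
  refine ⟨(mem_S2 _ _ _).2 ⟨ne2 hn _, ne_succ (by omega) _⟩,
    (mem_S2 _ _ _).2 ⟨(ne_succ (by omega) p).symm, (ne2 hn p).symm⟩, fun z hz => ?_⟩
  have hz' := (mem_S2 _ _ _).1 hz
  have e1 := rel_succ_right (by omega) (p + 1) (p + 1 + 1) (ne_succ (by omega) _)
  rw [rel_next (by omega)] at e1
  have e2 := rel_succ_left (by omega) p p (ne_succ (by omega) p).symm
  rw [rel_self] at e2
  have e3 := rel_pos (by omega) (p + 1) z hz'.2
  have e4 := rel_lt_last (p + 1) z hz'.1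
  rw [e1]; omega

theorem a_y [NeZero n] (hn : 5 ≤ n) (p x y : Fin n) (hx : p + 1 = x) (hy : x + 1 = y) :
    Walls (S2 x y) y (y + 1) p := by
  subst hx; subst hy
  refine ⟨(mem_S2 _ _ _).2 ⟨ne2 hn _, ne_succ (by omega) _⟩,
    (mem_S2 _ _ _).2 ⟨(ne_succ (by omega) p).symm, (ne2 hn p).symm⟩, fun z hz => ?_⟩
  have hz' := (mem_S2 _ _ _).1 hz
  have e1 := rel_succ_left (by omega) (p + 1) p (ne2 hn p).symm
  have e2 := rel_succ_left (by omega) p p (ne_succ (by omega) p).symm
  rw [rel_self] at e2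
  have e3 := rel_succ_left (by omega) (p + 1) (p + 1) (ne_succ (by omega) (p + 1)).symm
  rw [rel_self] at e3
  have e4 := rel_lt_last (p + 1 + 1) z hz'.2
  have e5 : rel (p + 1 + 1) z ≠ n - 2 := by
    intro h
    apply hz'.1
    apply rel_inj (p + 1 + 1)
    rw [h]; omega
  rw [rel_next (by omega)]; omega

/-! ### Values of the number of bad states -/

def Nf (v : Fin n → Bool) (r a b x a' y : Fin n) (z : Bool × Bool) : ℕ :=
  b2 (bad v r a' r y (upA v r a b x z)) + b2 (bad v r a' r y (upB v r a b x z))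

theorem Nf_ii (v : Fin n → Bool) (r a b x a' y : Fin n) (z : Bool × Bool) (h1 : inner r a b x = true)
    (h2 : inner r a' r y = true) :
    Nf v r a b x a' y z = nI (pB (sg v r a') (sg v r r) (sg v r y)) (pB (sg v r a) (sg v r b) (sg v r x)) z := by
  simp [Nf, bad, upA, upB, h1, h2, nI, nb, iA, iB, pbit, pB]

theorem Nf_io (v : Fin n → Bool) (r a b x a' y : Fin n) (z : Bool × Bool) (h1 : inner r a b x = true)
    (h2 : inner r a' r y = false) :
    Nf v r a b x a' y z = nI (eB (sg v r a') (sg v r r) (sg v r y) (sg v r (oth r a' r y)))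
      (pB (sg v r a) (sg v r b) (sg v r x)) z := by
  simp [Nf, bad, upA, upB, h1, h2, nI, nb, iA, iB, pbit, pB, eB, ebit]

theorem Nf_oi (v : Fin n → Bool) (r a b x a' y : Fin n) (z : Bool × Bool) (h1 : inner r a b x = false)
    (h2 : inner r a' r y = true) :
    Nf v r a b x a' y z = nO (pB (sg v r a') (sg v r r) (sg v r y))
      (eB (sg v r a) (sg v r b) (sg v r x) (sg v r (oth r a b x))) z := by
  simp [Nf, bad, upA, upB, h1, h2, nO, nb, oA, oB, pbit, pB, eB, ebit]

theorem Nf_oo (v : Fin n → Bool) (r a b x a' y : Fin n) (z : Bool × Bool) (h1 : inner r a b x = false)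
    (h2 : inner r a' r y = false) :
    Nf v r a b x a' y z = nO (eB (sg v r a') (sg v r r) (sg v r y) (sg v r (oth r a' r y)))
      (eB (sg v r a) (sg v r b) (sg v r x) (sg v r (oth r a b x))) z := by
  simp [Nf, bad, upA, upB, h1, h2, nO, nb, oA, oB, pB, eB, ebit]

theorem inner_true (r a b l : Fin n) (h1 : rel r a < rel r l) (h2 : rel r l < rel r b) :
    inner r a b l = true := by simp [inner, h1, h2]

theorem inner_false1 (r a b l : Fin n) (h1 : ¬ (rel r a < rel r l)) : inner r a b l = false := by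
  simp only [inner, h1, decide_false, Bool.false_and]

theorem inner_false2 (r a b l : Fin n) (h1 : ¬ (rel r l < rel r b)) : inner r a b l = false := by
  simp only [inner, h1, decide_false, Bool.and_false]

theorem N_gen [NeZero n] (hn : 5 ≤ n) (v : Fin n → Bool) (x y r : Fin n) (h1 : r ≠ x) (h2 : r ≠ y)
    (h3 : r + 1 ≠ x) (h4 : r + 1 ≠ y) (z : Bool × Bool) :
    Nf v r (r + 1) r x (f1 y r) y z = nI (pB (sg v r (r + 1)) (sg v r r) (sg v r y))
      (pB (sg v r (r + 1)) (sg v r r) (sg v r x)) z := by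
  rw [f1, if_neg h4]
  have e1 := rel_pos (by omega) r x h3.symm
  have e2 := rel_pos (by omega) r y h4.symm
  have e3 := rel_lt_last r x h1.symm
  have e4 := rel_lt_last r y h2.symm
  exact Nf_ii v r _ _ x _ y z
    (inner_true _ _ _ _ (by rw [rel_next (by omega)]; exact e1) (by rw [rel_self]; exact e3))
    (inner_true _ _ _ _ (by rw [rel_next (by omega)]; exact e2) (by rw [rel_self]; exact e4))

theorem N_p [NeZero n] (hn : 5 ≤ n) (v : Fin n → Bool) (p x y : Fin n) (hx : p + 1 = x) (h1 : p ≠ y)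
    (h2 : x ≠ y) (z : Bool × Bool) :
    Nf v p (x + 1) p x (f1 y p) y z = nO (pB (sg v p x) (sg v p p) (sg v p y))
      (eB (sg v p (x + 1)) (sg v p p) (sg v p x) (sg v p p)) z := by
  have e1 : p ≠ x := by rw [← hx]; exact (ne_succ (by omega) p).symm
  rw [f1, if_neg (by rw [hx]; exact h2), hx]
  have e2 : rel p (x + 1) = 1 := by
    rw [rel_succ_right (by omega) p x e1.symm, ← hx, rel_next (by omega)]
  have e3 : rel p x = 0 := by rw [← hx, rel_next (by omega)]
  have e4 := rel_pos (by omega) p y (by rw [hx]; exact h2.symm)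
  have e5 := rel_lt_last p y h1.symm
  have e6 : oth p (x + 1) p x = p := by rw [oth, if_pos (by omega)]
  rw [Nf_oi v p _ _ x _ y z (inner_false1 _ _ _ _ (by omega))
    (inner_true _ _ _ _ (by omega) (by rw [rel_self]; exact e5)), e6]

theorem N_x [NeZero n] (hn : 5 ≤ n) (v : Fin n → Bool) (p x y : Fin n) (hx : p + 1 = x)
    (h2 : x ≠ y) (h3 : x + 1 ≠ y) (z : Bool × Bool) :
    Nf v x (x + 1) p x (f1 y x) y z = nO (pB (sg v x (x + 1)) (sg v x x) (sg v x y))
      (eB (sg v x (x + 1)) (sg v x p) (sg v x x) (sg v x (x + 1))) z := by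
  have e1 : p ≠ x := by rw [← hx]; exact (ne_succ (by omega) p).symm
  rw [f1, if_neg h3]
  have e2 : rel x (x + 1) = 0 := rel_next (by omega) x
  have e3 := rel_self x
  have e4 := rel_pos (by omega) x y h3.symm
  have e5 := rel_lt_last x y h2.symm
  have e7 := rel_lt_last x p e1
  have e6 : oth x (x + 1) p x = x + 1 := by rw [oth, if_neg (by omega)]
  rw [Nf_oi v x _ _ x _ y z (inner_false2 _ _ _ _ (by omega))
    (inner_true _ _ _ _ (by omega) (by rw [rel_self]; exact e5)), e6]

theorem N_p' [NeZero n] (hn : 5 ≤ n) (v : Fin n → Bool) (p x y : Fin n) (hx : p + 1 = x) (h1 : p ≠ y)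
    (h2 : x ≠ y) (h3 : x + 1 ≠ y) (z : Bool × Bool) :
    Nf v p (x + 1) p y (f1 x p) x z = nI (eB (sg v p (x + 1)) (sg v p p) (sg v p x) (sg v p p))
      (pB (sg v p (x + 1)) (sg v p p) (sg v p y)) z := by
  have e1 : p ≠ x := by rw [← hx]; exact (ne_succ (by omega) p).symm
  rw [f1, if_pos hx]
  have e2 : rel p (x + 1) = 1 := by
    rw [rel_succ_right (by omega) p x e1.symm, ← hx, rel_next (by omega)]
  have e3 : rel p x = 0 := by rw [← hx, rel_next (by omega)]
  have e4 := rel_pos (by omega) p y (by rw [hx]; exact h2.symm)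
  have e4' : rel p y ≠ 1 := fun h => h3 (rel_inj p _ _ (by rw [h, e2]))
  have e5 := rel_lt_last p y h1.symm
  have e6 : oth p (x + 1) p x = p := by rw [oth, if_pos (by omega)]
  rw [Nf_io v p _ _ y _ x z (inner_true _ _ _ _ (by omega) (by rw [rel_self]; exact e5))
    (inner_false1 _ _ _ _ (by omega)), e6]

theorem N_1 [NeZero n] (hn : 5 ≤ n) (v : Fin n → Bool) (p x y : Fin n) (hx : p + 1 = x)
    (hy : x + 1 = y) (z : Bool × Bool) :
    Nf v p (y + 1) p x (f1 y p) y z = nO (pB (sg v p x) (sg v p p) (sg v p y))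
      (eB (sg v p (y + 1)) (sg v p p) (sg v p x) (sg v p p)) z := by
  have e1 : p ≠ x := by rw [← hx]; exact (ne_succ (by omega) p).symm
  have e1' : p ≠ y := by rw [← hy, ← hx]; exact (ne2 hn p).symm
  have e1'' : x ≠ y := by rw [← hy]; exact (ne_succ (by omega) x).symm
  rw [f1, if_neg (by rw [hx]; exact e1''), hx]
  have e3 : rel p x = 0 := by rw [← hx, rel_next (by omega)]
  have e4 : rel p y = 1 := by rw [← hy, rel_succ_right (by omega) p x e1.symm, e3]
  have e5 : rel p (y + 1) = 2 := by rw [rel_succ_right (by omega) p y e1'.symm, e4]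
  have e6 := rel_self p
  have e7 : oth p (y + 1) p x = p := by rw [oth, if_pos (by omega)]
  rw [Nf_oi v p _ _ x _ y z (inner_false1 _ _ _ _ (by omega))
    (inner_true _ _ _ _ (by omega) (by omega)), e7]

theorem N_2 [NeZero n] (hn : 5 ≤ n) (v : Fin n → Bool) (p x y : Fin n) (hx : p + 1 = x)
    (hy : x + 1 = y) (z : Bool × Bool) :
    Nf v x (y + 1) p x (f1 y x) y z = nO (eB (sg v x (y + 1)) (sg v x x) (sg v x y) (sg v x x))
      (eB (sg v x (y + 1)) (sg v x p) (sg v x x) (sg v x (y + 1))) z := by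
  have e1 : p ≠ x := by rw [← hx]; exact (ne_succ (by omega) p).symm
  have e1'' : x ≠ y := by rw [← hy]; exact (ne_succ (by omega) x).symm
  rw [f1, if_pos hy]
  have e3 : rel x y = 0 := by rw [← hy, rel_next (by omega)]
  have e4 : rel x (y + 1) = 1 := by rw [rel_succ_right (by omega) x y e1''.symm, e3]
  have e6 := rel_self x
  have e8 := rel_lt_last x p e1
  have e7 : oth x (y + 1) p x = y + 1 := by rw [oth, if_neg (by omega)]
  have e9 : oth x (y + 1) x y = x := by rw [oth, if_pos (by omega)]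
  rw [Nf_oo v x _ _ x _ y z (inner_false2 _ _ _ _ (by omega))
    (inner_false1 _ _ _ _ (by omega)), e7, e9]

theorem N_3 [NeZero n] (hn : 5 ≤ n) (v : Fin n → Bool) (p x y : Fin n) (hx : p + 1 = x)
    (hy : x + 1 = y) (z : Bool × Bool) :
    Nf v p (y + 1) p y (f1 x p) x z = nO (eB (sg v p y) (sg v p p) (sg v p x) (sg v p p))
      (eB (sg v p (y + 1)) (sg v p p) (sg v p y) (sg v p p)) z := by
  have e1 : p ≠ x := by rw [← hx]; exact (ne_succ (by omega) p).symm
  have e1' : p ≠ y := by rw [← hy, ← hx]; exact (ne2 hn p).symm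
  rw [f1, if_pos hx, hy]
  have e3 : rel p x = 0 := by rw [← hx, rel_next (by omega)]
  have e4 : rel p y = 1 := by rw [← hy, rel_succ_right (by omega) p x e1.symm, e3]
  have e5 : rel p (y + 1) = 2 := by rw [rel_succ_right (by omega) p y e1'.symm, e4]
  have e6 := rel_self p
  have e7 : oth p (y + 1) p y = p := by rw [oth, if_pos (by omega)]
  have e8 : oth p y p x = p := by rw [oth, if_pos (by omega)]
  rw [Nf_oo v p _ _ y _ x z (inner_false1 _ _ _ _ (by omega))
    (inner_false1 _ _ _ _ (by omega)), e7, e8]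

theorem N_4 [NeZero n] (hn : 5 ≤ n) (v : Fin n → Bool) (p x y : Fin n) (hx : p + 1 = x)
    (hy : x + 1 = y) (z : Bool × Bool) :
    Nf v y (y + 1) p y (f1 x y) x z = nO (pB (sg v y (y + 1)) (sg v y y) (sg v y x))
      (eB (sg v y (y + 1)) (sg v y p) (sg v y y) (sg v y (y + 1))) z := by
  have e1 : p ≠ x := by rw [← hx]; exact (ne_succ (by omega) p).symm
  have e1' : p ≠ y := by rw [← hy, ← hx]; exact (ne2 hn p).symm
  have e1'' : x ≠ y := by rw [← hy]; exact (ne_succ (by omega) x).symm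
  have e2 : y + 1 ≠ x := by rw [← hy]; exact ne2 hn x
  rw [f1, if_neg e2]
  have e3 : rel y (y + 1) = 0 := rel_next (by omega) y
  have e4 := rel_pos (by omega) y x e2.symm
  have e5 := rel_lt_last y x e1''
  have e6 := rel_self y
  have e8 := rel_lt_last y p e1'
  have e7 : oth y (y + 1) p y = y + 1 := by rw [oth, if_neg (by omega)]
  rw [Nf_oi v y _ _ y _ x z (inner_false2 _ _ _ _ (by omega))
    (inner_true _ _ _ _ (by omega) (by omega)), e7]

/-! ### Weights -/

def ib (b : Bool) : ℕ := if b then 1 else 0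

theorem cnt_erase (v : Fin n → Bool) (T : Finset (Fin n)) (y r : Fin n) (s : Bool) (h : y ∈ T) :
    cnt v (T.erase y) r s + ib (sg v r y == s) = cnt v T r s := by
  unfold cnt ib
  rw [Finset.filter_erase]
  by_cases hs : sg v r y = s
  · have hm : y ∈ T.filter (fun j => sg v r j = s) := Finset.mem_filter.2 ⟨h, hs⟩
    rw [Finset.card_erase_of_mem hm]
    have := Finset.card_pos.2 ⟨y, hm⟩
    simp only [hs, beq_self_eq_true, if_true]; omega
  · have hm : y ∉ T.filter (fun j => sg v r j = s) := fun hh => hs (Finset.mem_filter.1 hh).2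
    rw [Finset.erase_eq_of_notMem hm]
    have : (sg v r y == s) = false := by simpa using hs
    simp [this]

theorem cnt_not (v : Fin n → Bool) (T : Finset (Fin n)) (r : Fin n) (s : Bool) :
    cnt v T r s + cnt v T r (!s) = T.card := by
  unfold cnt
  rw [← Finset.card_filter_add_card_filter_not (s := T) (fun j => sg v r j = s)]
  congr 2
  apply Finset.filter_congr
  intro j _
  cases sg v r j <;> cases s <;> simp

theorem cnt_out [NeZero n] (hn : 2 ≤ n) (v : Fin n → Bool) (T : Finset (Fin n)) (p : Fin n) (s : Bool)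
    (h : p + 1 ∉ T) : cnt v T (p + 1) s = cnt v T p (xor (wr p) s) := by
  unfold cnt
  congr 1
  apply Finset.filter_congr
  intro j hj
  have hne : j ≠ p + 1 := fun hh => h (hh ▸ hj)
  rw [sg_succ hn v p j hne]
  cases sg v p j <;> cases s <;> cases wr p <;> simp

theorem cnt_in [NeZero n] (hn : 2 ≤ n) (v : Fin n → Bool) (T : Finset (Fin n)) (p : Fin n) (s : Bool)
    (h : p + 1 ∈ T) : cnt v T (p + 1) s + ib (sg v p (p + 1) == (xor (wr p) s)) =
      cnt v T p (xor (wr p) s) + ib ((!(sg v p (p + 1))) == (xor (wr p) s)) := by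
  have h1 := cnt_erase v T (p + 1) (p + 1) s h
  have h2 := cnt_erase v T (p + 1) p (xor (wr p) s) h
  have h3 := cnt_out hn v (T.erase (p + 1)) p s (Finset.notMem_erase _ _)
  rw [sg_succ_self hn] at h1
  have h4 : ib ((xor (wr p) (!(sg v p (p + 1)))) == s) = ib ((!(sg v p (p + 1))) == (xor (wr p) s)) := by
    cases sg v p (p + 1) <;> cases s <;> cases wr p <;> rfl
  rw [h4] at h1
  omega

/-- weight of the gap at `r` of all lines except `y` -/
def wE (v : Fin n → Bool) (y r : Fin n) : ℤ :=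
  2 ^ cnt v (Finset.univ.erase y) r true + 2 ^ cnt v (Finset.univ.erase y) r false

theorem wE_sym (v : Fin n → Bool) (y r : Fin n) (s : Bool) :
    wE v y r = 2 ^ cnt v (Finset.univ.erase y) r s + 2 ^ cnt v (Finset.univ.erase y) r (!s) := by
  cases s
  · rw [wE, add_comm]; rfl
  · rfl

def Wt (A B : ℕ) : ℤ := max (2 ^ A + 2 ^ (B - 1)) (2 ^ (A - 1) + 2 ^ B)

theorem Wt_symm (A B : ℕ) : Wt A B = Wt B A := by
  unfold Wt; rw [max_comm]; congr 1 <;> ring

def lv (v : Fin n → Bool) (r : Fin n) : ℕ := cnt v Finset.univ r true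

theorem lv_not (v : Fin n → Bool) (r : Fin n) : cnt v Finset.univ r false = n - lv v r := by
  have := cnt_not v Finset.univ r true
  rw [Finset.card_univ, Fintype.card_fin] at this
  unfold lv
  simp only [Bool.not_true] at this
  omega

/-- the bound of the weights at `r` -/
def WW (v : Fin n → Bool) (r : Fin n) : ℤ := Wt (lv v r) (n - lv v r)

theorem WW_eq (v : Fin n → Bool) (r : Fin n) (s : Bool) :
    WW v r = Wt (cnt v Finset.univ r s) (cnt v Finset.univ r (!s)) := by
  cases s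
  · rw [Wt_symm, WW, ← lv_not]; rfl
  · rw [WW, ← lv_not]; rfl

theorem wE_le (v : Fin n → Bool) (y r : Fin n) : wE v y r ≤ WW v r := by
  rw [wE_sym v y r (sg v r y), WW_eq v r (sg v r y)]
  have h1 := cnt_erase v Finset.univ y r (sg v r y) (Finset.mem_univ _)
  have h2 := cnt_erase v Finset.univ y r (!(sg v r y)) (Finset.mem_univ _)
  have h3 : ib (sg v r y == sg v r y) = 1 := by simp [ib]
  have h4 : ib (sg v r y == !(sg v r y)) = 0 := by cases sg v r y <;> rfl
  rw [h3] at h1; rw [h4] at h2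
  have h5 : cnt v (Finset.univ.erase y) r (sg v r y) = cnt v Finset.univ r (sg v r y) - 1 := by omega
  have h6 : cnt v (Finset.univ.erase y) r (!(sg v r y)) = cnt v Finset.univ r (!(sg v r y)) := by omega
  rw [h5, h6]
  exact le_max_right _ _

theorem wE_nonneg (v : Fin n → Bool) (y r : Fin n) : 0 ≤ wE v y r := by
  unfold wE; positivity

theorem WW_nonneg (v : Fin n → Bool) (r : Fin n) : 0 ≤ WW v r := by
  unfold WW Wt
  apply le_max_of_le_left; positivity

theorem wE_flip [NeZero n] (hn : 2 ≤ n) (v : Fin n → Bool) (p x : Fin n) (hx : p + 1 = x) :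
    wE v x x = wE v x p := by
  subst hx
  rw [wE, cnt_out hn v _ p true (Finset.notMem_erase _ _), cnt_out hn v _ p false (Finset.notMem_erase _ _)]
  rw [wE_sym v (p + 1) p (xor (wr p) true)]
  cases wr p <;> rfl

theorem wt_adj [NeZero n] (hn : 5 ≤ n) (v : Fin n → Bool) (p x y : Fin n) (hx : p + 1 = x)
    (hy : x + 1 = y) (hs : sg v p x ≠ sg v p y) : ∃ A B : ℕ, 1 ≤ A ∧ 1 ≤ B ∧ A + B = n ∧
      wE v y p = 2 ^ A + 2 ^ (B - 1) ∧ wE v x p = 2 ^ (A - 1) + 2 ^ B ∧
      wE v y x = 2 ^ (A - 1) + 2 ^ B ∧ wE v x y = 2 ^ A + 2 ^ (B - 1) ∧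
      WW v p = Wt A B ∧ WW v y = Wt A B ∧ max (lv v y) (n - lv v y) = max A B := by
  subst hx; subst hy
  set x := p + 1 with hxd
  have exy : x ≠ x + 1 := (ne_succ (by omega) x).symm
  have hsy : sg v p (x + 1) = !(sg v p x) := by
    cases h1 : sg v p x <;> cases h2 : sg v p (x + 1) <;> simp_all
  have U := @Finset.mem_univ (Fin n) _
  have k1 := cnt_erase v Finset.univ x p (sg v p x) (U _)
  have k2 := cnt_erase v Finset.univ x p (!(sg v p x)) (U _)
  have k3 := cnt_erase v Finset.univ (x + 1) p (sg v p x) (U _)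
  have k4 := cnt_erase v Finset.univ (x + 1) p (!(sg v p x)) (U _)
  rw [hsy] at k3 k4
  have i1 : ib (sg v p x == sg v p x) = 1 := by simp [ib]
  have i2 : ib (sg v p x == !(sg v p x)) = 0 := by cases sg v p x <;> rfl
  have i3 : ib ((!(sg v p x)) == sg v p x) = 0 := by cases sg v p x <;> rfl
  have i4 : ib ((!(sg v p x)) == !(sg v p x)) = 1 := by cases sg v p x <;> rfl
  rw [i1] at k1; rw [i2] at k2; rw [i3] at k3; rw [i4] at k4
  have kt := cnt_not v Finset.univ p (sg v p x)
  rw [Finset.card_univ, Fintype.card_fin] at kt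
  -- weights at x of all lines except y
  have m1 := cnt_in (by omega) v (Finset.univ.erase (x + 1)) p (xor (wr p) (sg v p x))
    (Finset.mem_erase.2 ⟨exy, U _⟩)
  have m2 := cnt_in (by omega) v (Finset.univ.erase (x + 1)) p (xor (wr p) (!(sg v p x)))
    (Finset.mem_erase.2 ⟨exy, U _⟩)
  -- weights at y of all lines except x
  have q1 := cnt_in (by omega) v (Finset.univ.erase x) x (xor (wr x) (xor (wr p) (sg v p x)))
    (Finset.mem_erase.2 ⟨exy.symm, U _⟩)
  have q2 := cnt_in (by omega) v (Finset.univ.erase x) x (xor (wr x) (xor (wr p) (!(sg v p x))))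
    (Finset.mem_erase.2 ⟨exy.symm, U _⟩)
  have q3 := cnt_out (by omega) v (Finset.univ.erase x) p (xor (wr p) (sg v p x)) (Finset.notMem_erase _ _)
  have q4 := cnt_out (by omega) v (Finset.univ.erase x) p (xor (wr p) (!(sg v p x))) (Finset.notMem_erase _ _)
  -- all lines at y
  have r1 := cnt_in (by omega) v Finset.univ x (xor (wr x) (xor (wr p) (sg v p x))) (U _)
  have r2 := cnt_in (by omega) v Finset.univ p (xor (wr p) (sg v p x)) (U _)
  have r3 := cnt_in (by omega) v Finset.univ x (xor (wr x) (xor (wr p) (!(sg v p x)))) (U _)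
  have r4 := cnt_in (by omega) v Finset.univ p (xor (wr p) (!(sg v p x))) (U _)
  have hsx : sg v x (x + 1) = xor (wr p) (!(sg v p x)) := by
    rw [hxd, sg_succ (by omega) v p _ (by rw [← hxd]; exact exy.symm), ← hxd, hsy]
  rw [← hxd] at m1 m2 q3 q4 r2 r4
  rw [hsx] at q1 q2 r1 r3
  have xx : ∀ c t : Bool, xor c (xor c t) = t := by decide
  have nx : ∀ c t : Bool, (!(xor c t)) = xor c (!t) := by decide
  have j1 : ∀ c t : Bool, ib (xor c (!t) == xor c t) = 0 := by decide
  have j2 : ∀ c t : Bool, ib (xor c t == xor c t) = 1 := by decide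
  have j3 : ∀ c t : Bool, ib (xor c t == xor c (!t)) = 0 := by decide
  simp only [xx, nx, Bool.not_not, j1, j2, j3, i1, i2, i3, i4] at m1 m2 q1 q2 q3 q4 r1 r2 r3 r4
  refine ⟨cnt v Finset.univ p (sg v p x), cnt v Finset.univ p (!(sg v p x)), by omega, by omega, kt,
    ?_, ?_, ?_, ?_, WW_eq v p (sg v p x), ?_, ?_⟩
  · rw [wE_sym v (x + 1) p (sg v p x)]
    congr 2 <;> omega
  · rw [wE_sym v x p (sg v p x)]
    congr 2 <;> omega
  · rw [wE_sym v (x + 1) x (xor (wr p) (sg v p x)), nx]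
    congr 2 <;> omega
  · rw [wE_sym v x (x + 1) (xor (wr x) (xor (wr p) (sg v p x))), nx, nx]
    congr 2 <;> omega
  · rw [WW_eq v (x + 1) (xor (wr x) (xor (wr p) (sg v p x))), nx, nx]
    congr 1 <;> omega
  · have h1 : cnt v Finset.univ (x + 1) (xor (wr x) (xor (wr p) (sg v p x))) =
        cnt v Finset.univ p (sg v p x) := by omega
    have h2 : cnt v Finset.univ (x + 1) (xor (wr x) (xor (wr p) (!(sg v p x)))) =
        cnt v Finset.univ p (!(sg v p x)) := by omega
    rw [← h1, ← h2, ← lv_not]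
    unfold lv
    cases hh : xor (wr x) (xor (wr p) (sg v p x))
    · have : xor (wr x) (xor (wr p) (!(sg v p x))) = true := by
        rw [← nx, ← nx, hh]; rfl
      rw [this, max_comm]
    · have : xor (wr x) (xor (wr p) (!(sg v p x))) = false := by
        rw [← nx, ← nx, hh]; rfl
      rw [this]

/-! ### Blocks -/

/-- turning gap -/
def og [NeZero n] (v : Fin n → Bool) (r : Fin n) : Prop := sg v r r = sg v r (r + 1)

instance [NeZero n] (v : Fin n → Bool) (r : Fin n) : Decidable (og v r) :=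
  inferInstanceAs (Decidable (sg v r r = sg v r (r + 1)))

def HH [NeZero n] (v : Fin n → Bool) (x y r : Fin n) : ℤ :=
  if og v r ∧ sg v r x ≠ sg v r y then 2 * WW v r else 0

theorem HH_nonneg [NeZero n] (v : Fin n → Bool) (x y r : Fin n) : 0 ≤ HH v x y r := by
  unfold HH; split_ifs
  · have := WW_nonneg v r; omega
  · exact le_refl _

theorem HH_symm [NeZero n] (v : Fin n → Bool) (x y r : Fin n) : HH v x y r = HH v y x r := by
  unfold HH
  have : (og v r ∧ sg v r x ≠ sg v r y) ↔ (og v r ∧ sg v r y ≠ sg v r x) := by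
    rw [ne_comm]
  simp only [this]

theorem two_bound (a b c : ℤ) (N M : ℕ) (W : ℤ) (ha : a ≤ W) (hb : b ≤ W) (hW : 0 ≤ W)
    (h : N + M ≤ 2) : (N : ℤ) * a + (M : ℤ) * b ≤ 2 * W := by
  have h1 : (N : ℤ) * a ≤ (N : ℤ) * W := mul_le_mul_of_nonneg_left ha (by positivity)
  have h2 : (M : ℤ) * b ≤ (M : ℤ) * W := mul_le_mul_of_nonneg_left hb (by positivity)
  have h3 : ((N + M : ℕ) : ℤ) * W ≤ 2 * W := mul_le_mul_of_nonneg_right (by exact_mod_cast h) hW
  push_cast at h3
  linarith

theorem block_gen [NeZero n] (hn : 5 ≤ n) (v : Fin n → Bool) (x y r : Fin n) (z : Bool × Bool)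
    (h1 : r ≠ x) (h2 : r ≠ y) (h3 : r + 1 ≠ x) (h4 : r + 1 ≠ y) :
    (Nf v r (r + 1) r x (f1 y r) y z : ℤ) * wE v y r + (Nf v r (r + 1) r y (f1 x r) x z : ℤ) * wE v x r
      ≤ HH v x y r := by
  rw [N_gen hn v x y r h1 h2 h3 h4, N_gen hn v y x r h2 h1 h4 h3]
  have g := gen (sg v r (r + 1)) (sg v r r) (sg v r x) (sg v r y) z
  by_cases hc : (sg v r (r + 1) = sg v r r ∧ sg v r x ≠ sg v r y)
  · have hH : HH v x y r = 2 * WW v r := by
      rw [HH, if_pos ⟨hc.1.symm, hc.2⟩]
    rw [hH]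
    exact two_bound _ _ 0 _ _ _ (wE_le v y r) (wE_le v x r) (WW_nonneg v r) (g.1 hc)
  · have g2 := g.2 hc
    rw [g2.1, g2.2]
    have := HH_nonneg v x y r
    simpa using this

theorem block_x [NeZero n] (hn : 5 ≤ n) (v : Fin n → Bool) (p x y : Fin n) (hx : p + 1 = x)
    (h1 : p ≠ y) (h2 : x ≠ y) (h3 : x + 1 ≠ y) (z zx : Bool × Bool) (hz : zx = z ∨ zx = z.swap) :
    (Nf v p (x + 1) p x (f1 y p) y z : ℤ) * wE v y p + (Nf v x (x + 1) p x (f1 y x) y zx : ℤ) * wE v y x +
      (Nf v p (x + 1) p y (f1 x p) x z : ℤ) * wE v x p ≤ HH v x y p + HH v x y x := by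
  rw [N_p hn v p x y hx h1 h2, N_x hn v p x y hx h2 h3, N_p' hn v p x y hx h1 h2 h3]
  have ex : x + 1 ≠ x := ne_succ (by omega) x
  have e1 : p ≠ x := by rw [← hx]; exact (ne_succ (by omega) p).symm
  have s1 : sg v x (x + 1) = xor (wr p) (sg v p (x + 1)) := by
    have := sg_succ (by omega) v p (x + 1) (by rw [hx]; exact ex)
    rw [hx] at this; exact this
  have s2 : sg v x y = xor (wr p) (sg v p y) := by
    have := sg_succ (by omega) v p y (by rw [hx]; exact h2.symm)
    rw [hx] at this; exact this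
  have s3 : sg v x p = xor (wr p) (sg v p p) := by
    have := sg_succ (by omega) v p p (by rw [hx]; exact e1)
    rw [hx] at this; exact this
  have s4 : sg v x x = xor (wr p) (!(sg v p x)) := by
    have := sg_succ_self (by omega) v p
    rw [hx] at this; exact this
  rw [s1, s2, s3, s4, pB_xor, eB_xor]
  have hzx : ∀ q q' : Bool, nO q q' zx = nO q q' z := by
    intro q q'
    rcases hz with hz | hz
    · rw [hz]
    · rw [hz, nO_swap]
  rw [hzx]
  have hp := HH_nonneg v x y p
  have hxx := HH_nonneg v x y x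
  have hfl := wE_flip (by omega) v p x hx
  by_cases c1 : (sg v p p = sg v p x ∧ sg v p x ≠ sg v p y)
  · have b := blk1 (sg v p p) (sg v p (x + 1)) (sg v p x) (sg v p y) z c1
    have hH : HH v x y p = 2 * WW v p := by
      rw [HH, if_pos ⟨by rw [og, hx]; exact c1.1, c1.2⟩]
    rw [b.1]
    have := two_bound _ _ 0 _ _ _ (wE_le v y p) (wE_le v x p) (WW_nonneg v p) b.2
    push_cast
    linarith
  · by_cases c2 : ((!(sg v p x)) = sg v p (x + 1) ∧ (!(sg v p x)) ≠ sg v p y)
    · have b := blk2 (sg v p p) (sg v p (x + 1)) (sg v p x) (sg v p y) z c2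
      have hH : HH v x y x = 2 * WW v x := by
        rw [HH, if_pos ⟨by rw [og, s1, s4, c2.1], by
          rw [s2, s4]; intro hh
          apply c2.2
          revert hh
          generalize sg v p x = a
          generalize sg v p y = b
          generalize wr p = c
          revert a b c; decide⟩]
      rw [b.1]
      have := two_bound _ _ 0 _ _ _ (wE_le v y x) (by rw [← hfl]; exact wE_le v x x : wE v x p ≤ WW v x)
        (WW_nonneg v x) b.2
      push_cast
      linarith
    · have b := blk3 (sg v p p) (sg v p (x + 1)) (sg v p x) (sg v p y) z c1 c2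
      rw [b.1, b.2.1, b.2.2]
      push_cast
      linarith

/-- the extra term of three consecutive turning gaps -/
def ext [NeZero n] (v : Fin n → Bool) (x : Fin n) : ℤ :=
  if og v (x - 1) ∧ og v x ∧ og v (x + 1) then
    2 ^ max (lv v (x + 1)) (n - lv v (x + 1)) + 2 ^ (n - max (lv v (x + 1)) (n - lv v (x + 1)) + 1)
  else 0

theorem ext_nonneg [NeZero n] (v : Fin n → Bool) (x : Fin n) : 0 ≤ ext v x := by
  unfold ext; split_ifs
  · positivity
  · exact le_refl _

theorem four_bound (a b c d : ℤ) (N M P Q : ℕ) (W : ℤ) (ha : a ≤ W) (hb : b ≤ W) (hc : c ≤ W)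
    (hd : d ≤ W) (hW : 0 ≤ W) (h : N + M + P + Q ≤ 2) :
    (N : ℤ) * a + (M : ℤ) * b + (P : ℤ) * c + (Q : ℤ) * d ≤ 2 * W := by
  have h1 : (N : ℤ) * a ≤ (N : ℤ) * W := mul_le_mul_of_nonneg_left ha (by positivity)
  have h2 : (M : ℤ) * b ≤ (M : ℤ) * W := mul_le_mul_of_nonneg_left hb (by positivity)
  have h4 : (P : ℤ) * c ≤ (P : ℤ) * W := mul_le_mul_of_nonneg_left hc (by positivity)
  have h5 : (Q : ℤ) * d ≤ (Q : ℤ) * W := mul_le_mul_of_nonneg_left hd (by positivity)
  have h3 : ((N + M + P + Q : ℕ) : ℤ) * W ≤ 2 * W := mul_le_mul_of_nonneg_right (by exact_mod_cast h) hW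
  push_cast at h3
  linarith

theorem pw_half (A : ℕ) (h : 1 ≤ A) : (2 : ℤ) ^ A = 2 * 2 ^ (A - 1) := by
  obtain ⟨k, rfl⟩ := Nat.exists_eq_add_of_le h
  rw [Nat.add_sub_cancel_left, Nat.add_comm, pow_succ]; ring

/-- the arithmetic of three consecutive turning gaps -/
theorem ooo_arith (A B : ℕ) (hA : 1 ≤ A) (hB : 1 ≤ B) :
    2 * ((2 : ℤ) ^ A + 2 ^ (B - 1)) + 2 * (2 ^ (A - 1) + 2 ^ B) + 2 * (2 ^ (A - 1) + 2 ^ B) +
      2 * (2 ^ A + 2 ^ (B - 1)) ≤
    2 * Wt A B + 2 * Wt A B + 2 * (2 ^ max A B + 2 ^ (A + B - max A B + 1)) := by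
  have a1 := pw_half A hA
  have b1 := pw_half B hB
  rcases le_total A B with h | h
  · rw [max_eq_right h, Nat.add_sub_cancel, pow_succ]
    have := le_max_right ((2 : ℤ) ^ A + 2 ^ (B - 1)) (2 ^ (A - 1) + 2 ^ B)
    unfold Wt
    nlinarith
  · rw [max_eq_left h, Nat.add_sub_cancel_left, pow_succ]
    have := le_max_left ((2 : ℤ) ^ A + 2 ^ (B - 1)) (2 ^ (A - 1) + 2 ^ B)
    unfold Wt
    nlinarith

theorem block_adj [NeZero n] (hn : 5 ≤ n) (v : Fin n → Bool) (p x y : Fin n) (hx : p + 1 = x)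
    (hy : x + 1 = y) (z zx zy : Bool × Bool) (hzx : zx = z ∨ zx = z.swap) (hzy : zy = z ∨ zy = z.swap) :
    (Nf v p (y + 1) p x (f1 y p) y z : ℤ) * wE v y p + (Nf v x (y + 1) p x (f1 y x) y zx : ℤ) * wE v y x +
      (Nf v p (y + 1) p y (f1 x p) x z : ℤ) * wE v x p + (Nf v y (y + 1) p y (f1 x y) x zy : ℤ) * wE v x y
      ≤ HH v x y p + HH v x y y + 2 * ext v x := by
  rw [N_1 hn v p x y hx hy, N_2 hn v p x y hx hy, N_3 hn v p x y hx hy, N_4 hn v p x y hx hy]
  have ex : x ≠ y := by rw [← hy]; exact (ne_succ (by omega) x).symm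
  have e1 : p ≠ x := by rw [← hx]; exact (ne_succ (by omega) p).symm
  have e2 : p ≠ y := by rw [← hy, ← hx]; exact (ne2 hn p).symm
  have e3 : y + 1 ≠ x := by rw [← hy]; exact ne2 hn x
  have e4 : y + 1 ≠ y := ne_succ (by omega) y
  have sx : ∀ l, l ≠ x → sg v x l = xor (wr p) (sg v p l) := by
    intro l hl
    have := sg_succ (by omega) v p l (by rw [hx]; exact hl)
    rw [hx] at this; exact this
  have sxx : sg v x x = xor (wr p) (!(sg v p x)) := by
    have := sg_succ_self (by omega) v p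
    rw [hx] at this; exact this
  have sy : ∀ l, l ≠ y → sg v y l = xor (wr x) (sg v x l) := by
    intro l hl
    have := sg_succ (by omega) v x l (by rw [hy]; exact hl)
    rw [hy] at this; exact this
  have syy : sg v y y = xor (wr x) (!(sg v x y)) := by
    have := sg_succ_self (by omega) v x
    rw [hy] at this; exact this
  have nx : ∀ c t : Bool, (!(xor c t)) = xor c (!t) := by decide
  rw [syy, sy _ e4, sy _ ex, sy _ e2, sxx, sx _ e3, sx _ ex.symm, sx _ e1]
  rw [nx]
  simp only [pB_xor, eB_xor]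
  have hsx : ∀ q q' : Bool, nO q q' zx = nO q q' z := by
    intro q q'
    rcases hzx with h | h
    · rw [h]
    · rw [h, nO_swap]
  have hsy : ∀ q q' : Bool, nO q q' zy = nO q q' z := by
    intro q q'
    rcases hzy with h | h
    · rw [h]
    · rw [h, nO_swap]
  rw [hsx, hsy]
  have hp := HH_nonneg v x y p
  have hyy := HH_nonneg v x y y
  have hxx := ext_nonneg v x
  have w1 := wE_le v y p
  have w3 := wE_le v x p
  by_cases hs : sg v p x = sg v p y
  · have b := adj0 (sg v p p) (sg v p (y + 1)) (sg v p x) (sg v p y) z hs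
    unfold M1 M2 M3 M4 at b
    rw [b.1, b.2.1, b.2.2.1, b.2.2.2]
    push_cast
    linarith
  · obtain ⟨A, B, hA, hB, hAB, g1, g3, g2, g4, gp, gy, gl⟩ := wt_adj hn v p x y hx hy hs
    have w2 : wE v y x ≤ Wt A B := by rw [g2]; exact le_max_right _ _
    have w4 : wE v x y ≤ Wt A B := by rw [g4]; exact le_max_left _ _
    rw [gp] at w1 w3
    have hW : 0 ≤ Wt A B := by rw [← gp]; exact WW_nonneg v p
    have hHp : sg v p p = sg v p x → HH v x y p = 2 * Wt A B := by
      intro h
      rw [HH, if_pos ⟨by rw [og, hx]; exact h, hs⟩, gp]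
    have hHy : sg v p (y + 1) = sg v p x → HH v x y y = 2 * Wt A B := by
      intro h
      rw [HH, if_pos, gy]
      refine ⟨?_, ?_⟩
      · rw [og, syy, sy _ e4, sx _ ex.symm, sx _ e3, nx, h]
        congr 2
        revert hs
        generalize sg v p x = a
        generalize sg v p y = b
        revert a b; decide
      · rw [syy, sy _ ex, sx _ ex.symm, sxx, nx]
        intro hh
        apply hs
        revert hh
        generalize sg v p x = a
        generalize sg v p y = b
        generalize wr p = c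
        generalize wr x = d
        revert a b c d; decide
    by_cases c1 : sg v p p = sg v p x
    · by_cases c2 : sg v p (y + 1) = sg v p x
      · have b := adj1 (sg v p p) (sg v p (y + 1)) (sg v p x) (sg v p y) z hs c1 c2
        unfold M1 M2 M3 M4 at b
        have hext : ext v x = 2 ^ max A B + 2 ^ (A + B - max A B + 1) := by
          have ogp : og v (x - 1) := by
            have : x - 1 = p := by rw [← hx]; exact add_sub_cancel_right p 1
            rw [this, og, hx]; exact c1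
          have ogx : og v x := by
            rw [og, hy, sxx, sx _ ex.symm]
            congr 1
            revert hs
            generalize sg v p x = a
            generalize sg v p y = b
            revert a b; decide
          have ogy : og v (x + 1) := by
            rw [hy, og, syy, sy _ e4, sx _ ex.symm, sx _ e3, nx, c2]
            congr 2
            revert hs
            generalize sg v p x = a
            generalize sg v p y = b
            revert a b; decide
          rw [ext, if_pos ⟨ogp, ogx, ogy⟩, hy, gl, hAB]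
        rw [hHp c1, hHy c2, hext, g1, g2, g3, g4]
        have ar := ooo_arith A B hA hB
        have t1 : (0 : ℤ) ≤ 2 ^ A + 2 ^ (B - 1) := by positivity
        have t2 : (0 : ℤ) ≤ 2 ^ (A - 1) + 2 ^ B := by positivity
        have u1 : ∀ (N : ℕ) (a : ℤ), 0 ≤ a → N ≤ 2 → (N : ℤ) * a ≤ 2 * a := by
          intro N a ha hN
          exact mul_le_mul_of_nonneg_right (by exact_mod_cast hN) ha
        have b1 := u1 _ _ t1 b.1
        have b2 := u1 _ _ t2 b.2.1
        have b3 := u1 _ _ t2 b.2.2.1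
        have b4 := u1 _ _ t1 b.2.2.2
        linarith
      · have b := adj2 (sg v p p) (sg v p (y + 1)) (sg v p x) (sg v p y) z hs (fun h => h.1 c1)
          (fun h => c2 h.2)
        unfold M1 M2 M3 M4 at b
        have := four_bound _ _ _ _ _ _ _ _ _ w1 w2 w3 w4 hW b
        rw [hHp c1]; linarith
    · by_cases c2 : sg v p (y + 1) = sg v p x
      · have b := adj2 (sg v p p) (sg v p (y + 1)) (sg v p x) (sg v p y) z hs (fun h => h.2 c2)
          (fun h => c1 h.1)
        unfold M1 M2 M3 M4 at b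
        have := four_bound _ _ _ _ _ _ _ _ _ w1 w2 w3 w4 hW b
        rw [hHy c2]; linarith
      · have b := adj3 (sg v p p) (sg v p (y + 1)) (sg v p x) (sg v p y) z hs c1 c2
        unfold M1 M2 M3 M4 at b
        rw [b.1, b.2.1, b.2.2.1, b.2.2.2]
        push_cast
        linarith

/-! ### Summation -/

theorem walls_uniq (S : Finset (Fin n)) (r a b a' b' : Fin n) (h : Walls S r a b)
    (h' : Walls S r a' b') : a = a' ∧ b = b' := by
  refine ⟨rel_inj r _ _ (le_antisymm (h.2.2 a' h'.1).1 (h'.2.2 a h.1).1),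
    rel_inj r _ _ (le_antisymm (h'.2.2 b h.2.1).2 (h.2.2 b' h'.2.1).2)⟩

theorem walls_exist (S : Finset (Fin n)) (r : Fin n) (hS : S.Nonempty) : ∃ a b, Walls S r a b := by
  obtain ⟨a, ha, ha'⟩ := Finset.exists_min_image S (rel r) hS
  obtain ⟨b, hb, hb'⟩ := Finset.exists_max_image S (rel r) hS
  exact ⟨a, b, ha, hb, fun z hz => ⟨ha' z hz, hb' z hz⟩⟩

theorem sum_T (D : Fin n → ℤ) (T : Finset (Fin n)) (h : ∀ r, r ∉ T → 0 ≤ D r) :
    ∑ r ∈ T, D r ≤ ∑ r, D r :=
  Finset.sum_le_sum_of_subset_of_nonneg (Finset.subset_univ T) (fun i _ hi => h i hi)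

theorem sum_erase_ite (F : Fin n → ℤ) (y : Fin n) :
    ∑ r ∈ Finset.univ.erase y, F r = ∑ r, (if r = y then 0 else F r) := by
  rw [← Finset.sum_erase_add _ _ (Finset.mem_univ y)]
  rw [if_pos rfl, add_zero]
  apply Finset.sum_congr rfl
  intro r hr
  rw [if_neg (Finset.mem_erase.1 hr).1]

/-- the core inequality, oriented adjacent case -/
theorem loss_adj [NeZero n] (hn : 5 ≤ n) (v : Fin n → Bool) (x y : Fin n) (hy : x + 1 = y)
    (a b : Fin n → Fin n) (β : Fin n → Bool × Bool) (hw : ∀ r, Walls (S2 x y) r (a r) (b r))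
    (hβ : ∀ r r', a r = a r' → b r = b r' → β r' = β r ∨ β r' = (β r).swap) :
    ∑ r ∈ Finset.univ.erase y, (Nf v r (a r) (b r) x (f1 y r) y (β r) : ℤ) * wE v y r +
      ∑ r ∈ Finset.univ.erase x, (Nf v r (a r) (b r) y (f1 x r) x (β r) : ℤ) * wE v x r ≤
    ∑ r, HH v x y r + 2 * ext v x := by
  obtain ⟨p, hx⟩ : ∃ p, p + 1 = x := ⟨x - 1, sub_add_cancel x 1⟩
  have ex : x ≠ y := by rw [← hy]; exact (ne_succ (by omega) x).symm
  have e1 : p ≠ x := by rw [← hx]; exact (ne_succ (by omega) p).symm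
  have e2 : p ≠ y := by rw [← hy, ← hx]; exact (ne2 hn p).symm
  have inj1 : ∀ r s : Fin n, r + 1 = s + 1 → r = s := fun r s h => add_right_cancel h
  rw [sum_erase_ite, sum_erase_ite, ← Finset.sum_add_distrib]
  have wp := walls_uniq _ _ _ _ _ _ (hw p) (a_p hn p x y hx hy)
  have wx := walls_uniq _ _ _ _ _ _ (hw x) (a_x hn p x y hx hy)
  have wy := walls_uniq _ _ _ _ _ _ (hw y) (a_y hn p x y hx hy)
  have bl := block_adj hn v p x y hx hy (β p) (β x) (β y)
    (hβ p x (by rw [wp.1, wx.1]) (by rw [wp.2, wx.2])) (hβ p y (by rw [wp.1, wy.1]) (by rw [wp.2, wy.2]))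
  have key := sum_T (fun r => HH v x y r - ((if r = y then 0 else
      (Nf v r (a r) (b r) x (f1 y r) y (β r) : ℤ) * wE v y r) + (if r = x then 0 else
      (Nf v r (a r) (b r) y (f1 x r) x (β r) : ℤ) * wE v x r))) {p, x, y} (by
    intro r hr
    simp only [Finset.mem_insert, Finset.mem_singleton, not_or] at hr
    obtain ⟨h1, h2, h3⟩ := hr
    have h4 : r + 1 ≠ x := fun h => h1 (inj1 _ _ (by rw [h, hx]))
    have h5 : r + 1 ≠ y := fun h => h2 (inj1 _ _ (by rw [h, hy]))
    have w := walls_uniq _ _ _ _ _ _ (hw r) (w_gen hn x y r h2 h3 h4 h5)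
    have bg := block_gen hn v x y r (β r) h2 h3 h4 h5
    rw [if_neg h3, if_neg h2, w.1, w.2]
    linarith)
  rw [Finset.sum_insert (by simp [e1, e2]), Finset.sum_insert (by simp [ex]), Finset.sum_singleton] at key
  simp only [if_neg e2, if_neg e1, if_neg ex, if_pos, if_neg ex.symm] at key
  rw [wp.1, wp.2, wx.1, wx.2, wy.1, wy.2] at key
  rw [Finset.sum_sub_distrib] at key
  have hxx := HH_nonneg v x y x
  linarith

/-- the core inequality, non adjacent case -/
theorem loss_far [NeZero n] (hn : 5 ≤ n) (v : Fin n → Bool) (x y : Fin n) (hxy : x ≠ y)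
    (h3 : x + 1 ≠ y) (h3' : y + 1 ≠ x)
    (a b : Fin n → Fin n) (β : Fin n → Bool × Bool) (hw : ∀ r, Walls (S2 x y) r (a r) (b r))
    (hβ : ∀ r r', a r = a r' → b r = b r' → β r' = β r ∨ β r' = (β r).swap) :
    ∑ r ∈ Finset.univ.erase y, (Nf v r (a r) (b r) x (f1 y r) y (β r) : ℤ) * wE v y r +
      ∑ r ∈ Finset.univ.erase x, (Nf v r (a r) (b r) y (f1 x r) x (β r) : ℤ) * wE v x r ≤
    ∑ r, HH v x y r := by
  obtain ⟨p, hx⟩ : ∃ p, p + 1 = x := ⟨x - 1, sub_add_cancel x 1⟩
  obtain ⟨q, hy⟩ : ∃ q, q + 1 = y := ⟨y - 1, sub_add_cancel y 1⟩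
  have inj1 : ∀ r s : Fin n, r + 1 = s + 1 → r = s := fun r s h => add_right_cancel h
  have e1 : p ≠ x := by rw [← hx]; exact (ne_succ (by omega) p).symm
  have e2 : p ≠ y := fun h => h3' (by rw [← h, hx])
  have e3 : q ≠ y := by rw [← hy]; exact (ne_succ (by omega) q).symm
  have e4 : q ≠ x := fun h => h3 (by rw [← h, hy])
  have e5 : p ≠ q := fun h => hxy (by rw [← hx, ← hy, h])
  rw [sum_erase_ite, sum_erase_ite, ← Finset.sum_add_distrib]
  have wp := walls_uniq _ _ _ _ _ _ (hw p) (w_p hn p x y hx e2 hxy h3)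
  have wx := walls_uniq _ _ _ _ _ _ (hw x) (w_x hn p x y hx e2 hxy h3)
  have hw' := hw
  rw [S2_comm] at hw'
  have wq := walls_uniq _ _ _ _ _ _ (hw' q) (w_p hn q y x hy e4 hxy.symm h3')
  have wy := walls_uniq _ _ _ _ _ _ (hw' y) (w_x hn q y x hy e4 hxy.symm h3')
  have bl := block_x hn v p x y hx e2 hxy h3 (β p) (β x)
    (hβ p x (by rw [wp.1, wx.1]) (by rw [wp.2, wx.2]))
  have bl' := block_x hn v q y x hy e4 hxy.symm h3' (β q) (β y)
    (hβ q y (by rw [wq.1, wy.1]) (by rw [wq.2, wy.2]))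
  rw [HH_symm v y x q, HH_symm v y x y] at bl'
  have key := sum_T (fun r => HH v x y r - ((if r = y then 0 else
      (Nf v r (a r) (b r) x (f1 y r) y (β r) : ℤ) * wE v y r) + (if r = x then 0 else
      (Nf v r (a r) (b r) y (f1 x r) x (β r) : ℤ) * wE v x r))) {p, x, q, y} (by
    intro r hr
    simp only [Finset.mem_insert, Finset.mem_singleton, not_or] at hr
    obtain ⟨h1, h2, h2', h3⟩ := hr
    have h4 : r + 1 ≠ x := fun h => h1 (inj1 _ _ (by rw [h, hx]))
    have h5 : r + 1 ≠ y := fun h => h2' (inj1 _ _ (by rw [h, hy]))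
    have w := walls_uniq _ _ _ _ _ _ (hw r) (w_gen hn x y r h2 h3 h4 h5)
    have bg := block_gen hn v x y r (β r) h2 h3 h4 h5
    rw [if_neg h3, if_neg h2, w.1, w.2]
    linarith)
  rw [Finset.sum_insert (by simp [e1, e2, e5]), Finset.sum_insert (by simp [e4.symm, hxy]),
    Finset.sum_insert (by simp [e3]), Finset.sum_singleton] at key
  simp only [if_neg e2, if_neg e1, if_neg hxy, if_pos, if_neg hxy.symm, if_neg e3, if_neg e4] at key
  rw [wp.1, wp.2, wx.1, wx.2, wy.1, wy.2, wq.1, wq.2] at key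
  rw [Finset.sum_sub_distrib] at key
  linarith

/-- the bound of the loss of the pair `x`, `y` -/
def PL [NeZero n] (v : Fin n → Bool) (x y : Fin n) : ℤ :=
  ∑ r, HH v x y r + 2 * (if x + 1 = y then ext v x else 0) + 2 * (if y + 1 = x then ext v y else 0)

theorem loss_all [NeZero n] (hn : 5 ≤ n) (v : Fin n → Bool) (x y : Fin n) (hxy : x ≠ y)
    (a b : Fin n → Fin n) (β : Fin n → Bool × Bool) (hw : ∀ r, Walls (S2 x y) r (a r) (b r))
    (hβ : ∀ r r', a r = a r' → b r = b r' → β r' = β r ∨ β r' = (β r).swap) :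
    ∑ r ∈ Finset.univ.erase y, (Nf v r (a r) (b r) x (f1 y r) y (β r) : ℤ) * wE v y r +
      ∑ r ∈ Finset.univ.erase x, (Nf v r (a r) (b r) y (f1 x r) x (β r) : ℤ) * wE v x r ≤
    PL v x y := by
  unfold PL
  by_cases h1 : x + 1 = y
  · have h2 : y + 1 ≠ x := by rw [← h1]; exact ne2 hn x
    rw [if_pos h1, if_neg h2]
    have := loss_adj hn v x y h1 a b β hw hβ
    linarith
  · rw [if_neg h1]
    by_cases h2 : y + 1 = x
    · rw [if_pos h2]
      have := loss_adj hn v y x h2 a b β (by rw [S2_comm]; exact hw) hβ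
      have hs : ∑ r, HH v y x r = ∑ r, HH v x y r := Finset.sum_congr rfl (fun r _ => HH_symm v y x r)
      rw [hs] at this
      linarith
    · rw [if_neg h2]
      have := loss_far hn v x y hxy h1 h2 a b β hw hβ
      linarith

/-! ### The machine -/

variable {K : Cfg n} {v : Fin n → Bool}

/-- the gain of the last line `y` -/
def gy [NeZero n] (M : Mach K v) (y : Fin n) (w : K.Om) : ℤ :=
  ∑ r ∈ Finset.univ.erase y,
    gainT v (Finset.univ.erase y) r (f1 y r) r y (M.bits (Finset.univ.erase y) w r)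

/-- the gain of the last line `y`, summed over the sides of the line `x` before it -/
def G [NeZero n] (M : Mach K v) (x y : Fin n) (w : K.Om) : ℤ :=
  gy M y (K.ins (S2 x y) w x true) + gy M y (K.ins (S2 x y) w x false)

/-- the gain at `r` without losses -/
def mainT [NeZero n] (v : Fin n → Bool) (y r : Fin n) : ℤ :=
  if inner r (f1 y r) r y then 2 ^ cnt v (Finset.univ.erase y) r (!(sg v r y)) else - wE v y r

def ML [NeZero n] (v : Fin n → Bool) (y : Fin n) : ℤ := ∑ r ∈ Finset.univ.erase y, mainT v y r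

theorem gainT_eq [NeZero n] (v : Fin n → Bool) (y r : Fin n) (z : Bool × Bool) :
    gainT v (Finset.univ.erase y) r (f1 y r) r y z =
      mainT v y r - (b2 (bad v r (f1 y r) r y z) : ℤ) * wE v y r := by
  have hw := wE_sym v y r (sg v r y)
  unfold gainT mainT b2
  by_cases h1 : inner r (f1 y r) r y = true
  · rw [if_pos h1, if_pos h1]
    by_cases h2 : bad v r (f1 y r) r y z = true
    · rw [if_pos h2, if_pos h2, hw]; push_cast; ring
    · rw [if_neg h2, if_neg h2]; push_cast; ring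
  · rw [if_neg h1, if_neg h1]
    unfold wE
    by_cases h2 : bad v r (f1 y r) r y z = true
    · rw [if_pos h2, if_pos h2]; push_cast; ring
    · rw [if_neg h2, if_neg h2]; push_cast; ring

theorem insert_S2 (x y : Fin n) (hxy : x ≠ y) : insert x (S2 x y) = Finset.univ.erase y := by
  ext z
  simp only [Finset.mem_insert, mem_S2, Finset.mem_erase, Finset.mem_univ, and_true]
  constructor
  · rintro (h | h)
    · rw [h]; exact hxy
    · exact h.2
  · intro h
    by_cases hz : z = x
    · exact Or.inl hz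
    · exact Or.inr ⟨hz, h⟩

theorem card_S2 (hn : 5 ≤ n) (x y : Fin n) (hxy : x ≠ y) : 2 ≤ (S2 x y).card := by
  have h1 : (Finset.univ.erase y).card = n - 1 := by
    rw [Finset.card_erase_of_mem (Finset.mem_univ _), Finset.card_univ, Fintype.card_fin]
  have h2 : (S2 x y).card = n - 1 - 1 := by
    rw [S2, Finset.card_erase_of_mem (Finset.mem_erase.2 ⟨hxy, Finset.mem_univ _⟩), h1]
  omega

theorem G_eq [NeZero n] (hn : 5 ≤ n) (M : Mach K v) (x y : Fin n) (hxy : x ≠ y) (w : K.Om)
    (hw : K.good (S2 x y) w) (a b : Fin n → Fin n) (hab : ∀ r, Walls (S2 x y) r (a r) (b r)) :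
    G M x y w = 2 * ML v y - ∑ r ∈ Finset.univ.erase y,
      (Nf v r (a r) (b r) x (f1 y r) y (M.bits (S2 x y) w r) : ℤ) * wE v y r := by
  unfold G gy ML
  rw [← Finset.sum_add_distrib, Finset.mul_sum, ← Finset.sum_sub_distrib]
  apply Finset.sum_congr rfl
  intro r _
  have hx : x ∉ S2 x y := fun h => ((mem_S2 _ _ _).1 h).1 rfl
  have key := M.stepB (S2 x y) w x (card_S2 hn x y hxy) hw hx r (a r) (b r) (hab r)
    (fun z => (b2 (bad v r (f1 y r) r y z) : ℤ))
  rw [insert_S2 x y hxy] at key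
  rw [gainT_eq, gainT_eq]
  have h2 : (Nf v r (a r) (b r) x (f1 y r) y (M.bits (S2 x y) w r) : ℤ) =
      (b2 (bad v r (f1 y r) r y (M.bits (Finset.univ.erase y) (K.ins (S2 x y) w x true) r)) : ℤ) +
      (b2 (bad v r (f1 y r) r y (M.bits (Finset.univ.erase y) (K.ins (S2 x y) w x false) r)) : ℤ) := by
    rw [key]; unfold Nf; push_cast; ring
  rw [h2]; ring

theorem pair_gain [NeZero n] (hn : 5 ≤ n) (M : Mach K v) (x y : Fin n) (hxy : x ≠ y) (w : K.Om)
    (hw : K.good (S2 x y) w) :
    2 * (ML v x + ML v y) - PL v x y ≤ G M x y w + G M y x w := by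
  have hne : (S2 x y).Nonempty := by
    rw [← Finset.card_pos]; have := card_S2 hn x y hxy; omega
  choose a b hab using fun r => walls_exist (S2 x y) r hne
  have hl := loss_all hn v x y hxy a b (fun r => M.bits (S2 x y) w r) hab (by
    intro r r' h1 h2
    exact M.same (S2 x y) w (card_S2 hn x y hxy) hw r r' (a r) (b r) (hab r)
      (by rw [h1, h2]; exact hab r'))
  rw [G_eq hn M x y hxy w hw a b hab]
  have hw' : K.good (S2 y x) w := by rw [S2_comm]; exact hw
  have h2 := G_eq hn M y x hxy.symm w hw' a b (by rw [S2_comm]; exact hab)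
  rw [S2_comm y x] at h2
  rw [h2]
  linarith

end PairC
end KK
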