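import Pool.Agent.KALD.MTForm
import Pool.Agent.KK.Pair

namespace KK
namespace PairC

open Finset

variable {n : ℕ}

theorem mainT_eq [NeZero n] (hn : 5 ≤ n) (v : Fin n → Bool) (y r : Fin n) (h : r ≠ y) :
    mainT v y r = if y = r + 1 then - wE v (r + 1) r else 2 ^ cnt v univ r (!(sg v r y)) := by
  unfold mainT
  by_cases h1 : y = r + 1
  · rw [if_pos h1, h1, f1, if_pos rfl, if_neg]
    rw [inner_false1]
    · simp
    · rw [rel_next (by omega)]; omega
  · rw [if_neg h1, f1, if_neg (Ne.symm h1), if_pos]
    · have := KK.PairC.cnt_erase v univ y r (!(sg v r y)) (mem_univ _)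
      have h4 : ib (sg v r y == !(sg v r y)) = 0 := by cases sg v r y <;> rfl
      rw [h4, add_zero] at this
      rw [this]
    · apply inner_true
      · rw [rel_next (by omega)]; exact rel_pos (by omega) r y h1
      · rw [rel_self]; exact rel_lt_last r y h.symm

theorem sum_ML [NeZero n] (hn : 5 ≤ n) (v : Fin n → Bool) : ∑ y, ML v y = KALD.MT v := by
  unfold ML KALD.MT
  have h1 : ∀ y : Fin n, ∑ r ∈ univ.erase y, mainT v y r =
      ∑ r, (if r = y then 0 else mainT v y r) := fun y => sum_erase_ite _ y
  simp only [h1]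
  rw [Finset.sum_comm]
  apply Finset.sum_congr rfl
  intro r _
  have h2 : ∀ y : Fin n, (if r = y then (0 : ℤ) else mainT v y r) =
      (if y ≠ r ∧ y ≠ r + 1 then 2 ^ cnt v univ r (!(sg v r y)) else 0) +
      (if y = r + 1 then - wE v (r + 1) r else 0) := by
    intro y
    by_cases hy : r = y
    · subst hy
      rw [if_pos rfl, if_neg (fun h => h.1 rfl), if_neg (fun h => ne_succ (by omega) r h.symm), add_zero]
    · rw [if_neg hy, mainT_eq hn v y r hy]
      by_cases h3 : y = r + 1
      · rw [if_pos h3, if_neg (fun h => h.2 h3), if_pos h3, zero_add]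
      · rw [if_neg h3, if_pos ⟨Ne.symm hy, h3⟩, if_neg h3, add_zero]
  simp only [h2]
  rw [Finset.sum_add_distrib, Finset.sum_ite_eq' univ (r + 1), if_pos (mem_univ _), ← Finset.sum_filter]
  rfl

theorem sum_opp (v : Fin n → Bool) (r : Fin n) (c : ℤ) :
    ∑ x : Fin n, ∑ y : Fin n, (if sg v r x ≠ sg v r y then c else 0) =
      2 * ((lv v r : ℤ) * ((n : ℤ) - lv v r)) * c := by
  have hc : ∀ s : Bool, ∑ y : Fin n, (if s ≠ sg v r y then c else 0) = (cnt v univ r (!s) : ℤ) * c := by
    intro s
    rw [← Finset.sum_filter, Finset.sum_const, nsmul_eq_mul]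
    unfold cnt
    congr 2
    apply congrArg Finset.card
    apply Finset.filter_congr
    intro j _
    cases s <;> cases sg v r j <;> simp
  have h1 : ∀ x : Fin n, ∑ y : Fin n, (if sg v r x ≠ sg v r y then c else 0) =
      (if sg v r x = true then (cnt v univ r false : ℤ) * c else (cnt v univ r true : ℤ) * c) := by
    intro x
    rw [hc]
    cases sg v r x <;> simp
  simp only [h1]
  rw [Finset.sum_ite, Finset.sum_const, Finset.sum_const, nsmul_eq_mul, nsmul_eq_mul]
  have h2 : ((univ.filter (fun x => sg v r x = true)).card : ℤ) = lv v r := rfl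
  have h3 : (univ.filter (fun x => ¬ sg v r x = true)).card = cnt v univ r false := by
    unfold cnt
    apply congrArg Finset.card
    apply Finset.filter_congr
    intro j _
    cases sg v r j <;> simp
  have h5 := lv_not v r
  have h6 : lv v r ≤ n := by
    unfold lv cnt
    exact (Finset.card_le_univ _).trans (by simp)
  rw [h2, h3, h5]
  rw [Nat.cast_sub h6]
  have h7 : cnt v univ r true = lv v r := rfl
  rw [h7]
  ring

theorem sum_PL [NeZero n] (hn : 5 ≤ n) (v : Fin n → Bool) :
    ∑ x, ∑ y ∈ univ.erase x, PL v x y = 4 * (KALD.LT v + KALD.OT v) := by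
  have h0 : ∀ x : Fin n, ∑ y ∈ univ.erase x, PL v x y =
      ∑ y, ∑ r, HH v x y r + 2 * ext v x + ∑ y, 2 * (if y + 1 = x then ext v y else 0) := by
    intro x
    have hs := Finset.sum_erase_add univ (fun y => PL v x y) (mem_univ x)
    have hx : PL v x x = 0 := by
      unfold PL
      have : ∀ r, HH v x x r = 0 := by
        intro r; unfold HH; rw [if_neg]; intro h; exact h.2 rfl
      simp only [this, Finset.sum_const_zero, if_neg (ne_succ (by omega) x)]
      ring
    simp only [hx, add_zero] at hs
    rw [hs]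
    unfold PL
    rw [Finset.sum_add_distrib, Finset.sum_add_distrib, ← Finset.mul_sum, Finset.sum_ite_eq univ (x + 1),
      if_pos (mem_univ _)]
  simp only [h0]
  rw [Finset.sum_add_distrib, Finset.sum_add_distrib, ← Finset.mul_sum]
  have e1 : ∑ x, ext v x = KALD.OT v := rfl
  have e2 : ∑ x : Fin n, ∑ y : Fin n, 2 * (if y + 1 = x then ext v y else 0) = 2 * KALD.OT v := by
    rw [Finset.sum_comm, ← e1, Finset.mul_sum]
    apply Finset.sum_congr rfl
    intro y _
    rw [← Finset.mul_sum, Finset.sum_ite_eq univ (y + 1), if_pos (mem_univ _)]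
  have e3 : ∑ x : Fin n, ∑ y : Fin n, ∑ r, HH v x y r = 4 * KALD.LT v := by
    have : ∀ x : Fin n, ∑ y : Fin n, ∑ r, HH v x y r = ∑ r, ∑ y : Fin n, HH v x y r :=
      fun x => Finset.sum_comm
    simp only [this]
    rw [Finset.sum_comm]
    unfold KALD.LT
    rw [Finset.mul_sum]
    apply Finset.sum_congr rfl
    intro r _
    by_cases hr : sg v r r = sg v r (r + 1)
    · rw [if_pos hr]
      have : ∀ x y : Fin n, HH v x y r = (if sg v r x ≠ sg v r y then 2 * WW v r else 0) := by
        intro x y
        unfold HH og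
        by_cases h : sg v r x ≠ sg v r y
        · rw [if_pos ⟨hr, h⟩, if_pos h]
        · rw [if_neg (fun hh => h hh.2), if_neg h]
      simp only [this]
      rw [sum_opp]
      have e4 : WW v r = max (2 ^ KALD.lv v r + 2 ^ (n - KALD.lv v r - 1))
        (2 ^ (KALD.lv v r - 1) + 2 ^ (n - KALD.lv v r)) := rfl
      have e5 : lv v r = KALD.lv v r := rfl
      rw [e4, e5]
      ring
    · rw [if_neg hr]
      have : ∀ x y : Fin n, HH v x y r = 0 := by
        intro x y
        unfold HH og
        rw [if_neg (fun hh => hr hh.1)]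
      simp only [this, Finset.sum_const_zero, mul_zero]
  rw [e1, e2, e3]
  ring

end PairC
end KK
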