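import Pool.Agent.KK.T0Step
import Pool.Agent.KK.PairSum
import Pool.Agent.KK.Base0

namespace KK

open Finset PairC

theorem T0_all : ∀ (k : ℕ) (K : Cfg (k + 6)) (v : Fin (k + 6) → Bool) (M : Mach K v), Flat M →
    0 ≤ EL K (M.D univ) := by
  intro k
  induction k using Nat.strong_induction_on with
  | _ k ih =>
    intro K v M hM
    match k, ih, K, v, M, hM with
    | 0, _, K, v, M, hM => exact base0_6 M
    | 1, _, K, v, M, hM => exact base0_7 M
    | j + 2, ih, K, v, M, hM =>
      have hn : 5 ≤ (j + 6) + 2 := by omega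
      refine step (m := j + 6) (by omega) M hM (fun y r => f1 y r)
        (fun y r hr => walls_erase (by omega) y r hr) (ML v) (PL v) ?_ (PairC.sum_ML hn v)
        (le_of_eq (sum_PL hn v)) ?_
      · intro x y hxy w hw
        exact pair_gain hn M x y hxy w hw
      · intro l
        exact ih (j + 1) (by omega) _ _ _ (hM.res (om l))

theorem t0_all (n : ℕ) (hn : 6 ≤ n) (K : Cfg n) (v : Fin n → Bool) (M : Mach K v) (hM : Flat M) :
    0 ≤ EL K (M.D univ) := by
  obtain ⟨k, rfl⟩ : ∃ k, n = k + 6 := ⟨n - 6, by omega⟩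
  exact T0_all k K v M hM

end KK
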