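import Pool.Agent.KK.Res

/-!
Base cases of type 0: computation.
-/

set_option autoImplicit false

namespace KK

/-- state of the run at one position: labels of the walls, numbers of the lines with sign `+` and
`-`, numbers of the side choices with the bits `(0,0)`, `(1,0)`, `(0,1)`, `(1,1)`, accumulated
gains and losses, whether the position is a line of the set -/
structure RS where
  a : ℕ
  b : ℕ
  p : ℕ
  q : ℕ
  c0 : ℕ
  c1 : ℕ
  c2 : ℕ
  c3 : ℕ
  g : ℕ
  h : ℕ
  on : Bool

/-- one step: insertion of the far line with label `l` -/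
def rstep (N : ℕ) (s : ℕ → Bool) (l : ℕ) : RS → RS
  | ⟨a, b, p, q, c0, c1, c2, c3, g, h, on⟩ =>
    if Nat.blt a l && Nat.blt l b then
      (if (s a == s b) && (s l != s a) then
        ⟨a, b, cond (s l) (p + 1) p, cond (s l) q (q + 1),
          0, c0 + c1, c0 + c2, c1 + c2 + 2 * c3,
          3 * g + cond on (6 * ((c1 + c2 + c3) * 2 ^ cond (s l) q p)) 0,
          3 * h + cond on (6 * (c0 * 2 ^ cond (s l) p q)) 0, on⟩
      else
        ⟨a, b, cond (s l) (p + 1) p, cond (s l) q (q + 1),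
          2 * c0 + c1 + c2, c1 + c3, c2 + c3, 0,
          3 * g + cond on (6 * ((c0 + c1 + c2) * 2 ^ cond (s l) q p)) 0,
          3 * h + cond on (6 * (c3 * 2 ^ cond (s l) p q)) 0, on⟩)
    else
      (if (s a != s b) && (s l == s (cond (Nat.blt l a) b a)) then
        ⟨cond (Nat.blt l a) l a, cond (Nat.blt b l) l b,
          cond (s l) (p + 1) p, cond (s l) q (q + 1),
          c1 + c2 + 2 * c3, c0 + c2, c0 + c1, 0,
          3 * g,
          3 * h + cond on (6 * ((2 * c0 + c1 + c2 + c3) * (2 ^ p + 2 ^ q))) 0,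
          on || Nat.beq (l + 1) N⟩
      else
        ⟨cond (Nat.blt l a) l a, cond (Nat.blt b l) l b,
          cond (s l) (p + 1) p, cond (s l) q (q + 1),
          2 * c0 + c1 + c2, c1 + c3, c2 + c3, 0,
          3 * g,
          3 * h + cond on (6 * ((c0 + c1 + c2 + 2 * c3) * (2 ^ p + 2 ^ q))) 0,
          on || Nat.beq (l + 1) N⟩)

/-- start with two lines -/
def rinit (N : ℕ) (s : ℕ → Bool) (x y : ℕ) : RS :=
  ⟨cond (Nat.blt x y) x y, cond (Nat.blt x y) y x, cond (s x) 1 0 + cond (s y) 1 0,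
    cond (s x) 0 1 + cond (s y) 0 1, 1, 0, 0, 0, 0, 0, Nat.beq (x + 1) N || Nat.beq (y + 1) N⟩

/-- the run over a list of labels (outermost first) -/
def run (N : ℕ) (s : ℕ → Bool) : List ℕ → RS
  | [] => ⟨0, 0, 0, 0, 0, 0, 0, 0, 0, 0, false⟩
  | [_] => ⟨0, 0, 0, 0, 0, 0, 0, 0, 0, 0, false⟩
  | [x, y] => rinit N s x y
  | x :: y :: z :: t => rstep N s x (run N s (y :: z :: t))

/-- label of the line `l` at the position `r` -/
def lab (n r l : ℕ) : ℕ := cond (Nat.blt r l) (l - r - 1) (l + n - r - 1)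

/-- the signs at the position `r` by labels, as a bit mask -/
def um (n w r : ℕ) : ℕ :=
  w / 2 ^ (r + 1) + (2 ^ (r + 1) - 1 - w % 2 ^ (r + 1)) * 2 ^ (n - 1 - r)

/-- gains and losses of an order -/
def gl (n w : ℕ) (o : List ℕ) (r : ℕ) : ℕ × ℕ :=
  let t := run n (fun k => Nat.testBit (um n w r) k) (o.map (lab n r))
  (t.g, t.h)

end KK
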