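import Mathlib

/-!
# The parity lemma for the tiles of a planar line arrangement
-/

set_option autoImplicit false

open scoped BigOperators

namespace Pool.Agent.KK

/-- The determinant of two vectors of the plane. -/
def dt (x y : ℝ × ℝ) : ℝ := x.1 * y.2 - x.2 * y.1

theorem dt_add_left (x y z : ℝ × ℝ) : dt (x + y) z = dt x z + dt y z := by
  simp only [dt, Prod.fst_add, Prod.snd_add]; ring

theorem dt_add_right (x y z : ℝ × ℝ) : dt x (y + z) = dt x y + dt x z := by
  simp only [dt, Prod.fst_add, Prod.snd_add]; ring

theorem dt_sub_left (x y z : ℝ × ℝ) : dt (x - y) z = dt x z - dt y z := by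
  simp only [dt, Prod.fst_sub, Prod.snd_sub]; ring

theorem dt_sub_right (x y z : ℝ × ℝ) : dt x (y - z) = dt x y - dt x z := by
  simp only [dt, Prod.fst_sub, Prod.snd_sub]; ring

theorem dt_neg_left (x y : ℝ × ℝ) : dt (-x) y = - dt x y := by
  simp only [dt, Prod.fst_neg, Prod.snd_neg]; ring

theorem dt_neg_right (x y : ℝ × ℝ) : dt x (-y) = - dt x y := by
  simp only [dt, Prod.fst_neg, Prod.snd_neg]; ring

theorem dt_smul_left (a : ℝ) (x y : ℝ × ℝ) : dt (a • x) y = a * dt x y := by
  simp only [dt, Prod.smul_fst, Prod.smul_snd, smul_eq_mul]; ring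

theorem dt_smul_right (a : ℝ) (x y : ℝ × ℝ) : dt x (a • y) = a * dt x y := by
  simp only [dt, Prod.smul_fst, Prod.smul_snd, smul_eq_mul]; ring

theorem dt_self (x : ℝ × ℝ) : dt x x = 0 := by
  simp only [dt]; ring

theorem dt_swap (x y : ℝ × ℝ) : dt y x = - dt x y := by
  simp only [dt]; ring

theorem dt_zero_left (y : ℝ × ℝ) : dt 0 y = 0 := by simp [dt]

theorem dt_zero_right (y : ℝ × ℝ) : dt y 0 = 0 := by simp [dt]

theorem dt_sum_left {ι : Type*} (S : Finset ι) (f : ι → ℝ × ℝ) (y : ℝ × ℝ) :
    dt (∑ i ∈ S, f i) y = ∑ i ∈ S, dt (f i) y := by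
  classical
  induction S using Finset.induction_on with
  | empty => simp [dt_zero_left]
  | insert a S ha ih => rw [Finset.sum_insert ha, Finset.sum_insert ha, dt_add_left, ih]

theorem dt_sum_right {ι : Type*} (S : Finset ι) (f : ι → ℝ × ℝ) (y : ℝ × ℝ) :
    dt y (∑ i ∈ S, f i) = ∑ i ∈ S, dt y (f i) := by
  classical
  induction S using Finset.induction_on with
  | empty => simp [dt_zero_right]
  | insert a S ha ih => rw [Finset.sum_insert ha, Finset.sum_insert ha, dt_add_right, ih]

/-- telescoping modulo 2 along a set sorted by `t` -/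
theorem tele {κ : Type*} (S : Finset κ) (t : κ → ℝ) (ht : Set.InjOn t S) (G : ℕ → ZMod 2) :
    ∑ k ∈ S, (G ((S.filter fun l => t l < t k).card) +
      G ((S.filter fun l => t l < t k).card + 1)) = G 0 + G S.card := by
  classical
  induction S using Finset.induction_on_max_value t with
  | empty =>
    simp only [Finset.sum_empty, Finset.card_empty]
    generalize G 0 = x
    revert x; decide
  | insert a S ha hmax ih =>
    have hlt : ∀ x ∈ S, t x < t a := by
      intro x hx
      refine lt_of_le_of_ne (hmax x hx) fun h => ha ?_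
      have := ht (by simp [hx]) (by simp) h
      rwa [← this]
    rw [Finset.sum_insert ha]
    have h1 : (insert a S).filter (fun l => t l < t a) = S := by
      ext x
      simp only [Finset.mem_filter, Finset.mem_insert]
      constructor
      · rintro ⟨rfl | hx, h⟩
        · exact absurd h (lt_irrefl _)
        · exact hx
      · intro hx; exact ⟨Or.inr hx, hlt x hx⟩
    have h2 : ∀ k ∈ S, (insert a S).filter (fun l => t l < t k) =
        S.filter fun l => t l < t k := by
      intro k hk
      rw [Finset.filter_insert, if_neg (not_lt.2 (hlt k hk).le)]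
    rw [h1, Finset.sum_congr rfl (fun k hk => by rw [h2 k hk]),
      ih (ht.mono (by simp)), Finset.card_insert_of_notMem ha]
    generalize G 0 = x
    generalize G S.card = y
    generalize G (S.card + 1) = z
    revert x y z; decide

/-- The propositional form of the tile lemma. -/
theorem tile_bool : ∀ a1 a2 b1 b2 z1 z2 z3 z4 : Bool,
    (a1 = false → a2 = true) → (b1 = false → b2 = true) → (a1 = true → b2 = true → z1 = true) →
    (a2 = true → b1 = true → z4 = true) → (a1 = false → b2 = false → z1 = false) →
    (a2 = false → b1 = false → z4 = false) → (a1 = true → b1 = false → z3 = true) →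
    (a2 = true → b2 = false → z2 = true) → (a1 = false → b1 = true → z3 = false) →
    (a2 = false → b2 = true → z2 = false) → (z2 = true → z4 = true) → (z3 = true → z1 = true) →
    (z1 = false → z2 = true) → (z4 = false → z3 = true) →
    (if (a1 = true ∧ a2 = true) ∧ (b1 = true ∧ b2 = true) then 1 else 0 : ZMod 2) =
      (if (z1 = true ∧ z2 = true) ∧ b2 = true then 1 else 0) +
      (if (z3 = true ∧ z4 = true) ∧ b1 = false then 1 else 0) +
      (if (z2 = false ∧ z4 = true) ∧ a2 = true then 1 else 0) +
      (if (z1 = true ∧ z3 = false) ∧ a1 = false then 1 else 0) := by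
  intro a1 a2 b1 b2 z1 z2 z3 z4
  cases a1 <;> cases a2 <;> cases b1 <;> cases b2 <;> cases z1 <;> cases z2 <;> cases z3 <;>
    cases z4 <;> simp
  all_goals decide

/-- The linear form of the tile lemma. -/
theorem tile_lin (A B δ ε : ℝ) (hδ : 0 < δ) (hε : 0 < ε) (h2 : A ≠ -ε)
    (h4 : B ≠ -δ) (c2 : A - B ≠ δ - ε) (c3 : A - B ≠ ε - δ) :
    (if |A| < ε ∧ |B| < δ then 1 else 0 : ZMod 2) =
      (if |A - B + δ| < ε ∧ B < δ then 1 else 0) + (if |A - B - δ| < ε ∧ B < -δ then 1 else 0) +
      (if |A - B - ε| < δ ∧ A < ε then 1 else 0) + (if |A - B + ε| < δ ∧ A < -ε then 1 else 0) := by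
  classical
  have key := tile_bool (decide (-ε < A)) (decide (A < ε)) (decide (-δ < B)) (decide (B < δ))
    (decide (-ε < A - B + δ)) (decide (A - B + δ < ε)) (decide (-ε < A - B - δ))
    (decide (A - B - δ < ε))
  simp only [decide_eq_true_eq, decide_eq_false_iff_not, not_lt] at key
  have key' := key (fun h => by linarith) (fun h => by linarith) (fun h h' => by linarith)
    (fun h h' => by linarith) (fun h h' => by linarith) (fun h h' => by linarith)
    (fun h h' => by linarith) (fun h h' => by linarith)
    (fun h h' => by linarith) (fun h h' => by linarith) (fun h => by linarith)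
    (fun h => by linarith) (fun h => by linarith) (fun h => by linarith)
  simp only [abs_lt]
  rw [key']
  have e1 : (B ≤ -δ) ↔ B < -δ := ⟨fun h => lt_of_le_of_ne h h4, le_of_lt⟩
  have e2 : (A ≤ -ε) ↔ A < -ε := ⟨fun h => lt_of_le_of_ne h h2, le_of_lt⟩
  have e3 : (ε ≤ A - B + δ) ↔ (-δ < A - B - ε) :=
    ⟨fun h => by have := lt_of_le_of_ne h (fun h' => c3 (by linarith)); linarith,
      fun h => by linarith⟩
  have e4 : (A - B - δ ≤ -ε) ↔ (A - B + ε < δ) :=
    ⟨fun h => by have := lt_of_le_of_ne h (fun h' => c2 (by linarith)); linarith,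
      fun h => by linarith⟩
  have e5 : (A - B - δ < ε) ↔ (A - B - ε < δ) := ⟨fun h => by linarith, fun h => by linarith⟩
  have e6 : (-ε < A - B + δ) ↔ (-δ < A - B + ε) := ⟨fun h => by linarith, fun h => by linarith⟩
  simp only [e1, e2, e3, e4, e5, e6]

/-- The ray from `0` in direction `d` crosses the segment with midpoint `q` and half length `x`. -/
noncomputable def R (d q x : ℝ × ℝ) : ZMod 2 :=
  if |dt d q| < |dt d x| ∧ 0 < dt q x * dt d x then 1 else 0

/-- `0` lies in the open parallelogram with centre `p` spanned by `x`, `y`. -/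
def In (p x y : ℝ × ℝ) : Prop := |dt p y| < |dt x y| ∧ |dt p x| < |dt x y|

theorem abs_mul_lt_iff {a b c : ℝ} (hc : c ≠ 0) : |a * c| < |b * c| ↔ |a| < |b| := by
  rw [abs_mul, abs_mul]
  exact mul_lt_mul_iff_left₀ (abs_pos.2 hc)

theorem tile_pos (d p x y : ℝ × ℝ) (hδ : 0 < dt d y * dt x y) (hε : dt d x * dt x y < 0)
    (h1 : dt (p - y) x ≠ 0) (h2 : dt (p - x) y ≠ 0) (h3 : dt d (p - x - y) ≠ 0)
    (h4 : dt d (p + x + y) ≠ 0) [Decidable (In p x y)] :
    (if In p x y then 1 else 0 : ZMod 2) = R d (p + y) x + R d (p - y) x + R d (p + x) y +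
      R d (p - x) y := by
  have hD : dt x y ≠ 0 := by rintro h; rw [h, mul_zero] at hδ; exact lt_irrefl _ hδ
  have hx : dt d x ≠ 0 := by rintro h; rw [h, zero_mul] at hε; exact lt_irrefl _ hε
  have hy : dt d y ≠ 0 := by rintro h; rw [h, zero_mul] at hδ; exact lt_irrefl _ hδ
  have hP : dt d x * dt p y - dt d y * dt p x = dt d p * dt x y := by
    simp only [dt]; ring
  have e1 : dt (p - y) x = dt p x + dt x y := by rw [dt_sub_left, dt_swap x y]; ring
  have e2 : dt (p + y) x = dt p x - dt x y := by rw [dt_add_left, dt_swap x y]; ring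
  have e3 : dt (p - x) y = dt p y - dt x y := by rw [dt_sub_left]
  have e4 : dt (p + x) y = dt p y + dt x y := by rw [dt_add_left]
  have key := tile_lin (dt d x * dt p y) (dt d y * dt p x) (dt d y * dt x y) (-(dt d x * dt x y))
    hδ (by linarith)
    (by rw [neg_neg]; intro h
        have := mul_left_cancel₀ hx h
        apply h2; rw [e3, this, sub_self])
    (by intro h
        have h' : dt d y * dt p x = dt d y * -dt x y := by rw [h]; ring
        have := mul_left_cancel₀ hy h'
        apply h1; rw [e1, this]; ring)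
    (by rw [hP]; intro h
        have h' : dt d (p - x - y) * dt x y = 0 := by
          rw [dt_sub_right, dt_sub_right]; linear_combination h
        rcases mul_eq_zero.1 h' with h' | h'
        · exact h3 h'
        · exact hD h')
    (by rw [hP]; intro h
        have h' : dt d (p + x + y) * dt x y = 0 := by
          rw [dt_add_right, dt_add_right]; linear_combination h
        rcases mul_eq_zero.1 h' with h' | h'
        · exact h4 h'
        · exact hD h')
  rw [hP] at key
  have aε : -(dt d x * dt x y) = |dt d x * dt x y| := by rw [abs_of_neg hε]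
  have aδ : dt d y * dt x y = |dt d y * dt x y| := by rw [abs_of_pos hδ]
  have c0 : In p x y ↔ |dt d x * dt p y| < -(dt d x * dt x y) ∧
      |dt d y * dt p x| < dt d y * dt x y := by
    unfold In
    rw [aε, aδ, mul_comm (dt d x) (dt p y), mul_comm (dt d x) (dt x y), abs_mul_lt_iff hx,
      mul_comm (dt d y) (dt p x), mul_comm (dt d y) (dt x y), abs_mul_lt_iff hy]
  -- the signs
  have sg1 : ∀ w : ℝ, 0 < w * dt d x ↔ dt d y * w < 0 := by
    intro w
    have h5 : dt d x * dt d y < 0 := by
      by_contra h5
      push Not at h5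
      have h6 : 0 ≤ (dt d x * dt d y) * (dt x y * dt x y) :=
        mul_nonneg h5 (mul_self_nonneg _)
      have h7 : (dt d x * dt x y) * (dt d y * dt x y) < 0 := mul_neg_of_neg_of_pos hε hδ
      nlinarith
    rcases lt_or_gt_of_ne hx with h8 | h8
    · have h9 : 0 < dt d y := by
        by_contra h9; push Not at h9
        have := mul_nonneg_of_nonpos_of_nonpos h8.le h9
        linarith
      constructor
      · intro h
        have : w < 0 := by
          by_contra h'; push Not at h'
          have := mul_nonpos_of_nonneg_of_nonpos h' h8.le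
          linarith
        exact mul_neg_of_pos_of_neg h9 this
      · intro h
        have : w < 0 := by
          by_contra h'; push Not at h'
          have := mul_nonneg h9.le h'
          linarith
        exact mul_pos_of_neg_of_neg this h8
    · have h9 : dt d y < 0 := by
        by_contra h9; push Not at h9
        have := mul_nonneg h8.le h9
        linarith
      constructor
      · intro h
        have : 0 < w := by
          by_contra h'; push Not at h'
          have := mul_nonpos_of_nonpos_of_nonneg h' h8.le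
          linarith
        exact mul_neg_of_neg_of_pos h9 this
      · intro h
        have : 0 < w := by
          by_contra h'; push Not at h'
          have := mul_nonneg_of_nonpos_of_nonpos h9.le h'
          linarith
        exact mul_pos this h8
  have sg2 : ∀ w : ℝ, 0 < w * dt d y ↔ dt d x * w < 0 := by
    intro w
    have h5 : dt d x * dt d y < 0 := by
      by_contra h5
      push Not at h5
      have h6 : 0 ≤ (dt d x * dt d y) * (dt x y * dt x y) :=
        mul_nonneg h5 (mul_self_nonneg _)
      have h7 : (dt d x * dt x y) * (dt d y * dt x y) < 0 := mul_neg_of_neg_of_pos hε hδ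
      nlinarith
    rcases lt_or_gt_of_ne hx with h8 | h8
    · have h9 : 0 < dt d y := by
        by_contra h9; push Not at h9
        have := mul_nonneg_of_nonpos_of_nonpos h8.le h9
        linarith
      constructor
      · intro h
        have : 0 < w := by
          by_contra h'; push Not at h'
          have := mul_nonpos_of_nonpos_of_nonneg h' h9.le
          linarith
        exact mul_neg_of_neg_of_pos h8 this
      · intro h
        have : 0 < w := by
          by_contra h'; push Not at h'
          have := mul_nonneg_of_nonpos_of_nonpos h8.le h'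
          linarith
        exact mul_pos this h9
    · have h9 : dt d y < 0 := by
        by_contra h9; push Not at h9
        have := mul_nonneg h8.le h9
        linarith
      constructor
      · intro h
        have : w < 0 := by
          by_contra h'; push Not at h'
          have := mul_nonpos_of_nonneg_of_nonpos h' h9.le
          linarith
        exact mul_neg_of_pos_of_neg h8 this
      · intro h
        have : w < 0 := by
          by_contra h'; push Not at h'
          have := mul_nonneg h8.le h'
          linarith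
        exact mul_pos_of_neg_of_neg this h9
  have c1 : (|dt d (p + y)| < |dt d x| ∧ 0 < dt (p + y) x * dt d x) ↔
      (|dt d p * dt x y + dt d y * dt x y| < -(dt d x * dt x y) ∧
        dt d y * dt p x < dt d y * dt x y) := by
    rw [aε, ← add_mul, ← dt_add_right, abs_mul_lt_iff hD, sg1, e2, mul_sub, sub_neg]
  have c2 : (|dt d (p - y)| < |dt d x| ∧ 0 < dt (p - y) x * dt d x) ↔
      (|dt d p * dt x y - dt d y * dt x y| < -(dt d x * dt x y) ∧
        dt d y * dt p x < -(dt d y * dt x y)) := by
    rw [aε, ← sub_mul, ← dt_sub_right, abs_mul_lt_iff hD, sg1, e1, mul_add,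
      lt_neg_iff_add_neg]
  have c3 : (|dt d (p + x)| < |dt d y| ∧ 0 < dt (p + x) y * dt d y) ↔
      (|dt d p * dt x y - -(dt d x * dt x y)| < dt d y * dt x y ∧
        dt d x * dt p y < -(dt d x * dt x y)) := by
    rw [sub_neg_eq_add, ← add_mul, ← dt_add_right, aδ, abs_mul_lt_iff hD, sg2, e4, mul_add,
      lt_neg_iff_add_neg]
  have c4 : (|dt d (p - x)| < |dt d y| ∧ 0 < dt (p - x) y * dt d y) ↔
      (|dt d p * dt x y + -(dt d x * dt x y)| < dt d y * dt x y ∧
        dt d x * dt p y < - -(dt d x * dt x y)) := by
    rw [← sub_eq_add_neg, ← sub_mul, ← dt_sub_right, aδ, abs_mul_lt_iff hD, sg2, e3, mul_sub,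
      sub_neg, neg_neg]
  unfold R
  simp only [c0, c1, c2, c3, c4]
  exact key

theorem R_neg (d q x : ℝ × ℝ) : R d q (-x) = R d q x := by
  unfold R
  rw [dt_neg_right, dt_neg_right, abs_neg, neg_mul_neg]

theorem In_neg_left (p x y : ℝ × ℝ) : In p (-x) y ↔ In p x y := by
  unfold In
  rw [dt_neg_left, dt_neg_right, abs_neg, abs_neg]

theorem In_neg_right (p x y : ℝ × ℝ) : In p x (-y) ↔ In p x y := by
  unfold In
  rw [dt_neg_right, dt_neg_right, abs_neg, abs_neg]

theorem In_swap (p x y : ℝ × ℝ) : In p x y ↔ In p y x := by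
  unfold In
  rw [dt_swap y x, abs_neg]
  exact and_comm

/-- The tile lemma: `0` lies in the open parallelogram if and only if the ray crosses an odd number
of its edges. -/
theorem tile (d p x y : ℝ × ℝ) (hD : dt x y ≠ 0) (hx : dt d x ≠ 0) (hy : dt d y ≠ 0)
    (h1 : dt (p - y) x ≠ 0) (h1' : dt (p + y) x ≠ 0) (h2 : dt (p - x) y ≠ 0)
    (h2' : dt (p + x) y ≠ 0) (h3 : dt d (p - x - y) ≠ 0) (h4 : dt d (p + x + y) ≠ 0)
    (h5 : dt d (p + x - y) ≠ 0) (h6 : dt d (p - x + y) ≠ 0) [Decidable (In p x y)] :
    (if In p x y then 1 else 0 : ZMod 2) = R d (p + y) x + R d (p - y) x + R d (p + x) y +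
      R d (p - x) y := by
  classical
  rcases lt_or_gt_of_ne (mul_ne_zero hy hD) with hA | hA <;>
  rcases lt_or_gt_of_ne (mul_ne_zero hx hD) with hB | hB
  · have := tile_pos d p (-x) y (by rw [dt_neg_left]; linarith)
      (by rw [dt_neg_left, dt_neg_right]; linarith)
      (by rw [dt_neg_right]; exact neg_ne_zero.2 h1) (by rwa [sub_neg_eq_add])
      (by rwa [sub_neg_eq_add]) (by rwa [← sub_eq_add_neg])
    simp only [In_neg_left, R_neg, ← sub_eq_add_neg, sub_neg_eq_add] at this
    rw [this]; ring
  · have := tile_pos d p (-x) (-y) (by rw [dt_neg_left, dt_neg_right, dt_neg_right]; linarith)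
      (by rw [dt_neg_left, dt_neg_right, dt_neg_right]; linarith)
      (by rw [dt_neg_right, sub_neg_eq_add]; exact neg_ne_zero.2 h1')
      (by rw [dt_neg_right, sub_neg_eq_add]; exact neg_ne_zero.2 h2')
      (by rwa [sub_neg_eq_add, sub_neg_eq_add])
      (by rwa [← sub_eq_add_neg, ← sub_eq_add_neg])
    simp only [In_neg_left, In_neg_right, R_neg, ← sub_eq_add_neg, sub_neg_eq_add] at this
    rw [this]; ring
  · exact tile_pos d p x y hA hB h1 h2 h3 h4
  · have := tile_pos d p x (-y) (by rw [dt_neg_right, dt_neg_right]; linarith)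
      (by rw [dt_neg_right]; linarith)
      (by rw [sub_neg_eq_add]; exact h1') (by rw [dt_neg_right]; exact neg_ne_zero.2 h2)
      (by rwa [sub_neg_eq_add]) (by rwa [← sub_eq_add_neg])
    simp only [In_neg_right, R_neg, ← sub_eq_add_neg, sub_neg_eq_add] at this
    rw [this]; ring

/-- The line in direction `d` crosses the segment if exactly one of the two rays does. -/
theorem R_add_neg (d q x : ℝ × ℝ) (h : dt q x ≠ 0) (hx : dt d x ≠ 0) :
    R d q x + R d (-q) x = if |dt d q| < |dt d x| then 1 else 0 := by
  unfold R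
  rw [dt_neg_right, abs_neg, dt_neg_left]
  by_cases h1 : |dt d q| < |dt d x|
  · rcases lt_or_gt_of_ne (mul_ne_zero h hx) with h2 | h2
    · rw [if_neg (fun h => absurd h.2 (not_lt.2 h2.le)), if_pos ⟨h1, by linarith⟩, if_pos h1,
        zero_add]
    · rw [if_pos ⟨h1, h2⟩, if_neg (fun h => by have := h.2; linarith), if_pos h1, add_zero]
  · rw [if_neg (fun h => h1 h.1), if_neg (fun h => h1 h.1), if_neg h1, add_zero]

/-- A direction that avoids finitely many lines. -/
theorem exists_dir (F : Finset (ℝ × ℝ)) (hF : ∀ w ∈ F, w ≠ 0) : ∃ d : ℝ × ℝ, ∀ w ∈ F, dt d w ≠ 0 := by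
  classical
  obtain ⟨x, hx⟩ := Infinite.exists_notMem_finset (F.image fun w => w.2 / w.1)
  refine ⟨(1, x), fun w hw h => hx ?_⟩
  rw [Finset.mem_image]
  refine ⟨w, hw, ?_⟩
  simp only [dt, one_mul] at h
  by_cases h1 : w.1 = 0
  · exfalso
    rw [h1, mul_zero, sub_zero] at h
    exact hF w hw (Prod.ext h1 h)
  · rw [div_eq_iff h1]; linarith

end Pool.Agent.KK
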