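import Pool.Agent.KK.Parity

/-!
# The parity lemma for the tiles of a planar line arrangement: main theorem
-/

set_option autoImplicit false

open scoped BigOperators

namespace Pool.Agent.KK

/-- all values are `1` or `-1` -/
def IsSgn {ι : Type*} (s : ι → ℝ) : Prop := ∀ l, s l = 1 ∨ s l = -1

/-- sign of a real number (`-1` at `0`) -/
noncomputable def sn (x : ℝ) : ℝ := if 0 < x then 1 else -1

theorem sn_cases (x : ℝ) : sn x = 1 ∨ sn x = -1 := by
  unfold sn; split_ifs <;> simp

theorem sn_mul_self (x : ℝ) : sn x * sn x = 1 := by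
  rcases sn_cases x with h | h <;> rw [h] <;> norm_num

theorem sn_neg {x : ℝ} (hx : x ≠ 0) : sn (-x) = - sn x := by
  unfold sn
  rcases lt_or_gt_of_ne hx with h | h
  · rw [if_pos (by linarith), if_neg (by linarith), neg_neg]
  · rw [if_neg (by linarith), if_pos h]

theorem sn_mul {x y : ℝ} (hx : x ≠ 0) (hy : y ≠ 0) : sn (x * y) = sn x * sn y := by
  unfold sn
  rcases lt_or_gt_of_ne hx with h | h <;> rcases lt_or_gt_of_ne hy with h' | h'
  · rw [if_pos (mul_pos_of_neg_of_neg h h'), if_neg (not_lt.2 h.le), if_neg (not_lt.2 h'.le)]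
    norm_num
  · rw [if_neg (not_lt.2 (mul_neg_of_neg_of_pos h h').le), if_neg (not_lt.2 h.le), if_pos h']
    norm_num
  · rw [if_neg (not_lt.2 (mul_neg_of_pos_of_neg h h').le), if_pos h, if_neg (not_lt.2 h'.le)]
    norm_num
  · rw [if_pos (mul_pos h h'), if_pos h, if_pos h']; norm_num

theorem sn_mul_abs (x : ℝ) : sn x * |x| = x := by
  unfold sn
  split_ifs with h
  · rw [abs_of_pos h, one_mul]
  · rw [abs_of_nonpos (not_lt.1 h)]; ring

theorem sn_mul_eq_abs (x : ℝ) : sn x * x = |x| := by
  unfold sn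
  split_ifs with h
  · rw [abs_of_pos h, one_mul]
  · rw [abs_of_nonpos (not_lt.1 h)]; ring

/-- rank of `k` in the order given by `t` -/
noncomputable def rk {κ : Type*} (S : Finset κ) (t : κ → ℝ) (k : κ) : ℕ :=
  (S.filter fun l => t l < t k).card

theorem rk_lt_iff {κ : Type*} (S : Finset κ) (t : κ → ℝ) {l k : κ} (hl : l ∈ S) :
    rk S t l < rk S t k ↔ t l < t k := by
  constructor
  · intro h
    by_contra h'
    push Not at h'
    refine absurd h (not_lt.2 (Finset.card_le_card fun x hx => ?_))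
    rw [Finset.mem_filter] at hx ⊢
    exact ⟨hx.1, lt_of_lt_of_le hx.2 h'⟩
  · intro h
    refine Finset.card_lt_card ?_
    rw [Finset.ssubset_iff_of_subset]
    · refine ⟨l, ?_, ?_⟩
      · rw [Finset.mem_filter]; exact ⟨hl, h⟩
      · rw [Finset.mem_filter]; exact fun h => lt_irrefl _ h.2
    · intro x hx
      rw [Finset.mem_filter] at hx ⊢
      exact ⟨hx.1, hx.2.trans h⟩

theorem rk_lt_card {κ : Type*} (S : Finset κ) (t : κ → ℝ) {l : κ} (hl : l ∈ S) :
    rk S t l < S.card := by
  refine Finset.card_lt_card ?_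
  rw [Finset.ssubset_iff_of_subset (Finset.filter_subset _ _)]
  exact ⟨l, hl, by rw [Finset.mem_filter]; exact fun h => lt_irrefl _ h.2⟩

section

variable {ι : Type*} [Fintype ι] [DecidableEq ι]

/-- the signed sum of the vectors without `a` -/
noncomputable def SE (v : ι → ℝ × ℝ) (s : ι → ℝ) (a : ι) : ℝ × ℝ :=
  ∑ l ∈ Finset.univ.erase a, s l • v l

/-- the signed sum of the vectors without `a` and `k` -/
noncomputable def SE2 (v : ι → ℝ × ℝ) (s : ι → ℝ) (a k : ι) : ℝ × ℝ :=
  ∑ l ∈ (Finset.univ.erase a).erase k, s l • v l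

theorem SE2_add (v : ι → ℝ × ℝ) (s : ι → ℝ) {a k : ι} (h : k ≠ a) :
    SE2 v s a k + s k • v k = SE v s a := by
  unfold SE2 SE
  rw [Finset.sum_erase_add]
  simp [h]

theorem SE_add (v : ι → ℝ × ℝ) (s : ι → ℝ) (a : ι) :
    SE v s a + s a • v a = ∑ l, s l • v l := by
  unfold SE
  rw [Finset.sum_erase_add]
  simp

theorem SE2_comm (v : ι → ℝ × ℝ) (s : ι → ℝ) (a k : ι) : SE2 v s a k = SE2 v s k a := by
  unfold SE2
  rw [Finset.erase_right_comm]

theorem SE_congr (v : ι → ℝ × ℝ) {s s' : ι → ℝ} {a : ι} (h : ∀ l, l ≠ a → s l = s' l) :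
    SE v s a = SE v s' a := by
  unfold SE
  refine Finset.sum_congr rfl fun l hl => ?_
  rw [h l (Finset.ne_of_mem_erase hl)]

theorem SE2_congr (v : ι → ℝ × ℝ) {s s' : ι → ℝ} {a k : ι}
    (h : ∀ l, l ≠ a → l ≠ k → s l = s' l) : SE2 v s a k = SE2 v s' a k := by
  unfold SE2
  refine Finset.sum_congr rfl fun l hl => ?_
  rw [h l (Finset.ne_of_mem_erase (Finset.mem_of_mem_erase hl)) (Finset.ne_of_mem_erase hl)]

/-- the crossings of the edges parallel to `v a` -/
theorem sum_line (d : ℝ × ℝ) (v : ι → ℝ × ℝ) (a : ι) (e : ι → ℝ) (he : ∀ l, e l = 1 ∨ e l = -1)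
    (t : ι → ℝ) (ht : Set.InjOn t {l | l ≠ a}) (sg : ι → ι → ℝ)
    (hsg : ∀ k l, k ≠ a → l ≠ a → k ≠ l → sg k l = e l * (if t l < t k then 1 else -1)) :
    ∑ k ∈ Finset.univ.erase a,
      (R d (SE2 v (sg k) a k + v k) (v a) + R d (SE2 v (sg k) a k - v k) (v a)) =
      R d (-SE v e a) (v a) + R d (SE v e a) (v a) := by
  classical
  set S : Finset ι := Finset.univ.erase a with hS
  have hmem : ∀ l, l ∈ S ↔ l ≠ a := by intro l; rw [hS]; simp
  let G : ℕ → ZMod 2 := fun j => R d (SE v (fun l => if rk S t l < j then e l else - e l) a) (v a)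
  have htele := tele S t (ht.mono fun l hl => (hmem l).1 hl) G
  have h0 : G 0 = R d (-SE v e a) (v a) := by
    simp only [G]
    congr 1
    unfold SE
    rw [← Finset.sum_neg_distrib]
    refine Finset.sum_congr rfl fun l _ => ?_
    dsimp only
    rw [if_neg (Nat.not_lt_zero _), neg_smul]
  have h1 : G S.card = R d (SE v e a) (v a) := by
    simp only [G]
    congr 1
    refine SE_congr v fun l hl => ?_
    rw [if_pos (rk_lt_card S t ((hmem l).2 hl))]
  rw [← h0, ← h1, ← htele]
  refine Finset.sum_congr rfl fun k hk => ?_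
  have hka : k ≠ a := (hmem k).1 hk
  have hb : SE v (fun l => if rk S t l < rk S t k then e l else - e l) a =
      SE2 v (sg k) a k - e k • v k := by
    rw [← SE2_add v _ hka]
    rw [if_neg (lt_irrefl _), neg_smul, ← sub_eq_add_neg]
    congr 1
    refine SE2_congr v fun l hla hlk => ?_
    rw [hsg k l hka hla hlk.symm]
    by_cases h : t l < t k
    · rw [if_pos ((rk_lt_iff S t ((hmem l).2 hla)).2 h), if_pos h, mul_one]
    · rw [if_neg (fun h' => h ((rk_lt_iff S t ((hmem l).2 hla)).1 h')), if_neg h, mul_neg,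
        mul_one]
  have ha : SE v (fun l => if rk S t l < rk S t k + 1 then e l else - e l) a =
      SE2 v (sg k) a k + e k • v k := by
    rw [← SE2_add v _ hka]
    rw [if_pos (Nat.lt_succ_self _)]
    congr 1
    refine SE2_congr v fun l hla hlk => ?_
    rw [hsg k l hka hla hlk.symm]
    by_cases h : t l < t k
    · rw [if_pos (((rk_lt_iff S t ((hmem l).2 hla)).2 h).trans (Nat.lt_succ_self _)),
        if_pos h, mul_one]
    · have h2 : t k < t l := by
        refine lt_of_le_of_ne (not_lt.1 h) fun h' => hlk ?_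
        exact (ht (show k ∈ {l | l ≠ a} from hka) (show l ∈ {l | l ≠ a} from hla) h').symm
      have h3 := (rk_lt_iff S t hk).2 h2
      rw [if_neg (by omega), if_neg h, mul_neg, mul_one]
  show _ = G (rk S t k) + G (rk S t k + 1)
  simp only [G]
  rw [hb, ha]
  rcases he k with h | h
  · rw [h, one_smul, add_comm]
  · rw [h, neg_smul, one_smul, sub_neg_eq_add, ← sub_eq_add_neg]

theorem lt_parity {Y g : ℝ} (h1 : Y + g ≠ 0) (h2 : Y - g ≠ 0) :
    (if |Y| < |g| then 1 else 0 : ZMod 2) =
      (if 0 < Y + g then 1 else 0) + (if 0 < Y - g then 1 else 0) := by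
  have two : (1 : ZMod 2) + 1 = 0 := by decide
  rcases lt_or_gt_of_ne h1 with a | a <;> rcases lt_or_gt_of_ne h2 with b | b
  · rw [if_neg, if_neg (by linarith), if_neg (by linarith), add_zero]
    rw [not_lt, le_abs]
    rcases le_total 0 g with h | h
    · rw [abs_of_nonneg h]; right; linarith
    · rw [abs_of_nonpos h]; right; linarith
  · rw [if_pos, if_neg (by linarith), if_pos b, zero_add]
    have h : g < 0 := by linarith
    rw [abs_of_neg h, abs_lt]
    constructor <;> linarith
  · rw [if_pos, if_pos a, if_neg (by linarith), add_zero]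
    have h : 0 < g := by linarith
    rw [abs_of_pos h, abs_lt]
    constructor <;> linarith
  · rw [if_neg, if_pos a, if_pos b, two]
    rw [not_lt, le_abs]
    rcases le_total 0 g with h | h
    · rw [abs_of_nonneg h]; left; linarith
    · rw [abs_of_nonpos h]; left; linarith

/-- the number of sign changes from the unbounded region `Q` to its antipode is odd -/
theorem sum_far (d : ℝ × ℝ) (u : ι → ℝ × ℝ) (c : ι → ℝ) (hu : ∀ i j, i ≠ j → dt (u i) (u j) ≠ 0)
    (hd : ∀ l, dt d (u l) ≠ 0)
    (hg : ∀ s : ι → ℝ, IsSgn s → dt d (∑ l, s l • (c l • u l)) ≠ 0) :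
    ∑ a, (if |dt d (SE (fun l => c l • u l) (fun l => sn (dt (u a) (u l))) a)| <
      |dt d (c a • u a)| then 1 else 0 : ZMod 2) = 1 := by
  classical
  rcases isEmpty_or_nonempty ι with hemp | ⟨⟨i0⟩⟩
  · exfalso
    exact hg (fun _ => 1) (fun l => Or.inl rfl) (by simp [dt_zero_right])
  have hd0 : d.1 ^ 2 + d.2 ^ 2 ≠ 0 := by
    intro h
    have h1 : d.1 = 0 := by nlinarith [sq_nonneg d.1, sq_nonneg d.2]
    have h2 : d.2 = 0 := by nlinarith [sq_nonneg d.1, sq_nonneg d.2]
    exact hd i0 (by simp [dt, h1, h2])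
  let ρ : ι → ℝ := fun l => -(d.1 * (u l).1 + d.2 * (u l).2) / (dt d (u l) * (d.1 ^ 2 + d.2 ^ 2))
  have hρ : ∀ a l, dt (u a) (u l) = dt d (u a) * dt d (u l) * (ρ l - ρ a) := by
    intro a l
    have h1 := hd a
    have h2 := hd l
    have key : dt (u a) (u l) * (d.1 ^ 2 + d.2 ^ 2) = dt d (u a) *
        (-(d.1 * (u l).1 + d.2 * (u l).2)) - dt d (u l) * (-(d.1 * (u a).1 + d.2 * (u a).2)) := by
      simp only [dt]; ring
    simp only [ρ]
    field_simp
    linear_combination key
  have hinj : Set.InjOn ρ (Finset.univ : Finset ι) := by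
    intro a _ l _ h
    by_contra hne
    apply hu a l hne
    rw [hρ a l, h, sub_self, mul_zero]
  let g : ι → ℝ := fun l => c l * |dt d (u l)|
  let H : ℕ → ZMod 2 := fun j =>
    if 0 < ∑ l, (if rk Finset.univ ρ l < j then - g l else g l) then 1 else 0
  have htele := tele Finset.univ ρ hinj H
  -- signed sums of g are determinants
  have hgs : ∀ s : ι → ℝ, ∑ l, s l * g l =
      dt d (∑ l, (s l * sn (dt d (u l))) • (c l • u l)) := by
    intro s
    rw [dt_sum_right]
    refine Finset.sum_congr rfl fun l _ => ?_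
    rw [dt_smul_right, dt_smul_right]
    simp only [g]
    rw [← sn_mul_eq_abs]; ring
  have hgs0 : ∀ s : ι → ℝ, IsSgn s → ∑ l, s l * g l ≠ 0 := by
    intro s hs
    rw [hgs]
    apply hg
    intro l
    dsimp only
    rcases hs l with h | h <;> rcases sn_cases (dt d (u l)) with h' | h' <;> rw [h, h'] <;> simp
  have hval : H 0 + H (Finset.univ : Finset ι).card = 1 := by
    have h1 : ∑ l, (if rk Finset.univ ρ l < 0 then - g l else g l) = ∑ l, g l := by
      refine Finset.sum_congr rfl fun l _ => ?_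
      rw [if_neg (Nat.not_lt_zero _)]
    have h2 : ∑ l, (if rk Finset.univ ρ l < (Finset.univ : Finset ι).card then - g l else g l) =
        - ∑ l, g l := by
      rw [← Finset.sum_neg_distrib]
      refine Finset.sum_congr rfl fun l hl => ?_
      rw [if_pos (rk_lt_card _ ρ hl)]
    simp only [H]
    rw [h1, h2]
    have h3 : ∑ l, g l ≠ 0 := by
      have := hgs0 (fun _ => 1) (fun _ => Or.inl rfl)
      simpa using this
    rcases lt_or_gt_of_ne h3 with h | h
    · rw [if_neg (by linarith), if_pos (by linarith), zero_add]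
    · rw [if_pos h, if_neg (by linarith), add_zero]
  refine Eq.trans ?_ (htele.trans hval)
  refine Finset.sum_congr rfl fun a _ => ?_
  show _ = H (rk Finset.univ ρ a) + H (rk Finset.univ ρ a + 1)
  set Y : ℝ := ∑ l ∈ Finset.univ.erase a, sn (ρ l - ρ a) * g l with hY
  have hQ : dt d (SE (fun l => c l • u l) (fun l => sn (dt (u a) (u l))) a) =
      sn (dt d (u a)) * Y := by
    unfold SE
    rw [dt_sum_right, hY, Finset.mul_sum]
    refine Finset.sum_congr rfl fun l hl => ?_
    have hla : l ≠ a := Finset.ne_of_mem_erase hl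
    have hne : ρ l - ρ a ≠ 0 := by
      intro h
      exact hla (hinj (by simp) (by simp) (sub_eq_zero.1 h))
    dsimp only
    rw [dt_smul_right, dt_smul_right, hρ a l, sn_mul (mul_ne_zero (hd a) (hd l)) hne,
      sn_mul (hd a) (hd l)]
    simp only [g]
    rw [← sn_mul_eq_abs]
    ring
  have hv : |dt d (c a • u a)| = |g a| := by
    rw [dt_smul_right, abs_mul]
    simp only [g]
    rw [abs_mul, abs_abs]
  have hH1 : ∑ l, (if rk Finset.univ ρ l < rk Finset.univ ρ a then - g l else g l) = Y + g a := by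
    rw [← Finset.sum_erase_add _ _ (Finset.mem_univ a), if_neg (lt_irrefl _), hY]
    congr 1
    refine Finset.sum_congr rfl fun l hl => ?_
    have hla : l ≠ a := Finset.ne_of_mem_erase hl
    unfold sn
    rcases lt_trichotomy (ρ l) (ρ a) with h | h | h
    · rw [if_pos ((rk_lt_iff _ ρ (Finset.mem_univ l)).2 h),
        if_neg (by linarith)]; ring
    · exact absurd (hinj (by simp) (by simp) h) hla
    · rw [if_neg (fun h' => by
        have := (rk_lt_iff _ ρ (Finset.mem_univ l)).1 h'
        linarith), if_pos (by linarith)]; ring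
  have hH2 : ∑ l, (if rk Finset.univ ρ l < rk Finset.univ ρ a + 1 then - g l else g l) =
      Y - g a := by
    rw [← Finset.sum_erase_add _ _ (Finset.mem_univ a), if_pos (Nat.lt_succ_self _), hY,
      sub_eq_add_neg]
    congr 1
    refine Finset.sum_congr rfl fun l hl => ?_
    have hla : l ≠ a := Finset.ne_of_mem_erase hl
    unfold sn
    rcases lt_trichotomy (ρ l) (ρ a) with h | h | h
    · rw [if_pos (((rk_lt_iff _ ρ (Finset.mem_univ l)).2 h).trans
        (Nat.lt_succ_self _)), if_neg (by linarith)]; ring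
    · exact absurd (hinj (by simp) (by simp) h) hla
    · have := (rk_lt_iff _ ρ (Finset.mem_univ a)).2 h
      rw [if_neg (by omega), if_pos (by linarith)]; ring
  have hsgn1 : IsSgn (fun l => if rk Finset.univ ρ l < rk Finset.univ ρ a then (-1 : ℝ) else 1) := by
    intro l; dsimp only; split_ifs <;> simp
  have hsgn2 : IsSgn (fun l => if rk Finset.univ ρ l < rk Finset.univ ρ a + 1 then
      (-1 : ℝ) else 1) := by
    intro l; dsimp only; split_ifs <;> simp
  have hn1 : Y + g a ≠ 0 := by
    rw [← hH1]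
    convert hgs0 _ hsgn1 using 2
    split_ifs <;> ring
  have hn2 : Y - g a ≠ 0 := by
    rw [← hH2]
    convert hgs0 _ hsgn2 using 2
    split_ifs <;> ring
  rw [hQ, hv, abs_mul]
  have h1 : |sn (dt d (u a))| = 1 := by
    rcases sn_cases (dt d (u a)) with h | h <;> rw [h] <;> simp
  rw [h1, one_mul, lt_parity hn1 hn2]
  simp only [H]
  rw [hH1, hH2]

end

/-- The parity lemma: for generic coefficients `c` the number of the tiles of the arrangement whose
image contains `0` is odd. `sg i j l` is the sign of the line `l` at the crossing of the lines `i`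
and `j`; `t a k` is the position of the crossing with `k` on the line `a`. -/
theorem parity {ι : Type*} [Fintype ι] [LinearOrder ι] (h2 : 2 ≤ Fintype.card ι) (u : ι → ℝ × ℝ)
    (hu : ∀ i j, i ≠ j → dt (u i) (u j) ≠ 0) (sg : ι → ι → ι → ℝ)
    (hsym : ∀ i j l, sg i j l = sg j i l) (t : ι → ι → ℝ) (ht : ∀ a, Set.InjOn (t a) {l | l ≠ a})
    (hsg : ∀ a k l, k ≠ a → l ≠ a → k ≠ l →
      sg a k l = sn (dt (u a) (u l)) * (if t a l < t a k then 1 else -1))
    (c : ι → ℝ) (hc : ∀ l, c l ≠ 0)
    (hgen : ∀ s : ι → ℝ, IsSgn s → ∀ i, dt (SE (fun l => c l • u l) s i) (u i) ≠ 0)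
    [DecidablePred fun x : ι × ι => x.1 < x.2 ∧
      In (SE2 (fun l => c l • u l) (sg x.1 x.2) x.1 x.2) (c x.1 • u x.1) (c x.2 • u x.2)] :
    Odd (Finset.univ.filter fun x : ι × ι => x.1 < x.2 ∧
      In (SE2 (fun l => c l • u l) (sg x.1 x.2) x.1 x.2) (c x.1 • u x.1) (c x.2 • u x.2)).card := by
  classical
  set v : ι → ℝ × ℝ := fun l => c l • u l with hv
  have hvv : ∀ i j, i ≠ j → dt (v i) (v j) ≠ 0 := by
    intro i j hij
    simp only [hv]
    rw [dt_smul_left, dt_smul_right]
    exact mul_ne_zero (hc i) (mul_ne_zero (hc j) (hu i j hij))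
  have hSE : ∀ s : ι → ℝ, IsSgn s → ∀ i, dt (SE v s i) (v i) ≠ 0 := by
    intro s hs i
    have : dt (SE v s i) (v i) = c i * dt (SE v s i) (u i) := by
      simp only [hv]; rw [dt_smul_right]
    rw [this]
    exact mul_ne_zero (hc i) (hgen s hs i)
  obtain ⟨i0⟩ : Nonempty ι := Fintype.card_pos_iff.1 (by omega)
  have hP : ∀ s : ι → ℝ, IsSgn s → ∑ l, s l • v l ≠ 0 := by
    intro s hs h
    apply hSE s hs i0
    have h1 := SE_add v s i0
    rw [h] at h1
    have h3 : SE v s i0 = -(s i0 • v i0) := eq_neg_of_add_eq_zero_left h1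
    rw [h3, dt_neg_left, dt_smul_left, dt_self, mul_zero, neg_zero]
  have hv0 : ∀ l, v l ≠ 0 := by
    intro l hl
    obtain ⟨j, hj⟩ : ∃ j, j ≠ l := by
      have : 1 < Fintype.card ι := by omega
      exact Fintype.exists_ne_of_one_lt_card this l
    exact hvv l j hj.symm (by rw [hl, dt_zero_left])
  obtain ⟨d, hd⟩ := exists_dir
    (((Finset.univ : Finset (ι → Bool)).image fun b => ∑ l, (if b l then (1 : ℝ) else -1) • v l) ∪
      Finset.univ.image v) (by
    intro w hw
    rw [Finset.mem_union, Finset.mem_image, Finset.mem_image] at hw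
    rcases hw with ⟨b, _, rfl⟩ | ⟨l, _, rfl⟩
    · exact hP _ (fun l => by split_ifs <;> simp)
    · exact hv0 l)
  have hdv : ∀ l, dt d (v l) ≠ 0 := fun l => hd _ (Finset.mem_union_right _
    (Finset.mem_image_of_mem _ (Finset.mem_univ l)))
  have hdu : ∀ l, dt d (u l) ≠ 0 := by
    intro l h
    apply hdv l
    simp only [hv]
    rw [dt_smul_right, h, mul_zero]
  have hdP : ∀ s : ι → ℝ, IsSgn s → dt d (∑ l, s l • v l) ≠ 0 := by
    intro s hs
    apply hd
    rw [Finset.mem_union]; left
    rw [Finset.mem_image]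
    refine ⟨fun l => decide (s l = 1), Finset.mem_univ _, ?_⟩
    refine Finset.sum_congr rfl fun l _ => ?_
    congr 1
    rcases hs l with h | h
    · rw [if_pos (decide_eq_true h)]; exact h.symm
    · rw [if_neg (by rw [decide_eq_true_eq, h]; norm_num)]; exact h.symm
  -- signs at the crossings
  have hs1 : ∀ i j l, i ≠ j → l ≠ i → l ≠ j → sg i j l = 1 ∨ sg i j l = -1 := by
    intro i j l hij hli hlj
    rw [hsg i j l hij.symm hli hlj.symm]
    rcases sn_cases (dt (u i) (u l)) with h | h <;> rw [h] <;> split_ifs <;> simp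
  -- the extended sign vectors
  let ex : ι → ι → ℝ → ℝ → ι → ℝ := fun i j x y l => if l = i then x else if l = j then y else sg i j l
  have hex : ∀ i j x y, i ≠ j → (x = 1 ∨ x = -1) → (y = 1 ∨ y = -1) → IsSgn (ex i j x y) := by
    intro i j x y hij hx hy l
    simp only [ex]
    by_cases h1 : l = i
    · rw [if_pos h1]; exact hx
    · rw [if_neg h1]
      by_cases h3 : l = j
      · rw [if_pos h3]; exact hy
      · rw [if_neg h3]; exact hs1 i j l hij h1 h3
  have hSE2 : ∀ i j x y, i ≠ j → SE2 v (sg i j) i j = SE2 v (ex i j x y) i j := by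
    intro i j x y hij
    refine SE2_congr v fun l hli hlj => ?_
    simp only [ex]
    rw [if_neg hli, if_neg hlj]
  have hI : ∀ i j x y, i ≠ j → SE2 v (sg i j) i j + y • v j = SE v (ex i j x y) i := by
    intro i j x y hij
    rw [hSE2 i j x y hij, ← SE2_add v _ hij.symm]
    simp only [ex]
    rw [if_neg hij.symm, if_pos trivial]
  have hJ : ∀ i j x y, i ≠ j → SE2 v (sg i j) i j + x • v i = SE v (ex i j x y) j := by
    intro i j x y hij
    rw [hSE2 i j x y hij, ← SE2_add v _ hij, SE2_comm v _ j i]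
    simp only [ex]
    rw [if_pos trivial]
  have hT : ∀ i j x y, i ≠ j →
      SE2 v (sg i j) i j + x • v i + y • v j = ∑ l, ex i j x y l • v l := by
    intro i j x y hij
    rw [hJ i j x y hij, ← SE_add v _ j]
    simp only [ex]
    rw [if_neg hij.symm, if_pos trivial]
  have one : (1 : ℝ) = 1 ∨ (1 : ℝ) = -1 := Or.inl rfl
  have mone : (-1 : ℝ) = 1 ∨ (-1 : ℝ) = -1 := Or.inr rfl
  let f : ι → ι → ZMod 2 := fun i j =>
    R d (SE2 v (sg i j) i j + v j) (v i) + R d (SE2 v (sg i j) i j - v j) (v i)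
  have htile : ∀ i j, i ≠ j → (if In (SE2 v (sg i j) i j) (v i) (v j) then 1 else 0 : ZMod 2) =
      f i j + f j i := by
    intro i j hij
    have e1 : SE2 v (sg j i) j i = SE2 v (sg i j) i j := by
      rw [SE2_comm]
      exact SE2_congr v fun l _ _ => hsym j i l
    have := tile d (SE2 v (sg i j) i j) (v i) (v j) (hvv i j hij) (hdv i) (hdv j)
      (by rw [sub_eq_add_neg, ← neg_one_smul ℝ (v j), hI i j 1 (-1) hij]
          exact hSE _ (hex i j _ _ hij one mone) i)
      (by rw [← one_smul ℝ (v j), hI i j 1 1 hij]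
          exact hSE _ (hex i j _ _ hij one one) i)
      (by rw [sub_eq_add_neg, ← neg_one_smul ℝ (v i), hJ i j (-1) 1 hij]
          exact hSE _ (hex i j _ _ hij mone one) j)
      (by rw [← one_smul ℝ (v i), hJ i j 1 1 hij]
          exact hSE _ (hex i j _ _ hij one one) j)
      (by rw [sub_eq_add_neg, sub_eq_add_neg, ← neg_one_smul ℝ (v i), ← neg_one_smul ℝ (v j),
            hT i j (-1) (-1) hij]
          exact hdP _ (hex i j _ _ hij mone mone))
      (by rw [← one_smul ℝ (v i), ← one_smul ℝ (v j), hT i j 1 1 hij]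
          exact hdP _ (hex i j _ _ hij one one))
      (by rw [sub_eq_add_neg, ← neg_one_smul ℝ (v j), ← one_smul ℝ (v i), hT i j 1 (-1) hij]
          exact hdP _ (hex i j _ _ hij one mone))
      (by rw [sub_eq_add_neg, ← neg_one_smul ℝ (v i), ← one_smul ℝ (v j), hT i j (-1) 1 hij]
          exact hdP _ (hex i j _ _ hij mone one))
    rw [this]
    simp only [f]
    rw [e1]
    ring
  have hline : ∀ a, ∑ k ∈ Finset.univ.erase a, f a k =
      if |dt d (SE v (fun l => sn (dt (u a) (u l))) a)| < |dt d (v a)| then 1 else 0 := by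
    intro a
    have h3 := sum_line d v a (fun l => sn (dt (u a) (u l))) (fun l => sn_cases _) (t a) (ht a)
      (sg a) (fun k l hk hl hkl => hsg a k l hk hl hkl)
    rw [h3, add_comm]
    exact R_add_neg d _ _ (hSE _ (fun l => sn_cases _) a) (hdv a)
  have hfar := sum_far d u c hu hdu hdP
  -- the sum over the pairs
  have hpairs : ∑ x ∈ Finset.univ.filter (fun x : ι × ι => x.1 < x.2), (f x.1 x.2 + f x.2 x.1) =
      ∑ a, ∑ k ∈ Finset.univ.erase a, f a k := by
    have h3 : ∑ a, ∑ k ∈ Finset.univ.erase a, f a k =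
        ∑ x ∈ Finset.univ.filter (fun x : ι × ι => x.2 ≠ x.1), f x.1 x.2 := by
      rw [Finset.sum_filter, ← Finset.univ_product_univ, Finset.sum_product]
      refine Finset.sum_congr rfl fun a _ => ?_
      rw [← Finset.sum_filter]
      refine Finset.sum_congr ?_ fun _ _ => rfl
      ext k; simp
    have h4 : Finset.univ.filter (fun x : ι × ι => x.2 ≠ x.1) =
        Finset.univ.filter (fun x : ι × ι => x.1 < x.2) ∪
          Finset.univ.filter (fun x : ι × ι => x.2 < x.1) := by
      ext x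
      simp only [Finset.mem_filter, Finset.mem_univ, true_and, Finset.mem_union]
      exact ⟨fun h => (lt_or_gt_of_ne h).symm, fun h => h.elim (fun h => h.ne') (fun h => h.ne)⟩
    have h5 : Disjoint (Finset.univ.filter (fun x : ι × ι => x.1 < x.2))
        (Finset.univ.filter (fun x : ι × ι => x.2 < x.1)) := by
      rw [Finset.disjoint_filter]
      exact fun x _ h => not_lt.2 h.le
    have h6 : ∑ x ∈ Finset.univ.filter (fun x : ι × ι => x.2 < x.1), f x.1 x.2 =
        ∑ x ∈ Finset.univ.filter (fun x : ι × ι => x.1 < x.2), f x.2 x.1 := by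
      refine Finset.sum_bij (fun x _ => (x.2, x.1)) ?_ ?_ ?_ ?_
      · intro x hx
        simpa using hx
      · rintro ⟨a, b⟩ _ ⟨a', b'⟩ _ h
        simp only [Prod.mk.injEq] at h
        exact Prod.ext h.2 h.1
      · rintro ⟨a, b⟩ hx
        exact ⟨(b, a), by simpa using hx, rfl⟩
      · intro x _; rfl
    rw [h3, h4, Finset.sum_union h5, h6, ← Finset.sum_add_distrib]
  have hodd : ((Finset.univ.filter fun x : ι × ι => x.1 < x.2 ∧
      In (SE2 v (sg x.1 x.2) x.1 x.2) (v x.1) (v x.2)).card : ZMod 2) = 1 := by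
    rw [Finset.card_filter, Nat.cast_sum]
    have h3 : ∀ x : ι × ι, (((if x.1 < x.2 ∧ In (SE2 v (sg x.1 x.2) x.1 x.2) (v x.1) (v x.2)
        then 1 else 0 : ℕ)) : ZMod 2) = if x.1 < x.2 then (f x.1 x.2 + f x.2 x.1) else 0 := by
      intro x
      by_cases h : x.1 < x.2
      · rw [if_pos h, ← htile x.1 x.2 h.ne]
        by_cases h' : In (SE2 v (sg x.1 x.2) x.1 x.2) (v x.1) (v x.2)
        · rw [if_pos ⟨h, h'⟩, if_pos h', Nat.cast_one]
        · rw [if_neg (fun h'' => h' h''.2), if_neg h', Nat.cast_zero]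
      · rw [if_neg h, if_neg (fun h'' => h h''.1), Nat.cast_zero]
    rw [Finset.sum_congr rfl (fun x _ => h3 x), ← Finset.sum_filter, hpairs,
      Finset.sum_congr rfl (fun a _ => hline a)]
    exact hfar
  have h7 := ZMod.natCast_eq_one_iff_odd.1 hodd
  convert h7

end Pool.Agent.KK
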