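import Pool.Agent.KK.ParityMain

/-!
# The parity lemma for real and for lexicographic lifts
-/

set_option autoImplicit false

open scoped BigOperators

namespace Pool.Agent.KK

variable {ι : Type*}

/-- The determinant of the three rows `(u i, om i)`, `(u j, om j)`, `(u l, om l)`. -/
def D3 (u : ι → ℝ × ℝ) (om : ι → ℝ) (i j l : ι) : ℝ :=
  om i * dt (u j) (u l) - om j * dt (u i) (u l) + om l * dt (u i) (u j)

/-- The sign of the line `l` at the crossing point of the lines `i` and `j`. -/
noncomputable def sgom (u : ι → ℝ × ℝ) (om : ι → ℝ) (i j l : ι) : ℝ :=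
  sn (D3 u om i j l * dt (u i) (u j))

/-- The position of the crossing with `l` on the line `a`. -/
noncomputable def tom (u : ι → ℝ × ℝ) (om : ι → ℝ) (a l : ι) : ℝ :=
  (om a * ((u a).1 * (u l).1 + (u a).2 * (u l).2) - om l * ((u a).1 ^ 2 + (u a).2 ^ 2)) /
    (((u a).1 ^ 2 + (u a).2 ^ 2) * dt (u a) (u l))

theorem D3_eq (u : ι → ℝ × ℝ) (om : ι → ℝ) {a k l : ι} (hk : dt (u a) (u k) ≠ 0)
    (hl : dt (u a) (u l) ≠ 0) :
    D3 u om a k l = dt (u a) (u k) * dt (u a) (u l) * (tom u om a k - tom u om a l) := by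
  have h0 : (u a).1 ^ 2 + (u a).2 ^ 2 ≠ 0 := by
    intro h
    have h1 : (u a).1 = 0 := by nlinarith [sq_nonneg (u a).1, sq_nonneg (u a).2]
    have h2 : (u a).2 = 0 := by nlinarith [sq_nonneg (u a).1, sq_nonneg (u a).2]
    exact hk (by simp [dt, h1, h2])
  unfold tom D3
  field_simp
  simp only [dt]
  ring

theorem sgom_comm (u : ι → ℝ × ℝ) (om : ι → ℝ) (i j l : ι) : sgom u om i j l = sgom u om j i l := by
  unfold sgom
  congr 1
  unfold D3
  simp only [dt]
  ring

/-- The parity lemma for a real lift. -/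
theorem parity_om [Fintype ι] [LinearOrder ι] (h2 : 2 ≤ Fintype.card ι) (u : ι → ℝ × ℝ)
    (hu : ∀ i j, i ≠ j → dt (u i) (u j) ≠ 0) (om : ι → ℝ)
    (hom : ∀ i j l, i ≠ j → i ≠ l → j ≠ l → D3 u om i j l ≠ 0)
    (c : ι → ℝ) (hc : ∀ l, c l ≠ 0)
    (hgen : ∀ s : ι → ℝ, IsSgn s → ∀ i, dt (SE (fun l => c l • u l) s i) (u i) ≠ 0)
    [DecidablePred fun x : ι × ι => x.1 < x.2 ∧
      In (SE2 (fun l => c l • u l) (sgom u om x.1 x.2) x.1 x.2) (c x.1 • u x.1) (c x.2 • u x.2)] :
    Odd (Finset.univ.filter fun x : ι × ι => x.1 < x.2 ∧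
      In (SE2 (fun l => c l • u l) (sgom u om x.1 x.2) x.1 x.2) (c x.1 • u x.1)
        (c x.2 • u x.2)).card := by
  refine parity h2 u hu (sgom u om) (sgom_comm u om) (tom u om) ?_ ?_ c hc hgen
  · intro a k hk l hl h
    by_contra hne
    apply hom a k l (Ne.symm hk) (Ne.symm hl) hne
    rw [D3_eq u om (hu a k (Ne.symm hk)) (hu a l (Ne.symm hl)), h, sub_self, mul_zero]
  · intro a k l hka hla hkl
    have h1 := hu a k hka.symm
    have h2 := hu a l hla.symm
    have h3 := hom a k l hka.symm hla.symm hkl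
    have h4 : tom u om a k - tom u om a l ≠ 0 := by
      intro h
      apply h3
      rw [D3_eq u om h1 h2, h, mul_zero]
    unfold sgom
    have h5 : D3 u om a k l * dt (u a) (u k) =
        (dt (u a) (u k) * dt (u a) (u k)) * (dt (u a) (u l) * (tom u om a k - tom u om a l)) := by
      rw [D3_eq u om h1 h2]; ring
    rw [h5, sn_mul (mul_ne_zero h1 h1) (mul_ne_zero h2 h4), sn_mul h1 h1, sn_mul_self, one_mul,
      sn_mul h2 h4]
    congr 1
    unfold sn
    by_cases h : tom u om a l < tom u om a k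
    · rw [if_pos (by linarith), if_pos h]
    · rw [if_neg (by linarith), if_neg h]

/-- Lexicographic signs: the outermost (largest rank `r`) of the three lines `i`, `j`, `l` decides;
`e l` is the sign of the lift of the line `l`. -/
noncomputable def lexsg (u : ι → ℝ × ℝ) (r : ι → ℕ) (e : ι → ℝ) (i j l : ι) : ℝ :=
  if r i < r l ∧ r j < r l then e l
  else if r j < r i then e i * sn (dt (u j) (u l) * dt (u i) (u j))
  else - (e j * sn (dt (u i) (u l) * dt (u i) (u j)))

theorem sn_of_pos {x : ℝ} (h : 0 < x) : sn x = 1 := if_pos h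

theorem sn_sgn_mul {e : ℝ} (he : e = 1 ∨ e = -1) {x : ℝ} (hx : x ≠ 0) : sn (e * x) = e * sn x := by
  rcases he with h | h
  · rw [h, one_mul, one_mul]
  · rw [h, neg_one_mul, sn_neg hx, neg_one_mul]

theorem sn_dom {x y : ℝ} (h : |y| < |x|) : sn (x + y) = sn x := by
  unfold sn
  rcases lt_or_ge 0 x with hx | hx
  · rw [abs_of_pos hx, abs_lt] at h
    rw [if_pos hx, if_pos (by linarith)]
  · rw [abs_of_nonpos hx, abs_lt] at h
    rw [if_neg (not_lt.2 hx), if_neg (by linarith)]

/-- Lexicographic signs come from a real lift. -/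
theorem exists_om [Fintype ι] (u : ι → ℝ × ℝ) (hu : ∀ i j, i ≠ j → dt (u i) (u j) ≠ 0)
    (r : ι → ℕ) (hr : Function.Injective r) (e : ι → ℝ) (he : IsSgn e) :
    ∃ om : ι → ℝ, (∀ i j l, i ≠ j → i ≠ l → j ≠ l → D3 u om i j l ≠ 0) ∧
      ∀ i j l, i ≠ j → i ≠ l → j ≠ l → sgom u om i j l = lexsg u r e i j l := by
  classical
  -- bounds for the determinants
  obtain ⟨Δ, hΔ0, hΔ⟩ : ∃ Δ : ℝ, 0 < Δ ∧ ∀ i j, |dt (u i) (u j)| ≤ Δ := by
    refine ⟨∑ x : ι × ι, |dt (u x.1) (u x.2)| + 1, ?_, fun i j => ?_⟩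
    · have := Finset.sum_nonneg (s := (Finset.univ : Finset (ι × ι)))
        (f := fun x => |dt (u x.1) (u x.2)|) fun _ _ => abs_nonneg _
      linarith
    · have := Finset.single_le_sum (s := (Finset.univ : Finset (ι × ι)))
        (f := fun x => |dt (u x.1) (u x.2)|) (fun _ _ => abs_nonneg _) (Finset.mem_univ (i, j))
      dsimp only at this
      linarith
  obtain ⟨δ, hδ0, hδ⟩ : ∃ δ : ℝ, 0 < δ ∧ ∀ i j, i ≠ j → δ ≤ |dt (u i) (u j)| := by
    by_cases hne : (Finset.univ.filter fun x : ι × ι => x.1 ≠ x.2).Nonempty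
    · obtain ⟨x, hx, hmin⟩ := Finset.exists_min_image _ (fun x : ι × ι => |dt (u x.1) (u x.2)|) hne
      rw [Finset.mem_filter] at hx
      refine ⟨|dt (u x.1) (u x.2)|, abs_pos.2 (hu _ _ hx.2), fun i j hij => ?_⟩
      exact hmin (i, j) (by simpa using hij)
    · refine ⟨1, one_pos, fun i j hij => ?_⟩
      exact absurd ⟨(i, j), by simpa using hij⟩ hne
  set M : ℝ := 2 * Δ / δ + 1 with hM
  have hM1 : 1 < M := by rw [hM]; have : 0 < 2 * Δ / δ := by positivity
                         linarith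
  have hMδ : 2 * Δ < M * δ := by
    rw [hM, add_mul, div_mul_cancel₀ _ hδ0.ne']; linarith
  have hM0 : 0 < M := by linarith
  let om : ι → ℝ := fun l => e l * M ^ r l
  have habs : ∀ l, |om l| = M ^ r l := by
    intro l
    simp only [om]
    rw [abs_mul, abs_of_pos (pow_pos hM0 _)]
    rcases he l with h | h <;> rw [h] <;> simp
  have hsn : ∀ l (x : ℝ), x ≠ 0 → sn (om l * x) = e l * sn x := by
    intro l x hx
    simp only [om]
    have h1 : M ^ r l * x ≠ 0 := mul_ne_zero (pow_pos hM0 _).ne' hx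
    rw [mul_assoc, sn_sgn_mul (he l) h1, sn_mul (pow_pos hM0 _).ne' hx, sn_of_pos (pow_pos hM0 _),
      one_mul]
  -- domination
  have hdom : ∀ a b c : ι, ∀ x y z : ℝ, r b < r a → r c < r a → δ ≤ |x| → |y| ≤ Δ → |z| ≤ Δ →
      |om b * y + om c * z| < |om a * x| := by
    intro a b c x y z hb hc hx hy hz
    have h1 : |om b * y + om c * z| ≤ M ^ (r a - 1) * Δ + M ^ (r a - 1) * Δ := by
      refine (abs_add_le _ _).trans (add_le_add ?_ ?_)
      · rw [abs_mul, habs]
        exact mul_le_mul (pow_le_pow_right₀ hM1.le (by omega)) hy (abs_nonneg _) (by positivity)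
      · rw [abs_mul, habs]
        exact mul_le_mul (pow_le_pow_right₀ hM1.le (by omega)) hz (abs_nonneg _) (by positivity)
    have h2 : M ^ (r a - 1) * (M * δ) ≤ |om a * x| := by
      rw [abs_mul, habs]
      have h3 : M ^ r a = M ^ (r a - 1) * M := by
        rw [← pow_succ]; congr 1; omega
      rw [h3, mul_assoc]
      gcongr
    have h4 : M ^ (r a - 1) * (2 * Δ) < M ^ (r a - 1) * (M * δ) :=
      mul_lt_mul_of_pos_left hMδ (pow_pos hM0 _)
    linarith
  have key : ∀ i j l, i ≠ j → i ≠ l → j ≠ l → D3 u om i j l ≠ 0 ∧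
      sgom u om i j l = lexsg u r e i j l := by
    intro i j l hij hil hjl
    have hrij : r i ≠ r j := fun h => hij (hr h)
    have hril : r i ≠ r l := fun h => hil (hr h)
    have hrjl : r j ≠ r l := fun h => hjl (hr h)
    have d1 := hu i j hij
    have d2 := hu i l hil
    have d3 := hu j l hjl
    have neg_abs : ∀ x : ℝ, |-x| = |x| := abs_neg
    by_cases c1 : r i < r l ∧ r j < r l
    · -- l dominates
      have h := hdom l i j (dt (u i) (u j)) (dt (u j) (u l)) (-dt (u i) (u l)) c1.1 c1.2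
        (hδ i j hij) (hΔ _ _) (by rw [abs_neg]; exact hΔ _ _)
      have hD : D3 u om i j l = om l * dt (u i) (u j) +
          (om i * dt (u j) (u l) + om j * -dt (u i) (u l)) := by unfold D3; ring
      have hs : sn (D3 u om i j l) = e l * sn (dt (u i) (u j)) := by
        rw [hD, sn_dom h, hsn l _ d1]
      have hne : D3 u om i j l ≠ 0 := by
        rw [hD]; intro h0
        have h1 : |om l * dt (u i) (u j)| =
            |om i * dt (u j) (u l) + om j * -dt (u i) (u l)| := by
          rw [eq_neg_of_add_eq_zero_left h0, abs_neg]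
        linarith
      refine ⟨hne, ?_⟩
      unfold sgom lexsg
      rw [if_pos c1, sn_mul hne d1, hs, mul_assoc, sn_mul_self, mul_one]
    · by_cases c2 : r j < r i
      · -- i dominates
        have hli : r l < r i := by
          by_contra h'
          exact c1 ⟨by omega, by omega⟩
        have h := hdom i j l (dt (u j) (u l)) (-dt (u i) (u l)) (dt (u i) (u j)) c2 hli
          (hδ j l hjl) (by rw [abs_neg]; exact hΔ _ _) (hΔ _ _)
        have hD : D3 u om i j l = om i * dt (u j) (u l) +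
            (om j * -dt (u i) (u l) + om l * dt (u i) (u j)) := by unfold D3; ring
        have hs : sn (D3 u om i j l) = e i * sn (dt (u j) (u l)) := by
          rw [hD, sn_dom h, hsn i _ d3]
        have hne : D3 u om i j l ≠ 0 := by
          rw [hD]; intro h0
          have h1 : |om i * dt (u j) (u l)| =
              |om j * -dt (u i) (u l) + om l * dt (u i) (u j)| := by
            rw [eq_neg_of_add_eq_zero_left h0, abs_neg]
          linarith
        refine ⟨hne, ?_⟩
        unfold sgom lexsg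
        rw [if_neg c1, if_pos c2, sn_mul hne d1, hs, sn_mul d3 d1, mul_assoc]
      · -- j dominates
        have hij' : r i < r j := by omega
        have hlj : r l < r j := by
          by_contra h'
          exact c1 ⟨by omega, by omega⟩
        have h := hdom j i l (-dt (u i) (u l)) (dt (u j) (u l)) (dt (u i) (u j)) hij' hlj
          (by rw [abs_neg]; exact hδ i l hil) (hΔ _ _) (hΔ _ _)
        have hD : D3 u om i j l = om j * -dt (u i) (u l) +
            (om i * dt (u j) (u l) + om l * dt (u i) (u j)) := by unfold D3; ring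
        have hs : sn (D3 u om i j l) = - (e j * sn (dt (u i) (u l))) := by
          rw [hD, sn_dom h, hsn j _ (neg_ne_zero.2 d2), sn_neg d2, mul_neg]
        have hne : D3 u om i j l ≠ 0 := by
          rw [hD]; intro h0
          have h1 : |om j * -dt (u i) (u l)| =
              |om i * dt (u j) (u l) + om l * dt (u i) (u j)| := by
            rw [eq_neg_of_add_eq_zero_left h0, abs_neg]
          linarith
        refine ⟨hne, ?_⟩
        unfold sgom lexsg
        rw [if_neg c1, if_neg c2, sn_mul hne d1, hs, sn_mul d2 d1, neg_mul, mul_assoc]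
  exact ⟨om, fun i j l h1 h2 h3 => (key i j l h1 h2 h3).1, fun i j l h1 h2 h3 =>
    (key i j l h1 h2 h3).2⟩

/-- The parity lemma for lexicographic signs. -/
theorem parity_lex [Fintype ι] [LinearOrder ι] (h2 : 2 ≤ Fintype.card ι) (u : ι → ℝ × ℝ)
    (hu : ∀ i j, i ≠ j → dt (u i) (u j) ≠ 0) (r : ι → ℕ) (hr : Function.Injective r)
    (e : ι → ℝ) (he : IsSgn e) (c : ι → ℝ) (hc : ∀ l, c l ≠ 0)
    (hgen : ∀ s : ι → ℝ, IsSgn s → ∀ i, dt (SE (fun l => c l • u l) s i) (u i) ≠ 0)
    [DecidablePred fun x : ι × ι => x.1 < x.2 ∧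
      In (SE2 (fun l => c l • u l) (lexsg u r e x.1 x.2) x.1 x.2) (c x.1 • u x.1)
        (c x.2 • u x.2)] :
    Odd (Finset.univ.filter fun x : ι × ι => x.1 < x.2 ∧
      In (SE2 (fun l => c l • u l) (lexsg u r e x.1 x.2) x.1 x.2) (c x.1 • u x.1)
        (c x.2 • u x.2)).card := by
  classical
  obtain ⟨om, hom, hsg⟩ := exists_om u hu r hr e he
  have h := parity_om h2 u hu om hom c hc hgen
  convert h using 2
  ext x
  simp only [Finset.mem_filter, Finset.mem_univ, true_and]
  refine and_congr_right fun hx => ?_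
  have : SE2 (fun l => c l • u l) (lexsg u r e x.1 x.2) x.1 x.2 =
      SE2 (fun l => c l • u l) (sgom u om x.1 x.2) x.1 x.2 :=
    SE2_congr _ fun l h1 h3 => (hsg x.1 x.2 l hx.ne h1.symm h3.symm).symm
  rw [this]

end Pool.Agent.KK
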