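import Pool.Agent.KK.ParityOm
import Mathlib.LinearAlgebra.Basis.VectorSpace

/-!
# Small perturbations of the parity lemma
-/

set_option autoImplicit false

open scoped BigOperators Topology
open Filter

namespace Pool.Agent.KK

section

variable {ι : Type*} [Fintype ι] [DecidableEq ι]

/-- The point of the tile `(i, j)` over `0` (the vertex), in the coordinates of the cube. The sign
vector of the tile is `fun l => xi l * sg l`. -/
noncomputable def vx (u : ι → ℝ × ℝ) (z : ι → ℝ) (i j : ι) : ι → ℝ := fun l =>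
  if l = i then - dt (SE2 u z i j) (u j) / dt (u i) (u j)
  else if l = j then - dt (u i) (SE2 u z i j) / dt (u i) (u j)
  else z l

theorem vx_fst (u : ι → ℝ × ℝ) (z : ι → ℝ) (i j : ι) :
    vx u z i j i = - dt (SE2 u z i j) (u j) / dt (u i) (u j) := by
  unfold vx; rw [if_pos rfl]

theorem vx_snd (u : ι → ℝ × ℝ) (z : ι → ℝ) {i j : ι} (h : i ≠ j) :
    vx u z i j j = - dt (u i) (SE2 u z i j) / dt (u i) (u j) := by
  unfold vx; rw [if_neg h.symm, if_pos rfl]

theorem vx_of_ne (u : ι → ℝ × ℝ) (z : ι → ℝ) {i j l : ι} (h : l ≠ i) (h' : l ≠ j) :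
    vx u z i j l = z l := by
  unfold vx; rw [if_neg h, if_neg h']

/-- The displacement. -/
noncomputable def dl (u : ι → ℝ × ℝ) (w v : ι → ℝ) : ℝ × ℝ := ∑ l, (w l * v l) • u l

/-- The tile `(i, j)` with the sign vector `z` contains `0` after the perturbation `w`. -/
def GT (u : ι → ℝ × ℝ) (w z : ι → ℝ) (i j : ι) : Prop :=
  |vx u z i j i| ≤ 1 ∧ |vx u z i j j| ≤ 1 ∧
  (|vx u z i j i| = 1 →
    0 < vx u z i j i * (dt (dl u w (vx u z i j)) (u j) * dt (u i) (u j))) ∧
  (|vx u z i j j| = 1 →
    0 < vx u z i j j * (dt (u i) (dl u w (vx u z i j)) * dt (u i) (u j)))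

theorem SE2_mul (u : ι → ℝ × ℝ) (z w : ι → ℝ) (i j : ι) :
    SE2 (fun l => w l • u l) z i j = SE2 u (fun l => w l * z l) i j := by
  unfold SE2
  refine Finset.sum_congr rfl fun l _ => ?_
  rw [smul_smul, mul_comm]

theorem SE_mul (u : ι → ℝ × ℝ) (z w : ι → ℝ) (i : ι) :
    SE (fun l => w l • u l) z i = SE u (fun l => w l * z l) i := by
  unfold SE
  refine Finset.sum_congr rfl fun l _ => ?_
  rw [smul_smul, mul_comm]

theorem SE2_pert (u : ι → ℝ × ℝ) (z w : ι → ℝ) (e : ℝ) (i j : ι) :
    SE2 u (fun l => (1 + e * w l) * z l) i j =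
      SE2 u z i j + e • SE2 u (fun l => w l * z l) i j := by
  unfold SE2
  rw [Finset.smul_sum, ← Finset.sum_add_distrib]
  refine Finset.sum_congr rfl fun l _ => ?_
  rw [smul_smul, ← add_smul]
  congr 1; ring

theorem SE_pert (u : ι → ℝ × ℝ) (z w : ι → ℝ) (e : ℝ) (i : ι) :
    SE u (fun l => (1 + e * w l) * z l) i = SE u z i + e • SE u (fun l => w l * z l) i := by
  unfold SE
  rw [Finset.smul_sum, ← Finset.sum_add_distrib]
  refine Finset.sum_congr rfl fun l _ => ?_
  rw [smul_smul, ← add_smul]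
  congr 1; ring

/-- a small perturbation of an affine function does not change the sign -/
theorem ev_ne {a b : ℝ} (h : a ≠ 0 ∨ b ≠ 0) : ∀ᶠ e : ℝ in 𝓝[>] 0, a + e * b ≠ 0 := by
  by_cases ha : a = 0
  · have hb : b ≠ 0 := by rcases h with h | h
                          · exact absurd ha h
                          · exact h
    filter_upwards [self_mem_nhdsWithin] with e he
    rw [ha, zero_add]
    exact mul_ne_zero (ne_of_gt he) hb
  · have hc : Tendsto (fun e : ℝ => a + e * b) (𝓝[>] 0) (𝓝 a) := by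
      have : Tendsto (fun e : ℝ => a + e * b) (𝓝 0) (𝓝 (a + 0 * b)) := by
        apply Continuous.tendsto; fun_prop
      rw [zero_mul, add_zero] at this
      exact this.mono_left nhdsWithin_le_nhds
    exact hc.eventually_ne ha

theorem ev_pos {a b : ℝ} (h : 0 < a) : ∀ᶠ e : ℝ in 𝓝[>] 0, 0 < a + e * b := by
  have hc : Tendsto (fun e : ℝ => a + e * b) (𝓝[>] 0) (𝓝 a) := by
    have : Tendsto (fun e : ℝ => a + e * b) (𝓝 0) (𝓝 (a + 0 * b)) := by
      apply Continuous.tendsto; fun_prop
    rw [zero_mul, add_zero] at this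
    exact this.mono_left nhdsWithin_le_nhds
  exact hc.eventually (lt_mem_nhds h)

/-- `|P0 + e P1| < |1 + e w| |D|` for small `e > 0` -/
theorem ev_abs (P0 P1 w D : ℝ) (hD : D ≠ 0) :
    ∀ᶠ e : ℝ in 𝓝[>] 0, (|P0 + e * P1| < |(1 + e * w) * D| ↔
      |-P0 / D| ≤ 1 ∧ (|-P0 / D| = 1 → 0 < (-P0 / D) * (D * (P1 + w * (-P0 / D) * D)))) := by
  have hDa : 0 < |D| := abs_pos.2 hD
  have habs : |-P0 / D| = |P0| / |D| := by rw [abs_div, abs_neg]
  rcases lt_trichotomy |P0| |D| with h | h | h
  · -- strictly inside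
    have h1 : |-P0 / D| < 1 := by rw [habs, div_lt_one hDa]; exact h
    have e1 := ev_pos (a := |D| - |P0|) (b := -(|w| * |D| + |P1|)) (by linarith)
    have e2 := ev_pos (a := (1 : ℝ)) (b := -|w|) one_pos
    filter_upwards [e1, e2, self_mem_nhdsWithin] with e h1' h2' he
    have he0 : 0 < e := he
    constructor
    · intro _
      exact ⟨h1.le, fun h => absurd h h1.ne⟩
    · intro _
      have h3 : |P0 + e * P1| ≤ |P0| + e * |P1| := by
        refine (abs_add_le _ _).trans ?_
        rw [abs_mul, abs_of_pos he0]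
      have h4 : (1 - e * |w|) * |D| ≤ |(1 + e * w) * D| := by
        rw [abs_mul]
        refine mul_le_mul_of_nonneg_right ?_ hDa.le
        have h5 : -|w| ≤ w := neg_abs_le w
        have h6 : 1 - e * |w| ≤ 1 + e * w := by nlinarith
        exact h6.trans (le_abs_self _)
      nlinarith
  · -- on the boundary
    have h1 : |-P0 / D| = 1 := by rw [habs, h, div_self hDa.ne']
    have hv2 : (-P0 / D) * (-P0 / D) = 1 := by
      rw [← abs_mul_abs_self, h1, one_mul]
    have hP0 : P0 = -((-P0 / D) * D) := by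
      rw [div_mul_cancel₀ _ hD, neg_neg]
    set v : ℝ := -P0 / D with hv
    have e2 := ev_pos (a := (1 : ℝ)) (b := w) one_pos
    have e3 := ev_pos (a := D ^ 2) (b := -(v * D * P1)) (by positivity)
    filter_upwards [e2, e3, self_mem_nhdsWithin] with e h2 h3 he
    have he0 : 0 < e := he
    rw [abs_mul, abs_of_pos h2]
    have h4 : |P0 + e * P1| * |D| = D ^ 2 - e * (v * D * P1) := by
      have h5 : (P0 + e * P1) * (-(v * D)) = D ^ 2 - e * (v * D * P1) := by
        have : P0 * (-(v * D)) = D ^ 2 := by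
          rw [hP0]; linear_combination (D ^ 2) * hv2
        linear_combination this
      have h6 : |-(v * D)| = |D| := by rw [abs_neg, abs_mul, h1, one_mul]
      rw [← h6, ← abs_mul, h5, abs_of_pos (by linarith)]
    have h5 : |P0 + e * P1| < (1 + e * w) * |D| ↔
        |P0 + e * P1| * |D| < (1 + e * w) * |D| * |D| := by
      constructor
      · intro h; exact mul_lt_mul_of_pos_right h hDa
      · intro h; exact lt_of_mul_lt_mul_right h hDa.le
    rw [h5, h4]
    have h6 : (1 + e * w) * |D| * |D| = (1 + e * w) * D ^ 2 := by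
      rw [mul_assoc, abs_mul_abs_self]; ring
    rw [h6]
    have h7 : v * (D * (P1 + w * v * D)) = v * D * P1 + w * D ^ 2 := by
      linear_combination (w * D ^ 2) * hv2
    rw [h7]
    constructor
    · intro h
      refine ⟨h1.le, fun _ => ?_⟩
      have : 0 < e * (v * D * P1 + w * D ^ 2) := by linarith
      exact (mul_pos_iff_of_pos_left he0).1 this
    · intro h
      have := mul_pos he0 (h.2 h1)
      linarith
  · -- outside
    have h1 : 1 < |-P0 / D| := by rw [habs, one_lt_div hDa]; exact h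
    have e1 := ev_pos (a := |P0| - |D|) (b := -(|w| * |D| + |P1|)) (by linarith)
    filter_upwards [e1, self_mem_nhdsWithin] with e h1' he
    have he0 : 0 < e := he
    constructor
    · intro h
      exfalso
      have h3 : |P0| - e * |P1| ≤ |P0 + e * P1| := by
        have := abs_sub_abs_le_abs_sub P0 (-(e * P1))
        rw [abs_neg, abs_mul, abs_of_pos he0, sub_neg_eq_add] at this
        exact this
      have h4 : |(1 + e * w) * D| ≤ (1 + e * |w|) * |D| := by
        rw [abs_mul]
        refine mul_le_mul_of_nonneg_right ?_ hDa.le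
        refine (abs_add_le _ _).trans ?_
        rw [abs_one, abs_mul, abs_of_pos he0]
      nlinarith
    · intro h
      exact absurd h.1 (not_le.2 h1)

theorem dl_eq (u : ι → ℝ × ℝ) (w z : ι → ℝ) {i j : ι} (hij : i ≠ j) :
    dl u w (vx u z i j) = SE2 u (fun l => w l * z l) i j + (w i * vx u z i j i) • u i +
      (w j * vx u z i j j) • u j := by
  have h1 := SE2_add u (fun l => w l * vx u z i j l) hij.symm
  have h2 := SE_add u (fun l => w l * vx u z i j l) i
  unfold dl
  rw [← h2, ← h1]
  have h3 : SE2 u (fun l => w l * z l) i j = SE2 u (fun l => w l * vx u z i j l) i j := by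
    refine SE2_congr u fun l hli hlj => ?_
    rw [vx_of_ne u z hli hlj]
  rw [h3]
  abel

/-- the sum over the vertex is zero -/
theorem sum_vx (u : ι → ℝ × ℝ) (z : ι → ℝ) {i j : ι} (hij : i ≠ j) (hu : dt (u i) (u j) ≠ 0) :
    ∑ l, vx u z i j l • u l = 0 := by
  have h1 := SE2_add u (vx u z i j) hij.symm
  have h2 := SE_add u (vx u z i j) i
  rw [← h2, ← h1]
  have h3 : SE2 u (vx u z i j) i j = SE2 u z i j :=
    SE2_congr u fun l hli hlj => vx_of_ne u z hli hlj
  rw [h3, vx_fst, vx_snd u z hij]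
  set A := SE2 u z i j
  have hd : (u i).1 * (u j).2 - (u i).2 * (u j).1 ≠ 0 := hu
  apply Prod.ext
  · simp only [Prod.fst_add, Prod.smul_fst, smul_eq_mul, dt, Prod.fst_zero]
    field_simp
    ring
  · simp only [Prod.snd_add, Prod.smul_snd, smul_eq_mul, dt, Prod.snd_zero]
    field_simp
    ring

theorem ev_tile (u : ι → ℝ × ℝ) (w xi sg : ι → ℝ) {i j : ι} (hij : i ≠ j)
    (hD : dt (u i) (u j) ≠ 0) (hxi : IsSgn xi) :
    ∀ᶠ e : ℝ in 𝓝[>] 0,
      (In (SE2 (fun l => (xi l * (1 + e * w l)) • u l) sg i j) ((xi i * (1 + e * w i)) • u i)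
        ((xi j * (1 + e * w j)) • u j) ↔ GT u w (fun l => xi l * sg l) i j) := by
  set z : ι → ℝ := fun l => xi l * sg l with hz
  set A := SE2 u z i j with hA
  set B := SE2 u (fun l => w l * z l) i j with hB
  have e1 := ev_abs (dt A (u j)) (dt B (u j)) (w i) (dt (u i) (u j)) hD
  have e2 := ev_abs (dt (u i) A) (dt (u i) B) (w j) (dt (u i) (u j)) hD
  have e3 := ev_pos (a := (1 : ℝ)) (b := w i) one_pos
  have e4 := ev_pos (a := (1 : ℝ)) (b := w j) one_pos
  filter_upwards [e1, e2, e3, e4] with e h1 h2 h3 h4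
  have hp : SE2 (fun l => (xi l * (1 + e * w l)) • u l) sg i j = A + e • B := by
    rw [SE2_mul, hA, hB, ← SE2_pert]
    refine SE2_congr u fun l _ _ => ?_
    simp only [hz]; ring
  have hxa : ∀ l, |xi l| = 1 := by
    intro l
    rcases hxi l with h | h <;> rw [h] <;> simp
  have hci : |xi i * (1 + e * w i)| = 1 + e * w i := by
    rw [abs_mul, hxa, one_mul, abs_of_pos h3]
  have hcj : |xi j * (1 + e * w j)| = 1 + e * w j := by
    rw [abs_mul, hxa, one_mul, abs_of_pos h4]
  unfold In
  rw [hp]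
  have c1 : |dt (A + e • B) ((xi j * (1 + e * w j)) • u j)| <
      |dt ((xi i * (1 + e * w i)) • u i) ((xi j * (1 + e * w j)) • u j)| ↔
      |dt A (u j) + e * dt B (u j)| < |(1 + e * w i) * dt (u i) (u j)| := by
    rw [dt_smul_right, dt_smul_left, dt_smul_right, abs_mul, abs_mul (xi i * (1 + e * w i)),
      abs_mul (xi j * (1 + e * w j)) (dt (u i) (u j)), hci, hcj, dt_add_left, dt_smul_left,
      abs_mul (1 + e * w i), abs_of_pos h3, mul_left_comm]
    exact mul_lt_mul_iff_right₀ h4
  have c2 : |dt (A + e • B) ((xi i * (1 + e * w i)) • u i)| <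
      |dt ((xi i * (1 + e * w i)) • u i) ((xi j * (1 + e * w j)) • u j)| ↔
      |dt (u i) A + e * dt (u i) B| < |(1 + e * w j) * dt (u i) (u j)| := by
    have h5 : |dt (A + e • B) (u i)| = |dt (u i) A + e * dt (u i) B| := by
      rw [dt_swap (u i) (A + e • B), abs_neg, dt_add_right, dt_smul_right]
    rw [dt_smul_right, dt_smul_left, dt_smul_right, abs_mul, abs_mul (xi i * (1 + e * w i)),
      abs_mul (xi j * (1 + e * w j)) (dt (u i) (u j)), hci, hcj, h5,
      abs_mul (1 + e * w j), abs_of_pos h4]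
    exact mul_lt_mul_iff_right₀ h3
  rw [c1, c2, h1, h2]
  have hvi : - dt A (u j) / dt (u i) (u j) = vx u z i j i := (vx_fst u z i j).symm
  have hvj : - dt (u i) A / dt (u i) (u j) = vx u z i j j := (vx_snd u z hij).symm
  have hdi : dt (dl u w (vx u z i j)) (u j) =
      dt B (u j) + w i * vx u z i j i * dt (u i) (u j) := by
    rw [dl_eq u w z hij, dt_add_left, dt_add_left, dt_smul_left, dt_smul_left, dt_self, mul_zero,
      add_zero]
  have hdj : dt (u i) (dl u w (vx u z i j)) =
      dt (u i) B + w j * vx u z i j j * dt (u i) (u j) := by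
    rw [dl_eq u w z hij, dt_add_right, dt_add_right, dt_smul_right, dt_smul_right, dt_self,
      mul_zero, add_zero]
  unfold GT
  rw [hdi, hdj, hvi, hvj, mul_comm (dt B (u j) + w i * vx u z i j i * dt (u i) (u j)),
    mul_comm (dt (u i) B + w j * vx u z i j j * dt (u i) (u j))]
  tauto

end

/-- The parity lemma after a generic infinitesimal perturbation `w`: for every sign vector `xi` the
number of the tiles that contain `0` (in the sense of `GT`) is odd. -/
theorem pert {ι : Type*} [Fintype ι] [LinearOrder ι] (h2 : 2 ≤ Fintype.card ι) (u : ι → ℝ × ℝ)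
    (hu : ∀ i j, i ≠ j → dt (u i) (u j) ≠ 0) (sg : ι → ι → ι → ℝ)
    (hsym : ∀ i j l, sg i j l = sg j i l) (t : ι → ι → ℝ) (ht : ∀ a, Set.InjOn (t a) {l | l ≠ a})
    (hsg : ∀ a k l, k ≠ a → l ≠ a → k ≠ l →
      sg a k l = sn (dt (u a) (u l)) * (if t a l < t a k then 1 else -1))
    (w : ι → ℝ)
    (hw : ∀ s : ι → ℝ, IsSgn s → ∀ i, dt (SE (fun l => w l • u l) s i) (u i) ≠ 0)
    (xi : ι → ℝ) (hxi : IsSgn xi)
    [DecidablePred fun x : ι × ι => x.1 < x.2 ∧
      GT u w (fun l => xi l * sg x.1 x.2 l) x.1 x.2] :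
    Odd (Finset.univ.filter fun x : ι × ι => x.1 < x.2 ∧
      GT u w (fun l => xi l * sg x.1 x.2 l) x.1 x.2).card := by
  classical
  have e1 : ∀ᶠ e : ℝ in 𝓝[>] 0, ∀ l, 0 < 1 + e * w l :=
    Filter.eventually_all.2 fun l => ev_pos one_pos
  have e2 : ∀ᶠ e : ℝ in 𝓝[>] 0, ∀ (b : ι → Bool) (i : ι),
      dt (SE u (fun l => (1 + e * w l) * (xi l * if b l then 1 else -1)) i) (u i) ≠ 0 := by
    refine Filter.eventually_all.2 fun b => Filter.eventually_all.2 fun i => ?_
    have hz : IsSgn (fun l => xi l * if b l then (1 : ℝ) else -1) := by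
      intro l
      dsimp only
      rcases hxi l with h | h <;> rw [h] <;> split_ifs <;> simp
    have h3 := hw _ hz i
    rw [SE_mul] at h3
    filter_upwards [ev_ne (a := dt (SE u (fun l => xi l * if b l then (1 : ℝ) else -1) i) (u i))
      (Or.inr h3)] with e he
    rw [SE_pert, dt_add_left, dt_smul_left]
    exact he
  have e3 : ∀ᶠ e : ℝ in 𝓝[>] 0, ∀ i j : ι, i ≠ j →
      (In (SE2 (fun l => (xi l * (1 + e * w l)) • u l) (sg i j) i j)
        ((xi i * (1 + e * w i)) • u i) ((xi j * (1 + e * w j)) • u j) ↔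
        GT u w (fun l => xi l * sg i j l) i j) := by
    refine Filter.eventually_all.2 fun i => Filter.eventually_all.2 fun j => ?_
    by_cases hij : i = j
    · exact Filter.Eventually.of_forall fun e h => absurd hij h
    · filter_upwards [ev_tile u w xi (sg i j) hij (hu i j hij) hxi] with e he _
      exact he
  obtain ⟨e, h1, h3, h4⟩ := (e1.and (e2.and e3)).exists
  have key := parity h2 u hu sg hsym t ht hsg (fun l => xi l * (1 + e * w l))
    (fun l => mul_ne_zero (by rcases hxi l with h | h <;> rw [h] <;> norm_num) (h1 l).ne')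
    (by
      intro s hs i
      rw [SE_mul]
      have h5 := h3 (fun l => decide (s l = 1)) i
      have h6 : SE u (fun l => (xi l * (1 + e * w l)) * s l) i =
          SE u (fun l => (1 + e * w l) * (xi l * if (decide (s l = 1)) then 1 else -1)) i := by
        refine SE_congr u fun l _ => ?_
        rcases hs l with h | h
        · rw [if_pos (decide_eq_true h), h]; ring
        · rw [if_neg (by rw [decide_eq_true_eq, h]; norm_num), h]; ring
      rw [h6]
      exact h5)
  convert key using 2
  ext x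
  simp only [Finset.mem_filter, Finset.mem_univ, true_and]
  refine and_congr_right fun hx => ?_
  exact (h4 x.1 x.2 hx.ne).symm

/-- A generic perturbation exists. -/
theorem exists_w {ι : Type*} [Fintype ι] [DecidableEq ι] (h2 : 2 ≤ Fintype.card ι) (u : ι → ℝ × ℝ)
    (hu : ∀ i j, i ≠ j → dt (u i) (u j) ≠ 0) :
    ∃ w : ι → ℝ, ∀ s : ι → ℝ, IsSgn s → ∀ i, dt (SE (fun l => w l • u l) s i) (u i) ≠ 0 := by
  classical
  let T : (ι → Bool) × ι → (ι → ℝ) →ₗ[ℝ] ℝ := fun x =>
    { toFun := fun w => dt (SE u (fun l => w l * if x.1 l then 1 else -1) x.2) (u x.2)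
      map_add' := by
        intro w w'
        rw [← dt_add_left]
        congr 1
        unfold SE
        rw [← Finset.sum_add_distrib]
        refine Finset.sum_congr rfl fun l _ => ?_
        dsimp only
        rw [← add_smul, Pi.add_apply, add_mul]
      map_smul' := by
        intro a w
        rw [RingHom.id_apply, smul_eq_mul, ← dt_smul_left]
        congr 1
        unfold SE
        rw [Finset.smul_sum]
        refine Finset.sum_congr rfl fun l _ => ?_
        dsimp only
        rw [smul_smul, Pi.smul_apply, smul_eq_mul, mul_assoc] }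
  have hT : ∀ x, LinearMap.ker (T x) ≠ ⊤ := by
    rintro ⟨b, i⟩ h
    obtain ⟨j, hj⟩ : ∃ j, j ≠ i := Fintype.exists_ne_of_one_lt_card (by omega) i
    have h1 : (Pi.single j 1 : ι → ℝ) ∈ LinearMap.ker (T (b, i)) := by rw [h]; trivial
    rw [LinearMap.mem_ker] at h1
    have h3 : SE u (fun l => (Pi.single j 1 : ι → ℝ) l * if b l then (1 : ℝ) else -1) i =
        (if b j then (1 : ℝ) else -1) • u j := by
      unfold SE
      rw [Finset.sum_eq_single j]
      · dsimp only
        rw [Pi.single_eq_same, one_mul]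
      · intro l _ hl
        dsimp only
        rw [Pi.single_eq_of_ne hl, zero_mul, zero_smul]
      · intro h; exact absurd (by simp [hj]) h
    have h4 : T (b, i) (Pi.single j 1) = (if b j then (1 : ℝ) else -1) * dt (u j) (u i) := by
      show dt (SE u (fun l => (Pi.single j 1 : ι → ℝ) l * if b l then (1 : ℝ) else -1) i) (u i) = _
      rw [h3, dt_smul_left]
    rw [h4] at h1
    rcases mul_eq_zero.1 h1 with h5 | h5
    · split_ifs at h5 <;> norm_num at h5
    · exact hu j i hj h5
  have hne := Subspace.biUnion_ne_univ_of_top_notMem (k := ℝ) (E := ι → ℝ)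
    (s := Finset.univ.image fun x => LinearMap.ker (T x)) (by
      intro h
      rw [Finset.mem_image] at h
      obtain ⟨x, _, hx⟩ := h
      exact hT x hx)
  obtain ⟨w, hw⟩ := (Set.ne_univ_iff_exists_notMem _).1 hne
  refine ⟨w, fun s hs i h => hw ?_⟩
  rw [Set.mem_iUnion₂]
  refine ⟨LinearMap.ker (T (fun l => decide (s l = 1), i)),
    Finset.mem_image_of_mem _ (Finset.mem_univ _), ?_⟩
  rw [SetLike.mem_coe, LinearMap.mem_ker]
  show dt (SE u (fun l => w l * if decide (s l = 1) then (1 : ℝ) else -1) i) (u i) = 0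
  rw [SE_mul] at h
  rw [← h]
  congr 1
  refine SE_congr u fun l _ => ?_
  rcases hs l with h | h
  · rw [if_pos (decide_eq_true h), h]
  · rw [if_neg (by rw [decide_eq_true_eq, h]; norm_num), h]

end Pool.Agent.KK
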