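import Mathlib
import Pool.Agent.KK.Mach

/-!
Restriction of configurations and machines along a strictly monotone map, and the recursion of the
law `EL` (project KAL, k = 2, type 0).
-/

namespace KK

variable {n k : ℕ}

/-! ### comparison of `rel` under strictly monotone maps -/

theorem rel_lt_iff (r a b : Fin n) :
    rel r a < rel r b ↔ (r < a ∧ r < b ∧ a < b) ∨ (r < a ∧ ¬ r < b) ∨ (¬ r < a ∧ ¬ r < b ∧ a < b) := by
  have ha := a.isLt
  have hb := b.isLt
  have hr := r.isLt
  simp only [rel, Fin.lt_def]
  split_ifs <;> omega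

theorem rel_le_iff (r a b : Fin n) :
    rel r a ≤ rel r b ↔ ¬ ((r < b ∧ r < a ∧ b < a) ∨ (r < b ∧ ¬ r < a) ∨ (¬ r < b ∧ ¬ r < a ∧ b < a)) := by
  rw [← rel_lt_iff, not_lt]

theorem rel_lt_map (e : Fin k ↪o Fin n) (r a b : Fin k) :
    rel (e r) (e a) < rel (e r) (e b) ↔ rel r a < rel r b := by
  simp only [rel_lt_iff, OrderEmbedding.lt_iff_lt]

theorem rel_le_map (e : Fin k ↪o Fin n) (r a b : Fin k) :
    rel (e r) (e a) ≤ rel (e r) (e b) ↔ rel r a ≤ rel r b := by
  simp only [rel_le_iff, OrderEmbedding.lt_iff_lt]

theorem sg_map (v : Fin n → Bool) (e : Fin k ↪o Fin n) (r l : Fin k) :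
    sg v (e r) (e l) = sg (fun i => v (e i)) r l := by
  simp only [sg, OrderEmbedding.le_iff_le]

theorem walls_map (e : Fin k ↪o Fin n) {S : Finset (Fin k)} {r a b : Fin k} :
    Walls (S.map e.toEmbedding) (e r) (e a) (e b) ↔ Walls S r a b := by
  unfold Walls
  constructor
  · rintro ⟨ha, hb, h⟩
    refine ⟨by simpa using ha, by simpa using hb, fun x hx => ?_⟩
    have := h (e x) (by simpa using hx)
    simpa only [rel_le_map] using this
  · rintro ⟨ha, hb, h⟩
    refine ⟨by simpa using ha, by simpa using hb, fun x hx => ?_⟩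
    obtain ⟨y, hy, rfl⟩ := Finset.mem_map.mp hx
    have := h y hy
    simpa only [rel_le_map, RelEmbedding.coe_toEmbedding] using this

theorem inner_map (e : Fin k ↪o Fin n) (r a b l : Fin k) :
    inner (e r) (e a) (e b) (e l) = inner r a b l := by
  simp only [inner, rel_lt_map]

theorem pbit_map (v : Fin n → Bool) (e : Fin k ↪o Fin n) (r a b l : Fin k) :
    pbit v (e r) (e a) (e b) (e l) = pbit (fun i => v (e i)) r a b l := by
  simp only [pbit, sg_map]

theorem oth_map (e : Fin k ↪o Fin n) (r a b l : Fin k) :
    oth (e r) (e a) (e b) (e l) = e (oth r a b l) := by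
  simp only [oth, rel_lt_map]
  split_ifs <;> rfl

theorem ebit_map (v : Fin n → Bool) (e : Fin k ↪o Fin n) (r a b l : Fin k) :
    ebit v (e r) (e a) (e b) (e l) = ebit (fun i => v (e i)) r a b l := by
  simp only [ebit, oth_map, sg_map]

theorem upA_map (v : Fin n → Bool) (e : Fin k ↪o Fin n) (r a b l : Fin k) (x : Bool × Bool) :
    upA v (e r) (e a) (e b) (e l) x = upA (fun i => v (e i)) r a b l x := by
  simp only [upA, inner_map, pbit_map, ebit_map]

theorem upB_map (v : Fin n → Bool) (e : Fin k ↪o Fin n) (r a b l : Fin k) (x : Bool × Bool) :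
    upB v (e r) (e a) (e b) (e l) x = upB (fun i => v (e i)) r a b l x := by
  simp only [upB, inner_map, pbit_map, ebit_map]

theorem bad_map (v : Fin n → Bool) (e : Fin k ↪o Fin n) (r a b l : Fin k) (x : Bool × Bool) :
    bad v (e r) (e a) (e b) (e l) x = bad (fun i => v (e i)) r a b l x := by
  simp only [bad, inner_map, pbit_map, ebit_map]

theorem cnt_map (v : Fin n → Bool) (e : Fin k ↪o Fin n) (S : Finset (Fin k)) (r : Fin k) (s : Bool) :
    cnt v (S.map e.toEmbedding) (e r) s = cnt (fun i => v (e i)) S r s := by
  unfold cnt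
  rw [Finset.filter_map, Finset.card_map]
  congr 1
  apply Finset.filter_congr
  intro j _
  simp only [Function.comp_apply, RelEmbedding.coe_toEmbedding, sg_map]

theorem gainT_map (v : Fin n → Bool) (e : Fin k ↪o Fin n) (S : Finset (Fin k)) (r a b l : Fin k)
    (x : Bool × Bool) :
    gainT v (S.map e.toEmbedding) (e r) (e a) (e b) (e l) x = gainT (fun i => v (e i)) S r a b l x := by
  simp only [gainT, inner_map, bad_map, cnt_map, sg_map]

/-! ### restriction -/

/-- the configurations on the lines `e 0 < e 1 < ...` -/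
def Cfg.res (K : Cfg n) (e : Fin k ↪o Fin n) : Cfg k where
  Om := K.Om
  good S w := K.good (S.map e.toEmbedding) w
  ins S w l s := K.ins (S.map e.toEmbedding) w (e l) s
  om0 := K.om0
  good0 := by simpa using K.good0
  goodS := by
    intro S w l s hg hl
    rw [Finset.map_insert]
    refine K.goodS _ _ _ _ hg ?_
    simpa using hl

/-- the machine on the lines `e 0 < e 1 < ...` -/
noncomputable def Mach.res {K : Cfg n} {v : Fin n → Bool} (M : Mach K v) (e : Fin k ↪o Fin n) :
    Mach (K.res e) (fun i => v (e i)) where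
  D S w := M.D (S.map e.toEmbedding) w
  bits S w r := M.bits (S.map e.toEmbedding) w (e r)
  start := by
    intro S w hS hg
    obtain ⟨h1, h2⟩ := M.start (S.map e.toEmbedding) w (by rw [Finset.card_map]; exact hS) hg
    exact ⟨h1, fun r => h2 (e r)⟩
  stepB := by
    intro S w l hS hg hl r a b hw f
    have h := M.stepB (S.map e.toEmbedding) w (e l) (by rw [Finset.card_map]; exact hS) hg
      (by simpa using hl) (e r) (e a) (e b) ((walls_map e).mpr hw) f
    rw [upA_map, upB_map] at h
    rw [Finset.map_insert]
    exact h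
  stepD := by
    classical
    intro S w l hS hg hl a hw
    have hinj : Function.Injective e := e.injective
    let a' : Fin n → Fin n := fun x => if h : ∃ r, e r = x then e (a h.choose) else x
    have ha' : ∀ r, a' (e r) = e (a r) := by
      intro r
      have hex : ∃ r', e r' = e r := ⟨r, rfl⟩
      have hc : hex.choose = r := hinj hex.choose_spec
      simp only [a', dif_pos hex, hc]
    have h := M.stepD (S.map e.toEmbedding) w (e l) (by rw [Finset.card_map]; exact hS) hg
      (by simpa using hl) a' (by
        intro r hr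
        obtain ⟨y, hy, rfl⟩ := Finset.mem_map.mp hr
        have := (walls_map e).mpr (hw y hy)
        simpa only [RelEmbedding.coe_toEmbedding, ha'] using this)
    rw [Finset.sum_map] at h
    simp only [RelEmbedding.coe_toEmbedding, ha', gainT_map] at h
    rw [Finset.map_insert]
    exact h
  same := by
    intro S w hS hg r r' a b h1 h2
    exact M.same (S.map e.toEmbedding) w (by rw [Finset.card_map]; exact hS) hg (e r) (e r') (e a) (e b)
      ((walls_map e).mpr h1) ((walls_map e).mpr h2)

theorem two_res (K : Cfg n) (e : Fin k ↪o Fin n) (S : Finset (Fin k)) (l : Fin k) (F : K.Om → ℤ) :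
    two (K.res e) S l F = two K (S.map e.toEmbedding) (e l) F := rfl

theorem toFinset_map_emb (e : Fin k ↪o Fin n) (o : List (Fin k)) :
    (o.map e).toFinset = o.toFinset.map e.toEmbedding := by
  ext x
  simp

theorem EO_res (K : Cfg n) (e : Fin k ↪o Fin n) (o : List (Fin k)) (F : K.Om → ℤ) :
    EO (K.res e) o F = EO K (o.map e) F := by
  induction o generalizing F with
  | nil => rfl
  | cons l o ih =>
    simp only [EO, List.map_cons]
    rw [toFinset_map_emb]
    exact ih (two K (o.toFinset.map e.toEmbedding) (e l) F)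

/-! ### the functional `EO` -/

theorem EO_add (K : Cfg n) (o : List (Fin n)) (F G : K.Om → ℤ) :
    EO K o (fun w => F w + G w) = EO K o F + EO K o G := by
  induction o generalizing F G with
  | nil => rfl
  | cons l o ih =>
    simp only [EO]
    rw [← ih]
    congr 1
    funext w
    simp only [two]
    ring

theorem EO_smul (K : Cfg n) (o : List (Fin n)) (c : ℤ) (F : K.Om → ℤ) :
    EO K o (fun w => c * F w) = c * EO K o F := by
  induction o generalizing F with
  | nil => rfl
  | cons l o ih =>
    simp only [EO]
    rw [← ih]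
    congr 1
    funext w
    simp only [two]
    ring

theorem EO_sub (K : Cfg n) (o : List (Fin n)) (F G : K.Om → ℤ) :
    EO K o (fun w => F w - G w) = EO K o F - EO K o G := by
  have h1 : (fun w => F w - G w) = (fun w => F w + (-1) * G w) := by
    funext w; ring
  rw [h1, EO_add K o F (fun w => (-1) * G w), EO_smul]
  ring

theorem EO_const (K : Cfg n) (o : List (Fin n)) (c : ℤ) :
    EO K o (fun _ => c) = 2 ^ o.length * c := by
  induction o generalizing c with
  | nil => simp [EO]
  | cons l o ih =>
    have h : two K o.toFinset l (fun _ => c) = fun _ => 2 * c := by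
      funext w
      simp only [two]
      ring
    simp only [EO, h, ih, List.length_cons, pow_succ]
    ring

theorem EO_sum {ι : Type*} (K : Cfg n) (o : List (Fin n)) (s : Finset ι) (F : ι → K.Om → ℤ) :
    EO K o (fun w => ∑ i ∈ s, F i w) = ∑ i ∈ s, EO K o (F i) := by
  classical
  induction s using Finset.induction_on with
  | empty =>
    have := EO_const K o 0
    simpa using this
  | insert i s hi ih =>
    rw [Finset.sum_insert hi, ← ih, ← EO_add]
    congr 1
    funext w
    rw [Finset.sum_insert hi]

theorem EO_mono (K : Cfg n) (o : List (Fin n)) (ho : o.Nodup) (F G : K.Om → ℤ)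
    (h : ∀ w, K.good o.toFinset w → F w ≤ G w) : EO K o F ≤ EO K o G := by
  induction o generalizing F G with
  | nil =>
    simp only [EO]
    apply h
    simpa using K.good0
  | cons l o ih =>
    rw [List.nodup_cons] at ho
    simp only [EO]
    apply ih ho.2
    intro w hw
    have hl : l ∉ o.toFinset := by simpa using ho.1
    have h1 := h (K.ins o.toFinset w l true) (by
      rw [List.toFinset_cons]; exact K.goodS _ _ _ _ hw hl)
    have h2 := h (K.ins o.toFinset w l false) (by
      rw [List.toFinset_cons]; exact K.goodS _ _ _ _ hw hl)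
    simp only [two]
    exact add_le_add h1 h2

theorem EO_congr (K : Cfg n) (o : List (Fin n)) (ho : o.Nodup) (F G : K.Om → ℤ)
    (h : ∀ w, K.good o.toFinset w → F w = G w) : EO K o F = EO K o G :=
  le_antisymm (EO_mono K o ho F G fun w hw => (h w hw).le)
    (EO_mono K o ho G F fun w hw => (h w hw).ge)

theorem EO_nonneg (K : Cfg n) (o : List (Fin n)) (ho : o.Nodup) (F : K.Om → ℤ)
    (h : ∀ w, K.good o.toFinset w → 0 ≤ F w) : 0 ≤ EO K o F := by
  have h1 := EO_mono K o ho (fun _ => 0) F h
  rw [EO_const, mul_zero] at h1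
  exact h1

/-! ### the orders of the law -/

theorem ords_six : ords 6 = core6 := by decide

theorem ords_succ (hn : n + 1 ≠ 6) :
    ords (n + 1) = (List.finRange (n + 1)).flatMap fun l => (ords n).map fun o => l :: o.map l.succAbove := by
  rw [ords, dif_neg hn]

theorem core6_perm : ∀ o ∈ core6, o.Nodup ∧ o.toFinset = Finset.univ := by decide

theorem ords_small (h : n < 6) : ords n = [] := by
  induction n with
  | zero => rfl
  | succ n ih =>
    rw [ords_succ (by omega), ih (by omega)]
    simp

theorem ords_perm (o : List (Fin n)) (ho : o ∈ ords n) : o.Nodup ∧ o.toFinset = Finset.univ := by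
  induction n with
  | zero => simp [ords] at ho
  | succ n ih =>
    by_cases h : n + 1 = 6
    · obtain rfl : n = 5 := by omega
      have h2 : ords (5 + 1) = core6 := ords_six
      rw [h2] at ho
      exact core6_perm o ho
    · rw [ords_succ h] at ho
      simp only [List.mem_flatMap, List.mem_map] at ho
      obtain ⟨l, _, o', ho', rfl⟩ := ho
      obtain ⟨h1, h2⟩ := ih o' ho'
      have hl : l ∉ o'.map l.succAbove := by
        intro hm
        obtain ⟨x, _, hx⟩ := List.mem_map.mp hm
        exact Fin.succAbove_ne l x hx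
      refine ⟨List.nodup_cons.mpr ⟨hl, h1.map Fin.succAbove_right_injective⟩, ?_⟩
      ext x
      simp only [List.toFinset_cons, Finset.mem_insert, List.mem_toFinset, Finset.mem_univ, iff_true]
      by_cases hx : x = l
      · exact Or.inl hx
      · right
        obtain ⟨y, hy⟩ := Fin.exists_succAbove_eq hx
        refine List.mem_map.mpr ⟨y, ?_, hy⟩
        rw [← List.mem_toFinset, h2]
        exact Finset.mem_univ y

theorem ords_length (o : List (Fin n)) (ho : o ∈ ords n) : o.length = n := by
  obtain ⟨h1, h2⟩ := ords_perm o ho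
  have h3 := List.toFinset_card_of_nodup h1
  rw [h2, Finset.card_univ, Fintype.card_fin] at h3
  exact h3.symm

theorem ords_card (hn : 6 ≤ n) : (ords (n + 1)).length = (n + 1) * (ords n).length := by
  rw [ords_succ (by omega)]
  simp [List.length_flatMap]

/-! ### the law `EL` -/

/-- the embedding which omits the line `l` -/
def om (l : Fin (n + 1)) : Fin n ↪o Fin (n + 1) := Fin.succAboveOrderEmb l

theorem map_om_univ (l : Fin (n + 1)) :
    (Finset.univ : Finset (Fin n)).map (om l).toEmbedding = Finset.univ.erase l := by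
  ext x
  simp only [Finset.mem_map, Finset.mem_univ, true_and, Finset.mem_erase, and_true]
  constructor
  · rintro ⟨y, rfl⟩
    exact Fin.succAbove_ne l y
  · intro hx
    obtain ⟨y, hy⟩ := Fin.exists_succAbove_eq hx
    exact ⟨y, hy⟩

theorem EL_succ (hn : 6 ≤ n) (K : Cfg (n + 1)) (F : K.Om → ℤ) :
    EL K F = ∑ l : Fin (n + 1), EL (K.res (om l)) (two K (Finset.univ.erase l) l F) := by
  unfold EL
  rw [ords_succ (by omega), List.map_flatMap, List.flatMap_def, List.sum_flatten, List.map_map,
    Fin.sum_univ_def]
  congr 1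
  apply List.map_congr_left
  intro l _
  simp only [Function.comp_apply, List.map_map]
  congr 1
  apply List.map_congr_left
  intro o ho
  obtain ⟨_, h2⟩ := ords_perm o ho
  simp only [Function.comp_apply, EO]
  rw [EO_res]
  have h3 : (o.map l.succAbove).toFinset = Finset.univ.erase l := by
    have h4 := toFinset_map_emb (om l) o
    rw [h2, map_om_univ] at h4
    exact h4
  rw [h3]
  rfl

theorem EL_add (K : Cfg n) (F G : K.Om → ℤ) :
    EL K (fun w => F w + G w) = EL K F + EL K G := by
  unfold EL
  simp only [EO_add]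
  exact List.sum_map_add

theorem EL_smul (K : Cfg n) (c : ℤ) (F : K.Om → ℤ) :
    EL K (fun w => c * F w) = c * EL K F := by
  unfold EL
  simp only [EO_smul]
  exact List.sum_map_mul_left _ _ _

theorem EL_sub (K : Cfg n) (F G : K.Om → ℤ) :
    EL K (fun w => F w - G w) = EL K F - EL K G := by
  have h1 : (fun w => F w - G w) = (fun w => F w + (-1) * G w) := by
    funext w; ring
  rw [h1, EL_add K F (fun w => (-1) * G w), EL_smul]
  ring

theorem EL_const (K : Cfg n) (c : ℤ) : EL K (fun _ => c) = (ords n).length * 2 ^ n * c := by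
  unfold EL
  have h : (ords n).map (fun o => EO K o fun _ => c) = (ords n).map fun _ => (2 : ℤ) ^ n * c := by
    apply List.map_congr_left
    intro o ho
    rw [EO_const, ords_length o ho]
  rw [h]
  simp [mul_assoc]

theorem EL_sum {ι : Type*} (K : Cfg n) (s : Finset ι) (F : ι → K.Om → ℤ) :
    EL K (fun w => ∑ i ∈ s, F i w) = ∑ i ∈ s, EL K (F i) := by
  classical
  induction s using Finset.induction_on with
  | empty =>
    have := EL_const K 0
    simpa using this
  | insert i s hi ih =>
    rw [Finset.sum_insert hi, ← ih, ← EL_add]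
    congr 1
    funext w
    rw [Finset.sum_insert hi]

theorem EL_mono (K : Cfg n) (F G : K.Om → ℤ)
    (h : ∀ w, K.good Finset.univ w → F w ≤ G w) : EL K F ≤ EL K G := by
  unfold EL
  apply List.sum_le_sum
  intro o ho
  obtain ⟨h1, h2⟩ := ords_perm o ho
  apply EO_mono K o h1
  rw [h2]
  exact h

theorem EL_congr (K : Cfg n) (F G : K.Om → ℤ)
    (h : ∀ w, K.good Finset.univ w → F w = G w) : EL K F = EL K G :=
  le_antisymm (EL_mono K F G fun w hw => (h w hw).le) (EL_mono K G F fun w hw => (h w hw).ge)

theorem EL_nonneg (K : Cfg n) (F : K.Om → ℤ)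
    (h : ∀ w, K.good Finset.univ w → 0 ≤ F w) : 0 ≤ EL K F := by
  have h1 := EL_mono K (fun _ => 0) F h
  rw [EL_const, mul_zero] at h1
  exact h1

end KK
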