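import Pool.Agent.KK.Res
import Pool.Agent.KALD.MTForm

/-!
The induction step of the type 0 average (project KAL, k = 2): abstract form, the pair inequality is
a hypothesis.
-/

namespace KK

open Finset

variable {m : ℕ}

/-- the order embedding onto the complement of two lines -/
noncomputable def e2 (l y : Fin (m + 2)) (h : l ≠ y) : Fin m ↪o Fin (m + 2) :=
  ((univ.erase l).erase y).orderEmbOfFin (by
    rw [Finset.card_erase_of_mem (by simp [h.symm]), Finset.card_erase_of_mem (Finset.mem_univ l),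
      Finset.card_univ, Fintype.card_fin]
    omega)

theorem e2_symm (l y : Fin (m + 2)) (h : l ≠ y) : e2 l y h = e2 y l h.symm := by
  unfold e2
  congr 1
  exact Finset.erase_right_comm

theorem e2_map (l y : Fin (m + 2)) (h : l ≠ y) :
    (univ : Finset (Fin m)).map (e2 l y h).toEmbedding = (univ.erase l).erase y := by
  unfold e2
  exact Finset.map_orderEmbOfFin_univ _ _

theorem om_om (l : Fin (m + 2)) (x : Fin (m + 1)) (h : l ≠ om l x) :
    ((om x).trans (om l) : Fin m ↪o Fin (m + 2)) = e2 l (om l x) h := by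
  unfold e2
  apply Finset.orderEmbOfFin_unique'
  intro z
  rw [Finset.mem_erase, Finset.mem_erase]
  refine ⟨?_, ?_, Finset.mem_univ _⟩
  · intro hz
    have : (om x) z = x := (om l).injective hz
    exact Fin.succAbove_ne x z this
  · exact Fin.succAbove_ne l _

/-- the functional over the orders of the complement of two lines -/
noncomputable def P2 (K : Cfg (m + 2)) (l y : Fin (m + 2)) (h : l ≠ y) (F : K.Om → ℤ) : ℤ :=
  ((ords m).map fun o => EO K (o.map (e2 l y h)) F).sum

theorem P2_symm (K : Cfg (m + 2)) (l y : Fin (m + 2)) (h : l ≠ y) (F : K.Om → ℤ) :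
    P2 K l y h F = P2 K y l h.symm F := by
  unfold P2
  rw [e2_symm]

theorem P2_add (K : Cfg (m + 2)) (l y : Fin (m + 2)) (h : l ≠ y) (F G : K.Om → ℤ) :
    P2 K l y h (fun w => F w + G w) = P2 K l y h F + P2 K l y h G := by
  unfold P2
  simp only [EO_add]
  exact List.sum_map_add

theorem P2_mono (K : Cfg (m + 2)) (l y : Fin (m + 2)) (h : l ≠ y) (F G : K.Om → ℤ)
    (hFG : ∀ w, K.good ((univ.erase l).erase y) w → F w ≤ G w) : P2 K l y h F ≤ P2 K l y h G := by
  unfold P2
  apply List.sum_le_sum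
  intro o ho
  obtain ⟨h1, h2⟩ := ords_perm o ho
  apply EO_mono K _ (h1.map (e2 l y h).injective)
  rw [toFinset_map_emb, h2, e2_map]
  exact hFG

theorem P2_const (K : Cfg (m + 2)) (l y : Fin (m + 2)) (h : l ≠ y) (c : ℤ) :
    P2 K l y h (fun _ => c) = (ords m).length * 2 ^ m * c := by
  unfold P2
  have h1 : (ords m).map (fun o => EO K (o.map (e2 l y h)) fun _ => c)
      = (ords m).map fun _ => (2 : ℤ) ^ m * c := by
    apply List.map_congr_left
    intro o ho
    rw [EO_const, List.length_map, ords_length o ho]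
  rw [h1]
  simp [mul_assoc]

/-- unfolding two steps -/
theorem EL_res_succ (hm : 6 ≤ m) (K : Cfg (m + 2)) (l : Fin (m + 2)) (F : K.Om → ℤ) :
    EL (K.res (om l)) F
      = ∑ y ∈ univ.erase l, if h : l ≠ y then
          P2 K l y h (fun w => F (K.ins ((univ.erase l).erase y) w y true)
            + F (K.ins ((univ.erase l).erase y) w y false)) else 0 := by
  refine (EL_succ hm (K.res (om l)) F).trans ?_
  rw [← map_om_univ l, Finset.sum_map]
  apply Finset.sum_congr rfl
  intro x _
  have hne : l ≠ (om l).toEmbedding x := (Fin.succAbove_ne l x).symm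
  have hne' : l ≠ om l x := hne
  rw [dif_pos hne]
  unfold EL P2
  congr 1
  apply List.map_congr_left
  intro o _
  refine (EO_res (K.res (om l)) (om x) o _).trans ?_
  refine (EO_res K (om l) (o.map (om x)) _).trans ?_
  rw [List.map_map]
  have h1 : ((⇑(om l)) ∘ (⇑(om x)) : Fin m → Fin (m + 2)) = e2 l (om l x) hne' := by
    rw [← om_om l x hne']; rfl
  have h2 : (univ.erase x).map (om l).toEmbedding
      = (((univ : Finset (Fin (m + 1))).map (om l).toEmbedding).erase ((om l).toEmbedding x)) := by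
    rw [Finset.map_erase]
  rw [h1]
  congr 1
  show two K ((univ.erase x).map (om l).toEmbedding) (om l x) F = _
  rw [h2]
  rfl

variable {K : Cfg (m + 2)} {v : Fin (m + 2) → Bool}

/-- gain of the last line y -/
def gyA (M : Mach K v) (f1 : Fin (m + 2) → Fin (m + 2) → Fin (m + 2)) (y : Fin (m + 2)) (w : K.Om) : ℤ :=
  ∑ r ∈ univ.erase y, gainT v (univ.erase y) r (f1 y r) r y (M.bits (univ.erase y) w r)

/-- gain of the last line y, summed over the sides of the line x before it -/
def GA (M : Mach K v) (f1 : Fin (m + 2) → Fin (m + 2) → Fin (m + 2)) (x y : Fin (m + 2)) (w : K.Om) : ℤ :=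
  gyA M f1 y (K.ins ((univ.erase y).erase x) w x true)
    + gyA M f1 y (K.ins ((univ.erase y).erase x) w x false)

theorem EL_D (hm : 6 ≤ m) (M : Mach K v) (f1 : Fin (m + 2) → Fin (m + 2) → Fin (m + 2))
    (hf1 : ∀ y r, r ≠ y → Walls (univ.erase y) r (f1 y r) r) :
    EL K (M.D univ) = 3 * (∑ l, EL (K.res (om l)) ((M.res (om l)).D univ))
      + 6 * (∑ l, EL (K.res (om l)) (gyA M f1 l)) := by
  rw [EL_succ (by omega), Finset.mul_sum, Finset.mul_sum, ← Finset.sum_add_distrib]
  apply Finset.sum_congr rfl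
  intro l _
  have e1 := EL_smul (K.res (om l)) 3 ((M.res (om l)).D univ)
  have e2 := EL_smul (K.res (om l)) 6 (gyA M f1 l)
  have e3 := EL_add (K.res (om l)) (fun w => 3 * (M.res (om l)).D univ w) (fun w => 6 * gyA M f1 l w)
  refine Eq.trans ?_ (e3.trans (congrArg₂ (· + ·) e1 e2))
  refine EL_congr (K.res (om l)) _ _ ?_
  intro w hw
  have hg : K.good (univ.erase l) w := by
    have : K.good (univ.map (om l).toEmbedding) w := hw
    rwa [map_om_univ] at this
  have h := M.stepD (univ.erase l) w l (by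
    rw [Finset.card_erase_of_mem (Finset.mem_univ l), Finset.card_univ, Fintype.card_fin]; omega)
    hg (by simp) (f1 l) (fun r hr => hf1 l r (Finset.mem_erase.1 hr).1)
  rw [Finset.insert_erase (Finset.mem_univ l)] at h
  have hD : (M.res (om l)).D univ w = M.D (univ.erase l) w := by
    show M.D (univ.map (om l).toEmbedding) w = _
    rw [map_om_univ]
  rw [hD]
  exact h

theorem sum_gy (hm : 6 ≤ m) (M : Mach K v) (f1 : Fin (m + 2) → Fin (m + 2) → Fin (m + 2))
    (ML : Fin (m + 2) → ℤ) (PL : Fin (m + 2) → Fin (m + 2) → ℤ)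
    (pair_gain : ∀ x y, x ≠ y → ∀ w, K.good ((univ.erase y).erase x) w →
      2 * (ML x + ML y) - PL x y ≤ GA M f1 x y w + GA M f1 y x w)
    (A B : ℤ) (hML : ∑ y, ML y = A) (hPL : ∑ x, ∑ y ∈ univ.erase x, PL x y ≤ 4 * B) :
    2 * ((ords m).length * 2 ^ m * (((m : ℤ) + 1) * A - B))
      ≤ ∑ l, EL (K.res (om l)) (gyA M f1 l) := by
  -- rewrite as a sum over ordered pairs
  have h1 : ∑ l, EL (K.res (om l)) (gyA M f1 l)
      = ∑ l, ∑ y ∈ univ.erase l, if h : l ≠ y then P2 K l y h (GA M f1 y l) else 0 := by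
    apply Finset.sum_congr rfl
    intro l _
    rw [EL_res_succ hm K l]
    rfl
  -- the double sum over all pairs
  set Q : Fin (m + 2) → Fin (m + 2) → ℤ := fun l y => if h : l ≠ y then P2 K l y h (GA M f1 y l) else 0 with hQ
  have hQdiag : ∀ l, Q l l = 0 := by intro l; simp [hQ]
  have h2 : ∀ l, ∑ y ∈ univ.erase l, Q l y = ∑ y, Q l y := by
    intro l
    have := Finset.add_sum_erase univ (Q l) (Finset.mem_univ l)
    rw [hQdiag, zero_add] at this
    exact this
  have h3 : ∑ l, ∑ y ∈ univ.erase l, Q l y = ∑ l, ∑ y, Q l y := Finset.sum_congr rfl fun l _ => h2 l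
  have h4 : ∑ l, ∑ y, Q l y = ∑ l, ∑ y, Q y l := Finset.sum_comm
  have h5 : 2 * ∑ l, ∑ y, Q l y = ∑ l, ∑ y, (Q l y + Q y l) := by
    simp only [Finset.sum_add_distrib]
    rw [← h4]; ring
  set c : ℤ := (ords m).length * 2 ^ m with hc
  have hcpos : 0 ≤ c := by positivity
  have h6 : ∀ l y, l ≠ y → c * (2 * (ML y + ML l) - PL y l) ≤ Q l y + Q y l := by
    intro l y hly
    simp only [hQ, dif_pos hly, dif_pos hly.symm]
    rw [P2_symm K y l hly.symm, ← P2_add, hc, ← P2_const K l y hly]
    apply P2_mono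
    intro w hw
    exact pair_gain y l hly.symm w hw
  have h7 : ∑ l, ∑ y ∈ univ.erase l, c * (2 * (ML y + ML l) - PL y l)
      ≤ ∑ l, ∑ y ∈ univ.erase l, (Q l y + Q y l) := by
    apply Finset.sum_le_sum
    intro l _
    apply Finset.sum_le_sum
    intro y hy
    exact h6 l y (Finset.mem_erase.1 hy).1.symm
  have h8 : ∑ l, ∑ y ∈ univ.erase l, (Q l y + Q y l) = ∑ l, ∑ y, (Q l y + Q y l) := by
    apply Finset.sum_congr rfl
    intro l _
    have := Finset.add_sum_erase univ (fun y => Q l y + Q y l) (Finset.mem_univ l)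
    simp only [hQdiag, add_zero, zero_add] at this
    exact this
  -- evaluate the left side
  have h9 : ∑ l, ∑ y ∈ univ.erase l, (ML y + ML l) = 2 * ((m : ℤ) + 1) * A := by
    have h10 : ∀ l, ∑ y ∈ univ.erase l, (ML y + ML l) = A + (m : ℤ) * ML l := by
      intro l
      rw [Finset.sum_add_distrib, Finset.sum_const,
        Finset.card_erase_of_mem (Finset.mem_univ l), Finset.card_univ, Fintype.card_fin]
      have := Finset.add_sum_erase univ ML (Finset.mem_univ l)
      rw [hML] at this
      rw [nsmul_eq_mul]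
      push_cast [show m + 2 - 1 = m + 1 by omega]
      linarith
    rw [Finset.sum_congr rfl fun l _ => h10 l, Finset.sum_add_distrib, ← Finset.mul_sum, hML]
    simp only [Finset.sum_const, Finset.card_univ, Fintype.card_fin, nsmul_eq_mul]
    push_cast
    ring
  have h11 : ∑ l, ∑ y ∈ univ.erase l, PL y l = ∑ x, ∑ y ∈ univ.erase x, PL x y := by
    have e1 : ∀ l, ∑ y ∈ univ.erase l, PL y l = ∑ y, if y ≠ l then PL y l else 0 := by
      intro l
      rw [← Finset.sum_filter]
      apply Finset.sum_congr _ fun _ _ => rfl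
      ext y; simp
    have e2 : ∀ x, ∑ y ∈ univ.erase x, PL x y = ∑ y, if y ≠ x then PL x y else 0 := by
      intro x
      rw [← Finset.sum_filter]
      apply Finset.sum_congr _ fun _ _ => rfl
      ext y; simp
    rw [Finset.sum_congr rfl fun l _ => e1 l, Finset.sum_congr rfl fun l _ => e2 l, Finset.sum_comm]
    apply Finset.sum_congr rfl
    intro x _
    apply Finset.sum_congr rfl
    intro y _
    by_cases hxy : x = y
    · subst hxy; simp
    · rw [if_pos hxy, if_pos (Ne.symm hxy)]
  have h12 : ∑ l, ∑ y ∈ univ.erase l, c * (2 * (ML y + ML l) - PL y l)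
      = c * (4 * ((m : ℤ) + 1) * A - ∑ x, ∑ y ∈ univ.erase x, PL x y) := by
    simp only [← Finset.mul_sum, Finset.sum_sub_distrib]
    rw [h9, h11]; ring
  have h13 : c * (4 * ((m : ℤ) + 1) * A - 4 * B)
      ≤ c * (4 * ((m : ℤ) + 1) * A - ∑ x, ∑ y ∈ univ.erase x, PL x y) := by
    apply mul_le_mul_of_nonneg_left _ hcpos
    linarith
  rw [h1, h3]
  rw [h12, h8, ← h5] at h7
  nlinarith

/-- the flat hypothesis of a machine -/
def Flat {n : ℕ} {K : Cfg n} {v : Fin n → Bool} (M : Mach K v) : Prop :=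
  ∀ S w, K.good S w → 2 ≤ S.card → (∃ r s, ∀ j ∈ S, sg v r j = s) → M.D S w = 18

theorem Flat.res {n k : ℕ} {K : Cfg n} {v : Fin n → Bool} {M : Mach K v} (hM : Flat M)
    (e : Fin k ↪o Fin n) : Flat (M.res e) := by
  intro S w hg hS ⟨r, s, hrs⟩
  refine hM (S.map e.toEmbedding) w hg (by rwa [Finset.card_map]) ⟨e r, s, ?_⟩
  intro j hj
  obtain ⟨y, hy, rfl⟩ := Finset.mem_map.mp hj
  rw [RelEmbedding.coe_toEmbedding, sg_map]
  exact hrs y hy

theorem EL_flat {n : ℕ} {K : Cfg n} {v : Fin n → Bool} (hn : 2 ≤ n) (M : Mach K v) (hM : Flat M)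
    (h : ∃ r s, ∀ j, sg v r j = s) : EL K (M.D univ) = (ords n).length * 2 ^ n * 18 := by
  rw [← EL_const K 18]
  apply EL_congr
  intro w hw
  apply hM univ w hw
  · rw [Finset.card_univ, Fintype.card_fin]; exact hn
  · obtain ⟨r, s, hrs⟩ := h
    exact ⟨r, s, fun j _ => hrs j⟩

/-- The step. -/
theorem step (hm : 6 ≤ m) (M : Mach K v) (hM : Flat M)
    (f1 : Fin (m + 2) → Fin (m + 2) → Fin (m + 2))
    (hf1 : ∀ y r, r ≠ y → Walls (univ.erase y) r (f1 y r) r)
    (ML : Fin (m + 2) → ℤ) (PL : Fin (m + 2) → Fin (m + 2) → ℤ)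
    (pair_gain : ∀ x y, x ≠ y → ∀ w, K.good ((univ.erase y).erase x) w →
      2 * (ML x + ML y) - PL x y ≤ GA M f1 x y w + GA M f1 y x w)
    (hML : ∑ y, ML y = KALD.MT v)
    (hPL : ∑ x, ∑ y ∈ univ.erase x, PL x y ≤ 4 * (KALD.LT v + KALD.OT v))
    (ih : ∀ l, 0 ≤ EL (K.res (om l)) ((M.res (om l)).D univ)) :
    0 ≤ EL K (M.D univ) := by
  by_cases hfl : ∃ r s, ∀ j, sg v r j = s
  · rw [EL_flat (by omega) M hM hfl]
    positivity
  have hpos : ∀ r : Fin (m + 2), 1 ≤ cnt v univ r true ∧ 1 ≤ cnt v univ r false := by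
    intro r
    have key : ∀ s : Bool, 1 ≤ cnt v univ r s := by
      intro s
      by_contra hc
      have h0 : cnt v univ r s = 0 := by omega
      unfold cnt at h0
      rw [Finset.card_eq_zero, Finset.filter_eq_empty_iff] at h0
      apply hfl
      refine ⟨r, !s, fun j => ?_⟩
      have := h0 (Finset.mem_univ j)
      revert this
      cases sg v r j <;> cases s <;> simp
    exact ⟨key true, key false⟩
  have hgy := sum_gy hm M f1 ML PL pair_gain _ _ hML hPL
  rw [EL_D hm M f1 hf1]
  set c : ℤ := (ords m).length * 2 ^ m with hc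
  have hcpos : 0 ≤ c := by positivity
  have hsum : 0 ≤ ∑ l, EL (K.res (om l)) ((M.res (om l)).D univ) :=
    Finset.sum_nonneg fun l _ => ih l
  have hcast : (((m + 2 : ℕ) : ℤ) - 1) = (m : ℤ) + 1 := by push_cast; ring
  rcases KALD.ineq0_MT (by omega) v hpos with h | ⟨h, l1, l2, hne, hl⟩
  · rw [hcast] at h
    have : 0 ≤ c * (((m : ℤ) + 1) * KALD.MT v - (KALD.LT v + KALD.OT v)) := by
      apply mul_nonneg hcpos; linarith
    linarith
  · rw [hcast] at h
    have hval : ∀ l, (l = l1 ∨ l = l2) →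
        EL (K.res (om l)) ((M.res (om l)).D univ) = 36 * ((m : ℤ) + 1) * c := by
      intro l hl'
      obtain ⟨⟨r, s, hrs⟩, -⟩ := hl l hl'
      -- the restricted word is flat: we use the flat hypothesis of M itself
      have h1 : EL (K.res (om l)) ((M.res (om l)).D univ)
          = EL (K.res (om l)) (fun _ => 18) := by
        apply EL_congr
        intro w hw
        show M.D (univ.map (om l).toEmbedding) w = 18
        apply hM _ w hw
        · rw [Finset.card_map, Finset.card_univ, Fintype.card_fin]; omega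
        · refine ⟨r, s, fun j hj => ?_⟩
          rw [map_om_univ] at hj
          exact hrs j (Finset.mem_erase.1 hj).1
      rw [h1, EL_const, ords_card hm, hc]
      push_cast
      rw [pow_succ]
      ring
    have hge : 36 * ((m : ℤ) + 1) * c + 36 * ((m : ℤ) + 1) * c
        ≤ ∑ l, EL (K.res (om l)) ((M.res (om l)).D univ) := by
      have h1 := hval l1 (Or.inl rfl)
      have h2 := hval l2 (Or.inr rfl)
      have h3 : ∑ l ∈ ({l1, l2} : Finset (Fin (m + 2))), EL (K.res (om l)) ((M.res (om l)).D univ)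
          ≤ ∑ l, EL (K.res (om l)) ((M.res (om l)).D univ) :=
        Finset.sum_le_sum_of_subset_of_nonneg (Finset.subset_univ _) fun l _ _ => ih l
      rw [Finset.sum_pair (f := fun l => EL (K.res (om l)) ((M.res (om l)).D univ)) hne] at h3
      linarith
    have : c * (((m : ℤ) + 1) * KALD.MT v - (KALD.LT v + KALD.OT v)) = c * (-18 * ((m : ℤ) + 1)) := by
      rw [← h]; ring
    nlinarith

end KK
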